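import Pool.Agent.QTw.Targets

set_option autoImplicit false

namespace Pool.Agent.QTw

open Filter Topology

namespace DZ_

variable (K : Type) [Field K] [NumberField K]

/-- the terms of the Dedekind zeta function at a real number -/
noncomputable def F (s : ℝ) (n : ℕ) : ℝ :=
  if n = 0 then 0 else (idealCount K n : ℝ) * (n : ℝ) ^ (-s)

theorem F_nonneg (s : ℝ) (n : ℕ) : 0 ≤ F K s n := by
  unfold F
  split_ifs
  · exact le_rfl
  · positivity

theorem lim : Tendsto (fun n : ℕ => (∑ k ∈ Finset.Icc 1 n, (idealCount K k : ℝ)) / (n : ℝ))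
    atTop (𝓝 (NumberField.dedekindZeta_residue K)) := by
  refine ((NumberField.Ideal.tendsto_norm_le_div_atTop₀ K).comp tendsto_natCast_atTop_atTop).congr fun n ↦ ?_
  simp only [Function.comp_apply, Nat.cast_le, ← Nat.cast_sum, idealCount]
  congr
  rw [← add_left_inj 1, ← Ideal.card_norm_le_eq_card_norm_le_add_one,
    show Finset.Icc 1 n = Finset.Ioc 0 n from Finset.Icc_succ_left_eq_Ioc _ _,
    show 1 = Nat.card {I : Ideal (NumberField.RingOfIntegers K) // Ideal.absNorm I = 0} by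
      simp [Ideal.absNorm_eq_zero_iff],
    Finset.sum_Ioc_add_eq_sum_Icc (n.zero_le),
    ← Finset.card_preimage_eq_sum_card_image_eq
      (fun k _ ↦ Ideal.finite_setOfPred_absNorm_eq k)]
  simp [Set.coe_eq_subtype]

theorem term_eq (s : ℝ) (n : ℕ) :
    LSeries.term (fun n => ((idealCount K n : ℝ) : ℂ)) (s : ℂ) n = ((F K s n : ℝ) : ℂ) := by
  unfold F
  rw [LSeries.term_def]
  split_ifs with h
  · simp
  · rw [Complex.ofReal_mul, Complex.ofReal_cpow (Nat.cast_nonneg n)]
    push_cast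
    rw [Complex.cpow_neg, div_eq_mul_inv]

theorem summF {s : ℝ} (hs : 1 < s) : Summable (F K s) := by
  have h : LSeriesSummable (fun n => ((idealCount K n : ℝ) : ℂ)) (s : ℂ) := by
    refine LSeriesSummable_of_sum_norm_bigO_and_nonneg ?_ (fun n => Nat.cast_nonneg _)
      zero_le_one (by simpa using hs)
    exact Asymptotics.isBigO_atTop_natCast_rpow_of_tendsto_div_rpow (by simpa using lim K)
  unfold LSeriesSummable at h
  have h2 : Summable (fun n => ((F K s n : ℝ) : ℂ)) := by
    refine h.congr fun n => ?_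
    rw [term_eq]
  exact Complex.summable_ofReal.1 h2

/-- the Dedekind zeta function at a real number -/
noncomputable def Z (s : ℝ) : ℝ := ∑' n, F K s n

theorem tendsZ : Tendsto (fun s : ℝ => (s - 1) * Z K s) (𝓝[>] 1)
    (𝓝 (NumberField.dedekindZeta_residue K)) := by
  have h := NumberField.tendsto_sub_one_mul_dedekindZeta_nhdsGT K
  have h2 : ∀ s : ℝ, ((s : ℂ) - 1) * NumberField.dedekindZeta K s =
      (((s - 1) * Z K s : ℝ) : ℂ) := by
    intro s
    rw [Complex.ofReal_mul]
    push_cast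
    congr 1
    unfold Z NumberField.dedekindZeta LSeries
    rw [Complex.ofReal_tsum]
    refine tsum_congr fun n => ?_
    rw [← term_eq]
    rfl
  have h3 := (h.congr h2)
  have h4 := (Complex.continuous_re.tendsto _).comp h3
  simpa [Function.comp_def] using h4

theorem count_one : idealCount K 1 = 1 := by
  unfold idealCount
  have : Unique {I : Ideal (NumberField.RingOfIntegers K) // Ideal.absNorm I = 1} :=
    { default := ⟨⊤, by simp⟩
      uniq := fun I => Subtype.ext (Ideal.absNorm_eq_one_iff.1 I.2) }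
  exact Nat.card_unique

theorem F_one (s : ℝ) : F K s 1 = 1 := by
  simp [F, count_one]

theorem F_anti {s t : ℝ} (h : s ≤ t) (n : ℕ) : F K t n ≤ F K s n := by
  unfold F
  split_ifs with hn
  · exact le_rfl
  · refine mul_le_mul_of_nonneg_left ?_ (Nat.cast_nonneg _)
    exact Real.rpow_le_rpow_of_exponent_le (by exact_mod_cast Nat.one_le_iff_ne_zero.2 hn)
      (by linarith)

theorem Z_ge {s : ℝ} (hs : 1 < s) : 1 ≤ Z K s := by
  have := (summF K hs).le_tsum 1 (fun n _ => F_nonneg K s n)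
  rwa [F_one] at this

theorem Z_anti {s t : ℝ} (hs : 1 < s) (h : s ≤ t) : Z K t ≤ Z K s :=
  (summF K (hs.trans_le h)).tsum_le_tsum (F_anti K h) (summF K hs)

/-- `log ζ_K(s) = log (1/(s-1)) + O(1)` -/
theorem logZ : ∃ B : ℝ, ∀ s : ℝ, 1 < s → s ≤ 2 →
    |Real.log (Z K s) - Real.log (1 / (s - 1))| ≤ B := by
  have hρ := NumberField.dedekindZeta_residue_pos K
  set ρ := NumberField.dedekindZeta_residue K with hρd
  have h1 := (tendsZ K).eventually (Ioo_mem_nhds (show ρ / 2 < ρ by linarith)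
    (show ρ < 2 * ρ by linarith))
  rw [eventually_nhdsWithin_iff, Metric.eventually_nhds_iff] at h1
  obtain ⟨δ, hδ, h1⟩ := h1
  set t := 1 + δ / 2 with ht
  have ht1 : 1 < t := by linarith
  refine ⟨|Real.log (ρ / 2)| + |Real.log (2 * ρ)| + |Real.log (δ / 2)| + |Real.log (Z K t)|, ?_⟩
  intro s hs hs2
  have hs0 : 0 < s - 1 := by linarith
  have hZ := Z_ge K hs
  have e1 : Real.log (Z K s) - Real.log (1 / (s - 1)) = Real.log ((s - 1) * Z K s) := by
    rw [Real.log_mul hs0.ne' (by linarith), one_div, Real.log_inv]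
    ring
  rw [e1]
  have a1 := abs_nonneg (Real.log (ρ / 2))
  have a2 := abs_nonneg (Real.log (2 * ρ))
  have a3 := abs_nonneg (Real.log (δ / 2))
  have a4 := abs_nonneg (Real.log (Z K t))
  by_cases hst : s < t
  · obtain ⟨b1, b2⟩ := h1 (y := s) (by rw [Real.dist_eq, abs_of_pos hs0]; linarith) hs
    have c1 := Real.log_le_log (by linarith) b1.le
    have c2 := Real.log_le_log (by positivity) b2.le
    rw [abs_le]
    constructor
    · linarith [neg_abs_le (Real.log (ρ / 2))]
    · linarith [le_abs_self (Real.log (2 * ρ))]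
  · push Not at hst
    have b3 := Z_anti K ht1 hst
    have c1 : δ / 2 ≤ (s - 1) * Z K s := by
      have : δ / 2 ≤ s - 1 := by linarith
      nlinarith
    have c2 : (s - 1) * Z K s ≤ Z K t := by
      have hZ0 : 0 ≤ Z K s := by linarith
      nlinarith
    have d1 := Real.log_le_log (by linarith) c1
    have d2 := Real.log_le_log (by positivity) c2
    rw [abs_le]
    constructor
    · linarith [neg_abs_le (Real.log (δ / 2))]
    · linarith [le_abs_self (Real.log (Z K t))]

theorem F_mul (h1 : T_MUL) (s : ℝ) {m n : ℕ} (h : Nat.Coprime m n) :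
    F K s (m * n) = F K s m * F K s n := by
  unfold F
  rcases eq_or_ne m 0 with rfl | hm
  · simp
  rcases eq_or_ne n 0 with rfl | hn
  · simp
  rw [if_neg hm, if_neg hn, if_neg (mul_ne_zero hm hn), h1 K m n h]
  push_cast
  rw [Real.mul_rpow (Nat.cast_nonneg _) (Nat.cast_nonneg _)]
  ring

theorem euler (h1 : T_MUL) {s : ℝ} (hs : 1 < s) :
    HasProd (fun p : Nat.Primes => ∑' e, F K s ((p : ℕ) ^ e)) (Z K s) :=
  EulerProduct.eulerProduct_hasProd (F_one K s) (fun h => F_mul K h1 s h)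
    (by simpa [Real.norm_of_nonneg (F_nonneg K s _)] using summF K hs) (by simp [F])

/-- the constant of the tails of the local factors -/
theorem constC (n : ℕ) : Summable (fun j : ℕ => ((j : ℝ) + 3) ^ n * (1 / 2) ^ j) := by
  have h := summable_pow_mul_geometric_of_norm_lt_one n (r := (1 / 2 : ℝ))
    (by rw [Real.norm_of_nonneg] <;> norm_num)
  have h2 := (summable_nat_add_iff 3).2 h
  refine (h2.mul_left 8).congr fun j => ?_
  push_cast
  rw [pow_add]
  ring

theorem local_bound (h2 : T_PP) : ∃ C : ℝ, 0 ≤ C ∧ ∀ s : ℝ, 1 < s → ∀ p : ℕ, p.Prime →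
    ∃ E : ℝ, 0 ≤ E ∧ E ≤ C / (p : ℝ) ^ 2 ∧
      ∑' e, F K s (p ^ e) = 1 + (F K s p + E) := by
  set n := Module.finrank ℚ K with hn
  refine ⟨∑' j : ℕ, ((j : ℝ) + 3) ^ n * (1 / 2) ^ j, tsum_nonneg fun j => by positivity, ?_⟩
  intro s hs p hp
  have hp0 : (0 : ℝ) < p := by exact_mod_cast hp.pos
  have hp2 : (2 : ℝ) ≤ p := by exact_mod_cast hp.two_le
  have hsum : Summable (fun e => F K s (p ^ e)) :=
    (summF K hs).comp_injective (Nat.pow_right_injective hp.two_le)
  have hb : ∀ j : ℕ, F K s (p ^ (j + 2)) ≤ (((j : ℝ) + 3) ^ n * (1 / 2) ^ j) / (p : ℝ) ^ 2 := by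
    intro j
    unfold F
    rw [if_neg (pow_pos hp.pos _).ne']
    have c1 : ((idealCount K (p ^ (j + 2)) : ℕ) : ℝ) ≤ ((j : ℝ) + 3) ^ n := by
      have := h2 K p (j + 2) hp
      have h3 : ((idealCount K (p ^ (j + 2)) : ℕ) : ℝ) ≤ (((j + 2 + 1) ^ n : ℕ) : ℝ) := by
        exact_mod_cast this
      refine h3.trans (le_of_eq ?_)
      push_cast
      ring
    have c2 : (((p ^ (j + 2) : ℕ) : ℝ)) ^ (-s) ≤ (1 / 2) ^ j / (p : ℝ) ^ 2 := by
      have d1 : (1 : ℝ) ≤ ((p ^ (j + 2) : ℕ) : ℝ) := by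
        exact_mod_cast Nat.one_le_iff_ne_zero.2 (pow_pos hp.pos _).ne'
      have d2 : (((p ^ (j + 2) : ℕ) : ℝ)) ^ (-s) ≤ (((p ^ (j + 2) : ℕ) : ℝ)) ^ (-1 : ℝ) :=
        Real.rpow_le_rpow_of_exponent_le d1 (by linarith)
      refine d2.trans ?_
      rw [Real.rpow_neg_one]
      push_cast
      rw [pow_add, mul_inv, div_eq_mul_inv]
      refine mul_le_mul_of_nonneg_right ?_ (by positivity)
      rw [← inv_pow, one_div]
      exact pow_le_pow_left₀ (by positivity) (inv_anti₀ (by norm_num) hp2) j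
    rw [mul_div_assoc]
    exact mul_le_mul c1 c2 (by positivity) (by positivity)
  have hsum2 : Summable (fun j => F K s (p ^ (j + 2))) := (summable_nat_add_iff 2).2 hsum
  refine ⟨∑' j, F K s (p ^ (j + 2)), tsum_nonneg fun j => F_nonneg K s _, ?_, ?_⟩
  · rw [← tsum_div_const]
    exact hsum2.tsum_le_tsum hb ((constC n).div_const _)
  · rw [← hsum.sum_add_tsum_nat_add 2, Finset.sum_range_succ, Finset.sum_range_one, pow_zero,
      pow_one, F_one]
    ring

theorem logEuler (h1 : T_MUL) (h2 : T_PP) {s : ℝ} (hs : 1 < s) :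
    HasSum (fun p : Nat.Primes => Real.log (∑' e, F K s ((p : ℕ) ^ e))) (Real.log (Z K s)) := by
  have h := euler K h1 hs
  have hZ : Z K s ≠ 0 := by linarith [Z_ge K hs]
  obtain ⟨C, hC, hloc⟩ := local_bound K h2
  have h3 := Filter.Tendsto.log h hZ
  refine h3.congr fun S => ?_
  refine Real.log_prod fun p _ => ?_
  obtain ⟨E, hE, -, he⟩ := hloc s hs p p.2
  rw [he]
  have := F_nonneg K s p
  positivity

end DZ_

open DZ_ in
theorem p_DZ (h1 : T_MUL) (h2 : T_PP) : T_DZ := by
  intro K _ _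
  obtain ⟨B, hB⟩ := logZ K
  obtain ⟨C, hC, hloc⟩ := local_bound K h2
  set n := Module.finrank ℚ K with hn
  have hsq : Summable (fun p : Nat.Primes => 1 / ((p : ℕ) : ℝ) ^ 2) := by
    have := (Real.summable_one_div_nat_pow (p := 2)).2 (by norm_num)
    exact this.comp_injective Subtype.coe_injective
  set D : ℝ := C + (2 ^ n + C) ^ 2 with hD
  refine ⟨B + ∑' p : Nat.Primes, D * (1 / ((p : ℕ) : ℝ) ^ 2), fun s hs hs2 => ?_⟩
  have e0 : (fun p : Nat.Primes => (idealCount K p : ℝ) * ((p : ℕ) : ℝ) ^ (-s)) =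
      fun p : Nat.Primes => F K s p := by
    funext p
    rw [F, if_neg p.2.ne_zero]
  rw [e0]
  have hF : Summable (fun p : Nat.Primes => F K s p) :=
    (summF K hs).comp_injective Subtype.coe_injective
  have hL := logEuler K h1 h2 hs
  have hb : ∀ p : Nat.Primes, |F K s p - Real.log (∑' e, F K s ((p : ℕ) ^ e))| ≤
      D * (1 / ((p : ℕ) : ℝ) ^ 2) := by
    intro p
    obtain ⟨E, hE, hE2, he⟩ := hloc s hs p p.2
    rw [he]
    have hp0 : (0 : ℝ) < ((p : ℕ) : ℝ) := by exact_mod_cast p.2.pos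
    have hp1 : (1 : ℝ) ≤ ((p : ℕ) : ℝ) := by exact_mod_cast p.2.one_le
    have f0 := F_nonneg K s p
    have f1 : F K s p ≤ 2 ^ n / ((p : ℕ) : ℝ) := by
      rw [F, if_neg p.2.ne_zero, div_eq_mul_inv]
      refine mul_le_mul ?_ ?_ (by positivity) (by positivity)
      · have := h2 K p 1 p.2
        rw [pow_one] at this
        exact_mod_cast this
      · rw [← Real.rpow_neg_one]
        exact Real.rpow_le_rpow_of_exponent_le hp1 (by linarith)
    have f2 : E ≤ C / ((p : ℕ) : ℝ) := by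
      refine hE2.trans ?_
      rw [sq]
      refine div_le_div_of_nonneg_left hC hp0 ?_
      nlinarith
    have y1 : F K s p + E ≤ (2 ^ n + C) / ((p : ℕ) : ℝ) := by
      rw [add_div]; linarith
    have y2 : (F K s p + E) ^ 2 ≤ (2 ^ n + C) ^ 2 / ((p : ℕ) : ℝ) ^ 2 := by
      rw [← div_pow]
      exact pow_le_pow_left₀ (by positivity) y1 2
    have y0 : 0 ≤ F K s p + E := by positivity
    have l1 : Real.log (1 + (F K s p + E)) ≤ F K s p + E := by
      have := Real.log_le_sub_one_of_pos (show 0 < 1 + (F K s p + E) by linarith)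
      linarith
    have l2 : F K s p + E - (F K s p + E) ^ 2 ≤ Real.log (1 + (F K s p + E)) := by
      have h3 := Real.one_sub_inv_le_log_of_pos (show 0 < 1 + (F K s p + E) by linarith)
      refine le_trans ?_ h3
      set y := F K s p + E
      have hy : 0 < 1 + y := by linarith
      rw [show 1 - (1 + y)⁻¹ = y / (1 + y) by field_simp; ring, le_div_iff₀ hy]
      nlinarith [pow_nonneg y0 3]
    have hD2 : D * (1 / ((p : ℕ) : ℝ) ^ 2) = C / ((p : ℕ) : ℝ) ^ 2 +
        (2 ^ n + C) ^ 2 / ((p : ℕ) : ℝ) ^ 2 := by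
      rw [hD]; ring
    rw [hD2, abs_le]
    have p1 : 0 ≤ C / ((p : ℕ) : ℝ) ^ 2 := by positivity
    have p2 : 0 ≤ (2 ^ n + C) ^ 2 / ((p : ℕ) : ℝ) ^ 2 := by positivity
    constructor <;> linarith
  have hsD : Summable (fun p : Nat.Primes => D * (1 / ((p : ℕ) : ℝ) ^ 2)) := hsq.mul_left D
  have hdiff : |(∑' p : Nat.Primes, F K s p) - Real.log (Z K s)| ≤
      ∑' p : Nat.Primes, D * (1 / ((p : ℕ) : ℝ) ^ 2) := by
    rw [← hL.tsum_eq, ← hF.tsum_sub hL.summable]
    have h4 : Summable (fun p : Nat.Primes =>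
        |F K s p - Real.log (∑' e, F K s ((p : ℕ) ^ e))|) :=
      Summable.of_nonneg_of_le (fun p => abs_nonneg _) hb hsD
    have h5 := norm_tsum_le_tsum_norm (f := fun p : Nat.Primes =>
        F K s p - Real.log (∑' e, F K s ((p : ℕ) ^ e))) (by simpa [Real.norm_eq_abs] using h4)
    simp only [Real.norm_eq_abs] at h5
    exact h5.trans (h4.tsum_le_tsum hb hsD)
  have := hB s hs hs2
  calc |(∑' p : Nat.Primes, F K s p) - Real.log (1 / (s - 1))|
      = |(Real.log (Z K s) - Real.log (1 / (s - 1))) +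
        ((∑' p : Nat.Primes, F K s p) - Real.log (Z K s))| := by congr 1; ring
    _ ≤ _ := (abs_add_le _ _).trans (add_le_add this hdiff)

end Pool.Agent.QTw
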