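import Pool.Agent.QTw.Targets

/-!
# MUL: the number of ideals of norm `n` is multiplicative
-/

open NumberField

namespace Pool.Agent.QTw

namespace MUL_

variable {R : Type} [CommRing R]

theorem gcd_mul (I J : Ideal R) (m n : ℕ) (hmn : Nat.Coprime m n) (hn : (n : R) ∈ J)
    (hm : (m : R) ∈ I) : I * J ⊔ Ideal.span {(m : R)} = I := by
  apply le_antisymm
  · apply sup_le Ideal.mul_le_left
    rw [Ideal.span_singleton_le_iff_mem]
    exact hm
  · have h1 : J ⊔ Ideal.span {(m : R)} = ⊤ := by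
      rw [Ideal.eq_top_iff_one]
      have h2 : IsCoprime (m : ℤ) (n : ℤ) := Nat.isCoprime_iff_coprime.2 hmn
      obtain ⟨a, b, hab⟩ := h2
      have h3 : (1 : R) = (b : R) * (n : R) + (a : R) * (m : R) := by
        have := congrArg (Int.cast : ℤ → R) hab
        push_cast at this
        rw [← this]; ring
      rw [h3]
      apply Ideal.add_mem
      · exact Ideal.mem_sup_left (J.mul_mem_left _ hn)
      · exact Ideal.mem_sup_right (Ideal.mul_mem_left _ _ (Ideal.mem_span_singleton_self _))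
    calc I = I * (J ⊔ Ideal.span {(m : R)}) := by rw [h1, Ideal.mul_top]
      _ = I * J ⊔ I * Ideal.span {(m : R)} := Ideal.mul_sup _ _ _
      _ ≤ I * J ⊔ Ideal.span {(m : R)} := sup_le_sup_left Ideal.mul_le_right _

theorem prod_gcd (L : Ideal R) (m n : ℕ) (hmn : Nat.Coprime m n)
    (h : ((m * n : ℕ) : R) ∈ L) :
    (L ⊔ Ideal.span {(m : R)}) * (L ⊔ Ideal.span {(n : R)}) = L := by
  apply le_antisymm
  · rw [Ideal.mul_sup, Ideal.sup_mul, Ideal.sup_mul]
    refine sup_le (sup_le Ideal.mul_le_left Ideal.mul_le_right) (sup_le Ideal.mul_le_left ?_)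
    rw [Ideal.span_singleton_mul_span_singleton, Ideal.span_singleton_le_iff_mem]
    exact_mod_cast h
  · have h1 : (⊤ : Ideal R) = Ideal.span {(m : R)} ⊔ Ideal.span {(n : R)} := by
      symm
      rw [Ideal.eq_top_iff_one]
      have h2 : IsCoprime (m : ℤ) (n : ℤ) := Nat.isCoprime_iff_coprime.2 hmn
      obtain ⟨a, b, hab⟩ := h2
      have h3 : (1 : R) = (a : R) * (m : R) + (b : R) * (n : R) := by
        have := congrArg (Int.cast : ℤ → R) hab
        push_cast at this
        rw [← this]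
      rw [h3]
      apply Ideal.add_mem
      · exact Ideal.mem_sup_left (Ideal.mul_mem_left _ _ (Ideal.mem_span_singleton_self _))
      · exact Ideal.mem_sup_right (Ideal.mul_mem_left _ _ (Ideal.mem_span_singleton_self _))
    calc L = L * ⊤ := (Ideal.mul_top L).symm
      _ = L * Ideal.span {(m : R)} ⊔ L * Ideal.span {(n : R)} := by rw [h1, Ideal.mul_sup]
      _ ≤ (L ⊔ Ideal.span {(m : R)}) * (L ⊔ Ideal.span {(n : R)}) := by
        apply sup_le
        · rw [mul_comm]
          exact Ideal.mul_mono le_sup_right le_sup_left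
        · exact Ideal.mul_mono le_sup_left le_sup_right

theorem count_one (K : Type) [Field K] [NumberField K] : idealCount K 1 = 1 := by
  unfold idealCount
  rw [Nat.card_eq_one_iff_unique]
  refine ⟨⟨?_⟩, ⟨⟨⊤, by simp⟩⟩⟩
  rintro ⟨I, hI⟩ ⟨J, hJ⟩
  rw [Ideal.absNorm_eq_one_iff] at hI hJ
  simp [hI, hJ]

theorem norm_dvd_pow (K : Type) [Field K] [NumberField K] (I : Ideal (𝓞 K)) (m : ℕ)
    (h : (m : 𝓞 K) ∈ I) : ∃ d : ℕ, Ideal.absNorm I ∣ m ^ d := by
  refine ⟨Module.finrank ℤ (𝓞 K), ?_⟩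
  have h1 : Ideal.span {(m : 𝓞 K)} ≤ I := by
    rw [Ideal.span_singleton_le_iff_mem]; exact h
  have h2 := Ideal.absNorm_dvd_absNorm_of_le h1
  have h3 : Ideal.absNorm (Ideal.span {(m : 𝓞 K)}) = m ^ Module.finrank ℤ (𝓞 K) := by
    rw [Ideal.absNorm_span_singleton]
    have : (m : 𝓞 K) = algebraMap ℤ (𝓞 K) (m : ℤ) := by simp
    rw [this, Algebra.norm_algebraMap]
    simp [Int.natAbs_pow]
  rwa [h3] at h2

end MUL_

open MUL_ in
theorem p_MUL : T_MUL := by
  intro K _ _ m n hmn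
  rcases Nat.eq_zero_or_pos m with rfl | hm0
  · have : n = 1 := by simpa using hmn
    subst this
    rw [Nat.zero_mul, count_one, Nat.mul_one]
  rcases Nat.eq_zero_or_pos n with rfl | hn0
  · have : m = 1 := by simpa using hmn
    subst this
    rw [Nat.mul_zero, count_one, Nat.one_mul]
  have hmem : ∀ (I : Ideal (𝓞 K)) (k : ℕ), Ideal.absNorm I = k → (k : 𝓞 K) ∈ I := by
    intro I k hk
    rw [← hk]
    exact Ideal.absNorm_mem I
  have hgcd : ∀ L : Ideal (𝓞 K), Ideal.absNorm L = m * n →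
      Ideal.absNorm (L ⊔ Ideal.span {(m : 𝓞 K)}) = m ∧
      Ideal.absNorm (L ⊔ Ideal.span {(n : 𝓞 K)}) = n := by
    intro L hL
    have hprod := prod_gcd L m n hmn (hmem L _ hL)
    have hN : Ideal.absNorm (L ⊔ Ideal.span {(m : 𝓞 K)}) *
        Ideal.absNorm (L ⊔ Ideal.span {(n : 𝓞 K)}) = m * n := by
      rw [← map_mul, hprod, hL]
    obtain ⟨d, hd⟩ := norm_dvd_pow K (L ⊔ Ideal.span {(m : 𝓞 K)}) m
      (Ideal.mem_sup_right (Ideal.mem_span_singleton_self _))
    obtain ⟨e, he⟩ := norm_dvd_pow K (L ⊔ Ideal.span {(n : 𝓞 K)}) n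
      (Ideal.mem_sup_right (Ideal.mem_span_singleton_self _))
    set A := Ideal.absNorm (L ⊔ Ideal.span {(m : 𝓞 K)}) with hA
    set B := Ideal.absNorm (L ⊔ Ideal.span {(n : 𝓞 K)}) with hB
    have hAn : Nat.Coprime A n := Nat.Coprime.coprime_dvd_left hd (Nat.Coprime.pow_left d hmn)
    have hBm : Nat.Coprime B m :=
      Nat.Coprime.coprime_dvd_left he (Nat.Coprime.pow_left e hmn.symm)
    have hAm : A ∣ m := hAn.dvd_of_dvd_mul_right (Dvd.intro _ hN)
    have hBn : B ∣ n := hBm.dvd_of_dvd_mul_left (Dvd.intro_left _ hN)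
    have hAle : A ≤ m := Nat.le_of_dvd hm0 hAm
    have hBle : B ≤ n := Nat.le_of_dvd hn0 hBn
    have hA0 : 0 < A := by
      rcases Nat.eq_zero_or_pos A with h | h
      · rw [h, zero_mul] at hN
        exact absurd hN.symm (Nat.mul_pos hm0 hn0).ne'
      · exact h
    constructor
    · apply le_antisymm hAle
      by_contra hlt
      push Not at hlt
      have : A * B < m * n :=
        calc A * B ≤ A * n := Nat.mul_le_mul_left _ hBle
          _ < m * n := Nat.mul_lt_mul_of_pos_right hlt hn0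
      omega
    · apply le_antisymm hBle
      by_contra hlt
      push Not at hlt
      have : A * B < m * n :=
        calc A * B < A * n := Nat.mul_lt_mul_of_pos_left hlt hA0
          _ ≤ m * n := Nat.mul_le_mul_right _ hAle
      omega
  unfold idealCount
  rw [← Nat.card_prod]
  symm
  apply Nat.card_congr
  refine
    { toFun := fun p => ⟨p.1.1 * p.2.1, by rw [map_mul, p.1.2, p.2.2]⟩
      invFun := fun L => ⟨⟨L.1 ⊔ Ideal.span {(m : 𝓞 K)}, (hgcd L.1 L.2).1⟩,
        ⟨L.1 ⊔ Ideal.span {(n : 𝓞 K)}, (hgcd L.1 L.2).2⟩⟩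
      left_inv := ?_
      right_inv := ?_ }
  · rintro ⟨⟨I, hI⟩, ⟨J, hJ⟩⟩
    simp only [Prod.mk.injEq, Subtype.mk.injEq]
    refine ⟨gcd_mul I J m n hmn (hmem J n hJ) (hmem I m hI), ?_⟩
    rw [mul_comm]
    exact gcd_mul J I n m hmn.symm (hmem I m hI) (hmem J n hJ)
  · rintro ⟨L, hL⟩
    simp only [Subtype.mk.injEq]
    exact prod_gcd L m n hmn (hmem L _ hL)

end Pool.Agent.QTw
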