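import Pool.Agent.QTw.Targets

open Polynomial

namespace Pool.Agent.QTw

namespace PP_

open NumberField UniqueFactorizationMonoid

variable {K : Type} [Field K] [NumberField K]

lemma span_ne {p : ℕ} (hp : p.Prime) : Ideal.span {(p : 𝓞 K)} ≠ 0 := by
  intro h
  rw [Ideal.zero_eq_bot, Ideal.span_singleton_eq_bot] at h
  exact hp.ne_zero (by exact_mod_cast h)

lemma norm_span (p : ℕ) : Ideal.absNorm (Ideal.span {(p : 𝓞 K)}) = p ^ Module.finrank ℚ K := by
  rw [Ideal.absNorm_span_singleton]
  have h : (p : 𝓞 K) = algebraMap ℤ (𝓞 K) (p : ℤ) := by simp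
  rw [h, Algebra.norm_algebraMap, RingOfIntegers.rank]
  simp

/-- a nonzero prime containing `p` has norm a positive power of `p` -/
lemma norm_prime {p : ℕ} (hp : p.Prime) {P I : Ideal (𝓞 K)} (hP : Prime P) (hI : P ∣ I) {k : ℕ}
    (hk : Ideal.absNorm I = p ^ k) : ∃ j, 1 ≤ j ∧ Ideal.absNorm P = p ^ j := by
  have h1 : Ideal.absNorm P ∣ p ^ k := hk ▸ map_dvd Ideal.absNorm hI
  obtain ⟨j, -, hj⟩ := (Nat.dvd_prime_pow hp).1 h1
  refine ⟨j, ?_, hj⟩
  rcases Nat.eq_zero_or_pos j with h0 | h0
  · exfalso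
    rw [h0, pow_zero] at hj
    exact hP.not_isUnit (by rw [Ideal.isUnit_iff]; exact Ideal.absNorm_eq_one_iff.1 hj)
  · exact h0

lemma count_le {p : ℕ} (hp : p.Prime) [DecidableEq (Ideal (𝓞 K))] {P I : Ideal (𝓞 K)}
    (hP : P ∈ normalizedFactors I) (hI : I ≠ 0) {k : ℕ}
    (hk : Ideal.absNorm I = p ^ k) : (normalizedFactors I).count P ≤ k := by
  have hPp : Prime P := prime_of_normalized_factor P hP
  obtain ⟨j, hj, hPj⟩ := norm_prime hp hPp (dvd_of_mem_normalizedFactors hP) hk
  have h1 : P ^ (normalizedFactors I).count P ∣ I := by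
    have h2 : Multiset.replicate ((normalizedFactors I).count P) P ≤ normalizedFactors I :=
      Multiset.le_count_iff_replicate_le.1 le_rfl
    have h3 := Multiset.prod_dvd_prod_of_le h2
    rw [Multiset.prod_replicate] at h3
    exact h3.trans (prod_normalizedFactors hI).dvd
  have h4 : (Ideal.absNorm P) ^ (normalizedFactors I).count P ∣ p ^ k := by
    have := map_dvd Ideal.absNorm h1
    rwa [map_pow, hk] at this
  rw [hPj, ← pow_mul] at h4
  have h5 := (Nat.pow_dvd_pow_iff_le_right hp.one_lt).1 h4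
  nlinarith

lemma card_le {p : ℕ} (hp : p.Prime) [DecidableEq (Ideal (𝓞 K))] :
    (normalizedFactors (Ideal.span {(p : 𝓞 K)})).toFinset.card ≤ Module.finrank ℚ K := by
  set a : Ideal (𝓞 K) := Ideal.span {(p : 𝓞 K)} with ha
  set S := (normalizedFactors a).toFinset with hS
  have ha0 : a ≠ 0 := span_ne hp
  have h1 : ∏ P ∈ S, P ∣ a := by
    have h2 : S.val ≤ normalizedFactors a := by
      rw [hS, Multiset.toFinset_val]
      exact Multiset.dedup_le _
    have h3 := Multiset.prod_dvd_prod_of_le h2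
    rw [Finset.prod_val] at h3
    exact h3.trans (prod_normalizedFactors ha0).dvd
  have h4 : ∏ P ∈ S, Ideal.absNorm P ∣ p ^ Module.finrank ℚ K := by
    have := map_dvd Ideal.absNorm h1
    rwa [map_prod, norm_span] at this
  have h5 : p ^ S.card ≤ ∏ P ∈ S, Ideal.absNorm P := by
    rw [← Finset.prod_const]
    refine Finset.prod_le_prod' ?_
    intro P hP
    have hP' : P ∈ normalizedFactors a := Multiset.mem_toFinset.1 hP
    obtain ⟨j, hj, hPj⟩ := norm_prime hp (prime_of_normalized_factor P hP')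
      (dvd_of_mem_normalizedFactors hP') (norm_span p)
    rw [hPj]
    calc p = p ^ 1 := (pow_one p).symm
      _ ≤ p ^ j := Nat.pow_le_pow_right hp.pos hj
  have h6 : p ^ S.card ≤ p ^ Module.finrank ℚ K :=
    h5.trans (Nat.le_of_dvd (pow_pos hp.pos _) h4)
  exact (Nat.pow_le_pow_iff_right hp.one_lt).1 h6

end PP_

open PP_ NumberField UniqueFactorizationMonoid in
theorem p_PP : T_PP := by
  intro K _ _ p k hp
  classical
  set a : Ideal (𝓞 K) := Ideal.span {(p : 𝓞 K)} with ha
  have ha0 : a ≠ 0 := span_ne hp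
  set S := (normalizedFactors a).toFinset with hS
  have hne : ∀ I : Ideal (𝓞 K), Ideal.absNorm I = p ^ k → I ≠ 0 := by
    rintro I hI rfl
    rw [Ideal.zero_eq_bot, Ideal.absNorm_bot] at hI
    exact (pow_pos hp.pos k).ne hI
  have hmem : ∀ I : Ideal (𝓞 K), Ideal.absNorm I = p ^ k → ∀ P ∈ normalizedFactors I, P ∈ S := by
    intro I hI P hP
    rw [hS, Multiset.mem_toFinset]
    have hPp : Prime P := prime_of_normalized_factor P hP
    have h1 : P ∣ a ^ k := by
      refine (dvd_of_mem_normalizedFactors hP).trans ?_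
      rw [ha, Ideal.span_singleton_pow, Ideal.dvd_span_singleton]
      have := Ideal.absNorm_mem I
      rw [hI] at this
      exact_mod_cast this
    have h2 : P ∣ a := hPp.dvd_of_dvd_pow h1
    obtain ⟨Q, hQ, hPQ⟩ := exists_mem_normalizedFactors_of_dvd ha0 hPp.irreducible h2
    rwa [associated_iff_eq.1 hPQ]
  let F : {I : Ideal (𝓞 K) // Ideal.absNorm I = p ^ k} → (S → Fin (k + 1)) := fun I P =>
    ⟨min ((normalizedFactors I.1).count P.1) k, by omega⟩
  have hF : Function.Injective F := by
    intro I J hIJ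
    apply Subtype.ext
    have h1 : normalizedFactors I.1 = normalizedFactors J.1 := by
      ext P
      by_cases hP : P ∈ S
      · have h2 := congrArg Fin.val (congrFun hIJ ⟨P, hP⟩)
        have h3 : ∀ I : {I : Ideal (𝓞 K) // Ideal.absNorm I = p ^ k},
            (normalizedFactors I.1).count P ≤ k := by
          intro I
          by_cases h4 : P ∈ normalizedFactors I.1
          · exact count_le hp h4 (hne I.1 I.2) I.2
          · rw [Multiset.count_eq_zero_of_notMem h4]; exact Nat.zero_le _
        simp only [F] at h2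
        rw [min_eq_left (h3 I), min_eq_left (h3 J)] at h2
        exact h2
      · rw [Multiset.count_eq_zero_of_notMem (fun h => hP (hmem I.1 I.2 P h)),
          Multiset.count_eq_zero_of_notMem (fun h => hP (hmem J.1 J.2 P h))]
    have h5 := prod_normalizedFactors (hne I.1 I.2)
    have h6 := prod_normalizedFactors (hne J.1 J.2)
    rw [h1] at h5
    exact associated_iff_eq.1 (h5.symm.trans h6)
  have h7 := Nat.card_le_card_of_injective F hF
  rw [Nat.card_fun, Nat.card_eq_fintype_card (α := Fin (k + 1)), Fintype.card_fin,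
    Nat.card_eq_fintype_card (α := S), Fintype.card_coe] at h7
  exact h7.trans (Nat.pow_le_pow_right (Nat.succ_pos k) (card_le hp))

end Pool.Agent.QTw
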