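import Pool.Agent.QTw.Targets

/-!
# SPL: ideals of norm `p` in a big number field force complete splitting
-/

open Polynomial

namespace Pool.Agent.QTw

namespace SPL_

open NumberField

/-- An ideal of prime norm `p` gives a ring homomorphism to `ZMod p`. -/
theorem exists_hom (K : Type) [Field K] [NumberField K] (p : ℕ) (hp : p.Prime)
    (I : Ideal (𝓞 K)) (hI : Ideal.absNorm I = p) : Nonempty (𝓞 K →+* ZMod p) := by
  have hcard : Nat.card (𝓞 K ⧸ I) = p := by
    rw [← hI, Ideal.absNorm_apply, Submodule.cardQuot_apply]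
  have : Finite (𝓞 K ⧸ I) := Nat.finite_of_card_ne_zero (hcard ▸ hp.ne_zero)
  have := Fintype.ofFinite (𝓞 K ⧸ I)
  have h2 : Fintype.card (𝓞 K ⧸ I) = p := by rw [← Nat.card_eq_fintype_card, hcard]
  exact ⟨(ZMod.ringEquivOfPrime _ hp h2).symm.toRingHom.comp (Ideal.Quotient.mk I)⟩

/-- A common denominator of one element. -/
theorem exists_mult_one (K : Type) [Field K] [NumberField K] (t : K) :
    ∃ N : ℕ, 0 < N ∧ ∃ a : 𝓞 K, algebraMap (𝓞 K) K a = (N : K) * t := by
  have h : IsAlgebraic ℤ t := (IsFractionRing.isAlgebraic_iff ℤ ℚ K).mpr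
    (Algebra.IsAlgebraic.isAlgebraic t)
  obtain ⟨x, hx, hint⟩ := h.exists_integral_multiple
  refine ⟨x.natAbs, Int.natAbs_pos.mpr hx, ?_⟩
  rcases Int.natAbs_eq x with hx' | hx'
  · refine ⟨⟨x • t, hint⟩, ?_⟩
    change x • t = _
    rw [zsmul_eq_mul]
    congr 1
    have : ((x : ℤ) : K) = ((x.natAbs : ℤ) : K) := by rw [← hx']
    rw [this, Int.cast_natCast]
  · refine ⟨⟨-(x • t), hint.neg⟩, ?_⟩
    change -(x • t) = _
    rw [zsmul_eq_mul, ← neg_mul]
    congr 1
    have : ((-x : ℤ) : K) = ((x.natAbs : ℤ) : K) := by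
      congr 1
      omega
    rw [← Int.cast_neg, this, Int.cast_natCast]

/-- A common denominator of a finite set. -/
theorem exists_mult (K : Type) [Field K] [NumberField K] (T : Set K) (hT : T.Finite) :
    ∃ N : ℕ, 0 < N ∧ ∀ t ∈ T, ∃ a : 𝓞 K, algebraMap (𝓞 K) K a = (N : K) * t := by
  induction T, hT using Set.Finite.induction_on with
  | empty => exact ⟨1, one_pos, fun t ht => absurd ht (Set.notMem_empty t)⟩
  | @insert t T _ _ ih =>
    obtain ⟨N, hN, h⟩ := ih
    obtain ⟨M, hM, a, ha⟩ := exists_mult_one K t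
    refine ⟨N * M, Nat.mul_pos hN hM, ?_⟩
    intro u hu
    rcases Set.mem_insert_iff.mp hu with rfl | hu
    · refine ⟨(N : 𝓞 K) * a, ?_⟩
      rw [map_mul, ha, map_natCast]
      push_cast
      ring
    · obtain ⟨b, hb⟩ := h u hu
      refine ⟨(M : 𝓞 K) * b, ?_⟩
      rw [map_mul, hb, map_natCast]
      push_cast
      ring

/-- Extension of the homomorphism to a subring of `K` containing the elements with
denominator prime to `p`. -/
theorem exists_ext (K : Type) [Field K] [NumberField K] (p : ℕ) (hp : p.Prime) (N : ℕ)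
    (hN : ¬ p ∣ N) (ρ : 𝓞 K →+* ZMod p) :
    ∃ (A : Subring K) (_ : A →+* ZMod p),
      ∀ t : K, (∃ a : 𝓞 K, algebraMap (𝓞 K) K a = (N : K) * t) → t ∈ A := by
  have : Fact p.Prime := ⟨hp⟩
  let S : Submonoid (𝓞 K) := (IsUnit.submonoid (ZMod p)).comap ρ
  have hS : S ≤ nonZeroDivisors (𝓞 K) := by
    intro x hx
    have hx' : IsUnit (ρ x) := hx
    refine mem_nonZeroDivisors_of_ne_zero ?_
    rintro rfl
    rw [map_zero] at hx'
    exact not_isUnit_zero hx'
  let B := Localization.subalgebra.ofField K S hS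
  have : IsLocalization S B := Localization.subalgebra.isLocalization_ofField K S hS
  have hg : ∀ y : S, IsUnit (ρ y) := fun y => y.2
  refine ⟨B.toSubring, IsLocalization.lift (M := S) (S := B) (g := ρ) hg, ?_⟩
  rintro t ⟨a, ha⟩
  change t ∈ B
  have hN0 : (N : K) ≠ 0 := by
    intro h
    have : N = 0 := by exact_mod_cast h
    exact hN (this ▸ dvd_zero p)
  have hNS : (N : 𝓞 K) ∈ S := by
    change IsUnit (ρ (N : 𝓞 K))
    rw [map_natCast]
    rw [isUnit_iff_ne_zero]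
    intro h
    exact hN ((ZMod.natCast_eq_zero_iff N p).mp h)
  change ∃ (a s : 𝓞 K) (_ : s ∈ S), t = algebraMap (𝓞 K) K a * (algebraMap (𝓞 K) K s)⁻¹
  refine ⟨a, (N : 𝓞 K), hNS, ?_⟩
  rw [ha, map_natCast]
  field_simp

/-- reduction of an identity of polynomials -/
theorem reduce (K : Type) [Field K] (p : ℕ) (A : Subring K) (σ : A →+* ZMod p) (g : ℤ[X])
    (c : ℤ) (R : Finset K) (hR : ∀ θ ∈ R, θ ∈ A)
    (hg : g.map (Int.castRingHom K) = C (c : K) * ∏ θ ∈ R, (X - C θ)) :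
    g.map (Int.castRingHom (ZMod p)) =
      C (c : ZMod p) * ∏ θ ∈ R.attach, (X - C (σ ⟨θ.1, hR θ.1 θ.2⟩)) := by
  have h1 : g.map (Int.castRingHom A) =
      C (c : A) * ∏ θ ∈ R.attach, (X - C (⟨θ.1, hR θ.1 θ.2⟩ : A)) := by
    apply Polynomial.map_injective A.subtype Subtype.val_injective
    rw [Polynomial.map_map, Polynomial.map_mul, Polynomial.map_prod, Polynomial.map_C]
    have e1 : A.subtype.comp (Int.castRingHom A) = Int.castRingHom K :=
      RingHom.ext_int _ _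
    rw [e1, hg]
    refine congrArg₂ (· * ·) (by simp) ?_
    · rw [← Finset.prod_attach R]
      apply Finset.prod_congr rfl
      intro θ _
      simp
  have h2 : (g.map (Int.castRingHom A)).map σ = g.map (Int.castRingHom (ZMod p)) := by
    rw [Polynomial.map_map]
    congr 1
    exact RingHom.ext_int _ _
  rw [← h2, h1, Polynomial.map_mul, Polynomial.map_prod, Polynomial.map_C]
  refine congrArg₂ (· * ·) (by simp) ?_
  · apply Finset.prod_congr rfl
    intro θ _
    simp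

/-- evaluation at an integer -/
theorem dvd_iff (p : ℕ) (g : ℤ[X]) (a : ℤ) :
    (p : ℤ) ∣ g.eval a ↔ (g.map (Int.castRingHom (ZMod p))).eval (a : ZMod p) = 0 := by
  rw [← ZMod.intCast_zmod_eq_zero_iff_dvd]
  have : (g.map (Int.castRingHom (ZMod p))).eval ((Int.castRingHom (ZMod p)) a) =
      (Int.castRingHom (ZMod p)) (g.eval a) := by
    rw [Polynomial.eval_map, Polynomial.eval₂_hom]
  simp only [eq_intCast] at this
  rw [this]

/-- an element with inverse in `A` does not reduce to zero -/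
theorem sigma_ne_zero (K : Type) [Field K] (p : ℕ) [Fact p.Prime] (A : Subring K)
    (σ : A →+* ZMod p) (x : A) (hx : (x : K) ≠ 0) (hinv : (x : K)⁻¹ ∈ A) : σ x ≠ 0 := by
  intro h0
  have h1 : x * ⟨(x : K)⁻¹, hinv⟩ = 1 := by
    apply Subtype.ext
    change (x : K) * (x : K)⁻¹ = 1
    exact mul_inv_cancel₀ hx
  have h2 : σ x * σ ⟨(x : K)⁻¹, hinv⟩ = 1 := by rw [← map_mul, h1, map_one]
  rw [h0, zero_mul] at h2
  exact zero_ne_one h2

/-- There are many roots modulo `p`. -/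
theorem count (K : Type) [Field K] (p : ℕ) [Fact p.Prime] (A : Subring K) (σ : A →+* ZMod p)
    (g : ℤ[X]) (c : ℤ) (R : Finset K) (hR : ∀ θ ∈ R, θ ∈ A)
    (hg : g.map (Int.castRingHom K) = C (c : K) * ∏ θ ∈ R, (X - C θ))
    (hinv : ∀ θ ∈ R, ∀ θ' ∈ R, (θ - θ')⁻¹ ∈ A) : R.card ≤ rootCount g p := by
  rw [← Finset.card_attach]
  unfold rootCount
  refine Finset.card_le_card_of_injOn (fun θ => (σ ⟨θ.1, hR θ.1 θ.2⟩).val) ?_ ?_
  · intro θ hθ
    rw [Finset.mem_coe, Finset.mem_filter, Finset.mem_range]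
    refine ⟨ZMod.val_lt _, ?_⟩
    rw [dvd_iff, reduce K p A σ g c R hR hg, Polynomial.eval_mul, Polynomial.eval_prod]
    refine mul_eq_zero_of_right _ ?_
    refine Finset.prod_eq_zero (Finset.mem_attach R θ) ?_
    simp
  · intro θ _ θ' _ h
    have h1 : σ ⟨θ.1, hR θ.1 θ.2⟩ = σ ⟨θ'.1, hR θ'.1 θ'.2⟩ := ZMod.val_injective p h
    by_contra hne
    have hne' : θ.1 - θ'.1 ≠ 0 := fun h => hne (Subtype.ext (sub_eq_zero.mp h))
    refine sigma_ne_zero K p A σ (⟨θ.1, hR θ.1 θ.2⟩ - ⟨θ'.1, hR θ'.1 θ'.2⟩) hne'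
      (hinv _ θ.2 _ θ'.2) ?_
    rw [map_sub, h1, sub_self]

/-- Every root modulo `p` is a reduction. -/
theorem root_is (K : Type) [Field K] (p : ℕ) [Fact p.Prime] (A : Subring K)
    (σ : A →+* ZMod p) (g : ℤ[X]) (c : ℤ) (R : Finset K) (hR : ∀ θ ∈ R, θ ∈ A)
    (hg : g.map (Int.castRingHom K) = C (c : K) * ∏ θ ∈ R, (X - C θ))
    (hc : (c : K) ≠ 0) (hc' : (c : K)⁻¹ ∈ A) (a : ℤ) (ha : (p : ℤ) ∣ g.eval a) :
    ∃ θ, ∃ h : θ ∈ R, (a : ZMod p) = σ ⟨θ, hR θ h⟩ := by
  rw [dvd_iff, reduce K p A σ g c R hR hg, Polynomial.eval_mul, Polynomial.eval_prod] at ha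
  have hc0 : (c : ZMod p) ≠ 0 := by
    have := sigma_ne_zero K p A σ (c : A) (by simpa using hc) (by simpa using hc')
    rwa [map_intCast] at this
  rcases mul_eq_zero.mp ha with h | h
  · rw [Polynomial.eval_C] at h
    exact absurd h hc0
  · obtain ⟨θ, _, hθ⟩ := Finset.prod_eq_zero_iff.mp h
    refine ⟨θ.1, θ.2, ?_⟩
    rw [Polynomial.eval_sub, Polynomial.eval_X, Polynomial.eval_C] at hθ
    exact sub_eq_zero.mp hθ

/-- The value of the symbol. -/
theorem symbol (K : Type) [Field K] (p : ℕ) [Fact p.Prime] (A : Subring K)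
    (σ : A →+* ZMod p) (g : ℤ[X]) (θ s : K) (hθ : θ ∈ A) (hs : s ∈ A) (hs' : s⁻¹ ∈ A)
    (hs0 : s ≠ 0) (h : s ^ 2 = aeval θ g) (a : ℤ) (ha : (a : ZMod p) = σ ⟨θ, hθ⟩) :
    jacobiSym (g.eval a) p = 1 := by
  have h1 : eval₂ (Int.castRingHom A) ⟨θ, hθ⟩ g = (⟨s, hs⟩ : A) ^ 2 := by
    apply Subtype.val_injective
    have e : A.subtype (eval₂ (Int.castRingHom A) ⟨θ, hθ⟩ g) =
        eval₂ (Int.castRingHom K) θ g := by
      rw [Polynomial.hom_eval₂]
      congr 1
    refine e.trans ?_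
    change _ = s ^ 2
    rw [h, Polynomial.aeval_def]
    congr 1
  have h2 : ((g.eval a : ℤ) : ZMod p) = (σ ⟨s, hs⟩) ^ 2 := by
    rw [← map_pow, ← h1, Polynomial.hom_eval₂, ← ha]
    have e : σ.comp (Int.castRingHom A) = Int.castRingHom (ZMod p) := RingHom.ext_int _ _
    rw [e]
    have := Polynomial.eval₂_hom (p := g) (Int.castRingHom (ZMod p)) a
    simp only [eq_intCast] at this
    rw [this]
  have h3 : σ ⟨s, hs⟩ ≠ 0 := sigma_ne_zero K p A σ ⟨s, hs⟩ hs0 hs'
  rw [← jacobiSym.legendreSym.to_jacobiSym, legendreSym.eq_one_iff]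
  · exact ⟨σ ⟨s, hs⟩, by rw [h2, sq]⟩
  · rw [h2]
    exact pow_ne_zero 2 h3

/-- The big field. -/
theorem exists_field (n : ℕ) (g : Fin (n + 1) → ℤ[X]) (hgood : GoodFactors g) :
    ∃ (K : Type) (_ : Field K) (_ : NumberField K),
      (∀ i, ((g i).map (Int.castRingHom K)).Splits) ∧
      ∀ i j, ∀ θ : K, aeval θ (g i) = 0 → ∃ s : K, s ^ 2 = aeval θ (g j) := by
  let Ω := AlgebraicClosure ℚ
  have hsq : ∀ x : Ω, ∃ y : Ω, y ^ 2 = x := fun x => IsAlgClosed.exists_pow_nat_eq x two_pos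
  choose sq hsq using hsq
  let q : Fin (n + 1) → ℚ[X] := fun i => (g i).map (Int.castRingHom ℚ)
  have hq0 : ∀ i, q i ≠ 0 := fun i => (hgood.irr i).ne_zero
  let R : Set Ω := ⋃ i, (q i).rootSet Ω
  have hR : R.Finite := Set.finite_iUnion fun i => Polynomial.rootSet_finite _ _
  let S : Set Ω := R ∪ ⋃ j, (fun θ => sq (aeval θ (g j))) '' R
  have hS : S.Finite := hR.union (Set.finite_iUnion fun j => hR.image _)
  let K := IntermediateField.adjoin ℚ S
  have : Finite S := hS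
  have halg : Algebra.IsAlgebraic ℚ Ω := AlgebraicClosure.isAlgebraic ℚ
  have hfd : FiniteDimensional ℚ K := IntermediateField.finiteDimensional_adjoin
    (fun x _ => (Algebra.IsAlgebraic.isAlgebraic x).isIntegral)
  have hNF : NumberField K := { to_charZero := inferInstance, to_finiteDimensional := hfd }
  refine ⟨K, inferInstance, hNF, ?_, ?_⟩
  · intro i
    have h1 : ((q i).map (algebraMap ℚ K)).Splits := by
      apply IntermediateField.splits_of_splits (IsAlgClosed.splits _)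
      intro x hx
      exact IntermediateField.subset_adjoin ℚ S (Or.inl (Set.mem_iUnion.mpr ⟨i, hx⟩))
    have e : (q i).map (algebraMap ℚ K) = (g i).map (Int.castRingHom K) := by
      rw [Polynomial.map_map]
      congr 1
    rwa [e] at h1
  · intro i j θ hθ
    have h1 : aeval (θ : Ω) (g i) = 0 := by
      have := congrArg (algebraMap K Ω) hθ
      rwa [map_zero, ← Polynomial.aeval_algebraMap_apply] at this
    have hmem : (θ : Ω) ∈ R := by
      refine Set.mem_iUnion.mpr ⟨i, ?_⟩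
      rw [Polynomial.mem_rootSet]
      refine ⟨hq0 i, ?_⟩
      rw [← h1]
      change aeval (θ : Ω) ((g i).map (Int.castRingHom ℚ)) = _
      rw [Polynomial.aeval_def, Polynomial.eval₂_map, Polynomial.aeval_def]
      congr 1
    have hmem2 : sq (aeval (θ : Ω) (g j)) ∈ K :=
      IntermediateField.subset_adjoin ℚ S (Or.inr (Set.mem_iUnion.mpr ⟨j, θ, hmem, rfl⟩))
    refine ⟨⟨_, hmem2⟩, ?_⟩
    apply (algebraMap K Ω).injective
    rw [map_pow, ← Polynomial.aeval_algebraMap_apply]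
    exact hsq _

/-- The product formula over a splitting field. -/
theorem product (K : Type) [Field K] [CharZero K] (g : ℤ[X])
    (hirr : Irreducible (g.map (Int.castRingHom ℚ)))
    (hsp : (g.map (Int.castRingHom K)).Splits) :
    ∃ R : Finset K, g.map (Int.castRingHom K) = C (g.leadingCoeff : K) * ∏ θ ∈ R, (X - C θ) ∧
      R.card = g.natDegree ∧ ∀ θ ∈ R, aeval θ g = 0 := by
  have hsep : (g.map (Int.castRingHom K)).Separable := by
    have h1 : (g.map (Int.castRingHom ℚ)).Separable := hirr.separable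
    have h2 := h1.map (f := algebraMap ℚ K)
    have e : (algebraMap ℚ K).comp (Int.castRingHom ℚ) = Int.castRingHom K :=
      RingHom.ext_int _ _
    rwa [Polynomial.map_map, e] at h2
  have hnd : (g.map (Int.castRingHom K)).roots.Nodup := nodup_roots hsep
  have hinj : Function.Injective (Int.castRingHom K) := Int.cast_injective
  refine ⟨⟨_, hnd⟩, ?_, ?_, ?_⟩
  · have h3 := hsp.eq_prod_roots
    rw [Polynomial.leadingCoeff_map_of_injective hinj] at h3
    exact h3
  · change Multiset.card _ = _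
    rw [← hsp.natDegree_eq_card_roots, Polynomial.natDegree_map_eq_of_injective hinj]
  · intro θ hθ
    have hθ' : θ ∈ (g.map (Int.castRingHom K)).roots := hθ
    have := (Polynomial.mem_roots'.mp hθ').2
    rw [Polynomial.IsRoot.def, Polynomial.eval_map] at this
    rw [← this, Polynomial.aeval_def]
    congr 1

end SPL_

open SPL_ NumberField in
/-- SPL: ideals of norm `p` in a big number field force complete splitting. -/
theorem p_SPL : T_SPL := by
  intro n g hgood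
  obtain ⟨K, _, _, hsp, hsq⟩ := exists_field n g hgood
  refine ⟨K, inferInstance, inferInstance, ?_⟩
  choose R hR1 hR2 hR3 using fun i => product K (g i) (hgood.irr i) (hsp i)
  have hs' : ∀ i j, ∀ θ : K, ∃ s : K, aeval θ (g i) = 0 → s ^ 2 = aeval θ (g j) := by
    intro i j θ
    by_cases h : aeval θ (g i) = 0
    · obtain ⟨s, hs⟩ := hsq i j θ h
      exact ⟨s, fun _ => hs⟩
    · exact ⟨0, fun h' => absurd h' h⟩
  choose s hs using hs'
  let T : Set K := (⋃ i, (R i : Set K)) ∪ (⋃ i, Set.image2 (fun θ θ' => (θ - θ')⁻¹) (R i) (R i)) ∪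
    (⋃ i, {((g i).leadingCoeff : K)⁻¹}) ∪ (⋃ i, ⋃ j, (s i j) '' (R i)) ∪
    (⋃ i, ⋃ j, (fun θ => (s i j θ)⁻¹) '' (R i))
  have hT : T.Finite := by
    refine Set.Finite.union (Set.Finite.union (Set.Finite.union (Set.Finite.union ?_ ?_) ?_) ?_) ?_
    · exact Set.finite_iUnion fun i => (R i).finite_toSet
    · exact Set.finite_iUnion fun i => Set.Finite.image2 _ (R i).finite_toSet (R i).finite_toSet
    · exact Set.finite_iUnion fun i => Set.finite_singleton _
    · exact Set.finite_iUnion fun i => Set.finite_iUnion fun j => (R i).finite_toSet.image _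
    · exact Set.finite_iUnion fun i => Set.finite_iUnion fun j => (R i).finite_toSet.image _
  obtain ⟨N, hN, hNT⟩ := exists_mult K T hT
  refine ⟨N, hN, ?_⟩
  intro p hp hpN hcount
  have : Fact p.Prime := ⟨hp⟩
  unfold idealCount at hcount
  have hne : Nonempty {I : Ideal (𝓞 K) // Ideal.absNorm I = p} :=
    (Nat.card_pos_iff.mp hcount).1
  obtain ⟨I, hI⟩ := hne
  obtain ⟨ρ⟩ := exists_hom K p hp I hI
  obtain ⟨A, σ, hA⟩ := exists_ext K p hp N hpN ρ
  have hTA : ∀ t ∈ T, t ∈ A := fun t ht => hA t (hNT t ht)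
  have hRA : ∀ i, ∀ θ ∈ R i, θ ∈ A := fun i θ hθ =>
    hTA θ (Or.inl (Or.inl (Or.inl (Or.inl (Set.mem_iUnion.mpr ⟨i, hθ⟩)))))
  have hdA : ∀ i, ∀ θ ∈ R i, ∀ θ' ∈ R i, (θ - θ')⁻¹ ∈ A := fun i θ hθ θ' hθ' =>
    hTA _ (Or.inl (Or.inl (Or.inl (Or.inr (Set.mem_iUnion.mpr ⟨i, θ, hθ, θ', hθ', rfl⟩)))))
  have hcA : ∀ i, ((g i).leadingCoeff : K)⁻¹ ∈ A := fun i =>
    hTA _ (Or.inl (Or.inl (Or.inr (Set.mem_iUnion.mpr ⟨i, rfl⟩))))
  have hsA : ∀ i j, ∀ θ ∈ R i, s i j θ ∈ A := fun i j θ hθ =>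
    hTA _ (Or.inl (Or.inr (Set.mem_iUnion.mpr ⟨i, Set.mem_iUnion.mpr ⟨j, θ, hθ, rfl⟩⟩)))
  have hsA' : ∀ i j, ∀ θ ∈ R i, (s i j θ)⁻¹ ∈ A := fun i j θ hθ =>
    hTA _ (Or.inr (Set.mem_iUnion.mpr ⟨i, Set.mem_iUnion.mpr ⟨j, θ, hθ, rfl⟩⟩))
  have hg0 : ∀ i, g i ≠ 0 := by
    intro i h
    have := (hgood.irr i).ne_zero
    rw [h, Polynomial.map_zero] at this
    exact this rfl
  refine ⟨?_, ?_⟩
  · intro i
    refine le_trans ?_ (count K p A σ (g i) _ (R i) (hRA i) (hR1 i) (hdA i))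
    rw [hR2 i]
    have h1 := hgood.even i
    have h2 : 0 < (g i).natDegree := by
      have := (hgood.irr i).natDegree_pos
      rwa [Polynomial.natDegree_map_eq_of_injective Int.cast_injective] at this
    rcases h1 with ⟨m, hm⟩
    omega
  · intro i a _ hdvd j hji
    have hc : ((g i).leadingCoeff : K) ≠ 0 := by
      exact_mod_cast (Polynomial.leadingCoeff_ne_zero.mpr (hg0 i))
    obtain ⟨θ, hθ, ha⟩ := root_is K p A σ (g i) _ (R i) (hRA i) (hR1 i) hc (hcA i) a hdvd
    have h2 := hs i j θ (hR3 i θ hθ)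
    refine symbol K p A σ (g j) θ (s i j θ) (hRA i θ hθ) (hsA i j θ hθ) (hsA' i j θ hθ) ?_ h2 a ha
    intro h0
    rw [h0] at h2
    have h3 : aeval θ (g j) = 0 := by rw [← h2]; simp
    have h4 := hgood.coprime i j hji.symm
    obtain ⟨u, v, huv⟩ := h4
    have h5 := congrArg (aeval θ) huv
    rw [map_add, map_mul, map_mul, map_one] at h5
    have e : ∀ k, aeval θ ((g k).map (Int.castRingHom ℚ)) = aeval θ (g k) := by
      intro k
      have e' : (algebraMap ℚ K).comp (Int.castRingHom ℚ) = algebraMap ℤ K :=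
        RingHom.ext_int _ _
      rw [Polynomial.aeval_def, Polynomial.eval₂_map, Polynomial.aeval_def, e']
    rw [e, e, hR3 i θ hθ, h3] at h5
    simp at h5

end Pool.Agent.QTw
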