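import Pool.Agent.QTw.Targets

set_option autoImplicit false

/-! MERT: the upper bound in the first theorem of Mertens. -/

namespace Pool.Agent.QTw.MERT_

open Finset
open scoped BigOperators

theorem sum_log_le (N : ℕ) : ∑ n ∈ Finset.Ioc 0 N, Real.log n ≤ N * Real.log N := by
  calc ∑ n ∈ Finset.Ioc 0 N, Real.log n ≤ ∑ n ∈ Finset.Ioc 0 N, Real.log N := by
        apply Finset.sum_le_sum
        intro n hn
        rw [Finset.mem_Ioc] at hn
        apply Real.log_le_log
        · exact_mod_cast hn.1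
        · exact_mod_cast hn.2
    _ = N * Real.log N := by simp

theorem sum_log_primeFactors_le (n : ℕ) (hn : 0 < n) :
    ∑ p ∈ n.primeFactors, Real.log p ≤ Real.log n := by
  rw [← Real.log_prod (fun p hp => by
    have := (Nat.prime_of_mem_primeFactors hp).pos
    positivity)]
  have h := Nat.le_of_dvd hn (Nat.prod_primeFactors_dvd n)
  have hpos : 0 < ∏ p ∈ n.primeFactors, p :=
    Finset.prod_pos fun p hp => (Nat.prime_of_mem_primeFactors hp).pos
  rw [← Nat.cast_prod]
  apply Real.log_le_log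
  · exact_mod_cast hpos
  · exact_mod_cast h

theorem sum_floor_le (N : ℕ) :
    ∑ p ∈ (Finset.Iic N).filter Nat.Prime, ((N / p : ℕ) : ℝ) * Real.log p ≤ N * Real.log N := by
  have h1 : ∑ p ∈ (Finset.Iic N).filter Nat.Prime, ((N / p : ℕ) : ℝ) * Real.log p =
      ∑ n ∈ Finset.Ioc 0 N, ∑ p ∈ n.primeFactors, Real.log p := by
    have h2 : ∀ n ∈ Finset.Ioc 0 N, ∑ p ∈ n.primeFactors, Real.log p =
        ∑ p ∈ (Finset.Iic N).filter Nat.Prime, if p ∣ n then Real.log p else 0 := by
      intro n hn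
      rw [Finset.mem_Ioc] at hn
      rw [← Finset.sum_filter]
      apply Finset.sum_congr _ fun _ _ => rfl
      ext p
      simp only [Nat.mem_primeFactors, Finset.mem_filter, Finset.mem_Iic]
      constructor
      · rintro ⟨hp, hd, _⟩
        exact ⟨⟨(Nat.le_of_dvd hn.1 hd).trans hn.2, hp⟩, hd⟩
      · rintro ⟨⟨_, hp⟩, hd⟩
        exact ⟨hp, hd, by omega⟩
    rw [Finset.sum_congr rfl h2, Finset.sum_comm]
    apply Finset.sum_congr rfl
    intro p _
    rw [← Finset.sum_filter, Finset.sum_const, Nat.Ioc_filter_dvd_card_eq_div, nsmul_eq_mul]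
  rw [h1]
  refine (Finset.sum_le_sum fun n hn => sum_log_primeFactors_le n ?_).trans (sum_log_le N)
  exact (Finset.mem_Ioc.1 hn).1

theorem theta_sum (N : ℕ) :
    ∑ p ∈ (Finset.Iic N).filter Nat.Prime, Real.log p ≤ Real.log 4 * N := by
  have h := Chebyshev.theta_le_log4_mul_x (x := (N : ℝ)) (Nat.cast_nonneg N)
  refine le_trans (le_of_eq ?_) h
  unfold Chebyshev.theta
  rw [Nat.floor_natCast]
  apply Finset.sum_congr _ fun _ _ => rfl
  ext p
  simp only [Finset.mem_filter, Finset.mem_Iic, Finset.mem_Ioc]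
  constructor
  · rintro ⟨h1, h2⟩
    exact ⟨⟨h2.pos, h1⟩, h2⟩
  · rintro ⟨⟨_, h1⟩, h2⟩
    exact ⟨h1, h2⟩

theorem mertens (x : ℝ) (hx : 1 ≤ x) :
    ∑ p ∈ (Finset.Iic ⌊x⌋₊).filter Nat.Prime, Real.log p / p ≤ Real.log x + Real.log 4 := by
  set N := ⌊x⌋₊ with hN
  have hN1 : 1 ≤ N := by
    rw [hN, Nat.one_le_floor_iff]; exact hx
  have hN0 : (0 : ℝ) < N := by exact_mod_cast hN1
  have hNx : (N : ℝ) ≤ x := Nat.floor_le (by linarith)
  have h1 : ∑ p ∈ (Finset.Iic N).filter Nat.Prime, (N * (Real.log p / p)) ≤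
      ∑ p ∈ (Finset.Iic N).filter Nat.Prime, (((N / p : ℕ) : ℝ) * Real.log p + Real.log p) := by
    apply Finset.sum_le_sum
    intro p hp
    rw [Finset.mem_filter] at hp
    have hp0 : (0 : ℝ) < p := by exact_mod_cast hp.2.pos
    have hl : 0 ≤ Real.log p := Real.log_natCast_nonneg p
    have h2 : (N : ℝ) / p ≤ ((N / p : ℕ) : ℝ) + 1 := by
      rw [div_le_iff₀ hp0]
      have := Nat.lt_div_mul_add hp.2.pos (a := N)
      have h3 : (N : ℝ) ≤ ((N / p : ℕ) : ℝ) * p + p := by
        exact_mod_cast this.le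
      linarith
    calc N * (Real.log p / p) = (N : ℝ) / p * Real.log p := by ring
      _ ≤ (((N / p : ℕ) : ℝ) + 1) * Real.log p := mul_le_mul_of_nonneg_right h2 hl
      _ = _ := by ring
  rw [Finset.sum_add_distrib, ← Finset.mul_sum] at h1
  have h2 := sum_floor_le N
  have h3 := theta_sum N
  have h4 : N * ∑ p ∈ (Finset.Iic N).filter Nat.Prime, Real.log p / p ≤
      N * (Real.log N + Real.log 4) := by linarith
  have h5 := le_of_mul_le_mul_left h4 hN0
  have h6 : Real.log N ≤ Real.log x := Real.log_le_log hN0 hNx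
  linarith


end Pool.Agent.QTw.MERT_

namespace Pool.Agent.QTw

theorem p_MERT : T_MERT := by
  refine ⟨Real.log 4, fun X hX => ?_⟩
  have h := MERT_.mertens (X : ℝ) (by exact_mod_cast hX)
  rw [Nat.floor_natCast] at h
  have he : (Finset.range (X + 1)).filter Nat.Prime = (Finset.Iic X).filter Nat.Prime := by
    ext p
    simp only [Finset.mem_filter, Finset.mem_range, Finset.mem_Iic]
    constructor
    · rintro ⟨h1, h2⟩
      exact ⟨by omega, h2⟩
    · rintro ⟨h1, h2⟩
      exact ⟨by omega, h2⟩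
  rw [he]
  exact h

end Pool.Agent.QTw
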