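import Pool.Agent.QTw.Targets

/-!
# HALL: upper bound for sums of multiplicative functions
-/

namespace Pool.Agent.QTw

open Finset

namespace HALL_

/-- squarefree numbers up to `X` -/
def sf (X : ℕ) : Finset ℕ := (range (X + 1)).filter fun m => Squarefree m

/-- primes up to `X` -/
def pr (X : ℕ) : Finset ℕ := (range (X + 1)).filter Nat.Prime

/-- the multiplicative function -/
noncomputable def mf (g : ℕ → ℝ) (m : ℕ) : ℝ := ∏ p ∈ m.primeFactors, g p

theorem mem_sf {X m : ℕ} : m ∈ sf X ↔ m ≤ X ∧ Squarefree m := by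
  rw [sf, mem_filter, mem_range, Nat.lt_succ_iff]

theorem mem_pr {X m : ℕ} : m ∈ pr X ↔ m ≤ X ∧ m.Prime := by
  rw [pr, mem_filter, mem_range, Nat.lt_succ_iff]

theorem mf_nonneg {g : ℕ → ℝ} (hg : ∀ p, 0 ≤ g p) (m : ℕ) : 0 ≤ mf g m :=
  prod_nonneg fun p _ => hg p

theorem pf_eq {X m : ℕ} (hm : m ∈ sf X) : (pr X).filter (fun p => p ∣ m) = m.primeFactors := by
  obtain ⟨h1, h2⟩ := mem_sf.1 hm
  have h0 : m ≠ 0 := h2.ne_zero
  ext p
  rw [mem_filter, mem_pr, Nat.mem_primeFactors]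
  constructor
  · rintro ⟨⟨_, hp⟩, hd⟩
    exact ⟨hp, hd, h0⟩
  · rintro ⟨hp, hd, _⟩
    exact ⟨⟨(Nat.le_of_dvd (Nat.pos_of_ne_zero h0) hd).trans h1, hp⟩, hd⟩

theorem log_eq {m : ℕ} (hm : Squarefree m) : Real.log m = ∑ p ∈ m.primeFactors, Real.log p := by
  have h1 := Nat.prod_primeFactors_of_squarefree hm
  conv_lhs => rw [← h1]
  push_cast
  rw [Real.log_prod]
  intro p hp
  have := (Nat.prime_of_mem_primeFactors hp).pos
  positivity

/-- removing a prime factor -/
theorem mf_div {g : ℕ → ℝ} {m p : ℕ} (hm : Squarefree m) (hp : p.Prime) (hd : p ∣ m) :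
    mf g m = g p * mf g (m / p) ∧ Squarefree (m / p) ∧ m = (m / p) * p := by
  have h1 : m / p * p = m := Nat.div_mul_cancel hd
  have h2 : Squarefree (m / p * p) := by rw [h1]; exact hm
  have hc : Nat.Coprime (m / p) p := Nat.coprime_of_squarefree_mul h2
  refine ⟨?_, h2.of_mul_left, h1.symm⟩
  have h3 : m.primeFactors = (m / p).primeFactors ∪ {p} := by
    conv_lhs => rw [← h1]
    rw [Nat.Coprime.primeFactors_mul hc, hp.primeFactors]
  have h4 : Disjoint (m / p).primeFactors {p} := by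
    rw [disjoint_singleton_right]
    intro h
    have h5 := Nat.dvd_of_mem_primeFactors h
    exact hp.one_lt.ne' (Nat.eq_one_of_dvd_coprimes hc h5 dvd_rfl)
  unfold mf
  rw [h3, prod_union h4, prod_singleton, mul_comm]

/-- the Chebyshev bound -/
theorem cheb {X m : ℕ} (hm : 0 < m) :
    ∑ p ∈ (pr X).filter (fun p => m * p ≤ X), Real.log p ≤ Real.log 4 * (X / m) := by
  have h0 : (0 : ℝ) ≤ (X : ℝ) / m := by positivity
  refine le_trans ?_ (Chebyshev.theta_le_log4_mul_x h0)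
  rw [Chebyshev.theta, Nat.floor_div_natCast, Nat.floor_natCast]
  refine sum_le_sum_of_subset_of_nonneg ?_ ?_
  · intro p hp
    rw [mem_filter, mem_pr] at hp
    rw [mem_filter, mem_Ioc]
    refine ⟨⟨hp.1.2.pos, ?_⟩, hp.1.2⟩
    rw [Nat.le_div_iff_mul_le hm, mul_comm]
    exact hp.2
  · intro p _ _
    exact Real.log_natCast_nonneg p

/-- the first sum -/
theorem sum1 {G : ℝ} {g : ℕ → ℝ} (hG : 0 ≤ G) (hg : ∀ p, 0 ≤ g p ∧ g p ≤ G) (X : ℕ) :
    ∑ m ∈ sf X, mf g m * Real.log m ≤ ∑ m ∈ sf X, mf g m * (G * (Real.log 4 * (X / m))) := by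
  have hn := mf_nonneg (g := g) fun p => (hg p).1
  set s : Finset (ℕ × ℕ) := (sf X ×ˢ pr X).filter fun x => x.2 ∣ x.1 with hs
  set t : Finset (ℕ × ℕ) := (sf X ×ˢ pr X).filter fun x => x.1 * x.2 ≤ X with ht
  let F : ℕ × ℕ → ℝ := fun x => mf g x.1 * (g x.2 * Real.log x.2)
  let e : ℕ × ℕ → ℕ × ℕ := fun x => (x.1 / x.2, x.2)
  have hF : ∀ x, 0 ≤ F x := fun x =>
    mul_nonneg (hn _) (mul_nonneg (hg _).1 (Real.log_natCast_nonneg _))
  have h1 : ∑ m ∈ sf X, mf g m * Real.log m = ∑ x ∈ s, F (e x) := by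
    rw [hs, sum_filter, sum_product]
    refine sum_congr rfl fun m hm => ?_
    rw [log_eq (mem_sf.1 hm).2, mul_sum, ← pf_eq hm, sum_filter]
    refine sum_congr rfl fun p hp => ?_
    by_cases hd : p ∣ m
    · rw [if_pos hd, if_pos hd]
      have h2 := mf_div (g := g) (mem_sf.1 hm).2 (mem_pr.1 hp).2 hd
      simp only [F, e]
      rw [h2.1]
      ring
    · rw [if_neg hd, if_neg hd]
  have hinj : Set.InjOn e s := by
    rintro ⟨m, p⟩ hx ⟨m', p'⟩ hx' he
    simp only [hs, coe_filter, mem_product, Set.mem_ofPred_eq] at hx hx'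
    simp only [e, Prod.mk.injEq] at he
    obtain ⟨h3, rfl⟩ := he
    have h4 := Nat.div_mul_cancel hx.2
    have h5 := Nat.div_mul_cancel hx'.2
    rw [h3, h5] at h4
    rw [h4]
  have hmaps : s.image e ⊆ t := by
    intro y hy
    obtain ⟨⟨m, p⟩, hx, rfl⟩ := mem_image.1 hy
    rw [hs, mem_filter, mem_product] at hx
    obtain ⟨⟨hm, hp⟩, hd⟩ := hx
    simp only at hm hp hd
    have h2 := mf_div (g := g) (mem_sf.1 hm).2 (mem_pr.1 hp).2 hd
    rw [ht, mem_filter, mem_product]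
    refine ⟨⟨?_, hp⟩, ?_⟩
    · rw [mem_sf]
      exact ⟨(Nat.div_le_self _ _).trans (mem_sf.1 hm).1, h2.2.1⟩
    · simp only [e]
      rw [← h2.2.2]
      exact (mem_sf.1 hm).1
  rw [h1]
  calc ∑ x ∈ s, F (e x) = ∑ y ∈ s.image e, F y := (sum_image hinj).symm
    _ ≤ ∑ y ∈ t, F y := sum_le_sum_of_subset_of_nonneg hmaps fun y _ _ => hF y
    _ ≤ _ := by
        rw [ht, sum_filter, sum_product]
        refine sum_le_sum fun m hm => ?_
        have hm0 : 0 < m := Nat.pos_of_ne_zero (mem_sf.1 hm).2.ne_zero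
        calc ∑ p ∈ pr X, (if m * p ≤ X then F (m, p) else 0)
            = ∑ p ∈ (pr X).filter (fun p => m * p ≤ X), F (m, p) := (sum_filter _ _).symm
          _ ≤ ∑ p ∈ (pr X).filter (fun p => m * p ≤ X), mf g m * (G * Real.log p) := by
              refine sum_le_sum fun p _ => ?_
              exact mul_le_mul_of_nonneg_left (mul_le_mul_of_nonneg_right (hg p).2
                (Real.log_natCast_nonneg p)) (hn m)
          _ = mf g m * (G * ∑ p ∈ (pr X).filter (fun p => m * p ≤ X), Real.log p) := by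
              rw [mul_sum, mul_sum]
          _ ≤ _ := mul_le_mul_of_nonneg_left (mul_le_mul_of_nonneg_left (cheb hm0) hG) (hn m)

/-- the Euler product -/
theorem sum2 {g : ℕ → ℝ} (hg : ∀ p, 0 ≤ g p) (X : ℕ) :
    ∑ m ∈ sf X, mf g m / m ≤ Real.exp (∑ p ∈ pr X, g p / p) := by
  have h1 : ∑ m ∈ sf X, mf g m / m = ∑ T ∈ (sf X).image Nat.primeFactors,
      ∏ p ∈ T, (g p / p) := by
    rw [sum_image]
    · refine sum_congr rfl fun m hm => ?_
      rw [prod_div_distrib, mf]
      congr 1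
      conv_lhs => rw [← Nat.prod_primeFactors_of_squarefree (mem_sf.1 hm).2]
      push_cast
      rfl
    · intro m hm m' hm' h
      rw [← Nat.prod_primeFactors_of_squarefree (mem_sf.1 hm).2,
        ← Nat.prod_primeFactors_of_squarefree (mem_sf.1 hm').2, h]
  have hsub : (sf X).image Nat.primeFactors ⊆ (pr X).powerset := by
    intro T hT
    obtain ⟨m, hm, rfl⟩ := mem_image.1 hT
    rw [mem_powerset, ← pf_eq hm]
    exact filter_subset _ _
  calc ∑ m ∈ sf X, mf g m / m = ∑ T ∈ (sf X).image Nat.primeFactors, ∏ p ∈ T, (g p / p) := h1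
    _ ≤ ∑ T ∈ (pr X).powerset, ∏ p ∈ T, (g p / p) :=
        sum_le_sum_of_subset_of_nonneg hsub fun T _ _ =>
          prod_nonneg fun p _ => div_nonneg (hg p) (Nat.cast_nonneg p)
    _ = ∏ p ∈ pr X, (1 + g p / p) := (prod_one_add _).symm
    _ ≤ ∏ p ∈ pr X, Real.exp (g p / p) := by
        refine prod_le_prod (fun p _ => ?_) fun p _ => ?_
        · have := div_nonneg (hg p) (Nat.cast_nonneg (α := ℝ) p)
          linarith
        · rw [add_comm]
          exact Real.add_one_le_exp _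
    _ = _ := (Real.exp_sum _ _).symm

end HALL_

open HALL_

/-- HALL: upper bound for sums of multiplicative functions. -/
theorem p_HALL : T_HALL := by
  intro G g hG hg X hX
  have hn := mf_nonneg (g := g) fun p => (hg p).1
  have hlog : 0 < Real.log X := Real.log_pos (by exact_mod_cast hX)
  have hX0 : (0 : ℝ) < X := by positivity
  have hl4 : 0 ≤ Real.log 4 := Real.log_nonneg (by norm_num)
  have h1 : Real.log X * ∑ m ∈ sf X, mf g m =
      ∑ m ∈ sf X, mf g m * Real.log m + ∑ m ∈ sf X, mf g m * Real.log (X / m) := by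
    rw [mul_sum, ← sum_add_distrib]
    refine sum_congr rfl fun m hm => ?_
    have hm0 : (m : ℝ) ≠ 0 := by exact_mod_cast (mem_sf.1 hm).2.ne_zero
    rw [Real.log_div hX0.ne' hm0]
    ring
  have h2 : ∑ m ∈ sf X, mf g m * Real.log (X / m) ≤ ∑ m ∈ sf X, mf g m * (X / m) := by
    refine sum_le_sum fun m hm => mul_le_mul_of_nonneg_left ?_ (hn m)
    have hm0 : 0 < m := Nat.pos_of_ne_zero (mem_sf.1 hm).2.ne_zero
    have h3 := Real.log_le_sub_one_of_pos (x := (X : ℝ) / m) (by positivity)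
    linarith
  have h3 : Real.log X * ∑ m ∈ sf X, mf g m ≤
      (G * Real.log 4 + 1) * X * Real.exp (∑ p ∈ pr X, g p / p) := by
    calc Real.log X * ∑ m ∈ sf X, mf g m
        ≤ ∑ m ∈ sf X, mf g m * (G * (Real.log 4 * (X / m))) +
          ∑ m ∈ sf X, mf g m * (X / m) := by
          rw [h1]
          exact add_le_add (sum1 hG hg X) h2
      _ = (G * Real.log 4 + 1) * X * ∑ m ∈ sf X, mf g m / m := by
          rw [← sum_add_distrib, mul_sum]
          refine sum_congr rfl fun m _ => ?_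
          ring
      _ ≤ _ := by
          refine mul_le_mul_of_nonneg_left (sum2 (fun p => (hg p).1) X) ?_
          positivity
  change ∑ m ∈ sf X, mf g m ≤ (G * Real.log 4 + 1) * (X / Real.log X) *
    Real.exp (∑ p ∈ pr X, g p / p)
  have h4 : (G * Real.log 4 + 1) * (X / Real.log X) * Real.exp (∑ p ∈ pr X, g p / p) =
      ((G * Real.log 4 + 1) * X * Real.exp (∑ p ∈ pr X, g p / p)) / Real.log X := by
    ring
  rw [h4, le_div_iff₀ hlog, mul_comm]
  exact h3

end Pool.Agent.QTw
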