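import Pool.Agent.QTw.Targets

/-!
# QTw, FIB: sums of products over configurations
-/

namespace Pool.Agent.QTw

namespace FIB_

open Classical in
theorem prod_graph {T : Type} (h : ℕ → T → ℝ) (s : Finset ℕ) (τ : ∀ p ∈ s, T) :
    ∏ x ∈ graph s τ, h x.1 x.2 = ∏ p ∈ s.attach, h p.1 (τ p.1 p.2) := by
  unfold graph
  rw [Finset.prod_image]
  intro a _ b _ hab
  have : a.1 = b.1 := (Prod.ext_iff.mp hab).1
  exact Subtype.ext this

open Classical in
theorem sum_graph {T : Type} [Fintype T] (h : ℕ → T → ℝ) (s : Finset ℕ) :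
    ∑ τ ∈ s.pi (fun _ => (Finset.univ : Finset T)), ∏ x ∈ graph s τ, h x.1 x.2
      = ∏ p ∈ s, ∑ t, h p t := by
  rw [Finset.prod_sum]
  exact Finset.sum_congr rfl (fun τ _ => prod_graph h s τ)

end FIB_

theorem p_FIB (h1 : T_FIBG) : T_FIB := by
  classical
  intro T _ h N X
  have h2 := h1 T (fun c => ∏ x ∈ c, h x.1 x.2) N X
  refine Eq.trans ?_ (h2.trans ?_)
  · rfl
  rw [← Finset.filter_filter, Finset.sum_filter]
  refine Finset.sum_congr rfl (fun m _ => ?_)
  by_cases hm : ∀ p ∈ m.primeFactors, ¬ p ∣ N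
  · rw [if_pos hm, FIB_.sum_graph]
    refine Finset.prod_congr rfl (fun p hp => ?_)
    rw [if_neg (hm p hp)]
  · rw [if_neg hm]
    push Not at hm
    obtain ⟨p, hp, hpN⟩ := hm
    symm
    apply Finset.prod_eq_zero hp
    rw [if_pos hpN]

end Pool.Agent.QTw
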