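import Pool.Agent.QTw.Targets

/-!
# Sums over configurations, sorted by the product
-/

namespace Pool.Agent.QTw

namespace FIBG_

variable {T : Type}

lemma mem_graph [DecidableEq T] {s : Finset ℕ} {τ : ∀ p ∈ s, T} {x : ℕ × T} :
    x ∈ graph s τ ↔ ∃ h : x.1 ∈ s, x.2 = τ x.1 h := by
  unfold graph
  rw [Finset.mem_image]
  constructor
  · rintro ⟨p, -, rfl⟩
    exact ⟨p.2, rfl⟩
  · rintro ⟨h, h'⟩
    exact ⟨⟨x.1, h⟩, Finset.mem_attach _ _, Prod.ext rfl h'.symm⟩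

lemma prod_graph [DecidableEq T] (s : Finset ℕ) (τ : ∀ p ∈ s, T) :
    ∏ x ∈ graph s τ, x.1 = ∏ p ∈ s, p := by
  unfold graph
  rw [Finset.prod_image, Finset.prod_attach s fun p => p]
  rintro ⟨p, hp⟩ - ⟨q, hq⟩ - h
  exact Subtype.ext (congrArg Prod.fst h)

lemma fst_inj {N X : ℕ} {c : Finset (ℕ × T)} (hc : IsCfg N X c) :
    Set.InjOn (Prod.fst : ℕ × T → ℕ) (c : Set (ℕ × T)) := fun _ hx _ hy h =>
  hc.2.1 _ hx _ hy h

lemma prod_cfg {N X : ℕ} {c : Finset (ℕ × T)} (hc : IsCfg N X c) :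
    ∏ x ∈ c, x.1 = ∏ p ∈ c.image Prod.fst, p := by
  rw [Finset.prod_image (fst_inj hc)]

lemma pf_cfg {N X : ℕ} {c : Finset (ℕ × T)} (hc : IsCfg N X c) :
    (∏ x ∈ c, x.1).primeFactors = c.image Prod.fst := by
  rw [prod_cfg hc]
  apply Nat.primeFactors_prod
  intro p hp
  obtain ⟨x, hx, rfl⟩ := Finset.mem_image.1 hp
  exact (hc.1 x hx).1

lemma sf_cfg {N X : ℕ} {c : Finset (ℕ × T)} (hc : IsCfg N X c) :
    Squarefree (∏ x ∈ c, x.1) := by
  refine Finset.squarefree_prod_of_pairwise_isCoprime (fun x hx y hy hxy => ?_)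
    (fun x hx => (hc.1 x hx).1.prime.squarefree)
  have h1 := (hc.1 x hx).1
  have h2 := (hc.1 y hy).1
  have : x.1 ≠ y.1 := fun h => hxy (hc.2.1 x hx y hy h)
  exact Nat.coprime_iff_isRelPrime.1 ((Nat.coprime_primes h1 h2).2 this)

lemma mem_cfgs [Fintype T] {N X : ℕ} {c : Finset (ℕ × T)} : c ∈ cfgs T N X ↔ IsCfg N X c := by
  classical
  unfold cfgs
  rw [Finset.mem_filter, Finset.mem_powerset]
  refine ⟨fun h => h.2, fun h => ⟨fun x hx => ?_, h⟩⟩
  rw [Finset.mem_product]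
  refine ⟨?_, Finset.mem_univ _⟩
  rw [Finset.mem_range, Nat.lt_succ_iff]
  refine le_trans ?_ h.2.2
  refine Nat.le_of_dvd ?_ (Finset.dvd_prod_of_mem (fun x : ℕ × T => x.1) hx)
  exact Finset.prod_pos fun y hy => (h.1 y hy).1.pos

lemma isCfg_graph [DecidableEq T] {N X m : ℕ} (hm : m ≤ X) (hs : Squarefree m)
    (hN : ∀ p ∈ m.primeFactors, ¬ p ∣ N) (τ : ∀ p ∈ m.primeFactors, T) :
    IsCfg N X (graph m.primeFactors τ) := by
  refine ⟨fun x hx => ?_, fun x hx y hy h => ?_, ?_⟩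
  · obtain ⟨h, -⟩ := mem_graph.1 hx
    exact ⟨Nat.prime_of_mem_primeFactors h, hN _ h⟩
  · obtain ⟨h1, h1'⟩ := mem_graph.1 hx
    obtain ⟨h2, h2'⟩ := mem_graph.1 hy
    obtain ⟨x1, x2⟩ := x
    obtain ⟨y1, y2⟩ := y
    simp only at h
    subst h
    rw [Prod.mk.injEq]
    exact ⟨rfl, h1'.trans h2'.symm⟩
  · rw [prod_graph, Nat.prod_primeFactors_of_squarefree hs]
    exact hm

end FIBG_

open FIBG_ in
theorem p_FIBG : T_FIBG := by
  intro T _ _ F N X
  symm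
  rw [Finset.sum_sigma']
  refine Finset.sum_bij (fun z _ => graph z.1.primeFactors z.2) ?_ ?_ ?_ ?_
  · rintro ⟨m, τ⟩ hz
    rw [Finset.mem_sigma, Finset.mem_filter, Finset.mem_range, Nat.lt_succ_iff] at hz
    exact mem_cfgs.2 (isCfg_graph hz.1.1 hz.1.2.1 hz.1.2.2 τ)
  · rintro ⟨m, τ⟩ hz ⟨m', τ'⟩ hz' h
    rw [Finset.mem_sigma, Finset.mem_filter] at hz hz'
    simp only at h hz hz'
    have e : m = m' := by
      rw [← Nat.prod_primeFactors_of_squarefree hz.1.2.1,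
        ← Nat.prod_primeFactors_of_squarefree hz'.1.2.1, ← prod_graph _ τ, h, prod_graph]
    subst e
    have e2 : τ = τ' := by
      funext p hp
      have h1 : (p, τ p hp) ∈ graph m.primeFactors τ := mem_graph.2 ⟨hp, rfl⟩
      rw [h] at h1
      obtain ⟨_, h2⟩ := mem_graph.1 h1
      exact h2
    rw [e2]
  · intro c hc
    rw [mem_cfgs] at hc
    have hpf := pf_cfg hc
    have ex : ∀ p ∈ (∏ x ∈ c, x.1).primeFactors, ∃ t : T, (p, t) ∈ c := by
      intro p hp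
      rw [hpf] at hp
      obtain ⟨x, hx, rfl⟩ := Finset.mem_image.1 hp
      exact ⟨x.2, hx⟩
    choose τ hτ using ex
    refine ⟨⟨∏ x ∈ c, x.1, τ⟩, ?_, ?_⟩
    · rw [Finset.mem_sigma, Finset.mem_filter, Finset.mem_range, Nat.lt_succ_iff]
      refine ⟨⟨hc.2.2, sf_cfg hc, fun p hp => ?_⟩, ?_⟩
      · rw [hpf] at hp
        obtain ⟨x, hx, rfl⟩ := Finset.mem_image.1 hp
        exact (hc.1 x hx).2
      · rw [Finset.mem_pi]
        intro p hp
        exact Finset.mem_univ _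
    · ext x
      simp only
      rw [mem_graph]
      constructor
      · rintro ⟨h, h'⟩
        have := hτ x.1 h
        rw [← h'] at this
        exact this
      · intro hx
        have h : x.1 ∈ (∏ x ∈ c, x.1).primeFactors := by
          rw [hpf]; exact Finset.mem_image_of_mem _ hx
        refine ⟨h, ?_⟩
        have := hc.2.1 x hx _ (hτ x.1 h) rfl
        exact congrArg Prod.snd this
  · rintro ⟨m, τ⟩ hz
    rfl

end Pool.Agent.QTw
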