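import Pool.Agent.QTw.Targets

/-! # COUNT: assembly of part C -/

open Polynomial

namespace Pool.Agent.QTw

namespace COUNT_

/-- powers of `log t` against powers of `t` -/
theorem log_pow_le (ε : ℝ) (hε : 0 < ε) (D : ℕ) :
    ∃ C : ℝ, 0 ≤ C ∧ ∀ t : ℝ, 1 ≤ t → (Real.log t + 2) ^ D ≤ C * t ^ ε := by
  rcases Nat.eq_zero_or_pos D with rfl | hD
  · refine ⟨1, zero_le_one, fun t ht => ?_⟩
    rw [pow_zero, one_mul]
    exact Real.one_le_rpow ht hε.le
  set η : ℝ := ε / D with hη
  have hD' : (0 : ℝ) < D := by exact_mod_cast hD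
  have hη0 : 0 < η := div_pos hε hD'
  refine ⟨(1 / η + 2) ^ D, by positivity, fun t ht => ?_⟩
  have h1 : Real.log t ≤ t ^ η / η := Real.log_le_rpow_div (by linarith) hη0
  have h2 : (1 : ℝ) ≤ t ^ η := Real.one_le_rpow ht hη0.le
  have h3 : Real.log t + 2 ≤ (1 / η + 2) * t ^ η := by
    rw [add_mul, one_div, inv_mul_eq_div]
    linarith
  have h4 : 0 ≤ Real.log t + 2 := by
    have := Real.log_nonneg ht
    linarith
  calc (Real.log t + 2) ^ D ≤ ((1 / η + 2) * t ^ η) ^ D := pow_le_pow_left₀ h4 h3 D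
    _ = (1 / η + 2) ^ D * t ^ ε := by
        rw [mul_pow, ← Real.rpow_natCast (t ^ η) D, ← Real.rpow_mul (by linarith), hη,
          div_mul_cancel₀ _ hD'.ne']

/-- the number of blocks -/
theorem blk_le (X : ℕ) (hX : 2 ≤ X) (h1 : 1 ≤ Real.log X) :
    (blk X : ℝ) + 1 ≤ Real.log (Real.log X) + 2 := by
  have hX0 : (0 : ℝ) < X := by exact_mod_cast (by omega : 0 < X)
  unfold blk
  have hl2 : 1 ≤ Nat.log 2 X := by
    rw [Nat.one_le_iff_ne_zero]
    intro h
    rw [Nat.log_eq_zero_iff] at h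
    omega
  have h2 : (2 : ℝ) ^ (Nat.log 2 X) ≤ X := by
    exact_mod_cast Nat.pow_log_le_self 2 (by omega)
  have h3 : (16 : ℝ) ^ (Nat.log 16 (Nat.log 2 X)) ≤ (Nat.log 2 X : ℝ) := by
    exact_mod_cast Nat.pow_log_le_self 16 (by omega)
  have h4 : (Nat.log 2 X : ℝ) * Real.log 2 ≤ Real.log X := by
    rw [← Real.log_pow]
    exact Real.log_le_log (by positivity) h2
  have hlog2 : (0.69 : ℝ) < Real.log 2 := by
    have := Real.log_two_gt_d9
    linarith
  have h5 : (Nat.log 2 X : ℝ) ≤ 2 * Real.log X := by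
    have : (0 : ℝ) ≤ (Nat.log 2 X : ℝ) := Nat.cast_nonneg _
    nlinarith
  have h6 : (Nat.log 16 (Nat.log 2 X) : ℝ) * Real.log 16 ≤ Real.log (2 * Real.log X) := by
    rw [← Real.log_pow]
    exact Real.log_le_log (by positivity) (h3.trans h5)
  have h7 : Real.log (2 * Real.log X) = Real.log 2 + Real.log (Real.log X) :=
    Real.log_mul (by norm_num) (by linarith)
  have h8 : Real.log 16 = 4 * Real.log 2 := by
    rw [show (16 : ℝ) = 2 ^ 4 by norm_num, Real.log_pow]
    norm_num
  have hlog2' : Real.log 2 < 0.7 := by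
    have := Real.log_two_lt_d9
    linarith
  have h9 : (0 : ℝ) ≤ (Nat.log 16 (Nat.log 2 X) : ℝ) := Nat.cast_nonneg _
  have h10 : 0 ≤ Real.log (Real.log X) := Real.log_nonneg h1
  rw [h7, h8] at h6
  nlinarith

open Classical in
/-- the weight only depends on the coefficients at the primes of the configuration -/
theorem Wt_congr {T : Type} [Fintype T] (a a' : ℕ → T → ℝ) (e : T → T → Prop)
    (c : Finset (ℕ × T)) (h : ∀ x ∈ c, a x.1 x.2 = a' x.1 x.2) : Wt a e c = Wt a' e c := by
  unfold Wt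
  rw [Finset.prod_congr rfl h]

/-- the weight is at most the product of the coefficients -/
theorem abs_Wt_le {T : Type} (a : ℕ → T → ℝ) (e : T → T → Prop) (c : Finset (ℕ × T)) :
    |Wt a e c| ≤ ∏ x ∈ c, |a x.1 x.2| := by
  classical
  unfold Wt
  rw [abs_mul, Finset.abs_prod, Finset.abs_prod]
  refine mul_le_of_le_one_right (Finset.prod_nonneg fun _ _ => abs_nonneg _) ?_
  refine Finset.prod_le_one (fun _ _ => abs_nonneg _) fun z _ => ?_
  split_ifs
  · rcases jacobiSym.trichotomy (z.2.1 : ℤ) z.1.1 with h | h | h <;> rw [h] <;> norm_num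
  · norm_num

variable {ι : Type} [Fintype ι] [DecidableEq ι]

open Classical in
/-- the truncated coefficients -/
noncomputable def tc (N : ℕ) (V : ι → ℕ → Finset (ι → ℤ)) (z : ℕ) (I : Finset ι) (u : ι → ℤ)
    (p : ℕ) (t : ι × Finset ι) : ℝ :=
  if p.Prime ∧ ¬ p ∣ N then coef V z I u p t else 0

open Classical in
/-- the truncated weights -/
noncomputable def tb (N : ℕ) (V : ι → ℕ → Finset (ι → ℤ)) (I : Finset ι)
    (p : ℕ) (i : ι) : ℝ :=
  if p.Prime ∧ ¬ p ∣ N ∧ i ∈ I then (kap V I i p : ℝ) / 2 ^ (I.card - 1) else 0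

theorem abs_jac_le (a : ℤ) (p : ℕ) : |(jacobiSym a p : ℝ)| ≤ 1 := by
  rcases jacobiSym.trichotomy a p with h | h | h <;> rw [h] <;> norm_num

omit [Fintype ι] in
theorem kap_le_aux [inst : DecidableEq (ι → ℤ)] {N : ℕ} {V : ι → ℕ → Finset (ι → ℤ)}
    (hV : IsSigns N V) (I : Finset ι) (i : ι)
    (p : ℕ) (hp : p.Prime) (hpN : ¬ p ∣ N) :
    (@Finset.image (ι → ℤ) (ι → ℤ) inst (fun v j => if j ∈ I.erase i then v j else 1)
      (V i p)).card ≤ 2 ^ ((I.erase i).card) := by
  have h1 : (@Finset.image (ι → ℤ) (ι → ℤ) inst (fun v j => if j ∈ I.erase i then v j else 1)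
      (V i p)) ⊆ @Finset.image (Finset ι) (ι → ℤ) inst
        (fun (S : Finset ι) (j : ι) => if j ∈ S then (-1 : ℤ) else 1) ((I.erase i).powerset) := by
    intro w hw
    rw [Finset.mem_image] at hw
    obtain ⟨v, hv, rfl⟩ := hw
    rw [Finset.mem_image]
    refine ⟨(I.erase i).filter (fun j => v j = -1),
      Finset.mem_powerset.mpr (Finset.filter_subset _ _), ?_⟩
    funext j
    by_cases hj : j ∈ I.erase i
    · rw [if_pos hj]
      rcases hV i p hp hpN v hv j with h | h
      · rw [h, if_neg]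
        intro hh
        have := (Finset.mem_filter.mp hh).2
        omega
      · rw [h, if_pos (Finset.mem_filter.mpr ⟨hj, h⟩)]
    · rw [if_neg hj, if_neg (fun hh => hj (Finset.mem_filter.mp hh).1)]
  calc _ ≤ _ := Finset.card_le_card h1
    _ ≤ ((I.erase i).powerset).card := Finset.card_image_le
    _ = 2 ^ ((I.erase i).card) := Finset.card_powerset _

theorem kap_le {N : ℕ} {V : ι → ℕ → Finset (ι → ℤ)} (hV : IsSigns N V) (I : Finset ι) (i : ι)
    (p : ℕ) (hp : p.Prime) (hpN : ¬ p ∣ N) : kap V I i p ≤ 2 ^ ((I.erase i).card) := by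
  unfold kap
  exact kap_le_aux (inst := fun a b => Classical.propDecidable (a = b)) hV I i p hp hpN

theorem tb_bounds {N : ℕ} {V : ι → ℕ → Finset (ι → ℤ)} (hV : IsSigns N V) (I : Finset ι)
    (p : ℕ) (i : ι) : 0 ≤ tb N V I p i ∧ tb N V I p i ≤ 1 := by
  unfold tb
  split_ifs with h
  · refine ⟨by positivity, ?_⟩
    rw [div_le_one (by positivity)]
    have h1 := kap_le hV I i p h.1 h.2.1
    rw [Finset.card_erase_of_mem h.2.2] at h1
    exact_mod_cast h1
  · exact ⟨le_rfl, zero_le_one⟩

theorem abs_tc_le {N : ℕ} {V : ι → ℕ → Finset (ι → ℤ)} (hV : IsSigns N V) (z : ℕ)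
    (I : Finset ι) (u : ι → ℤ) (p : ℕ) (i : ι) (S : Finset ι) :
    |tc N V z I u p (i, S)| ≤ if p ≤ z then (if S = ∅ then 1 else 0) else
      if i ∈ I ∧ S ⊆ I.erase i then tb N V I p i else 0 := by
  classical
  unfold tc
  by_cases hp : p.Prime ∧ ¬ p ∣ N
  · rw [if_pos hp]
    unfold coef
    by_cases hz : p ≤ z
    · rw [if_pos hz, if_pos hz]
      split_ifs <;> norm_num
    · rw [if_neg hz, if_neg hz]
      by_cases hI : i ∈ I ∧ S ⊆ I.erase i
      · rw [if_pos hI, if_pos hI, abs_div, abs_mul]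
        unfold tb
        rw [if_pos ⟨hp.1, hp.2, hI.1⟩, abs_of_pos (by positivity : (0 : ℝ) < 2 ^ (I.card - 1))]
        refine div_le_div_of_nonneg_right ?_ (by positivity)
        have h1 : |∏ j ∈ S, (jacobiSym (u j) p : ℝ)| ≤ 1 := by
          rw [Finset.abs_prod]
          exact Finset.prod_le_one (fun _ _ => abs_nonneg _) fun j _ => abs_jac_le _ _
        have h2 : |∑ v ∈ @Finset.image _ _ (fun a b => Classical.propDecidable (a = b))
            (fun (v : ι → ℤ) (j : ι) => if j ∈ I.erase i then v j else 1) (V i p),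
            ∏ j ∈ S, (v j : ℝ)| ≤ (kap V I i p : ℝ) := by
          unfold kap
          refine le_trans (Finset.abs_sum_le_sum_abs (fun (v : ι → ℤ) => ∏ j ∈ S, (v j : ℝ)) _) ?_
          rw [Finset.cast_card]
          refine Finset.sum_le_sum fun w hw => ?_
          obtain ⟨v, hv, rfl⟩ := (@Finset.mem_image _ _ (fun a b => Classical.propDecidable (a = b))
            _ _ _).mp hw
          rw [Finset.abs_prod]
          refine Finset.prod_le_one (fun _ _ => abs_nonneg _) fun j _ => ?_
          show |(((if j ∈ I.erase i then v j else 1 : ℤ)) : ℝ)| ≤ 1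
          by_cases hj : j ∈ I.erase i
          · rw [if_pos hj]
            rcases hV i p hp.1 hp.2 v hv j with h | h <;> rw [h] <;> norm_num
          · rw [if_neg hj]
            norm_num
        exact (mul_le_mul h2 h1 (abs_nonneg _) (Nat.cast_nonneg _)).trans (mul_one _).le
      · rw [if_neg hI, if_neg hI]
        norm_num
  · rw [if_neg hp, abs_zero]
    split_ifs
    · norm_num
    · norm_num
    · exact (tb_bounds hV I p i).1
    · norm_num

theorem abs_tc_le_one {N : ℕ} {V : ι → ℕ → Finset (ι → ℤ)} (hV : IsSigns N V) (z : ℕ)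
    (I : Finset ι) (u : ι → ℤ) (p : ℕ) (t : ι × Finset ι) :
    |tc N V z I u p t| ≤ 1 := by
  refine le_trans (abs_tc_le hV z I u p t.1 t.2) ?_
  split_ifs
  · norm_num
  · norm_num
  · exact (tb_bounds hV I p t.1).2
  · norm_num

omit [Fintype ι] in
theorem sum_tb {N : ℕ} (V : ι → ℕ → Finset (ι → ℤ)) (I : Finset ι) (X : ℕ) :
    ∑ p ∈ primesTo N X, (∑ i ∈ I, tb N V I p i) / p = ∑ p ∈ primesTo N X, wt V I p / p := by
  refine Finset.sum_congr rfl fun p hp => ?_
  unfold primesTo at hp
  rw [Finset.mem_filter] at hp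
  congr 1
  unfold wt
  rw [Finset.sum_div]
  refine Finset.sum_congr rfl fun i hi => ?_
  unfold tb
  rw [if_pos ⟨hp.2.1, hp.2.2, hi⟩]

open Classical in
/-- the bound for one support -/
theorem perI (h3 : T_UNB) (h4 : T_BAL) (h5 : T_SMALL) (N : ℕ) (V : ι → ℕ → Finset (ι → ℤ))
    (hN : 2 ∣ N) (hV : IsSigns N V) (hW : SmallWeights N V) (I : Finset ι) :
    ∃ c : ℝ, 0 < c ∧ c ≤ 1 ∧ ∃ B : ℝ, 0 ≤ B ∧ ∀ X : ℕ, 16 ≤ X →
      Real.exp 1 ≤ Real.log X → ∀ u : ι → ℤ,
      ∑ c ∈ (cfgs (ι × Finset ι) N X).filter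
        (fun c => (rtypes (⌈(Real.log X) ^ (2 * Fintype.card (ι × Finset ι) + 4)⌉₊ + 3) c).image
          Prod.fst = I),
        Wt (coef V (⌈(Real.log X) ^ (2 * Fintype.card (ι × Finset ι) + 4)⌉₊ + 3) I u) lnk c ≤
        B * X * (Real.log X) ^ (-c) := by
  obtain ⟨BU, hBU0, hBU⟩ := h3 (ι × Finset ι) lnk
  obtain ⟨BB, hBB0, hBB⟩ := h4 ι
  obtain ⟨BS, hBS0, hBS⟩ := h5
  set K : ℕ := Fintype.card (ι × Finset ι) with hK
  -- the constants for the weights
  have hc : ∃ c : ℝ, 0 < c ∧ c ≤ 1 ∧ ∃ B : ℝ, ∀ X : ℕ, 3 ≤ X → 1 ≤ Real.log X →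
      ∑ p ∈ primesTo N X, wt V I p / p ≤ (1 - c) * Real.log (Real.log X) + B := by
    rcases I.eq_empty_or_nonempty with rfl | hI
    · refine ⟨1, one_pos, le_rfl, 0, fun X _ _ => ?_⟩
      unfold wt
      simp
    · obtain ⟨c, hc0, B, hB⟩ := hW I hI
      refine ⟨min c 1, lt_min hc0 one_pos, min_le_right _ _, B, fun X hX hl => ?_⟩
      refine (hB X hX).trans ?_
      have h1 : 0 ≤ Real.log (Real.log X) := Real.log_nonneg hl
      have h2 : min c 1 ≤ c := min_le_left _ _
      nlinarith
  obtain ⟨c, hc0, hc1, BI, hBI⟩ := hc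
  obtain ⟨M, hM⟩ := exists_nat_ge ((Fintype.card ι : ℝ) * BS)
  obtain ⟨Cε, hCε0, hCε⟩ := log_pow_le (c / 2) (by linarith) (K + M)
  set C1 : ℝ := (Real.exp 1 * (2 * K + 6)) ^ M with hC1
  have hC10 : 0 ≤ C1 := by positivity
  refine ⟨c / 2, by linarith, by linarith,
    BU * 2 ^ K + BB * C1 * Real.exp BI * Cε, by positivity, fun X hX hlX u => ?_⟩
  set t : ℝ := Real.log X with ht
  have he1 : (2.7 : ℝ) < Real.exp 1 := by
    have := Real.exp_one_gt_d9
    linarith
  have ht1 : 1 ≤ t := by linarith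
  have ht0 : 0 < t := by linarith
  have hlt : 1 ≤ Real.log t := by
    rw [Real.le_log_iff_exp_le ht0]
    exact hlX
  set z : ℕ := ⌈t ^ (2 * K + 4)⌉₊ + 3 with hz
  have hzr : t ^ (2 * K + 4) ≤ (z : ℝ) := by
    rw [hz]
    push_cast
    have := Nat.le_ceil (t ^ (2 * K + 4))
    linarith
  have hzr2 : (z : ℝ) ≤ 5 * t ^ (2 * K + 4) := by
    rw [hz]
    push_cast
    have h1 := Nat.ceil_lt_add_one (a := t ^ (2 * K + 4)) (by positivity)
    have h2 : 1 ≤ t ^ (2 * K + 4) := one_le_pow₀ ht1
    linarith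
  have hz3 : 3 ≤ z := by omega
  have hX0 : (0 : ℝ) < X := by exact_mod_cast (by omega : 0 < X)
  -- split
  have hWt : ∀ c ∈ cfgs (ι × Finset ι) N X, Wt (coef V z I u) lnk c = Wt (tc N V z I u) lnk c := by
    intro c hc
    refine Wt_congr _ _ _ _ fun x hx => ?_
    unfold cfgs at hc
    rw [Finset.mem_filter] at hc
    have := hc.2.1 x hx
    unfold tc
    rw [if_pos this]
  have hsplit : ∑ c ∈ (cfgs (ι × Finset ι) N X).filter
        (fun c => (rtypes z c).image Prod.fst = I), Wt (coef V z I u) lnk c =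
      ∑ c ∈ (cfgs (ι × Finset ι) N X).filter
        (fun c => Unb lnk z c ∧ (rtypes z c).image Prod.fst = I), Wt (tc N V z I u) lnk c +
      ∑ c ∈ (cfgs (ι × Finset ι) N X).filter
        (fun c => ¬ Unb lnk z c ∧ (rtypes z c).image Prod.fst = I), Wt (tc N V z I u) lnk c := by
    rw [← Finset.sum_filter_add_sum_filter_not _ (fun c => Unb lnk z c), Finset.filter_filter,
      Finset.filter_filter]
    congr 1
    · refine Finset.sum_congr ?_ fun c hc => hWt c (Finset.mem_filter.mp hc).1
      ext c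
      simp only [Finset.mem_filter]
      tauto
    · refine Finset.sum_congr ?_ fun c hc => hWt c (Finset.mem_filter.mp hc).1
      ext c
      simp only [Finset.mem_filter]
      tauto
  rw [hsplit]
  -- the unbalanced part
  have hU : ∑ c ∈ (cfgs (ι × Finset ι) N X).filter
        (fun c => Unb lnk z c ∧ (rtypes z c).image Prod.fst = I), Wt (tc N V z I u) lnk c ≤
      BU * 2 ^ K * X * t ^ (-(c / 2)) := by
    have h1 := hBU (tc N V z I u) N z X (fun s => s.image Prod.fst = I) hN (by omega) (by omega)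
      (abs_tc_le_one hV z I u)
    refine le_trans (b := BU * X * (1 + t) ^ K / Real.sqrt z) ?_ ?_
    · convert le_trans (le_abs_self _) h1
    have h2 : t ^ (K + 2) ≤ Real.sqrt z := by
      refine Real.le_sqrt_of_sq_le ?_
      rw [← pow_mul]
      calc t ^ ((K + 2) * 2) = t ^ (2 * K + 4) := by ring_nf
        _ ≤ z := hzr
    have h3 : (1 + t) ^ K ≤ 2 ^ K * t ^ K := by
      rw [← mul_pow]
      exact pow_le_pow_left₀ (by linarith) (by linarith) K
    have h4 : t ^ (-(2 : ℝ)) ≤ t ^ (-(c / 2)) :=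
      Real.rpow_le_rpow_of_exponent_le ht1 (by linarith)
    calc BU * X * (1 + t) ^ K / Real.sqrt z ≤ BU * X * (2 ^ K * t ^ K) / t ^ (K + 2) := by
          apply div_le_div₀ (by positivity) _ (by positivity) h2
          exact mul_le_mul_of_nonneg_left h3 (by positivity)
      _ = BU * 2 ^ K * X * t ^ (-(2 : ℝ)) := by
          rw [Real.rpow_neg ht0.le, show (2 : ℝ) = ((2 : ℕ) : ℝ) by norm_num, Real.rpow_natCast,
            pow_add]
          field_simp
      _ ≤ BU * 2 ^ K * X * t ^ (-(c / 2)) := mul_le_mul_of_nonneg_left h4 (by positivity)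
  -- the balanced part
  have hB : ∑ c ∈ (cfgs (ι × Finset ι) N X).filter
        (fun c => ¬ Unb lnk z c ∧ (rtypes z c).image Prod.fst = I), Wt (tc N V z I u) lnk c ≤
      BB * C1 * Real.exp BI * Cε * X * t ^ (-(c / 2)) := by
    have h1 := hBB (tc N V z I u) (tb N V I) I N z X (by omega) (fun p i => tb_bounds hV I p i)
      (abs_tc_le hV z I u)
    refine le_trans (Finset.sum_le_sum fun c _ =>
      le_trans (le_abs_self _) (abs_Wt_le _ _ _)) (le_trans h1 ?_)
    rw [sum_tb]
    have h2 := hBI X (by omega) ht1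
    have h3 := hBS z hz3
    have h4 : (blk X : ℝ) + 1 ≤ Real.log t + 2 := blk_le X (by omega) ht1
    have h5 : Real.log z ≤ (2 * K + 6) * Real.log t := by
      have hz0 : (0 : ℝ) < z := by exact_mod_cast (by omega : 0 < z)
      calc Real.log z ≤ Real.log (5 * t ^ (2 * K + 4)) := Real.log_le_log hz0 hzr2
        _ = Real.log 5 + (2 * K + 4) * Real.log t := by
            rw [Real.log_mul (by norm_num) (by positivity), Real.log_pow]
            push_cast
            ring
        _ ≤ (2 * K + 6) * Real.log t := by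
            have h6 : Real.log 5 ≤ 2 := by
              rw [Real.log_le_iff_le_exp (by norm_num)]
              have h7 : Real.exp 2 = Real.exp 1 * Real.exp 1 := by
                rw [← Real.exp_add]
                norm_num
              rw [h7]
              nlinarith
            nlinarith
    have hlz1 : 1 ≤ Real.log z := by
      rw [Real.le_log_iff_exp_le (by exact_mod_cast (by omega : 0 < z))]
      have h6 : (3 : ℝ) ≤ z := by exact_mod_cast hz3
      have := Real.exp_one_lt_d9
      linarith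
    have h6 : Real.exp (Fintype.card ι *
        (∑ p ∈ (Finset.range (z + 1)).filter Nat.Prime, 1 / (p : ℝ))) ≤
        C1 * (Real.log t) ^ M := by
      have h7 : (Fintype.card ι : ℝ) *
          (∑ p ∈ (Finset.range (z + 1)).filter Nat.Prime, 1 / (p : ℝ)) ≤
          M * (Real.log (Real.log z) + 1) := by
        have h8 : 0 ≤ Real.log (Real.log z) + 1 := by
          have := Real.log_nonneg hlz1
          linarith
        calc (Fintype.card ι : ℝ) *
              (∑ p ∈ (Finset.range (z + 1)).filter Nat.Prime, 1 / (p : ℝ)) ≤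
              Fintype.card ι * (BS * (Real.log (Real.log z) + 1)) :=
              mul_le_mul_of_nonneg_left h3 (Nat.cast_nonneg _)
          _ = (Fintype.card ι * BS) * (Real.log (Real.log z) + 1) := by ring
          _ ≤ M * (Real.log (Real.log z) + 1) := mul_le_mul_of_nonneg_right hM h8
      refine le_trans (Real.exp_le_exp.mpr h7) ?_
      have h9 : Real.exp (M * (Real.log (Real.log z) + 1)) = (Real.exp 1 * Real.log z) ^ M := by
        rw [mul_add, mul_one, Real.exp_add, mul_comm, mul_comm (M : ℝ) (Real.log _),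
          mul_pow, ← Real.exp_nat_mul, mul_one, Real.exp_mul,
          Real.exp_log (by linarith), Real.rpow_natCast]
      rw [h9, hC1, ← mul_pow]
      refine pow_le_pow_left₀ (by positivity) ?_ M
      calc Real.exp 1 * Real.log z ≤ Real.exp 1 * ((2 * K + 6) * Real.log t) :=
            mul_le_mul_of_nonneg_left h5 (Real.exp_pos 1).le
        _ = Real.exp 1 * (2 * K + 6) * Real.log t := by ring
    have h7 : Real.exp (∑ p ∈ primesTo N X, wt V I p / p) ≤ Real.exp BI * (t * t ^ (-c)) := by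
      refine le_trans (Real.exp_le_exp.mpr h2) ?_
      rw [add_comm, Real.exp_add]
      refine mul_le_mul_of_nonneg_left (le_of_eq ?_) (Real.exp_pos _).le
      rw [mul_comm (1 - c), Real.exp_mul, Real.exp_log ht0, sub_eq_add_neg,
        Real.rpow_add ht0, Real.rpow_one]
    rw [Real.exp_add]
    have hlogt0 : 0 ≤ Real.log t := by linarith
    calc BB * (X / Real.log X) * ((blk X : ℝ) + 1) ^ K *
          (Real.exp (Fintype.card ι *
            (∑ p ∈ (Finset.range (z + 1)).filter Nat.Prime, 1 / (p : ℝ))) *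
          Real.exp (∑ p ∈ primesTo N X, wt V I p / p))
        ≤ BB * (X / t) * (Real.log t + 2) ^ K *
          ((C1 * (Real.log t) ^ M) * (Real.exp BI * (t * t ^ (-c)))) := by
          refine mul_le_mul ?_ (mul_le_mul h6 h7 (Real.exp_pos _).le (by positivity))
            (by positivity) (by positivity)
          refine mul_le_mul_of_nonneg_left ?_ (by positivity)
          exact pow_le_pow_left₀ (by positivity) h4 K
      _ ≤ BB * (X / t) * (Real.log t + 2) ^ K *
          ((C1 * (Real.log t + 2) ^ M) * (Real.exp BI * (t * t ^ (-c)))) := by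
          have : (Real.log t) ^ M ≤ (Real.log t + 2) ^ M :=
            pow_le_pow_left₀ hlogt0 (by linarith) M
          gcongr
      _ = BB * C1 * Real.exp BI * X * ((Real.log t + 2) ^ (K + M) * t ^ (-c)) := by
          rw [pow_add]
          field_simp
      _ ≤ BB * C1 * Real.exp BI * X * ((Cε * t ^ (c / 2)) * t ^ (-c)) := by
          refine mul_le_mul_of_nonneg_left ?_ (by positivity)
          exact mul_le_mul_of_nonneg_right (hCε t ht1) (by positivity)
      _ = BB * C1 * Real.exp BI * Cε * X * t ^ (-(c / 2)) := by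
          rw [mul_assoc Cε, ← Real.rpow_add ht0, show c / 2 + -c = -(c / 2) by ring]
          ring
  calc _ ≤ BU * 2 ^ K * X * t ^ (-(c / 2)) +
        BB * C1 * Real.exp BI * Cε * X * t ^ (-(c / 2)) := add_le_add hU hB
    _ = _ := by ring

end COUNT_

open COUNT_

open Classical in
theorem p_COUNT (h1 : T_RED) (h2 : T_EXP) (h3 : T_UNB) (h4 : T_BAL) (h5 : T_SMALL) :
    T_COUNT := by
  intro ι _ _ N V hN0 hN2 hV hW
  choose c hc0 hc1 B hB0 hB using fun I => perI h3 h4 h5 N V hN2 hV hW I
  -- a common exponent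
  obtain ⟨c', hc'0, hc'⟩ : ∃ c' : ℝ, 0 < c' ∧ ∀ I, c' ≤ c I := by
    refine ⟨Finset.univ.inf' Finset.univ_nonempty c, ?_, fun I =>
      Finset.inf'_le _ (Finset.mem_univ I)⟩
    rw [Finset.lt_inf'_iff]
    exact fun I _ => hc0 I
  obtain ⟨X0, hX0⟩ : ∃ X0 : ℕ, 16 ≤ X0 ∧ ∀ X : ℕ, X0 ≤ X → Real.exp 1 ≤ Real.log X := by
    have h := (Real.tendsto_log_atTop.comp tendsto_natCast_atTop_atTop).eventually_ge_atTop
      (Real.exp 1)
    obtain ⟨a, ha⟩ := Filter.eventually_atTop.mp h
    exact ⟨max a 16, le_max_right _ _, fun X hX => ha X ((le_max_left _ _).trans hX)⟩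
  set U : Finset (ι → ℤ) := Fintype.piFinset (fun _ : ι => Finset.Icc (-(N : ℤ)) N) with hU
  set B1 : ℝ := N * ∑ I : Finset ι, (U.card : ℝ) * B I with hB1
  have hB10 : 0 ≤ B1 := by
    refine mul_nonneg (Nat.cast_nonneg _) (Finset.sum_nonneg fun I _ => ?_)
    exact mul_nonneg (Nat.cast_nonneg _) (hB0 I)
  refine ⟨c', hc'0, B1 + 2 * (Real.log X0) ^ c', fun X hX => ?_⟩
  have hXr : (0 : ℝ) < X := by exact_mod_cast (by omega : 0 < X)
  have hlog : 0 < Real.log X := Real.log_pos (by exact_mod_cast (by omega : 1 < X))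
  rcases lt_or_ge X X0 with hlt | hge
  · -- small X
    have h6 : (((Finset.range (X + 1)).filter (fun m => Squarefree m ∧ Bad N V m)).card : ℝ) ≤
        2 * X := by
      have : ((Finset.range (X + 1)).filter (fun m => Squarefree m ∧ Bad N V m)).card ≤
          2 * X := by
        refine le_trans (Finset.card_filter_le _ _) ?_
        rw [Finset.card_range]
        omega
      exact_mod_cast this
    refine le_trans h6 ?_
    rw [le_div_iff₀ (by positivity)]
    have h7 : (Real.log X) ^ c' ≤ (Real.log X0) ^ c' :=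
      Real.rpow_le_rpow hlog.le (Real.log_le_log hXr (by exact_mod_cast hlt.le)) hc'0.le
    nlinarith [mul_nonneg hB10 hXr.le, mul_le_mul_of_nonneg_left h7 hXr.le]
  · -- large X
    have hlX := hX0.2 X hge
    have h16 : 16 ≤ X := hX0.1.trans hge
    have ht1 : 1 ≤ Real.log X := by
      have := Real.exp_one_gt_d9
      linarith
    have h6 := h2 ι N V hN0 hN2 hV
      (⌈(Real.log X) ^ (2 * Fintype.card (ι × Finset ι) + 4)⌉₊ + 3) X
    have h7 : (((Finset.range (X + 1)).filter
        (fun m => Squarefree m ∧ (∀ p ∈ m.primeFactors, ¬ p ∣ N) ∧ Bad N V m)).card : ℝ) ≤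
        (∑ I : Finset ι, (U.card : ℝ) * B I) * X * (Real.log X) ^ (-c') := by
      refine le_trans h6 ?_
      rw [Finset.sum_mul, Finset.sum_mul]
      refine Finset.sum_le_sum fun I _ => ?_
      rw [show (U.card : ℝ) * B I * X * (Real.log X) ^ (-c') =
        U.card • (B I * X * (Real.log X) ^ (-c')) by rw [nsmul_eq_mul]; ring]
      refine Finset.sum_le_card_nsmul _ _ _ fun u _ => ?_
      split_ifs with hu
      · refine le_trans (hB I X h16 hlX u) ?_
        refine mul_le_mul_of_nonneg_left ?_ (mul_nonneg (hB0 I) hXr.le)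
        exact Real.rpow_le_rpow_of_exponent_le ht1 (neg_le_neg (hc' I))
      · exact mul_nonneg (mul_nonneg (hB0 I) hXr.le) (by positivity)
    have h8 := h1 ι N X V hN0
    have h9 : (((Finset.range (X + 1)).filter (fun m => Squarefree m ∧ Bad N V m)).card : ℝ) ≤
        N * (((Finset.range (X + 1)).filter
          (fun m => Squarefree m ∧ (∀ p ∈ m.primeFactors, ¬ p ∣ N) ∧ Bad N V m)).card : ℝ) := by
      exact_mod_cast h8
    calc (((Finset.range (X + 1)).filter (fun m => Squarefree m ∧ Bad N V m)).card : ℝ)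
        ≤ N * ((∑ I : Finset ι, (U.card : ℝ) * B I) * X * (Real.log X) ^ (-c')) :=
          h9.trans (mul_le_mul_of_nonneg_left h7 (Nat.cast_nonneg _))
      _ = B1 * X / (Real.log X) ^ c' := by
          rw [Real.rpow_neg hlog.le, hB1]
          field_simp
      _ ≤ (B1 + 2 * (Real.log X0) ^ c') * X / (Real.log X) ^ c' := by
          have : 0 ≤ (Real.log X0) ^ c' := by
            refine Real.rpow_nonneg (Real.log_nonneg ?_) _
            exact_mod_cast (by omega : 1 ≤ X0)
          gcongr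
          linarith

end Pool.Agent.QTw
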