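import Pool.Agent.QTw.Targets

set_option autoImplicit false

open Polynomial

namespace Pool.Agent.QTw

namespace EMB_

/-- substitution of a transcendental element -/
noncomputable def sub {L : Type} [Field L] [CharZero L] (x : L) (hx : Transcendental ℚ x) :
    RatFunc ℚ →+* L :=
  RatFunc.liftRingHom ((aeval x : ℚ[X] →ₐ[ℚ] L) : ℚ[X] →+* L) (by
    intro p hp
    rw [Submonoid.mem_comap]
    refine mem_nonZeroDivisors_of_ne_zero fun h => ?_
    have := transcendental_iff.1 hx p h
    exact nonZeroDivisors.ne_zero hp this)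

lemma sub_poly {L : Type} [Field L] [CharZero L] (x : L) (hx : Transcendental ℚ x) (p : ℚ[X]) :
    sub x hx (algebraMap ℚ[X] (RatFunc ℚ) p) = aeval x p := by
  rw [sub, RatFunc.liftRingHom_apply]
  simp

lemma not_sq (f : ℤ[X]) (d : ℤ) (hd : d ≠ 0) (hf : 0 < f.natDegree)
    (hsq : Squarefree (f.map (Int.castRingHom ℚ))) (b : RatFunc ℚ) :
    b ^ 2 ≠ algebraMap ℚ[X] (RatFunc ℚ) (C (d : ℚ)⁻¹ * f.map (Int.castRingHom ℚ)) := by
  intro h
  obtain ⟨g, hg⟩ := IsIntegrallyClosed.exists_algebraMap_eq_of_isIntegral_pow (R := ℚ[X])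
    (x := b) (n := 2) (by norm_num) (by rw [h]; exact isIntegral_algebraMap)
  rw [← hg, ← map_pow] at h
  have h1 := IsFractionRing.injective ℚ[X] (RatFunc ℚ) h
  have h2 : f.map (Int.castRingHom ℚ) = C (d : ℚ) * (g * g) := by
    rw [← sq, h1, ← mul_assoc, ← C_mul, mul_inv_cancel₀ (by exact_mod_cast hd), C_1, one_mul]
  have h3 : IsUnit g := hsq g ⟨C (d : ℚ), by rw [h2, mul_comm]⟩
  have h4 : IsUnit (f.map (Int.castRingHom ℚ)) := by
    rw [h2]
    exact (isUnit_C.2 (isUnit_iff_ne_zero.2 (by exact_mod_cast hd))).mul (h3.mul h3)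
  have h5 := natDegree_eq_zero_of_isUnit h4
  rw [natDegree_map_eq_of_injective (RingHom.injective_int _)] at h5
  omega

end EMB_

open EMB_ in
theorem p_EMB : T_EMB := by
  intro F K _ _ _ _ x y ξ η f d hd hf hsq hF hξ hη
  let i := sub x hF.transcendental
  let j := sub ξ hξ
  let _ : Algebra (RatFunc ℚ) F := i.toAlgebra
  let _ : Algebra (RatFunc ℚ) K := j.toAlgebra
  set c : RatFunc ℚ := algebraMap ℚ[X] (RatFunc ℚ) (C (d : ℚ)⁻¹ * f.map (Int.castRingHom ℚ)) with hc
  have hci : algebraMap (RatFunc ℚ) F c = y ^ 2 := by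
    have : algebraMap (RatFunc ℚ) F c = aeval x (C (d : ℚ)⁻¹ * f.map (Int.castRingHom ℚ)) :=
      sub_poly x hF.transcendental _
    rw [this]
    have hd' : (d : F) ≠ 0 := by exact_mod_cast hd
    have h := hF.equation
    have h2 : aeval x (f.map (Int.castRingHom ℚ)) = aeval x f := by
      rw [aeval_def, eval₂_map, aeval_def]
      congr 1
      ext
      simp
    rw [map_mul, h2, ← h, aeval_C]
    simp
    field_simp
  have hcj : algebraMap (RatFunc ℚ) K c = η ^ 2 := by
    have : algebraMap (RatFunc ℚ) K c = aeval ξ (C (d : ℚ)⁻¹ * f.map (Int.castRingHom ℚ)) :=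
      sub_poly ξ hξ _
    rw [this]
    have hd' : (d : K) ≠ 0 := by exact_mod_cast hd
    have h2 : aeval ξ (f.map (Int.castRingHom ℚ)) = aeval ξ f := by
      rw [aeval_def, eval₂_map, aeval_def]
      congr 1
      ext
      simp
    rw [map_mul, h2, ← hη, aeval_C]
    simp
    field_simp
  have hirr : Irreducible (X ^ 2 - C c : (RatFunc ℚ)[X]) :=
    X_pow_sub_C_irreducible_of_prime Nat.prime_two (not_sq f d hd hf hsq)
  have hmon : (X ^ 2 - C c : (RatFunc ℚ)[X]).Monic := monic_X_pow_sub_C c (by norm_num)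
  have hay : aeval y (X ^ 2 - C c : (RatFunc ℚ)[X]) = 0 := by
    simp [hci]
  have haη : aeval η (X ^ 2 - C c : (RatFunc ℚ)[X]) = 0 := by
    simp [hcj]
  have hmin : minpoly (RatFunc ℚ) y = X ^ 2 - C c :=
    (minpoly.eq_of_irreducible_of_monic hirr hay hmon).symm
  have hint : IsIntegral (RatFunc ℚ) y := ⟨_, hmon, hay⟩
  have hroot : η ∈ (minpoly (RatFunc ℚ) y).aroots K := by
    rw [mem_aroots, hmin]
    exact ⟨hmon.ne_zero, haη⟩
  let φ : IntermediateField.adjoin (RatFunc ℚ) {y} →ₐ[RatFunc ℚ] K :=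
    (IntermediateField.algHomAdjoinIntegralEquiv (RatFunc ℚ) hint).symm ⟨η, hroot⟩
  have htop : IntermediateField.adjoin (RatFunc ℚ) {y} = ⊤ := by
    rw [eq_top_iff]
    intro z _
    have hz : z ∈ IntermediateField.adjoin ℚ {x, y} := by
      rw [hF.generate]
      exact IntermediateField.mem_top
    induction hz using IntermediateField.adjoin_induction with
    | mem z hz =>
      rcases hz with hz | hz
      · have h3 : algebraMap (RatFunc ℚ) F (algebraMap ℚ[X] (RatFunc ℚ) X) = x := by
          have := sub_poly x hF.transcendental X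
          rw [aeval_X] at this
          exact this
        have h4 : algebraMap (RatFunc ℚ) F (algebraMap ℚ[X] (RatFunc ℚ) X) ∈
          IntermediateField.adjoin (RatFunc ℚ) {y} := IntermediateField.algebraMap_mem _ _
        rw [h3] at h4
        rw [hz]
        exact h4
      · rw [Set.mem_singleton_iff] at hz
        rw [hz]
        exact IntermediateField.mem_adjoin_simple_self (RatFunc ℚ) y
    | algebraMap q =>
      rw [eq_ratCast]
      exact SubfieldClass.ratCast_mem _ q
    | add a b _ _ ha hb => exact add_mem (ha trivial) (hb trivial)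
    | inv a _ ha => exact inv_mem (ha trivial)
    | mul a b _ _ ha hb => exact mul_mem (ha trivial) (hb trivial)
  exact ⟨φ.toRingHom.comp (((IntermediateField.equivOfEq htop).symm.toAlgHom.comp
    IntermediateField.topEquiv.symm.toAlgHom : F →ₐ[RatFunc ℚ] _).toRingHom)⟩

end Pool.Agent.QTw
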