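import Pool.Agent.QTw.Targets

open Polynomial

namespace Pool.Agent.QTw

theorem exists_transcendental_complex : ∃ ξ : ℂ, Transcendental ℚ ξ := by
  by_contra h
  push Not at h
  have h1 : {x : ℂ | IsAlgebraic ℚ x} = Set.univ := by
    refine Set.eq_univ_of_forall fun x => ?_
    have := h x
    rwa [Transcendental, not_not] at this
  have h2 := Algebraic.countable ℚ ℂ
  rw [h1] at h2
  exact not_countable_complex h2

theorem adjoin_eq_top_of_closure {L : Type} [Field L] [CharZero L] (K : Subfield L) (s : Set K)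
    (hK : K ≤ Subfield.closure (K.subtype '' s)) :
    IntermediateField.adjoin ℚ s = ⊤ := by
  rw [eq_top_iff]
  intro z _
  have h1 : Subfield.closure (K.subtype '' s) ≤
      (IntermediateField.adjoin ℚ s).toSubfield.map K.subtype := by
    rw [Subfield.closure_le]
    rintro _ ⟨w, hw, rfl⟩
    exact ⟨w, IntermediateField.subset_adjoin ℚ s hw, rfl⟩
  obtain ⟨w, hw, hwz⟩ := h1 (hK z.2)
  have h2 : w = z := Subtype.ext hwz
  rw [← h2]
  exact hw

theorem t_EXFF : T_EXFF := by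
  intro f d hd
  obtain ⟨ξ, hξ⟩ := exists_transcendental_complex
  have hd' : (d : ℂ) ≠ 0 := by exact_mod_cast hd
  obtain ⟨η, hη⟩ : ∃ η : ℂ, η ^ 2 = (aeval ξ f) / (d : ℂ) := by
    obtain ⟨z, hz⟩ := IsAlgClosed.exists_pow_nat_eq ((aeval ξ f) / (d : ℂ)) (n := 2) (by norm_num)
    exact ⟨z, hz⟩
  obtain ⟨K, hK⟩ : ∃ K : Subfield ℂ, K = Subfield.closure ({ξ, η} : Set ℂ) := ⟨_, rfl⟩
  obtain ⟨x, hx⟩ : ∃ x : K, (K.subtype x) = ξ :=
    ⟨⟨ξ, by rw [hK]; exact Subfield.subset_closure (by simp)⟩, rfl⟩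
  obtain ⟨y, hy⟩ : ∃ y : K, (K.subtype y) = η :=
    ⟨⟨η, by rw [hK]; exact Subfield.subset_closure (by simp)⟩, rfl⟩
  refine ⟨K, inferInstance, inferInstance, x, y, ?_, ?_, ?_⟩
  · intro hal
    apply hξ
    obtain ⟨p, hp, hp0⟩ := hal
    refine ⟨p, hp, ?_⟩
    have h1 := congrArg K.subtype hp0
    rw [aeval_def, hom_eval₂, hx, map_zero] at h1
    rw [aeval_def, ← h1]
    congr 1
  · apply K.subtype.injective
    rw [map_mul, map_pow, map_intCast]
    have h1 : K.subtype (aeval x f) = aeval ξ f := by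
      rw [aeval_def, hom_eval₂, hx, aeval_def]
      congr 1
    rw [h1, hy, hη]
    field_simp
  · apply adjoin_eq_top_of_closure
    rw [Set.image_pair, hx, hy, hK]

end Pool.Agent.QTw
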