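import Pool.Agent.QTw.Targets

set_option autoImplicit false

/-!
# PTP: transcendental p-adic points near a simple root
-/

open Polynomial Filter Topology Cardinal

namespace Pool.Agent.QTw

namespace PTP_

/-- Every neighbourhood of `0` in `ℚ_p` contains a transcendental number. -/
lemma exists_transcendental (p : ℕ) [Fact p.Prime] {s : Set ℚ_[p]} (hs : s ∈ 𝓝 (0 : ℚ_[p])) :
    ∃ η ∈ s, Transcendental ℚ η := by
  by_contra hcon
  push Not at hcon
  have h1 : s ⊆ {x : ℚ_[p] | IsAlgebraic ℚ x} := by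
    intro x hx
    by_contra hx2
    exact hcon x hx hx2
  have h2 : s.Countable := (Algebraic.countable ℚ ℚ_[p]).mono h1
  have h3 : #s = #ℚ_[p] := cardinal_eq_of_mem_nhds ℚ_[p] hs
  have h4 : 𝔠 ≤ #ℚ_[p] := continuum_le_cardinal_of_nontriviallyNormedField ℚ_[p]
  have h5 : #s ≤ ℵ₀ := Cardinal.le_aleph0_iff_set_countable.2 h2
  rw [h3] at h5
  exact absurd (h4.trans h5) (not_le.2 aleph0_lt_continuum)

end PTP_

open PTP_ in
theorem p_PTP : T_PTP := by
  intro f d p _ θ hd hθ hθ'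
  -- the values of `f` near `θ` fill a neighbourhood of `0`
  have hder : HasStrictDerivAt (fun x : ℚ_[p] => aeval x f) (aeval θ (derivative f)) θ := by
    exact f.hasStrictDerivAt_aeval θ
  have hmap := hder.map_nhds_eq hθ'
  rw [hθ] at hmap
  have h1 : Set.range (fun x : ℚ_[p] => aeval x f) ∈ 𝓝 (0 : ℚ_[p]) := by
    rw [← hmap]
    exact Filter.range_mem_map
  have h2 : Tendsto (fun η : ℚ_[p] => (d : ℚ_[p]) * η ^ 2) (𝓝 0) (𝓝 0) := by
    have : Continuous fun η : ℚ_[p] => (d : ℚ_[p]) * η ^ 2 := by fun_prop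
    have h3 := this.tendsto 0
    simpa using h3
  obtain ⟨η, hη, hηt⟩ := exists_transcendental p (h2 h1)
  obtain ⟨ξ, hξ⟩ := hη
  simp only at hξ
  refine ⟨ξ, η, ?_, hξ.symm⟩
  intro halg
  apply hηt
  have h4 : IsAlgebraic ℚ (aeval ξ f) := by
    have : aeval ξ f = aeval ξ (f.map (Int.castRingHom ℚ)) := by
      rw [aeval_def, aeval_def, eval₂_map]
      congr 1
    rw [this]
    have hint : ξ ∈ integralClosure ℚ ℚ_[p] := by
      rw [mem_integralClosure_iff]
      exact isAlgebraic_iff_isIntegral.1 halg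
    have h6 : aeval ξ (f.map (Int.castRingHom ℚ)) =
        ((aeval (⟨ξ, hint⟩ : integralClosure ℚ ℚ_[p]) (f.map (Int.castRingHom ℚ)) :
          integralClosure ℚ ℚ_[p]) : ℚ_[p]) := by
      rw [← Subalgebra.aeval_coe]
    rw [h6]
    exact isAlgebraic_iff_isIntegral.2 ((mem_integralClosure_iff _ _).1 (Subtype.property _))
  rw [hξ] at h4
  have hd0 : (d : ℚ_[p]) ≠ 0 := by exact_mod_cast hd
  have h5 : IsAlgebraic ℚ (η ^ 2) := by
    have h6 : η ^ 2 = (algebraMap ℚ ℚ_[p] ((d : ℚ)⁻¹)) * ((d : ℚ_[p]) * η ^ 2) := by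
      rw [map_inv₀, ← mul_assoc]
      have : (algebraMap ℚ ℚ_[p]) (d : ℚ) = (d : ℚ_[p]) := by simp
      rw [this, inv_mul_cancel₀ hd0, one_mul]
    rw [h6]
    exact (isAlgebraic_algebraMap _).mul h4
  exact h5.of_pow (by norm_num)

end Pool.Agent.QTw
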