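import Pool.Agent.QTw.Targets

/-!
# QTw, part B: the conditions at one prime
-/

open Polynomial

namespace Pool.Agent.QTw

namespace LOCP_

/-- Bezout with integral polynomials. -/
theorem bez {f g : ℤ[X]}
    (h : IsCoprime (f.map (Int.castRingHom ℚ)) (g.map (Int.castRingHom ℚ))) :
    ∃ (A B : ℤ[X]) (R : ℤ), R ≠ 0 ∧ A * f + B * g = C R := by
  obtain ⟨U, V, hUV⟩ := h
  obtain ⟨b1, hb1, h1⟩ := IsLocalization.integerNormalization_spec (nonZeroDivisors ℤ) U
  obtain ⟨b2, hb2, h2⟩ := IsLocalization.integerNormalization_spec (nonZeroDivisors ℤ) V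
  set U' := IsLocalization.integerNormalization (nonZeroDivisors ℤ) U with hU'
  set V' := IsLocalization.integerNormalization (nonZeroDivisors ℤ) V with hV'
  have e0 : (algebraMap ℤ ℚ) = Int.castRingHom ℚ := rfl
  rw [e0] at h1 h2
  have hb1' : b1 ≠ 0 := nonZeroDivisors.ne_zero hb1
  have hb2' : b2 ≠ 0 := nonZeroDivisors.ne_zero hb2
  refine ⟨C b2 * U', C b1 * V', b1 * b2, mul_ne_zero hb1' hb2', ?_⟩
  apply Polynomial.map_injective (Int.castRingHom ℚ) Int.cast_injective
  have s1 : b1 • U = C (b1 : ℚ) * U := by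
    rw [zsmul_eq_mul]
    congr 1
  have s2 : b2 • V = C (b2 : ℚ) * V := by
    rw [zsmul_eq_mul]
    congr 1
  rw [Polynomial.map_add, Polynomial.map_mul, Polynomial.map_mul, Polynomial.map_mul,
    Polynomial.map_mul, h1, h2, s1, s2, Polynomial.map_C, Polynomial.map_C, Polynomial.map_C]
  simp only [eq_intCast, Int.cast_mul, C_mul]
  linear_combination (C (b1 : ℚ) * C (b2 : ℚ)) * hUV

theorem not_both {f g A B : ℤ[X]} {R : ℤ} (h : A * f + B * g = C R) {p : ℤ} (hp : ¬ p ∣ R)
    {a : ℤ} (ha : p ∣ f.eval a) : ¬ p ∣ g.eval a := by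
  intro hb
  apply hp
  have := congrArg (fun q => eval a q) h
  simp only [eval_add, eval_mul, eval_C] at this
  rw [← this]
  exact dvd_add (ha.mul_left _) (hb.mul_left _)

/-- Members of `signs`. -/
theorem mem_signs {ι : Type} [DecidableEq ι] {g : ι → ℤ[X]} {i : ι} {p : ℕ} {v : ι → ℤ}
    (h : v ∈ signs g i p) :
    ∃ a : ℕ, a ∈ (Finset.range p).filter (fun a : ℕ => (p : ℤ) ∣ (g i).eval (a : ℤ)) ∧
      (fun j => if j = i then 1 else jacobiSym ((g j).eval (a : ℤ)) p) = v := by
  classical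
  unfold signs at h
  obtain ⟨a, ha, rfl⟩ := (@Finset.mem_image _ _ _ _ _ _).1 h
  simp only [Finset.bind_def, Finset.mem_sup, Finset.pure_def, Finset.mem_singleton] at ha
  obtain ⟨b, hb, rfl⟩ := ha
  refine ⟨b, ?_, rfl⟩
  convert hb

section padic

variable {p : ℕ} [hp : Fact p.Prime]

/-- A square of the form `δ u` with `v(u)` even gives `v(δ)` even. -/
theorem even_of_sq {δ : ℚ} (hδ : δ ≠ 0) {u : ℚ_[p]} (hu : u ≠ 0) (hue : Even u.valuation)
    (h : IsSquare ((δ : ℚ_[p]) * u)) : Even (padicValRat p δ) := by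
  obtain ⟨s, hs⟩ := h
  have hδ' : (δ : ℚ_[p]) ≠ 0 := by exact_mod_cast hδ
  have hs0 : s ≠ 0 := by
    rintro rfl
    rw [mul_zero] at hs
    exact (mul_ne_zero hδ' hu) hs
  have h1 := congrArg Padic.valuation hs
  rw [Padic.valuation_mul hδ' hu, Padic.valuation_mul hs0 hs0, Padic.valuation_ratCast] at h1
  have h2 : padicValRat p δ = (s.valuation + s.valuation) - u.valuation := by omega
  rw [h2]
  exact (Even.add_self _).sub hue

/-- A unit has valuation zero. -/
theorem val_unit {x : ℤ_[p]} (hx : PadicInt.toZMod x ≠ 0) :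
    (x : ℚ_[p]) ≠ 0 ∧ (x : ℚ_[p]).valuation = 0 := by
  have hu : IsUnit x := by
    by_contra hn
    apply hx
    have : x ∈ IsLocalRing.maximalIdeal ℤ_[p] := hn
    rw [← PadicInt.ker_toZMod] at this
    exact this
  have hn : ‖x‖ = 1 := PadicInt.isUnit_iff.1 hu
  have hn' : ‖(x : ℚ_[p])‖ = 1 := by rw [← PadicInt.norm_def]; exact hn
  have hx0 : (x : ℚ_[p]) ≠ 0 := by
    intro h
    rw [h, norm_zero] at hn'
    exact zero_ne_one hn'
  refine ⟨hx0, ?_⟩
  have h1 := Padic.norm_eq_zpow_neg_valuation hx0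
  rw [hn'] at h1
  have hp1 : (1 : ℝ) < p := by exact_mod_cast hp.out.one_lt
  have h2 : (p : ℝ) ^ (0 : ℤ) = (p : ℝ) ^ (-(x : ℚ_[p]).valuation) := by rw [zpow_zero]; exact h1
  have h3 := zpow_right_injective₀ (by linarith) (ne_of_gt hp1) h2
  omega

/-- An integer not divisible by `p` is a unit. -/
theorem val_int {m : ℤ} (hm : ¬ (p : ℤ) ∣ m) : (m : ℚ_[p]) ≠ 0 ∧ (m : ℚ_[p]).valuation = 0 := by
  have h1 : PadicInt.toZMod (m : ℤ_[p]) ≠ 0 := by
    rw [map_intCast]
    intro h
    exact hm ((ZMod.intCast_zmod_eq_zero_iff_dvd m p).1 h)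
  have := val_unit h1
  simpa using this

/-- Values of an integral polynomial. -/
theorem aeval_coe (g : ℤ[X]) (x : ℤ_[p]) :
    aeval (x : ℚ_[p]) g = ((aeval x g : ℤ_[p]) : ℚ_[p]) := by
  rw [aeval_def, aeval_def]
  have := Polynomial.hom_eval₂ g (algebraMap ℤ ℤ_[p]) (PadicInt.Coe.ringHom (p := p)) x
  have e : (PadicInt.Coe.ringHom (p := p)).comp (algebraMap ℤ ℤ_[p]) = algebraMap ℤ ℚ_[p] :=
    RingHom.ext_int _ _
  rw [e] at this
  exact this.symm

theorem toZMod_aeval (g : ℤ[X]) (x : ℤ_[p]) :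
    PadicInt.toZMod (aeval x g) =
      ((g.eval (((PadicInt.toZMod x : ZMod p).val : ℕ) : ℤ) : ℤ) : ZMod p) := by
  have h1 : PadicInt.toZMod (aeval x g) = eval₂ (Int.castRingHom (ZMod p)) (PadicInt.toZMod x) g := by
    rw [aeval_def]
    have := Polynomial.hom_eval₂ g (algebraMap ℤ ℤ_[p]) (PadicInt.toZMod (p := p)) x
    have e : (PadicInt.toZMod (p := p)).comp (algebraMap ℤ ℤ_[p]) = Int.castRingHom (ZMod p) :=
      RingHom.ext_int _ _
    rw [e] at this
    exact this
  rw [h1]
  have h2 : (Int.castRingHom (ZMod p)) (((PadicInt.toZMod x : ZMod p).val : ℕ) : ℤ) =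
      PadicInt.toZMod x := by
    rw [eq_intCast, Int.cast_natCast]
    exact ZMod.natCast_zmod_val _
  conv_lhs => rw [← h2]
  rw [Polynomial.eval₂_at_apply]
  rfl

/-- The case of a point of negative valuation. -/
theorem val_big {g : ℤ[X]} (hlc : ¬ (p : ℤ) ∣ g.leadingCoeff) (hdeg : 1 ≤ g.natDegree)
    {x : ℚ_[p]} (hx : 1 < ‖x‖) :
    aeval x g ≠ 0 ∧ (aeval x g).valuation = g.natDegree * x.valuation := by
  have hx0 : x ≠ 0 := by
    rintro rfl
    rw [norm_zero] at hx
    linarith
  set n := g.natDegree with hn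
  have hsum : aeval x g = (∑ i ∈ Finset.range n, (g.coeff i : ℚ_[p]) * x ^ i) +
      (g.leadingCoeff : ℚ_[p]) * x ^ n := by
    rw [aeval_eq_sum_range, Finset.sum_range_succ]
    simp only [zsmul_eq_mul]
    rfl
  have hlcn : ‖(g.leadingCoeff : ℚ_[p])‖ = 1 := by
    have h1 := val_int (p := p) hlc
    rw [Padic.norm_eq_zpow_neg_valuation h1.1, h1.2]
    simp
  have hb : ‖∑ i ∈ Finset.range n, (g.coeff i : ℚ_[p]) * x ^ i‖ ≤ ‖x‖ ^ (n - 1) := by
    refine IsUltrametricDist.norm_sum_le_of_forall_le_of_nonneg (by positivity) ?_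
    intro i hi
    rw [Finset.mem_range] at hi
    rw [norm_mul, norm_pow]
    have h1 : ‖(g.coeff i : ℚ_[p])‖ ≤ 1 := Padic.norm_int_le_one _
    calc ‖(g.coeff i : ℚ_[p])‖ * ‖x‖ ^ i ≤ 1 * ‖x‖ ^ (n - 1) :=
          mul_le_mul h1 (pow_le_pow_right₀ hx.le (by omega)) (by positivity) zero_le_one
      _ = ‖x‖ ^ (n - 1) := one_mul _
  have hlt : ‖x‖ ^ (n - 1) < ‖x‖ ^ n := pow_lt_pow_right₀ hx (by omega)
  have htop : ‖(g.leadingCoeff : ℚ_[p]) * x ^ n‖ = ‖x‖ ^ n := by
    rw [norm_mul, norm_pow, hlcn, one_mul]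
  have hnorm : ‖aeval x g‖ = ‖x‖ ^ n := by
    rw [hsum, IsUltrametricDist.norm_add_eq_max_of_norm_ne_norm (by rw [htop]; linarith), htop]
    exact max_eq_right (by linarith)
  have hne : aeval x g ≠ 0 := by
    intro h
    rw [h, norm_zero] at hnorm
    have : 0 < ‖x‖ ^ n := by positivity
    linarith
  refine ⟨hne, ?_⟩
  rw [Padic.norm_eq_zpow_neg_valuation hne, Padic.norm_eq_zpow_neg_valuation hx0] at hnorm
  have hp1 : (1 : ℝ) < p := by exact_mod_cast hp.out.one_lt
  have h2 : (p : ℝ) ^ (-(aeval x g : ℚ_[p]).valuation) = (p : ℝ) ^ (-x.valuation * n) := by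
    rw [hnorm, zpow_mul, zpow_natCast]
  have h3 := zpow_right_injective₀ (by linarith) (ne_of_gt hp1) h2
  linarith

/-- Reduction of a square. -/
theorem jac {g : ℤ[X]} {x : ℤ_[p]} {D : ℤ} (hD : ¬ (p : ℤ) ∣ D)
    (hg : ¬ (p : ℤ) ∣ g.eval (((PadicInt.toZMod x : ZMod p).val : ℕ) : ℤ))
    (hsq : IsSquare ((D : ℚ_[p]) * aeval (x : ℚ_[p]) g)) :
    jacobiSym D p = jacobiSym (g.eval (((PadicInt.toZMod x : ZMod p).val : ℕ) : ℤ)) p := by
  set G := g.eval (((PadicInt.toZMod x : ZMod p).val : ℕ) : ℤ) with hG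
  obtain ⟨s, hs⟩ := hsq
  have hDz : ((D : ℤ) : ZMod p) ≠ 0 := fun h => hD ((ZMod.intCast_zmod_eq_zero_iff_dvd D p).1 h)
  have hGz : ((G : ℤ) : ZMod p) ≠ 0 := fun h => hg ((ZMod.intCast_zmod_eq_zero_iff_dvd G p).1 h)
  have hcoe : ((D : ℚ_[p]) * aeval (x : ℚ_[p]) g) = (((D : ℤ_[p]) * aeval x g : ℤ_[p]) : ℚ_[p]) := by
    rw [aeval_coe]
    push_cast
    rfl
  have hs1 : ‖s‖ ≤ 1 := by
    have h1 : ‖s‖ * ‖s‖ ≤ 1 := by
      rw [← norm_mul, ← hs, hcoe, ← PadicInt.norm_def]
      exact PadicInt.norm_le_one _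
    by_contra hcon
    push Not at hcon
    nlinarith [norm_nonneg s]
  set s' : ℤ_[p] := ⟨s, hs1⟩ with hs'
  have hint : (D : ℤ_[p]) * aeval x g = s' * s' := by
    apply Subtype.ext
    have : (((D : ℤ_[p]) * aeval x g : ℤ_[p]) : ℚ_[p]) = s * s := by rw [← hcoe]; exact hs
    rw [this]
    rfl
  have hmod := congrArg (PadicInt.toZMod (p := p)) hint
  rw [map_mul, map_mul, map_intCast, toZMod_aeval] at hmod
  have hleg : legendreSym p (D * G) = 1 := by
    rw [legendreSym.eq_one_iff p (by push_cast; exact mul_ne_zero hDz hGz)]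
    refine ⟨PadicInt.toZMod s', ?_⟩
    push_cast
    exact hmod
  rw [← jacobiSym.legendreSym.to_jacobiSym, ← jacobiSym.legendreSym.to_jacobiSym]
  rw [legendreSym.mul] at hleg
  rcases legendreSym.eq_one_or_neg_one p hDz with h1 | h1 <;>
  rcases legendreSym.eq_one_or_neg_one p hGz with h2 | h2 <;>
  rw [h1, h2] at hleg ⊢ <;> norm_num at hleg

/-- The valuation of a squarefree integer. -/
theorem val_sqf {d : ℤ} (hd : Squarefree d) :
    ((p : ℤ) ∣ d → padicValRat p (d : ℚ) = 1) ∧ (¬ (p : ℤ) ∣ d → padicValRat p (d : ℚ) = 0) := by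
  have hd0 : d ≠ 0 := hd.ne_zero
  rw [padicValRat.of_int]
  constructor
  · intro h
    have h1 : 1 ≤ padicValInt p d := by
      unfold padicValInt
      exact one_le_padicValNat_of_dvd (Int.natAbs_ne_zero.2 hd0) (Int.natCast_dvd.1 h)
    have h2 : padicValInt p d ≤ 1 := by
      by_contra hcon
      push Not at hcon
      have h3 : (p : ℤ) ^ 2 ∣ d := by
        have := (padicValInt_dvd_iff 2 d (p := p)).2 (Or.inr (by omega))
        exact_mod_cast this
      have h4 := hd (p : ℤ) (by rw [← sq]; exact h3)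
      have h5 := (Nat.prime_iff_prime_int.1 hp.out).not_isUnit
      exact h5 h4
    have : padicValInt p d = 1 := by omega
    rw [this]
    simp
  · intro h
    rw [padicValInt.eq_zero_of_not_dvd h]
    simp

theorem val_prod {n : ℕ} (δ : Fin n → ℚ) (hδ : ∀ i, δ i ≠ 0) :
    padicValRat p (∏ i, δ i) = ∑ i, padicValRat p (δ i) := by
  have : ∀ s : Finset (Fin n), padicValRat p (∏ i ∈ s, δ i) = ∑ i ∈ s, padicValRat p (δ i) := by
    intro s
    induction s using Finset.induction_on with
    | empty => simp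
    | insert a s ha ih =>
      rw [Finset.prod_insert ha, Finset.sum_insert ha,
        padicValRat.mul (hδ a) (Finset.prod_ne_zero_iff.2 fun i _ => hδ i), ih]
  exact this Finset.univ

end padic

end LOCP_

open LOCP_ in
theorem p_LOCP : T_LOCP := by
  intro n g c hg hc
  have hdeg : ∀ i, 1 ≤ (g i).natDegree := by
    intro i
    have h1 : 0 < ((g i).map (Int.castRingHom ℚ)).natDegree := (hg.irr i).natDegree_pos
    rw [natDegree_map_eq_of_injective Int.cast_injective] at h1
    exact h1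
  have hlc0 : ∀ i, (g i).leadingCoeff ≠ 0 := by
    intro i h
    rw [leadingCoeff_eq_zero] at h
    have := hdeg i
    rw [h, natDegree_zero] at this
    omega
  have hB : ∀ i j, ∃ (A B : ℤ[X]) (R : ℤ), R ≠ 0 ∧ (i ≠ j → A * g i + B * g j = C R) := by
    intro i j
    by_cases hij : i = j
    · exact ⟨0, 0, 1, one_ne_zero, fun h => absurd hij h⟩
    · obtain ⟨A, B, R, hR, h⟩ := bez (hg.coprime i j hij)
      exact ⟨A, B, R, hR, fun _ => h⟩
  choose A B R hR hAB using hB
  set N : ℕ := 2 * (c.num.natAbs * c.den * (∏ i, (g i).leadingCoeff.natAbs) *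
    ∏ i, ∏ j, (R i j).natAbs) with hN
  have hNpos : 0 < N := by
    have h1 : 0 < c.num.natAbs := Int.natAbs_pos.2 (Rat.num_ne_zero.2 hc)
    have h2 : 0 < c.den := c.den_pos
    have h3 : 0 < ∏ i, (g i).leadingCoeff.natAbs :=
      Finset.prod_pos fun i _ => Int.natAbs_pos.2 (hlc0 i)
    have h4 : 0 < ∏ i, ∏ j, (R i j).natAbs :=
      Finset.prod_pos fun i _ => Finset.prod_pos fun j _ => Int.natAbs_pos.2 (hR i j)
    positivity
  have key : ∀ p : ℕ, ¬ p ∣ N → ¬ (p ∣ 2) ∧ ¬ (p ∣ c.num.natAbs) ∧ ¬ (p ∣ c.den) ∧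
      (∀ i, ¬ (p : ℤ) ∣ (g i).leadingCoeff) ∧ ∀ i j, ¬ (p : ℤ) ∣ R i j := by
    intro p hp
    refine ⟨?_, ?_, ?_, ?_, ?_⟩
    · intro h; exact hp (h.trans (Dvd.intro _ rfl))
    · intro h
      apply hp
      rw [hN]
      exact Dvd.dvd.mul_left (((h.mul_right _).mul_right _).mul_right _) _
    · intro h
      apply hp
      rw [hN]
      exact Dvd.dvd.mul_left (((h.mul_left _).mul_right _).mul_right _) _
    · intro i h
      apply hp
      rw [hN]
      have h1 : p ∣ (g i).leadingCoeff.natAbs := Int.natCast_dvd.1 h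
      exact Dvd.dvd.mul_left (((h1.trans (Finset.dvd_prod_of_mem
        (fun i => (g i).leadingCoeff.natAbs) (Finset.mem_univ i))).mul_left _).mul_right _) _
    · intro i j h
      apply hp
      rw [hN]
      have h1 : p ∣ (R i j).natAbs := Int.natCast_dvd.1 h
      have h2 : p ∣ ∏ j, (R i j).natAbs :=
        h1.trans (Finset.dvd_prod_of_mem (fun j => (R i j).natAbs) (Finset.mem_univ j))
      have h3 : p ∣ ∏ i, ∏ j, (R i j).natAbs :=
        h2.trans (Finset.dvd_prod_of_mem (fun i => ∏ j, (R i j).natAbs) (Finset.mem_univ i))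
      exact Dvd.dvd.mul_left (h3.mul_left _) _
  refine ⟨N, hNpos, Dvd.intro _ rfl, ?_, ?_⟩
  · -- signs
    intro i p hpp hpN v hv j
    obtain ⟨a, ha, rfl⟩ := mem_signs hv
    rw [Finset.mem_filter] at ha
    by_cases hij : j = i
    · left
      simp [hij]
    · simp only [if_neg hij]
      apply jacobiSym.eq_one_or_neg_one
      have h1 := not_both (hAB i j (Ne.symm hij)) ((key p hpN).2.2.2.2 i j) ha.2
      show Nat.gcd ((g j).eval (a : ℤ)).natAbs (p : ℤ).natAbs = 1
      rw [Int.natAbs_natCast]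
      have h2 : ¬ p ∣ ((g j).eval (a : ℤ)).natAbs := fun h => h1 (Int.natCast_dvd.2 h)
      exact ((Nat.Prime.coprime_iff_not_dvd hpp).2 h2).symm
  · intro p hp d δ hpN hd hδ hr hloc
    obtain ⟨_, hk2, hk3, hk4, hk5⟩ := key p hpN
    obtain ⟨r, hr0, hr⟩ := hr
    have hd0 : (d : ℚ) ≠ 0 := by exact_mod_cast hd.ne_zero
    -- the parity relation
    have hpar : ∑ i, padicValRat p (δ i) = padicValRat p (d : ℚ) + 2 * padicValRat p r := by
      have h1 := congrArg (padicValRat p) hr
      rw [padicValRat.mul hc (Finset.prod_ne_zero_iff.2 fun i _ => hδ i),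
        padicValRat.mul hd0 (pow_ne_zero 2 hr0), padicValRat.pow, val_prod δ hδ] at h1
      have h2 : padicValRat p c = 0 := by
        unfold padicValRat
        rw [padicValInt, padicValNat.eq_zero_of_not_dvd hk2, padicValNat.eq_zero_of_not_dvd hk3]
        simp
      rw [h2, zero_add] at h1
      rw [h1]
      push_cast
      ring
    -- the alternative
    have halt : (∀ i, Even (padicValRat p (δ i))) ∨ ∃ i, (∀ j, j ≠ i → Even (padicValRat p (δ j))) ∧
        ∃ a ∈ Finset.range p, (p : ℤ) ∣ (g i).eval (a : ℤ) ∧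
          ∀ j, j ≠ i → ∀ D : ℤ, ¬ (p : ℤ) ∣ D → (∃ q : ℚ, (D : ℚ) = δ j * q ^ 2) →
            jacobiSym D p = jacobiSym ((g j).eval (a : ℤ)) p := by
      rcases hloc with ⟨x0, hx0⟩ | h
      · by_cases hbig : 1 < ‖x0‖
        · left
          intro i
          obtain ⟨h1, h2⟩ := val_big (hk4 i) (hdeg i) hbig
          refine even_of_sq (hδ i) h1 ?_ (hx0 i h1)
          rw [h2]
          obtain ⟨k, hk⟩ := hg.even i
          rw [hk]
          exact ⟨k * x0.valuation, by push_cast; ring⟩
        · push Not at hbig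
          set x : ℤ_[p] := ⟨x0, hbig⟩ with hx
          have hxc : (x : ℚ_[p]) = x0 := rfl
          set a : ℕ := (PadicInt.toZMod x : ZMod p).val with ha
          have haR : a ∈ Finset.range p := Finset.mem_range.2 (ZMod.val_lt _)
          have hunit : ∀ i, ¬ (p : ℤ) ∣ (g i).eval (a : ℤ) →
              (aeval x0 (g i) ≠ 0 ∧ (aeval x0 (g i)).valuation = 0) := by
            intro i hi
            have h1 : PadicInt.toZMod (aeval x (g i)) ≠ 0 := by
              rw [toZMod_aeval]
              intro h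
              exact hi ((ZMod.intCast_zmod_eq_zero_iff_dvd _ p).1 h)
            have h2 := val_unit h1
            rw [← hxc, aeval_coe]
            exact h2
          by_cases hall : ∀ i, ¬ (p : ℤ) ∣ (g i).eval (a : ℤ)
          · left
            intro i
            obtain ⟨h1, h2⟩ := hunit i (hall i)
            exact even_of_sq (hδ i) h1 (by rw [h2]; exact Even.zero) (hx0 i h1)
          · right
            push Not at hall
            obtain ⟨i, hi⟩ := hall
            have hnot : ∀ j, j ≠ i → ¬ (p : ℤ) ∣ (g j).eval (a : ℤ) := fun j hj =>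
              not_both (hAB i j (Ne.symm hj)) (hk5 i j) hi
            refine ⟨i, ?_, a, haR, hi, ?_⟩
            · intro j hj
              obtain ⟨h1, h2⟩ := hunit j (hnot j hj)
              exact even_of_sq (hδ j) h1 (by rw [h2]; exact Even.zero) (hx0 j h1)
            · intro j hj D hD ⟨q, hq⟩
              obtain ⟨h1, _⟩ := hunit j (hnot j hj)
              apply jac hD (hnot j hj)
              obtain ⟨s, hs⟩ := hx0 j h1
              refine ⟨s * q, ?_⟩
              rw [hxc]
              have hq' : (D : ℚ_[p]) = (δ j : ℚ_[p]) * (q : ℚ_[p]) ^ 2 := by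
                have := congrArg (fun t : ℚ => (t : ℚ_[p])) hq
                push_cast at this
                exact this
              rw [hq']
              linear_combination (q : ℚ_[p]) ^ 2 * hs
      · left
        intro i
        obtain ⟨h1, h2⟩ := val_int (p := p) (hk4 i)
        exact even_of_sq (hδ i) h1 (by rw [h2]; exact Even.zero) (h i)
    have hs := val_sqf (p := p) hd
    constructor
    · intro hpd
      rcases halt with h | ⟨i, hi, -⟩
      · exact h
      · intro j
        by_cases hj : j = i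
        · subst hj
          rw [hs.2 hpd, zero_add, ← Finset.add_sum_erase _ _ (Finset.mem_univ j)] at hpar
          have h1 : Even (∑ i ∈ Finset.univ.erase j, padicValRat p (δ i)) :=
            Finset.even_sum _ fun i hi' => hi i (Finset.ne_of_mem_erase hi')
          have h2 : padicValRat p (δ j) = 2 * padicValRat p r -
              ∑ i ∈ Finset.univ.erase j, padicValRat p (δ i) := by linarith
          rw [h2]
          exact (even_two_mul _).sub h1
        · exact hi j hj
    · intro hpd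
      have h1v := hs.1 hpd
      rcases halt with h | ⟨i, hi, a, ha, h1, h2⟩
      · exfalso
        have h3 : Even (∑ i, padicValRat p (δ i)) := Finset.even_sum _ fun i _ => h i
        rw [hpar, h1v] at h3
        have h4 : Even (2 * padicValRat p r) := even_two_mul _
        have h5 : Even (1 : ℤ) := by
          have := h3.sub h4
          rwa [add_sub_cancel_right] at this
        exact absurd h5 (by decide)
      · refine ⟨i, ?_, hi, a, ha, h1, h2⟩
        intro hev
        have h3 : Even (∑ i, padicValRat p (δ i)) := by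
          refine Finset.even_sum _ fun j _ => ?_
          by_cases hj : j = i
          · rw [hj]; exact hev
          · exact hi j hj
        rw [hpar, h1v] at h3
        have h4 : Even (2 * padicValRat p r) := even_two_mul _
        have h5 : Even (1 : ℤ) := by
          have := h3.sub h4
          rwa [add_sub_cancel_right] at this
        exact absurd h5 (by decide)

end Pool.Agent.QTw
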