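import Pool.Agent.QTw.Defs

/-!
# Targets of the project QTw (100 per cent of quadratic twists)
-/

open Polynomial

namespace Pool.Agent.QTw

/-- A family of integral polynomials, irreducible over `ℚ`, of even degree, pairwise coprime. -/
structure GoodFactors {ι : Type} (g : ι → ℤ[X]) : Prop where
  irr : ∀ i, Irreducible ((g i).map (Int.castRingHom ℚ))
  even : ∀ i, Even (g i).natDegree
  coprime : ∀ i j, i ≠ j →
    IsCoprime ((g i).map (Int.castRingHom ℚ)) ((g j).map (Int.castRingHom ℚ))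

/-- FACT: factorisation of `f`. -/
def T_FACT : Prop := ∀ f : ℤ[X], 0 < f.natDegree → Squarefree (f.map (Int.castRingHom ℚ)) →
  (∀ h : ℚ[X], Irreducible h → h ∣ f.map (Int.castRingHom ℚ) → Even h.natDegree) →
  ∃ (n : ℕ) (g : Fin (n + 1) → ℤ[X]) (c : ℚ), c ≠ 0 ∧
    f.map (Int.castRingHom ℚ) = C c * ∏ i, (g i).map (Int.castRingHom ℚ) ∧ GoodFactors g

/-! ## Part A: geometry -/

/-- RES: residues.  A discrete valuation of a function field over an algebraically closed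
field `k` is trivial on `k`, and every unit is a constant up to the maximal ideal. -/
def T_RES : Prop := ∀ (k K : Type) [Field k] [CharZero k] [IsAlgClosed k] [Field K]
  [Algebra k K]
  (_ : ∀ u : K, Transcendental k u → Algebra.IsAlgebraic (IntermediateField.adjoin k {u}) K)
  (w : Valuation K (WithZero (Multiplicative ℤ))) (_ : ∃ z : K, z ≠ 0 ∧ w z ≠ 1),
  (∀ c : k, c ≠ 0 → w (algebraMap k K c) = 1) ∧
    ∀ u : K, w u = 1 → ∃ c : k, w (u - algebraMap k K c) < 1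

/-- NEWTON: if `h² = u` lies in `K` and `h ≡ 1`, then `M = K(h)` is unramified at `v`. -/
def T_NEWTON : Prop := ∀ (K M : Type) [Field K] [CharZero K] [Field M] [Algebra K M]
  (v : Valuation M (WithZero (Multiplicative ℤ))) (u : K) (h : M),
  h ^ 2 = algebraMap K M u → v (h - 1) < 1 → v 2 = 1 →
  (∀ m : M, ∃ a b : K, m = algebraMap K M a + algebraMap K M b * h) →
  Function.Surjective v → Function.Surjective (v.comap (algebraMap K M))

/-- QUAD: the extension by a square root of an element with even divisor is unramified. -/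
def T_QUAD : Prop := ∀ (k K Ω : Type) [Field k] [CharZero k] [IsAlgClosed k] [Field K]
  [Algebra k K] [Field Ω] [Algebra K Ω]
  (_ : ∀ u : K, Transcendental k u → Algebra.IsAlgebraic (IntermediateField.adjoin k {u}) K)
  (u : K) (_ : u ≠ 0)
  (_ : ∀ w : Valuation K (WithZero (Multiplicative ℤ)), (∃ z : K, z ≠ 0 ∧ w z ≠ 1) →
    ∃ z : K, z ≠ 0 ∧ w u = w z ^ 2)
  (γ : Ω) (_ : γ ^ 2 = algebraMap K Ω u),
  IsAbelianExp 2 (IntermediateField.adjoin K {γ}) ∧ IsUnramified (IntermediateField.adjoin K {γ})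

/-- EVEN: the divisor of `g(x)` is even. -/
def T_EVEN : Prop := ∀ (K : Type) [Field K] [CharZero K] (x y : K) (d : ℤ) (g h : ℚ[X]),
  d ≠ 0 → Transcendental ℚ x → (d : K) * y ^ 2 = aeval x (g * h) → IsCoprime g h →
  Even g.natDegree → Even h.natDegree → g ≠ 0 → h ≠ 0 →
  ∀ w : Valuation K (WithZero (Multiplicative ℤ)), (∀ q : ℚ, q ≠ 0 → w (q : K) = 1) →
    ∃ z : K, z ≠ 0 ∧ w (aeval x g) = w z ^ 2

/-- TRD: `Q̄(C)` has transcendence degree one over `Q̄`. -/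
def T_TRD : Prop := ∀ (F E : Type) [Field F] [CharZero F] [Field E] [CharZero E] [Algebra F E]
  (x y : F) (f : ℤ[X]) (d : ℤ), IsFunctionField f d x y → d ≠ 0 →
  ∀ u : geomField F E, Transcendental (algebraicClosure ℚ (AlgebraicClosure E)) u →
    Algebra.IsAlgebraic
      (IntermediateField.adjoin (algebraicClosure ℚ (AlgebraicClosure E)) {u}) (geomField F E)

/-- SQRT: on a 2-covering the function `g(x)` becomes a square over `Q̄`. -/
def T_SQRT : Prop := ∀ (F E : Type) [Field F] [CharZero F] [Field E] [CharZero E] [Algebra F E]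
  (x y : F) (f : ℤ[X]) (d : ℤ) (g h : ℚ[X]), IsFunctionField f d x y → IsCovering 2 F E →
  d ≠ 0 → f.map (Int.castRingHom ℚ) = g * h → IsCoprime g h → Even g.natDegree →
  Even h.natDegree → g ≠ 0 → h ≠ 0 →
  ∃ γ : AlgebraicClosure E,
    γ ∈ IntermediateField.adjoin (algebraicClosure ℚ (AlgebraicClosure E))
      (Set.range (algebraMap E (AlgebraicClosure E))) ∧
    γ ^ 2 = algebraMap E (AlgebraicClosure E) (algebraMap F E (aeval x g))

/-- DESC: an element of `E` that is a square in `E Q̄` is a rational number times a square. -/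
def T_DESC : Prop := ∀ (E : Type) [Field E] [CharZero E],
  (∀ z : E, IsAlgebraic ℚ z → ∃ q : ℚ, z = q) →
  ∀ (b : E) (γ : AlgebraicClosure E), b ≠ 0 →
    γ ∈ IntermediateField.adjoin (algebraicClosure ℚ (AlgebraicClosure E))
      (Set.range (algebraMap E (AlgebraicClosure E))) →
    γ ^ 2 = algebraMap E (AlgebraicClosure E) b →
    ∃ δ : ℚ, δ ≠ 0 ∧ ∃ β : E, b = δ * β ^ 2

/-- The condition at a place: a point `x₀` (possibly infinity) of the projective line at which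
all `δ_i g_i` are squares, where nonzero. -/
def LocalAt (K : Type) [Field K] [CharZero K] {ι : Type} (g : ι → ℤ[X]) (δ : ι → ℚ) : Prop :=
  (∃ x₀ : K, ∀ i, aeval x₀ (g i) ≠ 0 → IsSquare ((δ i : K) * aeval x₀ (g i))) ∨
    ∀ i, IsSquare ((δ i : K) * ((g i).leadingCoeff : K))

/-- LOC: from a point of the covering to the condition at the place. -/
def T_LOC : Prop := ∀ (E K : Type) [Field E] [CharZero E] [Field K] [CharZero K] (ι : Type)
  (g : ι → ℤ[X]) (x : E) (δ : ι → ℚ) (β : ι → E),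
  (∀ i, g i ≠ 0 ∧ Even (g i).natDegree) → Transcendental ℚ x → (∀ i, δ i ≠ 0) →
  (∀ i, aeval x (g i) = (δ i : E) * β i ^ 2) → HasPoint E K → LocalAt K g δ

/-- GEOM: result of part A. -/
def T_GEOM : Prop := ∀ (n : ℕ) (g : Fin (n + 1) → ℤ[X]) (c : ℚ) (f : ℤ[X]) (d : ℤ),
  GoodFactors g → c ≠ 0 → d ≠ 0 →
  f.map (Int.castRingHom ℚ) = C c * ∏ i, (g i).map (Int.castRingHom ℚ) →
  TwistSelNonempty 2 f d →
  ∃ δ : Fin (n + 1) → ℚ, (∀ i, δ i ≠ 0) ∧ (∃ r : ℚ, r ≠ 0 ∧ c * ∏ i, δ i = d * r ^ 2) ∧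
    ∀ (p : ℕ) [Fact p.Prime], LocalAt ℚ_[p] g δ

/-! ## Part B: conditions at the primes dividing `d` -/

/-- The sign vectors `(χ_p(g_j(a)))_j` of the roots `a` of `g_i` modulo `p`. -/
noncomputable def signs {ι : Type} [DecidableEq ι] (g : ι → ℤ[X]) (i : ι) (p : ℕ) :
    Finset (ι → ℤ) := by
  classical
  exact ((Finset.range p).filter (fun a : ℕ => (p : ℤ) ∣ (g i).eval (a : ℤ))).image
    (fun a j => if j = i then 1 else jacobiSym ((g j).eval (a : ℤ)) p)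

/-- The combinatorial condition on (the prime factors of) `m`. -/
def Bad {ι : Type} [DecidableEq ι] (N : ℕ) (V : ι → ℕ → Finset (ι → ℤ)) (m : ℕ) : Prop :=
  ∃ u : ι → ℤ, (∀ i, u i ∣ (N : ℤ)) ∧ ∃ lam : ℕ → ι, ∀ p ∈ m.primeFactors, ¬ p ∣ N →
    ∃ v ∈ V (lam p) p, ∀ j, j ≠ lam p →
      jacobiSym (u j * ∏ q ∈ m.primeFactors.filter (fun q => ¬ q ∣ N ∧ lam q = j), (q : ℤ)) p
        = v j

/-- All sign vectors at primes not dividing `N` consist of `±1`. -/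
def IsSigns {ι : Type} (N : ℕ) (V : ι → ℕ → Finset (ι → ℤ)) : Prop :=
  ∀ (i : ι) (p : ℕ), p.Prime → ¬ p ∣ N → ∀ v ∈ V i p, ∀ j, v j = 1 ∨ v j = -1

/-- LOCP: the conditions at one prime `p`. -/
def T_LOCP : Prop := ∀ (n : ℕ) (g : Fin (n + 1) → ℤ[X]) (c : ℚ), GoodFactors g → c ≠ 0 →
  ∃ N : ℕ, 0 < N ∧ 2 ∣ N ∧ IsSigns N (signs g) ∧
    ∀ (p : ℕ) [Fact p.Prime] (d : ℤ) (δ : Fin (n + 1) → ℚ), ¬ p ∣ N → Squarefree d →
      (∀ i, δ i ≠ 0) → (∃ r : ℚ, r ≠ 0 ∧ c * ∏ i, δ i = d * r ^ 2) → LocalAt ℚ_[p] g δ →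
      (¬ (p : ℤ) ∣ d → ∀ i, Even (padicValRat p (δ i))) ∧
      ((p : ℤ) ∣ d → ∃ i, ¬ Even (padicValRat p (δ i)) ∧
        (∀ j, j ≠ i → Even (padicValRat p (δ j))) ∧
        ∃ a ∈ Finset.range p, (p : ℤ) ∣ (g i).eval (a : ℤ) ∧
          ∀ j, j ≠ i → ∀ D : ℤ, ¬ (p : ℤ) ∣ D → (∃ q : ℚ, (D : ℚ) = δ j * q ^ 2) →
            jacobiSym D p = jacobiSym ((g j).eval (a : ℤ)) p)

/-- LOCAL: result of part B. -/
def T_LOCAL : Prop := ∀ (n : ℕ) (g : Fin (n + 1) → ℤ[X]) (c : ℚ), GoodFactors g → c ≠ 0 →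
  ∃ N : ℕ, 0 < N ∧ 2 ∣ N ∧ IsSigns N (signs g) ∧
    ∀ (d : ℤ) (δ : Fin (n + 1) → ℚ), Squarefree d → (∀ i, δ i ≠ 0) →
      (∃ r : ℚ, r ≠ 0 ∧ c * ∏ i, δ i = d * r ^ 2) →
      (∀ (p : ℕ) [Fact p.Prime], LocalAt ℚ_[p] g δ) → Bad N (signs g) d.natAbs

/-! ## Part C: counting -/

/-- number of sign vectors of `V i p` seen on `I \ {i}` -/
noncomputable def kap {ι : Type} [DecidableEq ι] (V : ι → ℕ → Finset (ι → ℤ)) (I : Finset ι)
    (i : ι) (p : ℕ) : ℕ := by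
  classical
  exact ((V i p).image (fun v j => if j ∈ I.erase i then v j else 1)).card

/-- the weight of the prime `p` for the support `I` -/
noncomputable def wt {ι : Type} [DecidableEq ι] (V : ι → ℕ → Finset (ι → ℤ)) (I : Finset ι)
    (p : ℕ) : ℝ :=
  (∑ i ∈ I, (kap V I i p : ℝ)) / 2 ^ (I.card - 1)

/-- the primes up to `X` that do not divide `N` -/
def primesTo (N X : ℕ) : Finset ℕ := (Finset.range (X + 1)).filter (fun p => p.Prime ∧ ¬ p ∣ N)

/-- The average weight is smaller than one, for every support. -/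
def SmallWeights {ι : Type} [DecidableEq ι] (N : ℕ) (V : ι → ℕ → Finset (ι → ℤ)) : Prop :=
  ∀ I : Finset ι, I.Nonempty → ∃ c : ℝ, 0 < c ∧ ∃ B : ℝ, ∀ X : ℕ, 3 ≤ X →
    ∑ p ∈ primesTo N X, wt V I p / p ≤ (1 - c) * Real.log (Real.log X) + B

open Classical in
/-- COUNT: result of part C. -/
def T_COUNT : Prop := ∀ (ι : Type) [Fintype ι] [DecidableEq ι] (N : ℕ)
  (V : ι → ℕ → Finset (ι → ℤ)), 0 < N → 2 ∣ N → IsSigns N V → SmallWeights N V →
  ∃ c : ℝ, 0 < c ∧ ∃ B : ℝ, ∀ X : ℕ, 2 ≤ X →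
    (((Finset.range (X + 1)).filter (fun m => Squarefree m ∧ Bad N V m)).card : ℝ) ≤
      B * X / (Real.log X) ^ c

/-- HALL: upper bound for sums of multiplicative functions. -/
def T_HALL : Prop := ∀ (G : ℝ) (g : ℕ → ℝ), 0 ≤ G → (∀ p, 0 ≤ g p ∧ g p ≤ G) →
  ∀ X : ℕ, 2 ≤ X →
    ∑ m ∈ (Finset.range (X + 1)).filter (fun m => Squarefree m), ∏ p ∈ m.primeFactors, g p ≤
      (G * Real.log 4 + 1) * (X / Real.log X) *
        Real.exp (∑ p ∈ (Finset.range (X + 1)).filter Nat.Prime, g p / p)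

/-- MERT: the upper bound in the first theorem of Mertens. -/
def T_MERT : Prop := ∃ B : ℝ, ∀ X : ℕ, 1 ≤ X →
  ∑ p ∈ (Finset.range (X + 1)).filter Nat.Prime, Real.log p / p ≤ Real.log X + B

/-- blocks of primes: `2^(16^k) ≤ p < 2^(16^(k+1))` roughly -/
def blk (p : ℕ) : ℕ := Nat.log 16 (Nat.log 2 p)

/-- BLOCK: the sum over one block is bounded. -/
def T_BLOCK : Prop := ∃ B : ℝ, ∀ k X : ℕ,
  ∑ p ∈ (Finset.range (X + 1)).filter (fun p => p.Prime ∧ blk p = k), 1 / (p : ℝ) ≤ B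

/-- SMALL: crude bound for the sum over the small primes. -/
def T_SMALL : Prop := ∃ B : ℝ, 0 ≤ B ∧ ∀ z : ℕ, 3 ≤ z →
  ∑ p ∈ (Finset.range (z + 1)).filter Nat.Prime, 1 / (p : ℝ) ≤
    B * (Real.log (Real.log z) + 1)

/-- JINT: sum of a Jacobi symbol over an interval. -/
def T_JINT : Prop := ∀ p q : ℕ, p.Prime → q.Prime → p ≠ 2 → q ≠ 2 → p ≠ q → ∀ a b : ℕ,
  |∑ m ∈ Finset.Ioc a b, (jacobiSym m p * jacobiSym m q : ℤ)| ≤ p * q

/-- BL: the bilinear sum (first form). -/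
def T_BL : Prop := ∃ B : ℝ, 0 ≤ B ∧ ∀ (α β : ℕ → ℝ), (∀ n, |α n| ≤ 1) → (∀ n, |β n| ≤ 1) →
  ∀ z Y : ℕ, 1 ≤ z →
    |∑ p ∈ (Finset.range (Y + 1)).filter (fun p => p.Prime ∧ p ≠ 2 ∧ z < p),
      ∑ q ∈ (Finset.range (Y + 1)).filter (fun q => p ^ 4 < q ∧ p * q ≤ Y),
        β p * α q * (jacobiSym q p : ℝ)| ≤ B * Y / Real.sqrt z

/-- BLR: the bilinear sum (second form, with the other symbol, odd variables). -/
def T_BLR : Prop := ∃ B : ℝ, 0 ≤ B ∧ ∀ (α β : ℕ → ℝ), (∀ n, |α n| ≤ 1) → (∀ n, |β n| ≤ 1) →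
  (∀ n, Even n → α n = 0) → ∀ z Y : ℕ, 1 ≤ z →
    |∑ p ∈ (Finset.range (Y + 1)).filter (fun p => p.Prime ∧ p ≠ 2 ∧ z < p),
      ∑ q ∈ (Finset.range (Y + 1)).filter (fun q => p ^ 4 < q ∧ p * q ≤ Y),
        β p * α q * (jacobiSym p q : ℝ)| ≤ B * Y / Real.sqrt z

section Configurations

variable {T : Type}

/-- A configuration: a finite set of labelled primes (each prime has one label in `T`), not
dividing `N`, with product at most `X`. -/
def IsCfg (N X : ℕ) (c : Finset (ℕ × T)) : Prop :=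
  (∀ x ∈ c, x.1.Prime ∧ ¬ x.1 ∣ N) ∧ (∀ x ∈ c, ∀ y ∈ c, x.1 = y.1 → x = y) ∧
    ∏ x ∈ c, x.1 ≤ X

open Classical in
/-- The finite set of all configurations. -/
noncomputable def cfgs (T : Type) [Fintype T] (N X : ℕ) : Finset (Finset (ℕ × T)) :=
  ((Finset.range (X + 1) ×ˢ (Finset.univ : Finset T)).powerset).filter (IsCfg N X)

open Classical in
/-- The weight of a configuration. -/
noncomputable def Wt (a : ℕ → T → ℝ) (e : T → T → Prop) (c : Finset (ℕ × T)) : ℝ :=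
  (∏ x ∈ c, a x.1 x.2) *
    ∏ z ∈ c.offDiag, if e z.1.2 z.2.2 then (jacobiSym (z.2.1 : ℤ) z.1.1 : ℝ) else 1

/-- An unbalanced linked pair of rough primes. -/
def UPair (e : T → T → Prop) (z : ℕ) (x y : ℕ × T) : Prop :=
  ¬ (e x.2 y.2 ↔ e y.2 x.2) ∧ z < x.1 ∧ x.1 ^ 4 < y.1

/-- The configuration has an unbalanced linked pair of rough primes. -/
def Unb (e : T → T → Prop) (z : ℕ) (c : Finset (ℕ × T)) : Prop :=
  ∃ x ∈ c, ∃ y ∈ c, UPair e z x y

open Classical in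
/-- The labels of the rough primes. -/
noncomputable def rtypes (z : ℕ) (c : Finset (ℕ × T)) : Finset T :=
  (c.filter (fun x => z < x.1)).image Prod.snd

/-- no rough element of `R` below `x` is linked to the label `tq` -/
def CanonP (e : T → T → Prop) (z : ℕ) (R : Finset (ℕ × T)) (x : ℕ × T) (tq : T) : Prop :=
  ∀ r ∈ R, z < r.1 → r.1 < x.1 → (e r.2 tq ↔ e tq r.2)

/-- no element of `R` spoils the maximality of `y` -/
def CanonQ (e : T → T → Prop) (z : ℕ) (R : Finset (ℕ × T)) (y : ℕ × T) (tp : T) : Prop :=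
  (∀ r ∈ R, y.1 < r.1 → ∀ r' ∈ R, ¬ UPair e z r' r) ∧
    (∀ r ∈ R, y.1 < r.1 → (e tp r.2 ↔ e r.2 tp)) ∧ ∀ r ∈ R, ¬ UPair e z y r

/-- the graph of a labelling of the finite set `s` -/
def graph [DecidableEq T] (s : Finset ℕ) (τ : ∀ p ∈ s, T) : Finset (ℕ × T) :=
  s.attach.image (fun p => (p.1, τ p.1 p.2))

end Configurations

open Classical in
/-- FIBG: sums over configurations, sorted by the product. -/
def T_FIBG : Prop := ∀ (T : Type) [Fintype T] [DecidableEq T] (F : Finset (ℕ × T) → ℝ)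
  (N X : ℕ),
  ∑ c ∈ cfgs T N X, F c =
    ∑ m ∈ (Finset.range (X + 1)).filter
        (fun m => Squarefree m ∧ ∀ p ∈ m.primeFactors, ¬ p ∣ N),
      ∑ τ ∈ m.primeFactors.pi (fun _ => (Finset.univ : Finset T)), F (graph m.primeFactors τ)

open Classical in
/-- FIB: sums of products over configurations. -/
def T_FIB : Prop := ∀ (T : Type) [Fintype T] (h : ℕ → T → ℝ) (N X : ℕ),
  ∑ c ∈ cfgs T N X, ∏ x ∈ c, h x.1 x.2 =
    ∑ m ∈ (Finset.range (X + 1)).filter (fun m => Squarefree m),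
      ∏ p ∈ m.primeFactors, (if p ∣ N then 0 else ∑ t, h p t)

open Classical in
/-- RED: reduction to numbers without prime factors dividing `N`. -/
def T_RED : Prop := ∀ (ι : Type) [DecidableEq ι] (N X : ℕ) (V : ι → ℕ → Finset (ι → ℤ)), 0 < N →
  ((Finset.range (X + 1)).filter (fun m => Squarefree m ∧ Bad N V m)).card ≤
    N * ((Finset.range (X + 1)).filter
      (fun m => Squarefree m ∧ (∀ p ∈ m.primeFactors, ¬ p ∣ N) ∧ Bad N V m)).card

open Classical in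
/-- CANON: the canonical unbalanced pair exists and is unique. -/
def T_CANON : Prop := ∀ (T : Type) (e : T → T → Prop) (z : ℕ) (c : Finset (ℕ × T)),
  (∀ x ∈ c, 2 ≤ x.1) → (∀ x ∈ c, ∀ y ∈ c, x.1 = y.1 → x = y) → Unb e z c →
  ∃! w : (ℕ × T) × (ℕ × T), w.1 ∈ c ∧ w.2 ∈ c ∧ UPair e z w.1 w.2 ∧
    CanonP e z ((c.erase w.1).erase w.2) w.1 w.2.2 ∧
    CanonQ e z ((c.erase w.1).erase w.2) w.2 w.1.2

open Classical in
/-- the symbol between two labelled primes -/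
noncomputable def psi {T : Type} (e : T → T → Prop) (x y : ℕ × T) : ℝ :=
  if e x.2 y.2 then (jacobiSym (y.1 : ℤ) x.1 : ℝ) else 1

open Classical in
/-- SPLITW: the weight of `R ∪ {x, y}`. -/
def T_SPLITW : Prop := ∀ (T : Type) (a : ℕ → T → ℝ) (e : T → T → Prop) (R : Finset (ℕ × T))
  (x y : ℕ × T), x ∉ R → y ∉ R → x ≠ y →
  Wt a e (insert x (insert y R)) =
    Wt a e R * (a x.1 x.2 * ∏ r ∈ R, (psi e x r * psi e r x)) *
      (a y.1 y.2 * ∏ r ∈ R, (psi e y r * psi e r y)) * (psi e x y * psi e y x)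

/-- NCF: sum of `1/∏ p` over all configurations. -/
def T_NCF : Prop := ∀ (T : Type) [Fintype T] (N X : ℕ), 1 ≤ X →
  ∑ c ∈ cfgs T N X, 1 / ((∏ x ∈ c, x.1 : ℕ) : ℝ) ≤ (1 + Real.log X) ^ (Fintype.card T)

open Classical in
/-- UNB: the unbalanced configurations cancel. -/
def T_UNB : Prop := ∀ (T : Type) [Fintype T] (e : T → T → Prop), ∃ B : ℝ, 0 ≤ B ∧
  ∀ (a : ℕ → T → ℝ) (N z X : ℕ) (G : Finset T → Prop), 2 ∣ N → 1 ≤ z → 1 ≤ X →
    (∀ p t, |a p t| ≤ 1) →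
    |∑ c ∈ (cfgs T N X).filter (fun c => Unb e z c ∧ G (rtypes z c)), Wt a e c| ≤
      B * X * (1 + Real.log X) ^ (Fintype.card T) / Real.sqrt z

/-- the linking relation on types `(i, S)` -/
def lnk {ι : Type} (t t' : ι × Finset ι) : Prop := t'.1 ∈ t.2

/-- A labelled prime fits the data `(L, k, S)`. -/
def Fits {ι : Type} (z : ℕ) (L : Finset (ι × Finset ι)) (k : ι × Finset ι → ℕ)
    (S : ι → Finset ι) (x : ℕ × (ι × Finset ι)) : Prop :=
  (x.1 ≤ z ∧ x.2.2 = ∅) ∨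
    (z < x.1 ∧ x.2 ∈ L ∧ (blk x.1 = k x.2 ∨ blk x.1 = k x.2 + 1)) ∨
    (z < x.1 ∧ x.2.2 = S x.2.1)

open Classical in
/-- COV: every balanced configuration with support `I` fits some data. -/
def T_COV : Prop := ∀ (ι : Type) [Fintype ι] [DecidableEq ι] (I : Finset ι) (N z X : ℕ)
  (c : Finset (ℕ × (ι × Finset ι))), c ∈ cfgs (ι × Finset ι) N X → ¬ Unb lnk z c →
  (rtypes z c).image Prod.fst = I → (∀ x ∈ c, z < x.1 → x.2.2 ⊆ I.erase x.2.1) →
  (∀ x ∈ c, x.1 ≤ z → x.2.2 = ∅) →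
  ∃ (L : Finset (ι × Finset ι)) (k : ι × Finset ι → ℕ) (S : ι → Finset ι),
    (∀ t, k t ≤ blk X) ∧ ∀ x ∈ c, Fits z L k S x

open Classical in
/-- BAL: absolute bound for the balanced configurations with support `I`. -/
def T_BAL : Prop := ∀ (ι : Type) [Fintype ι] [DecidableEq ι], ∃ B : ℝ, 0 ≤ B ∧
  ∀ (a : ℕ → ι × Finset ι → ℝ) (b : ℕ → ι → ℝ) (I : Finset ι) (N z X : ℕ), 2 ≤ X →
    (∀ p i, 0 ≤ b p i ∧ b p i ≤ 1) →
    (∀ p i S, |a p (i, S)| ≤ if p ≤ z then (if S = ∅ then 1 else 0) else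
      if i ∈ I ∧ S ⊆ I.erase i then b p i else 0) →
    ∑ c ∈ (cfgs (ι × Finset ι) N X).filter
        (fun c => ¬ Unb lnk z c ∧ (rtypes z c).image Prod.fst = I), ∏ x ∈ c, |a x.1 x.2| ≤
      B * (X / Real.log X) * ((blk X : ℝ) + 1) ^ (Fintype.card (ι × Finset ι)) *
        Real.exp (Fintype.card ι * (∑ p ∈ (Finset.range (z + 1)).filter Nat.Prime, 1 / (p : ℝ)) +
          ∑ p ∈ primesTo N X, (∑ i ∈ I, b p i) / p)

open Classical in
/-- the coefficient of a labelled prime -/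
noncomputable def coef {ι : Type} [DecidableEq ι] (V : ι → ℕ → Finset (ι → ℤ)) (z : ℕ)
    (I : Finset ι) (u : ι → ℤ) (p : ℕ) (t : ι × Finset ι) : ℝ :=
  if p ≤ z then (if t.2 = ∅ then 1 else 0) else
    if t.1 ∈ I ∧ t.2 ⊆ I.erase t.1 then
      (∑ v ∈ (V t.1 p).image (fun v j => if j ∈ I.erase t.1 then v j else 1),
          ∏ j ∈ t.2, (v j : ℝ)) *
        (∏ j ∈ t.2, (jacobiSym (u j) p : ℝ)) / 2 ^ (I.card - 1)
    else 0

open Classical in
/-- EXP: the expansion. -/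
def T_EXP : Prop := ∀ (ι : Type) [Fintype ι] [DecidableEq ι] (N : ℕ)
  (V : ι → ℕ → Finset (ι → ℤ)), 0 < N → 2 ∣ N → IsSigns N V → ∀ z X : ℕ,
    (((Finset.range (X + 1)).filter
      (fun m => Squarefree m ∧ (∀ p ∈ m.primeFactors, ¬ p ∣ N) ∧ Bad N V m)).card : ℝ) ≤
    ∑ I : Finset ι, ∑ u ∈ Fintype.piFinset (fun _ : ι => Finset.Icc (-(N : ℤ)) N),
      if (∀ i, u i ∣ (N : ℤ)) then
        ∑ c ∈ (cfgs (ι × Finset ι) N X).filter (fun c => (rtypes z c).image Prod.fst = I),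
          Wt (coef V z I u) lnk c
      else 0

/-! ## Part D: number fields -/

/-- the number of ideals of norm `n` -/
noncomputable def idealCount (K : Type) [Field K] [NumberField K] (n : ℕ) : ℕ :=
  Nat.card {I : Ideal (NumberField.RingOfIntegers K) // Ideal.absNorm I = n}

/-- MUL: the number of ideals of norm `n` is multiplicative. -/
def T_MUL : Prop := ∀ (K : Type) [Field K] [NumberField K] (m n : ℕ), Nat.Coprime m n →
  idealCount K (m * n) = idealCount K m * idealCount K n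

/-- PP: the number of ideals of norm `p^k`. -/
def T_PP : Prop := ∀ (K : Type) [Field K] [NumberField K] (p k : ℕ), p.Prime →
  idealCount K (p ^ k) ≤ (k + 1) ^ (Module.finrank ℚ K)

/-- DZ: the logarithm of the Dedekind zeta function near `s = 1`. -/
def T_DZ : Prop := ∀ (K : Type) [Field K] [NumberField K], ∃ B : ℝ, ∀ s : ℝ, 1 < s → s ≤ 2 →
  |(∑' p : Nat.Primes, (idealCount K p : ℝ) * ((p : ℕ) : ℝ) ^ (-s)) - Real.log (1 / (s - 1))|
    ≤ B

/-- TAIL: the tail of the prime zeta sum. -/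
def T_TAIL : Prop := ∃ B : ℝ, ∀ X : ℕ, 3 ≤ X →
  ∑' p : Nat.Primes, (if X < (p : ℕ) then ((p : ℕ) : ℝ) ^ (-(1 + 1 / Real.log X)) else 0) ≤ B

/-- NUM: Mertens' theorem for ideals of prime norm. -/
def T_NUM : Prop := ∀ (K : Type) [Field K] [NumberField K], ∃ B : ℝ, ∀ X : ℕ, 3 ≤ X →
  |(∑ p ∈ (Finset.range (X + 1)).filter Nat.Prime, (idealCount K p : ℝ) / p) -
    Real.log (Real.log X)| ≤ B

/-- the number of roots of `g` modulo `p` -/
def rootCount (g : ℤ[X]) (p : ℕ) : ℕ :=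
  ((Finset.range p).filter (fun a : ℕ => (p : ℤ) ∣ g.eval (a : ℤ))).card

/-- ROOT: roots modulo `p` give ideals of norm `p`. -/
def T_ROOT : Prop := ∀ g : ℤ[X], Irreducible (g.map (Int.castRingHom ℚ)) →
  ∃ (K : Type) (_ : Field K) (_ : NumberField K) (N : ℕ), 0 < N ∧
    ∀ p : ℕ, p.Prime → ¬ p ∣ N → rootCount g p ≤ idealCount K p

/-- SPL: ideals of norm `p` in a big number field force complete splitting. -/
def T_SPL : Prop := ∀ (n : ℕ) (g : Fin (n + 1) → ℤ[X]), GoodFactors g →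
  ∃ (K : Type) (_ : Field K) (_ : NumberField K) (N : ℕ), 0 < N ∧
    ∀ p : ℕ, p.Prime → ¬ p ∣ N → 0 < idealCount K p →
      (∀ i, 2 ≤ rootCount (g i) p) ∧
      ∀ i, ∀ a ∈ Finset.range p, (p : ℤ) ∣ (g i).eval (a : ℤ) → ∀ j, j ≠ i →
        jacobiSym ((g j).eval (a : ℤ)) p = 1

/-- WTS: result of part D. -/
def T_WTS : Prop := ∀ (n : ℕ) (g : Fin (n + 1) → ℤ[X]), GoodFactors g → ∀ N : ℕ, 0 < N →
  SmallWeights N (signs g)

/-! ## Part E: curves all of whose twists have points everywhere locally -/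

/-- EMB: the function field embeds into every field with a transcendental solution. -/
def T_EMB : Prop := ∀ (F K : Type) [Field F] [CharZero F] [Field K] [CharZero K] (x y : F)
  (ξ η : K) (f : ℤ[X]) (d : ℤ), d ≠ 0 → 0 < f.natDegree →
  Squarefree (f.map (Int.castRingHom ℚ)) → IsFunctionField f d x y →
  Transcendental ℚ ξ → (d : K) * η ^ 2 = aeval ξ f → Nonempty (F →+* K)

/-- EXFF: existence of the function field. -/
def T_EXFF : Prop := ∀ (f : ℤ[X]) (d : ℤ), d ≠ 0 →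
  ∃ (F : Type) (_ : Field F) (_ : CharZero F) (x y : F), IsFunctionField f d x y

/-- PTR: real points. -/
def T_PTR : Prop := ∀ (f : ℤ[X]) (d : ℤ) (θ : ℝ), d ≠ 0 → aeval θ f = 0 →
  aeval θ (derivative f) ≠ 0 → ∃ ξ η : ℝ, Transcendental ℚ ξ ∧ (d : ℝ) * η ^ 2 = aeval ξ f

/-- PTP: `p`-adic points. -/
def T_PTP : Prop := ∀ (f : ℤ[X]) (d : ℤ) (p : ℕ) [Fact p.Prime] (θ : ℚ_[p]), d ≠ 0 →
  aeval θ f = 0 → aeval θ (derivative f) ≠ 0 →
  ∃ ξ η : ℚ_[p], Transcendental ℚ ξ ∧ (d : ℚ_[p]) * η ^ 2 = aeval ξ f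

/-- ELS: result of part E. -/
def T_ELS : Prop := ∀ g : ℕ, 2 ≤ g → ∃ f : ℤ[X], f.natDegree = 2 * g + 2 ∧
  Squarefree (f.map (Int.castRingHom ℚ)) ∧
  (∀ h : ℚ[X], Irreducible h → h ∣ f.map (Int.castRingHom ℚ) → Even h.natDegree) ∧
  ∀ d : ℤ, d ≠ 0 → TwistEverywhereLocal f d

end Pool.Agent.QTw
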