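import Pool.Agent.QTw.Targets
import Mathlib

/-!
# NUM: Mertens' theorem for ideals of prime norm
-/

namespace Pool.Agent.QTw

namespace NUM_

/-- the primes up to `X` as a finite set of `Nat.Primes` -/
def S (X : ℕ) : Finset Nat.Primes := (Finset.range (X + 1)).subtype Nat.Prime

lemma mem_S (X : ℕ) (p : Nat.Primes) : p ∈ S X ↔ (p : ℕ) ≤ X := by
  unfold S
  erw [Finset.mem_subtype]
  rw [Finset.mem_range]
  exact Nat.lt_succ_iff

lemma sum_S (X : ℕ) (g : ℕ → ℝ) :
    ∑ p ∈ S X, g (p : ℕ) = ∑ p ∈ (Finset.range (X + 1)).filter Nat.Prime, g p :=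
  Finset.sum_subtype_eq_sum_filter (s := Finset.range (X + 1)) (p := Nat.Prime) g

lemma summ_rpow (s : ℝ) (hs : 1 < s) :
    Summable (fun p : Nat.Primes => ((p : ℕ) : ℝ) ^ (-s)) :=
  Nat.Primes.summable_rpow.mpr (by linarith)

end NUM_

open NUM_ in
theorem p_NUM (hDZ : T_DZ) (hMERT : T_MERT) (hTAIL : T_TAIL) (hPP : T_PP) : T_NUM := by
  intro K _ _
  obtain ⟨B1, h1⟩ := hDZ K
  obtain ⟨B2, h2⟩ := hMERT
  obtain ⟨B3, h3⟩ := hTAIL
  set M : ℝ := (2 : ℝ) ^ (Module.finrank ℚ K) with hM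
  have hM0 : 0 ≤ M := by positivity
  have ha0 : ∀ p : ℕ, (0 : ℝ) ≤ idealCount K p := fun p => Nat.cast_nonneg _
  have haM : ∀ p : ℕ, p.Prime → (idealCount K p : ℝ) ≤ M := by
    intro p hp
    have h := hPP K p 1 hp
    rw [pow_one] at h
    have h' : ((idealCount K p : ℕ) : ℝ) ≤ (((1 + 1) ^ (Module.finrank ℚ K) : ℕ) : ℝ) :=
      Nat.cast_le.mpr h
    refine h'.trans (le_of_eq ?_)
    push_cast
    rw [hM]
  refine ⟨B1 + M + M * |B2| + M * |B3|, ?_⟩
  intro X hX
  have hX3 : (3 : ℝ) ≤ X := by exact_mod_cast hX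
  have hL1 : 1 ≤ Real.log X := by
    have h : Real.exp 1 ≤ X := by linarith [Real.exp_one_lt_d9]
    have := Real.log_le_log (Real.exp_pos 1) h
    rwa [Real.log_exp] at this
  set L := Real.log X with hL
  have hL0 : 0 < L := by linarith
  set s : ℝ := 1 + 1 / L with hs
  have hs1 : 1 < s := by rw [hs]; linarith [one_div_pos.mpr hL0]
  have hs2 : s ≤ 2 := by
    have : 1 / L ≤ 1 := by rw [div_le_one hL0]; exact hL1
    rw [hs]; linarith
  have hsL : Real.log (1 / (s - 1)) = Real.log L := by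
    rw [hs]; congr 1; field_simp; ring
  have e1 := h1 s hs1 hs2
  rw [hsL] at e1
  have e2 := h2 X (by omega)
  have e3 := h3 X hX
  -- the series
  have hsum0 := summ_rpow s hs1
  have hfle : ∀ p : Nat.Primes, (idealCount K p : ℝ) * ((p : ℕ) : ℝ) ^ (-s) ≤
      M * ((p : ℕ) : ℝ) ^ (-s) := fun p =>
    mul_le_mul_of_nonneg_right (haM p p.2) (Real.rpow_nonneg (Nat.cast_nonneg _) _)
  have hf0 : ∀ p : Nat.Primes, 0 ≤ (idealCount K p : ℝ) * ((p : ℕ) : ℝ) ^ (-s) := fun p =>
    mul_nonneg (ha0 _) (Real.rpow_nonneg (Nat.cast_nonneg _) _)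
  have hsum : Summable (fun p : Nat.Primes => (idealCount K p : ℝ) * ((p : ℕ) : ℝ) ^ (-s)) :=
    Summable.of_nonneg_of_le hf0 hfle (hsum0.mul_left M)
  have hpart : ∑ p ∈ S X, (idealCount K p : ℝ) * ((p : ℕ) : ℝ) ^ (-s) ≤
      ∑' p : Nat.Primes, (idealCount K p : ℝ) * ((p : ℕ) : ℝ) ^ (-s) :=
    hsum.sum_le_tsum _ (fun p _ => hf0 p)
  have hg : Summable (fun p : Nat.Primes =>
      if X < (p : ℕ) then ((p : ℕ) : ℝ) ^ (-s) else 0) := by
    refine Summable.of_nonneg_of_le ?_ ?_ hsum0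
    · intro p; split_ifs
      · exact Real.rpow_nonneg (Nat.cast_nonneg _) _
      · exact le_rfl
    · intro p; split_ifs
      · exact le_rfl
      · exact Real.rpow_nonneg (Nat.cast_nonneg _) _
  have hrest : ∑' p : Nat.Primes, (idealCount K p : ℝ) * ((p : ℕ) : ℝ) ^ (-s) ≤
      ∑ p ∈ S X, (idealCount K p : ℝ) * ((p : ℕ) : ℝ) ^ (-s) +
        M * ∑' p : Nat.Primes, (if X < (p : ℕ) then ((p : ℕ) : ℝ) ^ (-s) else 0) := by
    have hfin : Summable (fun p : Nat.Primes =>
        if (p : ℕ) ≤ X then (idealCount K p : ℝ) * ((p : ℕ) : ℝ) ^ (-s) else 0) :=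
      summable_of_ne_finset_zero (s := S X) (fun p hp => if_neg (fun h => hp ((mem_S X p).mpr h)))
    have hfs : ∑' p : Nat.Primes,
        (if (p : ℕ) ≤ X then (idealCount K p : ℝ) * ((p : ℕ) : ℝ) ^ (-s) else 0) =
        ∑ p ∈ S X, (idealCount K p : ℝ) * ((p : ℕ) : ℝ) ^ (-s) := by
      rw [tsum_eq_sum (s := S X) (fun p hp => if_neg (fun h => hp ((mem_S X p).mpr h)))]
      exact Finset.sum_congr rfl (fun p hp => if_pos ((mem_S X p).mp hp))
    rw [← hfs, ← tsum_mul_left, ← hfin.tsum_add (hg.mul_left M)]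
    refine hsum.tsum_le_tsum ?_ (hfin.add (hg.mul_left M))
    intro p
    by_cases h : (p : ℕ) ≤ X
    · have h' : ¬ X < (p : ℕ) := not_lt.mpr h
      simp only [h, h', if_true, if_false]
      linarith
    · have h' : X < (p : ℕ) := not_le.mp h
      simp only [h, h', if_true, if_false]
      linarith [hfle p]
  -- comparison of 1/p and p^(-s)
  have hS1 : ∑ p ∈ S X, (idealCount K p : ℝ) * ((p : ℕ) : ℝ) ^ (-s) ≤
      ∑ p ∈ (Finset.range (X + 1)).filter Nat.Prime, (idealCount K p : ℝ) / p := by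
    rw [sum_S X (fun p => (idealCount K p : ℝ) * ((p : ℕ) : ℝ) ^ (-s))]
    refine Finset.sum_le_sum ?_
    intro p hp
    have hp' : p.Prime := (Finset.mem_filter.mp hp).2
    have hp1 : (1 : ℝ) ≤ p := by exact_mod_cast hp'.one_lt.le
    rw [div_eq_mul_inv, ← Real.rpow_neg_one]
    exact mul_le_mul_of_nonneg_left (Real.rpow_le_rpow_of_exponent_le hp1 (by linarith)) (ha0 p)
  have hS2 : ∑ p ∈ (Finset.range (X + 1)).filter Nat.Prime, (idealCount K p : ℝ) / p ≤
      ∑ p ∈ S X, (idealCount K p : ℝ) * ((p : ℕ) : ℝ) ^ (-s) +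
        M / L * ∑ p ∈ (Finset.range (X + 1)).filter Nat.Prime, Real.log p / p := by
    rw [sum_S X (fun p => (idealCount K p : ℝ) * ((p : ℕ) : ℝ) ^ (-s)), Finset.mul_sum,
      ← Finset.sum_add_distrib]
    refine Finset.sum_le_sum ?_
    intro p hp
    have hp' : p.Prime := (Finset.mem_filter.mp hp).2
    have hp1 : (1 : ℝ) ≤ p := by exact_mod_cast hp'.one_lt.le
    have hp0 : (0 : ℝ) < p := by linarith
    have hlog : 0 ≤ Real.log p := Real.log_nonneg hp1
    have e : ((p : ℕ) : ℝ) ^ (-s) = (1 / p) * Real.exp (-(Real.log p / L)) := by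
      rw [Real.rpow_def_of_pos hp0, hs]
      have h : Real.log (p : ℝ) * -(1 + 1 / L) = -Real.log p + -(Real.log p / L) := by ring
      rw [h, Real.exp_add, Real.exp_neg, Real.exp_log hp0, one_div]
    have e' : 1 - Real.log p / L ≤ Real.exp (-(Real.log p / L)) := by
      linarith [Real.add_one_le_exp (-(Real.log p / L))]
    have ha := ha0 p
    have hb := haM p hp'
    rw [e]
    have h4 : (idealCount K p : ℝ) / p =
        (idealCount K p : ℝ) * (1 / p * (1 - Real.log p / L)) +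
          (idealCount K p : ℝ) / L * (Real.log p / p) := by
      field_simp; ring
    rw [h4]
    refine add_le_add ?_ ?_
    · refine mul_le_mul_of_nonneg_left ?_ ha
      exact mul_le_mul_of_nonneg_left e' (by positivity)
    · exact mul_le_mul_of_nonneg_right (div_le_div_of_nonneg_right hb hL0.le) (by positivity)
  have hm : M / L * ∑ p ∈ (Finset.range (X + 1)).filter Nat.Prime, Real.log p / p ≤
      M + M * |B2| := by
    have h5 : M / L * ∑ p ∈ (Finset.range (X + 1)).filter Nat.Prime, Real.log p / p ≤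
        M / L * (L + B2) := mul_le_mul_of_nonneg_left e2 (by positivity)
    have h6 : M / L * (L + B2) = M + M * (B2 / L) := by field_simp
    have h7 : B2 / L ≤ |B2| := by
      refine (div_le_div_of_nonneg_right (le_abs_self B2) hL0.le).trans ?_
      exact div_le_self (abs_nonneg _) hL1
    have h8 : M * (B2 / L) ≤ M * |B2| := mul_le_mul_of_nonneg_left h7 hM0
    linarith
  have ht : M * ∑' p : Nat.Primes, (if X < (p : ℕ) then ((p : ℕ) : ℝ) ^ (-s) else 0) ≤
      M * |B3| := mul_le_mul_of_nonneg_left (e3.trans (le_abs_self _)) hM0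
  have e4 := abs_le.mp e1
  have hMB2 : 0 ≤ M * |B2| := by positivity
  have hMB3 : 0 ≤ M * |B3| := by positivity
  rw [abs_le]
  constructor <;> linarith [e4.1, e4.2]

end Pool.Agent.QTw
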