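import Pool.Agent.QTw.Targets

set_option autoImplicit false

/-! TAIL: the tail of the prime zeta sum. -/

namespace Pool.Agent.QTw.TAIL_

open Finset
open scoped BigOperators

theorem theta_sum (N : ℕ) :
    ∑ p ∈ (Finset.Ioc 0 N).filter Nat.Prime, Real.log p ≤ Real.log 4 * N := by
  have h := Chebyshev.theta_le_log4_mul_x (x := (N : ℝ)) (Nat.cast_nonneg N)
  unfold Chebyshev.theta at h
  rwa [Nat.floor_natCast] at h

/-- The block of `p`: `2 ^ k * X < p ≤ 2 ^ (k + 1) * X`. -/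
def kk (X p : ℕ) : ℕ := Nat.log 2 ((p - 1) / X)

theorem kk_spec {X p : ℕ} (hX : 0 < X) (hp : X < p) :
    2 ^ kk X p * X < p ∧ p ≤ 2 ^ (kk X p + 1) * X := by
  have h1 : (p - 1) / X ≠ 0 := by
    have : 0 < (p - 1) / X := Nat.div_pos (by omega) hX
    omega
  have h2 := Nat.pow_log_le_self 2 h1
  have h3 := Nat.lt_pow_succ_log_self (b := 2) (by norm_num) ((p - 1) / X)
  rw [Nat.le_div_iff_mul_le hX] at h2
  rw [Nat.div_lt_iff_lt_mul hX] at h3
  unfold kk
  rw [Nat.succ_eq_add_one] at h3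
  constructor <;> omega

/-- One block. -/
theorem block {X k : ℕ} (hX : 3 ≤ X) (S : Finset ℕ)
    (hS : ∀ p ∈ S, p.Prime ∧ 2 ^ k * X < p ∧ p ≤ 2 ^ (k + 1) * X) :
    ∑ p ∈ S, (p : ℝ) ^ (-(1 + 1 / Real.log X)) ≤
      2 * Real.log 4 / Real.log X * ((2 : ℝ) ^ (-(1 / Real.log X))) ^ k := by
  have hX0 : (0 : ℝ) < X := by positivity
  have hX1 : (1 : ℝ) < X := by exact_mod_cast (by omega : 1 < X)
  have hl : 0 < Real.log X := Real.log_pos hX1
  set ε : ℝ := 1 / Real.log X with hε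
  have hε0 : 0 < ε := by positivity
  set Y : ℝ := 2 ^ k * X with hY
  have hY0 : 0 < Y := by positivity
  have hYX : (X : ℝ) ≤ Y := by
    have : (1 : ℝ) ≤ 2 ^ k := one_le_pow₀ (by norm_num)
    nlinarith
  have h1 : ∀ p ∈ S, (p : ℝ) ^ (-(1 + ε)) ≤ (1 / Real.log X * Y ^ (-(1 + ε))) * Real.log p := by
    intro p hp
    obtain ⟨_, h3, _⟩ := hS p hp
    have h4 : Y ≤ p := by
      rw [hY]
      exact_mod_cast h3.le
    have h5 : Real.log X ≤ Real.log p := Real.log_le_log hX0 (hYX.trans h4)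
    have h6 : (p : ℝ) ^ (-(1 + ε)) ≤ Y ^ (-(1 + ε)) :=
      Real.rpow_le_rpow_of_nonpos hY0 h4 (by linarith)
    have h7 : 1 ≤ Real.log p / Real.log X := by rwa [one_le_div hl]
    have h8 : 0 < Y ^ (-(1 + ε)) := Real.rpow_pos_of_pos hY0 _
    calc (p : ℝ) ^ (-(1 + ε)) ≤ Y ^ (-(1 + ε)) * 1 := by rw [mul_one]; exact h6
      _ ≤ Y ^ (-(1 + ε)) * (Real.log p / Real.log X) := mul_le_mul_of_nonneg_left h7 h8.le
      _ = _ := by ring
  have h8 : 0 < Y ^ (-(1 + ε)) := Real.rpow_pos_of_pos hY0 _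
  have h2 : ∑ p ∈ S, Real.log p ≤ Real.log 4 * (2 * Y) := by
    have h3 := theta_sum (2 ^ (k + 1) * X)
    have h4 : ∑ p ∈ S, Real.log p ≤
        ∑ p ∈ (Finset.Ioc 0 (2 ^ (k + 1) * X)).filter Nat.Prime, Real.log p := by
      apply Finset.sum_le_sum_of_subset_of_nonneg
      · intro p hp
        obtain ⟨h5, _, h6⟩ := hS p hp
        rw [Finset.mem_filter, Finset.mem_Ioc]
        exact ⟨⟨h5.pos, h6⟩, h5⟩
      · intro p _ _
        exact Real.log_natCast_nonneg p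
    have h5 : (((2 ^ (k + 1) * X : ℕ)) : ℝ) = 2 * Y := by
      rw [hY]
      push_cast
      ring
    rw [h5] at h3
    exact h4.trans h3
  calc ∑ p ∈ S, (p : ℝ) ^ (-(1 + ε)) ≤
      ∑ p ∈ S, (1 / Real.log X * Y ^ (-(1 + ε))) * Real.log p := Finset.sum_le_sum h1
    _ = (1 / Real.log X * Y ^ (-(1 + ε))) * ∑ p ∈ S, Real.log p := by rw [Finset.mul_sum]
    _ ≤ (1 / Real.log X * Y ^ (-(1 + ε))) * (Real.log 4 * (2 * Y)) :=
        mul_le_mul_of_nonneg_left h2 (by positivity)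
    _ = 2 * Real.log 4 / Real.log X * (Y ^ (-(1 + ε)) * Y) := by ring
    _ = 2 * Real.log 4 / Real.log X * Y ^ (-ε) := by
        congr 1
        nth_rewrite 2 [← Real.rpow_one Y]
        rw [← Real.rpow_add hY0]
        congr 1
        ring
    _ ≤ 2 * Real.log 4 / Real.log X * ((2 : ℝ) ^ (-ε)) ^ k := by
        refine mul_le_mul_of_nonneg_left ?_ (by positivity)
        rw [hY, Real.mul_rpow (by positivity) hX0.le]
        have h9 : (X : ℝ) ^ (-ε) ≤ 1 :=
          Real.rpow_le_one_of_one_le_of_nonpos hX1.le (by linarith)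
        have h10 : ((2 : ℝ) ^ k) ^ (-ε) = ((2 : ℝ) ^ (-ε)) ^ k := by
          rw [← Real.rpow_natCast, ← Real.rpow_natCast, ← Real.rpow_mul (by norm_num),
            ← Real.rpow_mul (by norm_num), mul_comm]
        rw [h10]
        have h11 : 0 ≤ ((2 : ℝ) ^ (-ε)) ^ k := by positivity
        nlinarith

/-- The finite sums. -/
theorem fin_sum {X : ℕ} (hX : 3 ≤ X) (S : Finset ℕ) (hS : ∀ p ∈ S, p.Prime ∧ X < p) :
    ∑ p ∈ S, (p : ℝ) ^ (-(1 + 1 / Real.log X)) ≤ 8 := by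
  have hX1 : (1 : ℝ) < X := by exact_mod_cast (by omega : 1 < X)
  have hX3 : (2 : ℝ) ≤ X := by exact_mod_cast (by omega : 2 ≤ X)
  have hl : 0 < Real.log X := Real.log_pos hX1
  set ε : ℝ := 1 / Real.log X with hε
  have hε0 : 0 < ε := by positivity
  set r : ℝ := (2 : ℝ) ^ (-ε) with hr
  have hr0 : 0 < r := by positivity
  have hl2 : 0 < Real.log 2 := Real.log_pos (by norm_num)
  set t : ℝ := Real.log 2 * ε with ht
  have ht0 : 0 < t := by positivity
  have ht1 : t ≤ 1 := by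
    rw [ht, hε, mul_one_div, div_le_one hl]
    exact Real.log_le_log (by norm_num) hX3
  have hr1 : r ≤ 1 - t / 2 := by
    have h1 : r = Real.exp (-t) := by
      rw [hr, Real.rpow_def_of_pos (by norm_num), ht]
      congr 1
      ring
    have h2 : Real.exp (-t) * Real.exp t = 1 := by
      rw [← Real.exp_add]
      simp
    have h3 := Real.add_one_le_exp t
    have h4 : r * (t + 1) ≤ 1 := by
      calc r * (t + 1) ≤ r * Real.exp t := mul_le_mul_of_nonneg_left h3 hr0.le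
        _ = 1 := by rw [h1, h2]
    nlinarith
  have hr2 : r < 1 := by linarith
  obtain ⟨K, hK⟩ : ∃ K, ∀ p ∈ S, kk X p < K :=
    ⟨S.sup (kk X) + 1, fun p hp => Nat.lt_succ_of_le (Finset.le_sup (f := kk X) hp)⟩
  have h1 : ∑ p ∈ S, (p : ℝ) ^ (-(1 + ε)) =
      ∑ k ∈ Finset.range K, ∑ p ∈ S.filter (fun p => kk X p = k), (p : ℝ) ^ (-(1 + ε)) := by
    rw [Finset.sum_fiberwise_of_maps_to]
    intro p hp
    exact Finset.mem_range.2 (hK p hp)
  rw [h1]
  have h2 : ∀ k ∈ Finset.range K, ∑ p ∈ S.filter (fun p => kk X p = k), (p : ℝ) ^ (-(1 + ε)) ≤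
      2 * Real.log 4 / Real.log X * r ^ k := by
    intro k _
    apply block hX
    intro p hp
    rw [Finset.mem_filter] at hp
    obtain ⟨hp1, hp2⟩ := hp
    have h3 := kk_spec (by omega) (hS p hp1).2
    rw [hp2] at h3
    exact ⟨(hS p hp1).1, h3.1, h3.2⟩
  refine (Finset.sum_le_sum h2).trans ?_
  rw [← Finset.mul_sum]
  have h3 : ∑ k ∈ Finset.range K, r ^ k ≤ 2 / t := by
    have h4 := geom_sum_mul r K
    have h5 : 0 ≤ r ^ K := by positivity
    have h6 : 0 ≤ ∑ k ∈ Finset.range K, r ^ k := Finset.sum_nonneg fun k _ => by positivity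
    rw [le_div_iff₀ ht0]
    nlinarith
  have h4 : Real.log 4 = 2 * Real.log 2 := by
    rw [show (4 : ℝ) = 2 ^ 2 by norm_num, Real.log_pow]
    norm_num
  calc 2 * Real.log 4 / Real.log X * ∑ k ∈ Finset.range K, r ^ k ≤
      2 * Real.log 4 / Real.log X * (2 / t) :=
        mul_le_mul_of_nonneg_left h3 (by positivity)
    _ = 8 := by
        rw [h4, ht, hε]
        field_simp
        norm_num

end Pool.Agent.QTw.TAIL_

namespace Pool.Agent.QTw

theorem p_TAIL : T_TAIL := by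
  refine ⟨8, fun X hX => ?_⟩
  refine tsum_le_of_sum_le' (by norm_num) fun s => ?_
  rw [← Finset.sum_filter]
  have h := TAIL_.fin_sum hX ((s.filter fun p : Nat.Primes => X < (p : ℕ)).map
    ⟨fun p : Nat.Primes => (p : ℕ), Nat.Primes.coe_nat_injective⟩) (by
      intro p hp
      rw [Finset.mem_map] at hp
      obtain ⟨q, hq, rfl⟩ := hp
      rw [Finset.mem_filter] at hq
      exact ⟨q.2, hq.2⟩)
  rw [Finset.sum_map] at h
  exact h

end Pool.Agent.QTw
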