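import Pool.Agent.QTw.Targets

/-!
# UNB: the unbalanced configurations cancel
-/

namespace Pool.Agent.QTw

namespace UNB_

/-- the condition on the smaller prime -/
def PC {T : Type} (e : T → T → Prop) (N z : ℕ) (R : Finset (ℕ × T)) (tp tq : T) (p : ℕ) :
    Prop :=
  p.Prime ∧ ¬ p ∣ N ∧ (∀ r ∈ R, r.1 ≠ p) ∧ CanonP e z R (p, tp) tq

/-- the condition on the larger prime -/
def QC {T : Type} (e : T → T → Prop) (N z : ℕ) (R : Finset (ℕ × T)) (tp tq : T) (q : ℕ) :
    Prop :=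
  q.Prime ∧ ¬ q ∣ N ∧ (∀ r ∈ R, r.1 ≠ q) ∧ CanonQ e z R (q, tq) tp

open Classical in
/-- all conditions -/
def Cond {T : Type} (e : T → T → Prop) (G : Finset T → Prop) (N z X : ℕ)
    (R : Finset (ℕ × T)) (tp tq : T) (p q : ℕ) : Prop :=
  PC e N z R tp tq p ∧ QC e N z R tp tq q ∧ UPair e z (p, tp) (q, tq) ∧
    p * (q * ∏ r ∈ R, r.1) ≤ X ∧ G (insert tp (insert tq (rtypes z R)))

open Classical in
lemma rtypes_insert {T : Type} (z : ℕ) (c : Finset (ℕ × T)) (x : ℕ × T) (hx : z < x.1) :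
    rtypes z (insert x c) = insert x.2 (rtypes z c) := by
  unfold rtypes
  rw [Finset.filter_insert, if_pos hx, Finset.image_insert]

lemma pow_lt {p q : ℕ} (_hp : 1 ≤ p) (h : p ^ 4 < q) : p < q := by
  have : p ≤ p ^ 4 := Nat.le_self_pow (by norm_num) p
  omega

open Classical in
lemma mem_cfgs {T : Type} [Fintype T] {N X : ℕ} {c : Finset (ℕ × T)} :
    c ∈ cfgs T N X ↔ IsCfg N X c := by
  unfold cfgs
  rw [Finset.mem_filter, Finset.mem_powerset]
  constructor
  · exact fun h => h.2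
  · intro h
    refine ⟨fun x hx => ?_, h⟩
    rw [Finset.mem_product, Finset.mem_range]
    refine ⟨?_, Finset.mem_univ _⟩
    have h1 : x.1 ∣ ∏ x ∈ c, x.1 := Finset.dvd_prod_of_mem (fun x : ℕ × T => x.1) hx
    have h2 : 0 < ∏ x ∈ c, x.1 := Finset.prod_pos (fun y hy => (h.1 y hy).1.pos)
    have h3 := Nat.le_of_dvd h2 h1
    have h4 := h.2.2
    omega

open Classical in
lemma cond_mem {T : Type} [Fintype T] {e : T → T → Prop} {G : Finset T → Prop} {N z X : ℕ}
    {R : Finset (ℕ × T)} {tp tq : T} {p q : ℕ} (hR : R ∈ cfgs T N X)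
    (h : Cond e G N z X R tp tq p q) :
    insert (p, tp) (insert (q, tq) R) ∈
      (cfgs T N X).filter (fun c => Unb e z c ∧ G (rtypes z c)) := by
  obtain ⟨⟨hp, hpN, hpR, hcp⟩, ⟨hq, hqN, hqR, hcq⟩, hU, hX, hG⟩ := h
  rw [mem_cfgs] at hR
  have hpq : p < q := pow_lt hp.one_lt.le hU.2.2
  have hzp : z < p := hU.2.1
  have hqn : (q, tq) ∉ R := fun h => hqR _ h rfl
  have hpn : (p, tp) ∉ insert (q, tq) R := by
    rw [Finset.mem_insert]
    rintro (h | h)
    · have := congrArg Prod.fst h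
      simp only at this
      omega
    · exact hpR _ h rfl
  rw [Finset.mem_filter, mem_cfgs]
  refine ⟨⟨?_, ?_, ?_⟩, ⟨(p, tp), by simp, (q, tq), by simp, hU⟩, ?_⟩
  · intro x hx
    rw [Finset.mem_insert, Finset.mem_insert] at hx
    rcases hx with rfl | rfl | hx
    · exact ⟨hp, hpN⟩
    · exact ⟨hq, hqN⟩
    · exact hR.1 x hx
  · intro x hx y hy hxy
    rw [Finset.mem_insert, Finset.mem_insert] at hx hy
    rcases hx with rfl | rfl | hx <;> rcases hy with rfl | rfl | hy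
    · rfl
    · simp only at hxy
      omega
    · exact absurd hxy.symm (hpR y hy)
    · simp only at hxy
      omega
    · rfl
    · exact absurd hxy.symm (hqR y hy)
    · exact absurd hxy (hpR x hx)
    · exact absurd hxy (hqR x hx)
    · exact hR.2.1 x hx y hy hxy
  · rw [Finset.prod_insert hpn, Finset.prod_insert hqn]
    exact hX
  · rw [rtypes_insert z _ _ hzp, rtypes_insert z _ _ (lt_trans hzp hpq)]
    exact hG

open Classical in
lemma erase_insert2 {T : Type} {R : Finset (ℕ × T)} {x y : ℕ × T} (hx : x ∉ R) (hy : y ∉ R)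
    (hxy : x ≠ y) : ((insert x (insert y R)).erase x).erase y = R := by
  rw [Finset.erase_insert, Finset.erase_insert hy]
  rw [Finset.mem_insert]
  rintro (h | h)
  · exact hxy h
  · exact hx h

open Classical in
lemma sum_eq (hC : T_CANON) {T : Type} [Fintype T] (e : T → T → Prop) (G : Finset T → Prop)
    (N z X : ℕ) (F : Finset (ℕ × T) → ℝ) :
    ∑ c ∈ (cfgs T N X).filter (fun c => Unb e z c ∧ G (rtypes z c)), F c =
      ∑ R ∈ cfgs T N X, ∑ t : T × T, ∑ p ∈ Finset.range (X + 1), ∑ q ∈ Finset.range (X + 1),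
        if Cond e G N z X R t.1 t.2 p q then F (insert (p, t.1) (insert (q, t.2) R)) else 0 := by
  have h1 : (∑ R ∈ cfgs T N X, ∑ t : T × T, ∑ p ∈ Finset.range (X + 1),
      ∑ q ∈ Finset.range (X + 1), if Cond e G N z X R t.1 t.2 p q then
        F (insert (p, t.1) (insert (q, t.2) R)) else 0) =
      ∑ d ∈ (cfgs T N X ×ˢ ((Finset.univ : Finset (T × T)) ×ˢ
        (Finset.range (X + 1) ×ˢ Finset.range (X + 1)))),
        if Cond e G N z X d.1 d.2.1.1 d.2.1.2 d.2.2.1 d.2.2.2 then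
          F (insert (d.2.2.1, d.2.1.1) (insert (d.2.2.2, d.2.1.2) d.1)) else 0 := by
    rw [Finset.sum_product]
    refine Finset.sum_congr rfl (fun R _ => ?_)
    rw [Finset.sum_product]
    refine Finset.sum_congr rfl (fun t _ => ?_)
    rw [Finset.sum_product]
  rw [h1, ← Finset.sum_filter]
  symm
  refine Finset.sum_bij (fun d _ => insert (d.2.2.1, d.2.1.1) (insert (d.2.2.2, d.2.1.2) d.1))
    ?_ ?_ ?_ ?_
  · rintro ⟨R, ⟨tp, tq⟩, ⟨p, q⟩⟩ hd
    rw [Finset.mem_filter, Finset.mem_product] at hd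
    exact cond_mem hd.1.1 hd.2
  · rintro ⟨R, ⟨tp, tq⟩, ⟨p, q⟩⟩ hd ⟨R', ⟨tp', tq'⟩, ⟨p', q'⟩⟩ hd' heq
    rw [Finset.mem_filter, Finset.mem_product] at hd hd'
    have hm := cond_mem hd.1.1 hd.2
    have hm' := cond_mem hd'.1.1 hd'.2
    simp only at hd hd' heq hm hm'
    rw [Finset.mem_filter, mem_cfgs] at hm
    obtain ⟨⟨hp, hpN, hpR, hcp⟩, ⟨hq, hqN, hqR, hcq⟩, hU, hX, hG⟩ := hd.2
    obtain ⟨⟨hp', hpN', hpR', hcp'⟩, ⟨hq', hqN', hqR', hcq'⟩, hU', hX', hG'⟩ := hd'.2
    have hpq : p < q := pow_lt hp.one_lt.le hU.2.2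
    have hpq' : p' < q' := pow_lt hp'.one_lt.le hU'.2.2
    obtain ⟨w, hw, hu⟩ := hC T e z (insert (p, tp) (insert (q, tq) R))
      (fun x hx => (hm.1.1 x hx).1.two_le) hm.1.2.1 hm.2.1
    have hne : (p, tp) ≠ (q, tq) := fun h => by
      have := congrArg Prod.fst h
      simp only at this
      omega
    have hne' : (p', tp') ≠ (q', tq') := fun h => by
      have := congrArg Prod.fst h
      simp only at this
      omega
    have e1 : ((insert (p, tp) (insert (q, tq) R)).erase (p, tp)).erase (q, tq) = R :=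
      erase_insert2 (fun h => hpR _ h rfl) (fun h => hqR _ h rfl) hne
    have e1' : ((insert (p', tp') (insert (q', tq') R')).erase (p', tp')).erase (q', tq') = R' :=
      erase_insert2 (fun h => hpR' _ h rfl) (fun h => hqR' _ h rfl) hne'
    have e2 := hu ((p, tp), (q, tq)) ⟨by simp, by simp, hU, by
      simp only
      rw [e1]
      exact hcp, by
      simp only
      rw [e1]
      exact hcq⟩
    have e3 := hu ((p', tp'), (q', tq')) ⟨by
      rw [heq]
      simp, by
      rw [heq]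
      simp, hU', by
      simp only
      rw [heq, e1']
      exact hcp', by
      simp only
      rw [heq, e1']
      exact hcq'⟩
    have e4 := e2.trans e3.symm
    simp only [Prod.mk.injEq] at e4
    obtain ⟨⟨rfl, rfl⟩, rfl, rfl⟩ := e4
    rw [heq] at e1
    rw [e1] at e1'
    rw [e1']
  · intro c hc
    rw [Finset.mem_filter, mem_cfgs] at hc
    obtain ⟨hcc, hU, hG⟩ := hc
    obtain ⟨w, ⟨hw1, hw2, hw3, hw4, hw5⟩, -⟩ := hC T e z c
      (fun x hx => (hcc.1 x hx).1.two_le) hcc.2.1 hU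
    obtain ⟨⟨p, tp⟩, ⟨q, tq⟩⟩ := w
    simp only at hw1 hw2 hw3 hw4 hw5
    have hp := hcc.1 _ hw1
    have hq := hcc.1 _ hw2
    simp only at hp hq
    have hpq : p < q := pow_lt hp.1.one_lt.le hw3.2.2
    have hne : (q, tq) ≠ (p, tp) := fun h => by
      have := congrArg Prod.fst h
      simp only at this
      omega
    have hq2 : (q, tq) ∈ c.erase (p, tp) := Finset.mem_erase.mpr ⟨hne, hw2⟩
    have e1 : insert (p, tp) (insert (q, tq) ((c.erase (p, tp)).erase (q, tq))) = c := by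
      rw [Finset.insert_erase hq2, Finset.insert_erase hw1]
    have hsub : (c.erase (p, tp)).erase (q, tq) ⊆ c :=
      (Finset.erase_subset _ _).trans (Finset.erase_subset _ _)
    have hprod : p * (q * ∏ r ∈ (c.erase (p, tp)).erase (q, tq), r.1) = ∏ r ∈ c, r.1 := by
      rw [← Finset.mul_prod_erase c (fun r => r.1) hw1,
        ← Finset.mul_prod_erase (c.erase (p, tp)) (fun r => r.1) hq2]
    have hpos : 0 < ∏ r ∈ (c.erase (p, tp)).erase (q, tq), r.1 :=
      Finset.prod_pos (fun r hr => (hcc.1 r (hsub hr)).1.pos)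
    refine ⟨⟨(c.erase (p, tp)).erase (q, tq), (tp, tq), (p, q)⟩, ?_, e1⟩
    rw [Finset.mem_filter, Finset.mem_product, Finset.mem_product, Finset.mem_product,
      Finset.mem_range, Finset.mem_range, mem_cfgs]
    have hXX := hcc.2.2
    rw [← hprod] at hXX
    have hpX : p ≤ X := by
      calc p = p * (1 * 1) := by ring
        _ ≤ p * (q * ∏ r ∈ (c.erase (p, tp)).erase (q, tq), r.1) :=
          Nat.mul_le_mul_left _ (Nat.mul_le_mul hq.1.pos hpos)
        _ ≤ X := hXX
    have hqX : q ≤ X := by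
      calc q = 1 * (q * 1) := by ring
        _ ≤ p * (q * ∏ r ∈ (c.erase (p, tp)).erase (q, tq), r.1) :=
          Nat.mul_le_mul hp.1.pos (Nat.mul_le_mul_left _ hpos)
        _ ≤ X := hXX
    refine ⟨⟨⟨?_, ?_, ?_⟩, Finset.mem_univ _, by simp only; omega, by simp only; omega⟩,
      ⟨hp.1, hp.2, ?_, hw4⟩, ⟨hq.1, hq.2, ?_, hw5⟩, hw3, hXX, ?_⟩
    · exact fun x hx => hcc.1 x (hsub hx)
    · exact fun x hx y hy => hcc.2.1 x (hsub hx) y (hsub hy)
    · refine le_trans ?_ hXX
      calc ∏ r ∈ (c.erase (p, tp)).erase (q, tq), r.1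
          = 1 * (1 * ∏ r ∈ (c.erase (p, tp)).erase (q, tq), r.1) := by ring
        _ ≤ _ := Nat.mul_le_mul hp.1.pos (Nat.mul_le_mul hq.1.pos le_rfl)
    · intro r hr hrp
      have := hcc.2.1 r (hsub hr) _ hw1 hrp
      rw [this] at hr
      simp at hr
    · intro r hr hrp
      have := hcc.2.1 r (hsub hr) _ hw2 hrp
      rw [this] at hr
      simp at hr
    · have h2 : rtypes z c = insert tp (insert tq (rtypes z ((c.erase (p, tp)).erase (q, tq)))) := by
        conv_lhs => rw [← e1]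
        rw [rtypes_insert z _ _ hw3.2.1, rtypes_insert z _ _ (lt_trans hw3.2.1 hpq)]
      rw [← h2]
      exact hG
  · intro d hd
    rfl

lemma sum_sum_ite (A M : Finset ℕ) (B : ℕ → Finset ℕ) (hA : A ⊆ M)
    (hB : ∀ p ∈ A, B p ⊆ M) (F H : ℕ → ℕ → ℝ) (h1 : ∀ p ∈ A, ∀ q ∈ B p, H p q = F p q)
    (h2 : ∀ p q, p ∈ M → q ∈ M → ¬ (p ∈ A ∧ q ∈ B p) → H p q = 0) :
    ∑ p ∈ M, ∑ q ∈ M, H p q = ∑ p ∈ A, ∑ q ∈ B p, F p q := by
  rw [← Finset.sum_subset hA]
  · refine Finset.sum_congr rfl (fun p hp => ?_)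
    rw [← Finset.sum_subset (hB p hp)]
    · exact Finset.sum_congr rfl (fun q hq => h1 p hp q hq)
    · exact fun q hq hq' => h2 p q (hA hp) hq (fun h => hq' h.2)
  · intro p hp hp'
    exact Finset.sum_eq_zero (fun q hq => h2 p q hp hq (fun h => hp' h.1))

lemma abs_jac (a : ℤ) (b : ℕ) : |(jacobiSym a b : ℝ)| ≤ 1 := by
  rcases jacobiSym.trichotomy a b with h | h | h <;> rw [h] <;> simp

open Classical in
lemma abs_psi {T : Type} (e : T → T → Prop) (x y : ℕ × T) : |psi e x y| ≤ 1 := by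
  unfold psi
  split_ifs
  · exact abs_jac _ _
  · simp

lemma abs_prod_le {α : Type} (s : Finset α) (f : α → ℝ) (h : ∀ x ∈ s, |f x| ≤ 1) :
    |∏ x ∈ s, f x| ≤ 1 := by
  rw [Finset.abs_prod]
  exact Finset.prod_le_one (fun _ _ => abs_nonneg _) h

open Classical in
lemma abs_Wt {T : Type} (a : ℕ → T → ℝ) (e : T → T → Prop) (c : Finset (ℕ × T))
    (ha : ∀ p t, |a p t| ≤ 1) : |Wt a e c| ≤ 1 := by
  unfold Wt
  rw [abs_mul]
  refine mul_le_one₀ (abs_prod_le _ _ (fun x _ => ha _ _)) (abs_nonneg _)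
    (abs_prod_le _ _ (fun x _ => ?_))
  split_ifs
  · exact abs_jac _ _
  · simp

open Classical in
/-- the coefficients -/
noncomputable def cf {T : Type} (a : ℕ → T → ℝ) (e : T → T → Prop) (R : Finset (ℕ × T)) (t : T)
    (C : ℕ → Prop) (p : ℕ) : ℝ :=
  if C p then a p t * ∏ r ∈ R, (psi e (p, t) r * psi e r (p, t)) else 0

open Classical in
lemma abs_cf {T : Type} (a : ℕ → T → ℝ) (e : T → T → Prop) (R : Finset (ℕ × T)) (t : T)
    (C : ℕ → Prop) (p : ℕ) (ha : ∀ p t, |a p t| ≤ 1) : |cf a e R t C p| ≤ 1 := by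
  unfold cf
  split_ifs
  · rw [abs_mul]
    refine mul_le_one₀ (ha _ _) (abs_nonneg _) (abs_prod_le _ _ (fun x _ => ?_))
    rw [abs_mul]
    exact mul_le_one₀ (abs_psi _ _ _) (abs_nonneg _) (abs_psi _ _ _)
  · simp

open Classical in
lemma inner {B1 B2 : ℝ} (hB1 : 0 ≤ B1) (hB2 : 0 ≤ B2)
    (h1 : ∀ (α β : ℕ → ℝ), (∀ n, |α n| ≤ 1) → (∀ n, |β n| ≤ 1) →
      ∀ z Y : ℕ, 1 ≤ z →
        |∑ p ∈ (Finset.range (Y + 1)).filter (fun p => p.Prime ∧ p ≠ 2 ∧ z < p),
          ∑ q ∈ (Finset.range (Y + 1)).filter (fun q => p ^ 4 < q ∧ p * q ≤ Y),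
            β p * α q * (jacobiSym q p : ℝ)| ≤ B1 * Y / Real.sqrt z)
    (h2 : ∀ (α β : ℕ → ℝ), (∀ n, |α n| ≤ 1) → (∀ n, |β n| ≤ 1) →
      (∀ n, Even n → α n = 0) → ∀ z Y : ℕ, 1 ≤ z →
        |∑ p ∈ (Finset.range (Y + 1)).filter (fun p => p.Prime ∧ p ≠ 2 ∧ z < p),
          ∑ q ∈ (Finset.range (Y + 1)).filter (fun q => p ^ 4 < q ∧ p * q ≤ Y),
            β p * α q * (jacobiSym p q : ℝ)| ≤ B2 * Y / Real.sqrt z)
    (hW : T_SPLITW) {T : Type} [Fintype T] (e : T → T → Prop) (G : Finset T → Prop)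
    (a : ℕ → T → ℝ) (ha : ∀ p t, |a p t| ≤ 1)
    (N z X : ℕ) (hN : 2 ∣ N) (hz : 1 ≤ z) (R : Finset (ℕ × T)) (hR : R ∈ cfgs T N X) (t : T × T) :
    |∑ p ∈ Finset.range (X + 1), ∑ q ∈ Finset.range (X + 1),
        if Cond e G N z X R t.1 t.2 p q then
          Wt a e (insert (p, t.1) (insert (q, t.2) R)) else 0| ≤
      (B1 + B2) * X / Real.sqrt z * (1 / ((∏ x ∈ R, x.1 : ℕ) : ℝ)) := by
  obtain ⟨tp, tq⟩ := t
  simp only
  rw [mem_cfgs] at hR
  set P : ℕ := ∏ x ∈ R, x.1 with hP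
  have hP0 : 0 < P := Finset.prod_pos (fun r hr => (hR.1 r hr).1.pos)
  set Y : ℕ := X / P with hY
  have hYX : Y ≤ X := Nat.div_le_self _ _
  have hYr : (Y : ℝ) ≤ X * (1 / (P : ℝ)) := by
    have := @Nat.cast_div_le ℝ _ _ _ X P
    rw [mul_one_div]
    exact this
  have hs : 0 ≤ Real.sqrt z := Real.sqrt_nonneg _
  have hnonneg : 0 ≤ (B1 + B2) * X / Real.sqrt z * (1 / (P : ℝ)) := by positivity
  by_cases hG : G (insert tp (insert tq (rtypes z R)))
  swap
  · rw [Finset.sum_eq_zero]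
    · rw [abs_zero]
      exact hnonneg
    · intro p _
      exact Finset.sum_eq_zero (fun q _ => if_neg (fun h => hG h.2.2.2.2))
  by_cases hE : (e tp tq ↔ e tq tp)
  · rw [Finset.sum_eq_zero]
    · rw [abs_zero]
      exact hnonneg
    · intro p _
      exact Finset.sum_eq_zero (fun q _ => if_neg (fun h => h.2.2.1.1 hE))
  set β : ℕ → ℝ := cf a e R tp (PC e N z R tp tq) with hβ
  set α : ℕ → ℝ := cf a e R tq (QC e N z R tp tq) with hα
  have hβ1 : ∀ n, |β n| ≤ 1 := fun n => abs_cf a e R tp _ n ha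
  have hα1 : ∀ n, |α n| ≤ 1 := fun n => abs_cf a e R tq _ n ha
  have hα2 : ∀ n, Even n → α n = 0 := by
    intro n hn
    rw [hα]
    unfold cf
    rw [if_neg]
    intro h
    have h2 : n = 2 := (Nat.Prime.even_iff h.1).mp hn
    exact h.2.1 (h2 ▸ hN)
  -- the symbol
  obtain ⟨s, hs1, hs2⟩ : ∃ s : ℕ → ℕ → ℝ,
      (∀ p q : ℕ, psi e (p, tp) (q, tq) * psi e (q, tq) (p, tp) = s p q) ∧
      |∑ p ∈ (Finset.range (Y + 1)).filter (fun p => p.Prime ∧ p ≠ 2 ∧ z < p),
          ∑ q ∈ (Finset.range (Y + 1)).filter (fun q => p ^ 4 < q ∧ p * q ≤ Y),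
            β p * α q * s p q| ≤ (B1 + B2) * Y / Real.sqrt z := by
    by_cases h3 : e tp tq
    · have h4 : ¬ e tq tp := fun h => hE ⟨fun _ => h, fun _ => h3⟩
      refine ⟨fun p q => (jacobiSym q p : ℝ), fun p q => ?_, ?_⟩
      · unfold psi
        simp only
        rw [if_pos h3, if_neg h4, mul_one]
      · refine (h1 α β hα1 hβ1 z Y hz).trans ?_
        gcongr
        linarith
    · have h4 : e tq tp := by
        by_contra h
        exact hE ⟨fun h' => absurd h' h3, fun h' => absurd h' h⟩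
      refine ⟨fun p q => (jacobiSym p q : ℝ), fun p q => ?_, ?_⟩
      · unfold psi
        simp only
        rw [if_neg h3, if_pos h4, one_mul]
      · refine (h2 α β hα1 hβ1 hα2 z Y hz).trans ?_
        gcongr
        linarith
  have key : (∑ p ∈ Finset.range (X + 1), ∑ q ∈ Finset.range (X + 1),
        if Cond e G N z X R tp tq p q then
          Wt a e (insert (p, tp) (insert (q, tq) R)) else 0) =
      ∑ p ∈ (Finset.range (Y + 1)).filter (fun p => p.Prime ∧ p ≠ 2 ∧ z < p),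
          ∑ q ∈ (Finset.range (Y + 1)).filter (fun q => p ^ 4 < q ∧ p * q ≤ Y),
            Wt a e R * (β p * α q * s p q) := by
    refine sum_sum_ite _ _ _ ?_ ?_ _ _ ?_ ?_
    · intro p hp
      rw [Finset.mem_filter, Finset.mem_range] at hp
      rw [Finset.mem_range]
      omega
    · intro p _ q hq
      rw [Finset.mem_filter, Finset.mem_range] at hq
      rw [Finset.mem_range]
      omega
    · intro p hp q hq
      rw [Finset.mem_filter, Finset.mem_range] at hp hq
      obtain ⟨hp1, hp2, hp3, hp4⟩ := hp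
      obtain ⟨hq1, hq2, hq3⟩ := hq
      by_cases hPC : PC e N z R tp tq p
      · by_cases hQC : QC e N z R tp tq q
        · have hc : Cond e G N z X R tp tq p q := by
            refine ⟨hPC, hQC, ⟨hE, hp4, hq2⟩, ?_, hG⟩
            rw [hY, Nat.le_div_iff_mul_le hP0] at hq3
            rw [← mul_assoc]
            exact hq3
          have hpq : p < q := pow_lt hp2.one_lt.le hq2
          rw [if_pos hc, hW T a e R (p, tp) (q, tq) (fun h => hPC.2.2.1 _ h rfl)
            (fun h => hQC.2.2.1 _ h rfl) (fun h => by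
              have := congrArg Prod.fst h
              simp only at this
              omega), hs1]
          rw [hβ, hα]
          unfold cf
          rw [if_pos hPC, if_pos hQC]
          ring
        · rw [if_neg (fun h => hQC h.2.1)]
          have : α q = 0 := by
            rw [hα]
            unfold cf
            rw [if_neg hQC]
          rw [this]
          ring
      · rw [if_neg (fun h => hPC h.1)]
        have : β p = 0 := by
          rw [hβ]
          unfold cf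
          rw [if_neg hPC]
        rw [this]
        ring
    · intro p q hp hq hn
      rw [if_neg]
      intro hc
      apply hn
      obtain ⟨hPC, hQC, hU, hX, -⟩ := hc
      have hpq : p < q := pow_lt hPC.1.one_lt.le hU.2.2
      have h3 : p * q ≤ Y := by
        rw [hY, Nat.le_div_iff_mul_le hP0, mul_assoc]
        exact hX
      have h4 : q ≤ Y := le_trans (Nat.le_mul_of_pos_left q hPC.1.pos) h3
      have h5 : p ≤ Y := le_trans hpq.le h4
      rw [Finset.mem_filter, Finset.mem_range, Finset.mem_filter, Finset.mem_range]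
      refine ⟨⟨by omega, hPC.1, ?_, hU.2.1⟩, by omega, hU.2.2, h3⟩
      rintro rfl
      exact hPC.2.1 hN
  rw [key]
  simp_rw [← Finset.mul_sum]
  rw [abs_mul]
  calc |Wt a e R| * |∑ p ∈ (Finset.range (Y + 1)).filter (fun p => p.Prime ∧ p ≠ 2 ∧ z < p),
          ∑ q ∈ (Finset.range (Y + 1)).filter (fun q => p ^ 4 < q ∧ p * q ≤ Y),
            β p * α q * s p q|
      ≤ 1 * ((B1 + B2) * Y / Real.sqrt z) :=
        mul_le_mul (abs_Wt a e R ha) hs2 (abs_nonneg _) zero_le_one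
    _ = (B1 + B2) / Real.sqrt z * Y := by ring
    _ ≤ (B1 + B2) / Real.sqrt z * (X * (1 / (P : ℝ))) := by
        apply mul_le_mul_of_nonneg_left hYr
        positivity
    _ = (B1 + B2) * X / Real.sqrt z * (1 / (P : ℝ)) := by ring

end UNB_

open UNB_ in
open Classical in
theorem p_UNB (hC : T_CANON) (hW : T_SPLITW) (hBL : T_BL) (hBLR : T_BLR) (hN : T_NCF) :
    T_UNB := by
  intro T _ e
  obtain ⟨B1, hB1, h1⟩ := hBL
  obtain ⟨B2, hB2, h2⟩ := hBLR
  refine ⟨(Fintype.card (T × T)) * (B1 + B2), by positivity, ?_⟩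
  intro a N z X G h2N hz hX ha
  rw [sum_eq hC e G N z X (Wt a e)]
  calc |∑ R ∈ cfgs T N X, ∑ t : T × T, ∑ p ∈ Finset.range (X + 1),
        ∑ q ∈ Finset.range (X + 1), if Cond e G N z X R t.1 t.2 p q then
          Wt a e (insert (p, t.1) (insert (q, t.2) R)) else 0|
      ≤ ∑ R ∈ cfgs T N X, ∑ t : T × T, |∑ p ∈ Finset.range (X + 1),
        ∑ q ∈ Finset.range (X + 1), if Cond e G N z X R t.1 t.2 p q then
          Wt a e (insert (p, t.1) (insert (q, t.2) R)) else 0| := by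
        refine (Finset.abs_sum_le_sum_abs _ _).trans (Finset.sum_le_sum (fun R _ => ?_))
        exact Finset.abs_sum_le_sum_abs _ _
    _ ≤ ∑ R ∈ cfgs T N X, ∑ t : T × T,
        (B1 + B2) * X / Real.sqrt z * (1 / ((∏ x ∈ R, x.1 : ℕ) : ℝ)) := by
        refine Finset.sum_le_sum (fun R hR => Finset.sum_le_sum (fun t _ => ?_))
        exact inner hB1 hB2 h1 h2 hW e G a ha N z X h2N hz R hR t
    _ = (Fintype.card (T × T)) * ((B1 + B2) * X / Real.sqrt z) *
        ∑ R ∈ cfgs T N X, (1 / ((∏ x ∈ R, x.1 : ℕ) : ℝ)) := by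
        rw [Finset.mul_sum]
        refine Finset.sum_congr rfl (fun R _ => ?_)
        rw [Finset.sum_const, Finset.card_univ, nsmul_eq_mul]
        ring
    _ ≤ (Fintype.card (T × T)) * ((B1 + B2) * X / Real.sqrt z) *
        (1 + Real.log X) ^ (Fintype.card T) := by
        apply mul_le_mul_of_nonneg_left (hN T N X hX)
        positivity
    _ = (Fintype.card (T × T)) * (B1 + B2) * X * (1 + Real.log X) ^ (Fintype.card T) /
        Real.sqrt z := by ring

end Pool.Agent.QTw
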