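import Pool.Agent.QTw.Targets

/-!
# SPLITW: the weight of a configuration with two more elements
-/

namespace Pool.Agent.QTw

namespace SPLITW_

lemma prod_offDiag_insert {α : Type} [DecidableEq α] (f : α × α → ℝ) (S : Finset α) (x : α)
    (hx : x ∉ S) :
    ∏ z ∈ (insert x S).offDiag, f z
      = (∏ z ∈ S.offDiag, f z) * ∏ r ∈ S, (f (x, r) * f (r, x)) := by
  rw [Finset.offDiag_insert hx, Finset.prod_union, Finset.prod_union, Finset.prod_product,
    Finset.prod_product, Finset.prod_singleton, Finset.prod_mul_distrib, mul_assoc]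
  · congr 2
    exact Finset.prod_congr rfl fun r _ => by rw [Finset.prod_singleton]
  · rw [Finset.disjoint_left]
    rintro ⟨p, q⟩ h1 h2
    rw [Finset.mem_offDiag] at h1
    rw [Finset.mem_product, Finset.mem_singleton] at h2
    exact hx (h2.1 ▸ h1.1)
  · rw [Finset.disjoint_left]
    rintro ⟨p, q⟩ h1 h2
    rw [Finset.mem_union, Finset.mem_offDiag, Finset.mem_product, Finset.mem_singleton] at h1
    rw [Finset.mem_product, Finset.mem_singleton] at h2
    have h3 : q = x := h2.2
    have h4 : p ∈ S := h2.1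
    rcases h1 with h1 | h1
    · exact hx (h3 ▸ h1.2.1)
    · have : q ∈ S := h1.2
      exact hx (h3 ▸ this)

end SPLITW_

theorem p_SPLITW : T_SPLITW := by
  classical
  intro T a e R x y hx hy hxy
  have hx' : x ∉ insert y R := by
    rw [Finset.mem_insert]
    rintro (h | h)
    · exact hxy h
    · exact hx h
  have hW : ∀ (S : Finset (ℕ × T)) (w : ℕ × T), w ∉ S →
      Wt a e (insert w S) = Wt a e S * (a w.1 w.2 * ∏ r ∈ S, (psi e w r * psi e r w)) := by
    intro S w hw
    unfold Wt
    rw [Finset.prod_insert hw]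
    have h := SPLITW_.prod_offDiag_insert
      (fun z => if e z.1.2 z.2.2 then (jacobiSym (z.2.1 : ℤ) z.1.1 : ℝ) else 1) S w hw
    rw [h]
    unfold psi
    simp only
    ring
  rw [hW _ x hx', hW _ y hy, Finset.prod_insert hy]
  ring

end Pool.Agent.QTw
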