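import Pool.Agent.QTw.Targets

/-!
# QTw, NCF: the sum of the reciprocals of the products of all configurations
-/

namespace Pool.Agent.QTw

namespace NCF_

open Classical in
/-- The product of the primes with label `t`. -/
noncomputable def pr {T : Type} (c : Finset (ℕ × T)) (t : T) : ℕ :=
  ∏ x ∈ c.filter (fun x => x.2 = t), x.1

theorem mem_iff {T : Type} {N X : ℕ} {c : Finset (ℕ × T)} (hc : IsCfg N X c) (x : ℕ × T) :
    x ∈ c ↔ x.1.Prime ∧ x.1 ∣ pr c x.2 := by
  classical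
  constructor
  · intro hx
    refine ⟨(hc.1 x hx).1, ?_⟩
    unfold pr
    exact Finset.dvd_prod_of_mem (fun x : ℕ × T => x.1) (by simp [hx])
  · rintro ⟨hp, hd⟩
    unfold pr at hd
    rw [hp.prime.dvd_finset_prod_iff] at hd
    obtain ⟨y, hy, hd⟩ := hd
    rw [Finset.mem_filter] at hy
    have h1 : x.1 = y.1 := (Nat.prime_dvd_prime_iff_eq hp (hc.1 y hy.1).1).1 hd
    have : x = y := Prod.ext h1 hy.2.symm
    rw [this]
    exact hy.1

theorem prod_pr {T : Type} [Fintype T] (c : Finset (ℕ × T)) : ∏ t, pr c t = ∏ x ∈ c, x.1 := by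
  classical
  unfold pr
  exact Finset.prod_fiberwise c (fun x => x.2) (fun x => x.1)

theorem pr_pos {T : Type} {N X : ℕ} {c : Finset (ℕ × T)} (hc : IsCfg N X c) (t : T) :
    0 < pr c t := by
  classical
  unfold pr
  exact Finset.prod_pos (fun x hx => (hc.1 x (Finset.mem_filter.1 hx).1).1.pos)

theorem pr_le {T : Type} [Fintype T] {N X : ℕ} {c : Finset (ℕ × T)} (hc : IsCfg N X c) (t : T) :
    pr c t ≤ X := by
  classical
  refine le_trans ?_ hc.2.2
  rw [← prod_pr]
  refine Nat.le_of_dvd (Finset.prod_pos (fun t _ => pr_pos hc t)) ?_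
  exact Finset.dvd_prod_of_mem _ (Finset.mem_univ t)

end NCF_

open NCF_ in
theorem p_NCF : T_NCF := by
  classical
  intro T _ N X hX
  have hcfg : ∀ c ∈ cfgs T N X, IsCfg N X c := by
    intro c hc
    unfold cfgs at hc
    exact (Finset.mem_filter.1 hc).2
  have h1 : ∑ c ∈ cfgs T N X, 1 / ((∏ x ∈ c, x.1 : ℕ) : ℝ) =
      ∑ c ∈ cfgs T N X, ∏ t, 1 / (pr c t : ℝ) := by
    refine Finset.sum_congr rfl (fun c _ => ?_)
    rw [← prod_pr, Nat.cast_prod, Finset.prod_div_distrib, Finset.prod_const_one]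
  have hinj : Set.InjOn (fun c : Finset (ℕ × T) => pr c) (cfgs T N X : Set (Finset (ℕ × T))) := by
    intro c hc d hd hcd
    ext x
    rw [mem_iff (hcfg c hc), mem_iff (hcfg d hd)]
    simp only [] at hcd
    rw [hcd]
  have h2 : ∑ c ∈ cfgs T N X, ∏ t, 1 / (pr c t : ℝ) =
      ∑ f ∈ (cfgs T N X).image (fun c => pr c), ∏ t, 1 / (f t : ℝ) := by
    rw [Finset.sum_image hinj]
  have h3 : (cfgs T N X).image (fun c => pr c) ⊆
      Fintype.piFinset (fun _ : T => Finset.Icc 1 X) := by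
    intro f hf
    rw [Finset.mem_image] at hf
    obtain ⟨c, hc, rfl⟩ := hf
    rw [Fintype.mem_piFinset]
    intro t
    rw [Finset.mem_Icc]
    exact ⟨pr_pos (hcfg c hc) t, pr_le (hcfg c hc) t⟩
  have h4 : ∑ f ∈ (cfgs T N X).image (fun c => pr c), ∏ t, 1 / (f t : ℝ) ≤
      ∑ f ∈ Fintype.piFinset (fun _ : T => Finset.Icc 1 X), ∏ t, 1 / (f t : ℝ) := by
    refine Finset.sum_le_sum_of_subset_of_nonneg h3 (fun f _ _ => ?_)
    exact Finset.prod_nonneg (fun t _ => by positivity)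
  have h5 : ∑ f ∈ Fintype.piFinset (fun _ : T => Finset.Icc 1 X), ∏ t, 1 / (f t : ℝ) =
      (∑ r ∈ Finset.Icc 1 X, 1 / (r : ℝ)) ^ (Fintype.card T) := by
    rw [← Finset.prod_univ_sum (fun _ : T => Finset.Icc 1 X) (fun _ r => 1 / (r : ℝ)),
      Finset.prod_const, Finset.card_univ]
  have h6 : ∑ r ∈ Finset.Icc 1 X, 1 / (r : ℝ) ≤ 1 + Real.log X := by
    have := harmonic_le_one_add_log X
    rw [harmonic_eq_sum_Icc] at this
    push_cast at this
    simpa [one_div] using this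
  rw [h1, h2]
  refine h4.trans ?_
  rw [h5]
  refine pow_le_pow_left₀ (Finset.sum_nonneg (fun r _ => by positivity)) h6 _

end Pool.Agent.QTw
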