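import Pool.Agent.QTw.Targets

/-!
# QTW-ROOT: roots modulo `p` give ideals of norm `p`
-/

open Polynomial NumberField

namespace Pool.Agent.QTw

namespace ROOT_

variable {K : Type} [Field K] [NumberField K]

/-- a primitive integral element has nonzero exponent -/
theorem exponent_ne_zero (θ : 𝓞 K) (h : Algebra.adjoin ℚ {(θ : K)} = ⊤) :
    RingOfIntegers.exponent θ ≠ 0 := by
  have hint : IsIntegral ℚ (θ : K) := θ.isIntegral_coe.tower_top
  set B : PowerBasis ℚ K := PowerBasis.ofAdjoinEqTop hint h with hB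
  have hgen : B.gen = (θ : K) := PowerBasis.ofAdjoinEqTop_gen hint h
  have hgi : IsIntegral ℤ B.gen := by rw [hgen]; exact θ.isIntegral_coe
  have hD : IsIntegral ℤ (Algebra.discr ℚ B.basis) := by
    refine Algebra.discr_isIntegral ℚ fun i => ?_
    rw [B.basis_eq_pow]
    exact hgi.pow _
  obtain ⟨D, hD2⟩ := IsIntegrallyClosed.isIntegral_iff.1 hD
  have hD0 : D ≠ 0 := by
    intro h0
    rw [h0, map_zero] at hD2
    exact Algebra.discr_not_zero_of_basis ℚ B.basis hD2.symm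
  have hmem : (D.natAbs : 𝓞 K) ∈ conductor ℤ θ := by
    rw [mem_conductor_iff]
    intro b
    have h1 := Algebra.discr_mul_isIntegral_mem_adjoin ℚ hgi (b.isIntegral_coe)
    rw [hgen, ← hD2, Algebra.adjoin_singleton_eq_range_aeval] at h1
    obtain ⟨Q, hQ⟩ := h1
    have h2 : aeval θ Q = (D : 𝓞 K) * b := by
      apply RingOfIntegers.ext
      have h3 : ((aeval θ Q : 𝓞 K) : K) = aeval (θ : K) Q :=
        (aeval_algebraMap_apply K θ Q).symm
      rw [h3]
      refine (show (aeval (θ : K)).toRingHom Q = _ from hQ).trans ?_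
      simp [Algebra.smul_def]
    have h4 : (D : 𝓞 K) * b ∈ Algebra.adjoin ℤ {θ} := by
      rw [Algebra.adjoin_singleton_eq_range_aeval]
      exact ⟨Q, h2⟩
    rcases Int.natAbs_eq D with h5 | h5
    · have : ((D.natAbs : ℕ) : 𝓞 K) = ((D : ℤ) : 𝓞 K) := by
        conv_rhs => rw [h5]
        simp
      rw [this]
      exact h4
    · have : ((D.natAbs : ℕ) : 𝓞 K) = -((D : ℤ) : 𝓞 K) := by
        conv_rhs => rw [h5]
        simp
      rw [this, neg_mul]
      exact neg_mem h4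
  rw [RingOfIntegers.exponent_eq_sInf]
  have hne : {d : ℕ | 0 < d ∧ (d : 𝓞 K) ∈ conductor ℤ θ}.Nonempty :=
    ⟨D.natAbs, Int.natAbs_pos.2 hD0, hmem⟩
  exact (Nat.sInf_mem hne).1.ne'

/-- evaluation homomorphisms -/
theorem exists_hom (θ : 𝓞 K) (p : ℕ) [Fact p.Prime] (hp : ¬ p ∣ RingOfIntegers.exponent θ)
    (b : ZMod p) (hb : ((minpoly ℤ θ).map (Int.castRingHom (ZMod p))).eval b = 0) :
    ∃ φ : 𝓞 K →+* ZMod p, φ θ = b := by
  obtain ⟨J, hJ⟩ : ∃ J : Ideal (ZMod p)[X],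
    J = Ideal.span {Polynomial.map (Int.castRingHom (ZMod p)) (minpoly ℤ θ)} := ⟨_, rfl⟩
  obtain ⟨e, he⟩ : ∃ e : (ZMod p)[X] ⧸ J ≃+* 𝓞 K ⧸ Ideal.span {(p : 𝓞 K)},
      e (Ideal.Quotient.mk J X) = Ideal.Quotient.mk (Ideal.span {(p : 𝓞 K)}) θ := by
    subst hJ
    refine ⟨RingOfIntegers.ZModXQuotSpanEquivQuotSpan hp, ?_⟩
    have h1 := RingOfIntegers.ZModXQuotSpanEquivQuotSpan_mk_apply hp (X : ℤ[X])
    rwa [aeval_X, Polynomial.map_X] at h1
  have hev : ∀ a ∈ J, evalRingHom b a = 0 := by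
    intro a ha
    rw [hJ, Ideal.mem_span_singleton] at ha
    obtain ⟨c, rfl⟩ := ha
    rw [map_mul, coe_evalRingHom, hb, zero_mul]
  refine ⟨(Ideal.Quotient.lift J (evalRingHom b) hev).comp
    (e.symm.toRingHom.comp (Ideal.Quotient.mk (Ideal.span {(p : 𝓞 K)}))), ?_⟩
  show Ideal.Quotient.lift J (evalRingHom b) hev
    (e.symm (Ideal.Quotient.mk (Ideal.span {(p : 𝓞 K)}) θ)) = b
  rw [← he, RingEquiv.symm_apply_apply, Ideal.Quotient.lift_mk, coe_evalRingHom, eval_X]

/-- the kernel has norm `p` -/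
theorem absNorm_ker (p : ℕ) [Fact p.Prime] (φ : 𝓞 K →+* ZMod p) :
    Ideal.absNorm (RingHom.ker φ) = p := by
  rw [Ideal.absNorm_apply, Submodule.cardQuot_apply]
  have e := RingHom.quotientKerEquivOfSurjective (ZMod.ringHom_surjective φ)
  rw [Nat.card_congr e.toEquiv, Nat.card_zmod]

/-- the result for a number field generated by a root -/
theorem main (g : ℤ[X]) (θ0 : K) (hg0 : g ≠ 0) (hroot : aeval θ0 g = 0)
    (hgen : Algebra.adjoin ℚ {θ0} = ⊤)
    (hdvd : ∀ r : ℚ[X], aeval θ0 r = 0 → g.map (Int.castRingHom ℚ) ∣ r) :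
    ∃ N : ℕ, 0 < N ∧ ∀ p : ℕ, p.Prime → ¬ p ∣ N → rootCount g p ≤ idealCount K p := by
  classical
  have hinj : Function.Injective (Int.castRingHom ℚ) := RingHom.injective_int _
  set lc : ℤ := g.leadingCoeff with hlc
  have hlc0 : lc ≠ 0 := leadingCoeff_ne_zero.2 hg0
  have hint : IsIntegral ℤ (lc • θ0) := isIntegral_leadingCoeff_smul g θ0 hroot
  set θ : 𝓞 K := ⟨lc • θ0, hint⟩ with hθ
  have hθK : (θ : K) = (lc : K) * θ0 := by
    rw [hθ]
    show lc • θ0 = _
    rw [zsmul_eq_mul]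
  have htop : Algebra.adjoin ℚ {(θ : K)} = ⊤ := by
    rw [eq_top_iff, ← hgen]
    refine Algebra.adjoin_le ?_
    rw [Set.singleton_subset_iff]
    have h1 : θ0 = ((lc : ℚ)⁻¹) • (θ : K) := by
      rw [hθK, Algebra.smul_def, ← mul_assoc]
      have h2 : algebraMap ℚ K ((lc : ℚ)⁻¹) * (lc : K) = 1 := by
        have h3 : (lc : K) = algebraMap ℚ K (lc : ℚ) := by simp
        rw [h3, ← map_mul, inv_mul_cancel₀ (by exact_mod_cast hlc0), map_one]
      rw [h2, one_mul]
    show θ0 ∈ _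
    rw [h1]
    exact Subalgebra.smul_mem _ (Algebra.subset_adjoin (Set.mem_singleton _)) _
  set P : ℤ[X] := minpoly ℤ θ with hP
  -- `g` divides a multiple of `P (lc X)`
  obtain ⟨c, q, hc0, hcq⟩ : ∃ (c : ℤ) (q : ℤ[X]), c ≠ 0 ∧ C c * P.comp (C lc * X) = g * q := by
    have h1 : aeval θ0 ((P.comp (C lc * X)).map (Int.castRingHom ℚ)) = 0 := by
      have h2 := aeval_map_algebraMap ℚ θ0 (P.comp (C lc * X))
      refine (show _ = _ from h2).trans ?_
      rw [aeval_comp]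
      have h3 : aeval θ0 (C lc * X : ℤ[X]) = (θ : K) := by
        rw [hθK]; simp
      rw [h3]
      have h4 : aeval (θ : K) P = ((aeval θ P : 𝓞 K) : K) := aeval_algebraMap_apply K θ P
      rw [h4, hP, minpoly.aeval]
      rfl
    obtain ⟨q', hq'⟩ := hdvd _ h1
    obtain ⟨b, hb1, hb2⟩ := IsLocalization.integerNormalization_spec (nonZeroDivisors ℤ) q'
    refine ⟨b, IsLocalization.integerNormalization (nonZeroDivisors ℤ) q',
      nonZeroDivisors.ne_zero hb1, ?_⟩
    apply Polynomial.map_injective (Int.castRingHom ℚ) hinj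
    rw [Polynomial.map_mul, Polynomial.map_mul, hq', Polynomial.map_C]
    have hb3 : (IsLocalization.integerNormalization (nonZeroDivisors ℤ) q').map
        (Int.castRingHom ℚ) = b • q' := hb2
    rw [hb3]
    simp only [zsmul_eq_mul, eq_intCast]
    rw [← C_eq_intCast (R := ℚ)]
    ring
  refine ⟨RingOfIntegers.exponent θ * c.natAbs * lc.natAbs, ?_, ?_⟩
  · exact Nat.mul_pos (Nat.mul_pos (Nat.pos_of_ne_zero (exponent_ne_zero θ htop))
      (Int.natAbs_pos.2 hc0)) (Int.natAbs_pos.2 hlc0)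
  intro p hp hpN
  have : Fact p.Prime := ⟨hp⟩
  have hpe : ¬ p ∣ RingOfIntegers.exponent θ := fun h =>
    hpN (Dvd.dvd.mul_right (Dvd.dvd.mul_right h _) _)
  have hpc : ((c : ℤ) : ZMod p) ≠ 0 := by
    intro h
    rw [ZMod.intCast_zmod_eq_zero_iff_dvd] at h
    exact hpN (Dvd.dvd.mul_right (Dvd.dvd.mul_left (Int.natCast_dvd.1 h) _) _)
  have hpl : ((lc : ℤ) : ZMod p) ≠ 0 := by
    intro h
    rw [ZMod.intCast_zmod_eq_zero_iff_dvd] at h
    exact hpN (Dvd.dvd.mul_left (Int.natCast_dvd.1 h) _)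
  have hrt : ∀ a : ℕ, (p : ℤ) ∣ g.eval (a : ℤ) →
      (P.map (Int.castRingHom (ZMod p))).eval ((lc : ZMod p) * a) = 0 := by
    intro a ha
    have h1 := congrArg (fun r : ℤ[X] => ((r.eval (a : ℤ) : ℤ) : ZMod p)) hcq
    simp only [eval_mul, eval_C, eval_comp, eval_X, Int.cast_mul] at h1
    rw [(ZMod.intCast_zmod_eq_zero_iff_dvd _ _).2 ha, zero_mul] at h1
    have h2 := (mul_eq_zero.1 h1).resolve_left hpc
    have h3 : (P.map (Int.castRingHom (ZMod p))).eval ((Int.castRingHom (ZMod p)) (lc * a)) =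
        (Int.castRingHom (ZMod p)) (P.eval (lc * (a : ℤ))) := eval_map_apply ..
    simp only [eq_intCast] at h3
    rw [h2] at h3
    rw [← h3]
    push_cast
    rfl
  choose φ hφ using fun (a : {a : ℕ // a ∈ (Finset.range p).filter
      (fun a : ℕ => (p : ℤ) ∣ g.eval (a : ℤ))}) =>
    exists_hom θ p hpe _ (hrt a (Finset.mem_filter.1 a.2).2)
  have hfin : Finite {I : Ideal (𝓞 K) // Ideal.absNorm I = p} :=
    (Ideal.finite_setOfPred_absNorm_eq p).to_subtype
  have hcard := Nat.card_le_card_of_injective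
    (fun a : {a : ℕ // a ∈ (Finset.range p).filter (fun a : ℕ => (p : ℤ) ∣ g.eval (a : ℤ))} =>
      (⟨RingHom.ker (φ a), absNorm_ker p (φ a)⟩ : {I : Ideal (𝓞 K) // Ideal.absNorm I = p}))
    (by
      intro a a' haa
      have h1 : RingHom.ker (φ a) = RingHom.ker (φ a') := congrArg Subtype.val haa
      have h2 : θ - ((lc * (a : ℕ) : ℤ) : 𝓞 K) ∈ RingHom.ker (φ a) := by
        rw [RingHom.mem_ker, map_sub, hφ, map_intCast]
        push_cast
        ring
      rw [h1, RingHom.mem_ker, map_sub, hφ, map_intCast] at h2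
      push_cast at h2
      have h3 : ((a' : ℕ) : ZMod p) = ((a : ℕ) : ZMod p) :=
        mul_left_cancel₀ hpl (sub_eq_zero.1 h2)
      have ha := Finset.mem_range.1 (Finset.mem_filter.1 a.2).1
      have ha' := Finset.mem_range.1 (Finset.mem_filter.1 a'.2).1
      rw [ZMod.natCast_eq_natCast_iff'] at h3
      rw [Nat.mod_eq_of_lt ha, Nat.mod_eq_of_lt ha'] at h3
      exact Subtype.ext h3.symm)
  rw [Nat.card_eq_fintype_card, Fintype.card_coe] at hcard
  exact hcard

end ROOT_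

open ROOT_ in
theorem p_ROOT : T_ROOT := by
  intro g hg
  have hF : Fact (Irreducible (g.map (Int.castRingHom ℚ))) := ⟨hg⟩
  have hg0 : g ≠ 0 := by
    rintro rfl
    exact hg.ne_zero (Polynomial.map_zero _)
  have hae : ∀ r : ℚ[X], aeval (AdjoinRoot.root (g.map (Int.castRingHom ℚ))) r =
      AdjoinRoot.mk (g.map (Int.castRingHom ℚ)) r := by
    intro r
    rw [← AdjoinRoot.aeval_eq]
    congr!
  have htop : Algebra.adjoin ℚ {AdjoinRoot.root (g.map (Int.castRingHom ℚ))} = ⊤ := by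
    rw [eq_top_iff]
    intro x _
    obtain ⟨r, rfl⟩ := AdjoinRoot.mk_surjective x
    rw [← hae, Algebra.adjoin_singleton_eq_range_aeval]
    exact ⟨r, rfl⟩
  have hroot : aeval (AdjoinRoot.root (g.map (Int.castRingHom ℚ))) g = 0 := by
    have h1 : aeval (AdjoinRoot.root (g.map (Int.castRingHom ℚ)))
        (g.map (Int.castRingHom ℚ)) = 0 := by
      rw [hae, AdjoinRoot.mk_self]
    have h2 := aeval_map_algebraMap ℚ (AdjoinRoot.root (g.map (Int.castRingHom ℚ))) g
    exact h2.symm.trans h1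
  obtain ⟨N, hN, h⟩ := main g (AdjoinRoot.root (g.map (Int.castRingHom ℚ))) hg0 hroot htop
    (fun r hr => by rwa [hae, AdjoinRoot.mk_eq_zero] at hr)
  exact ⟨AdjoinRoot (g.map (Int.castRingHom ℚ)), inferInstance, inferInstance, N, hN, h⟩

end Pool.Agent.QTw
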