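import Pool.Agent.QTw.Targets

/-!
# QTw, job WTS: result of part D
-/

open Polynomial

namespace Pool.Agent.QTw

namespace WTS_

open Classical in
theorem signs_eq {ι : Type} [DecidableEq ι] (g : ι → ℤ[X]) (i : ι) (p : ℕ) :
    signs g i p = ((Finset.range p).filter (fun a : ℕ => (p : ℤ) ∣ (g i).eval (a : ℤ))).image
      (fun a j => if j = i then 1 else jacobiSym ((g j).eval ((a : ℕ) : ℤ)) p) := by
  unfold signs
  ext v
  simp only [Finset.bind_def, Finset.pure_def, Finset.mem_image, Finset.mem_sup,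
    Finset.mem_singleton]
  constructor
  · rintro ⟨a, ⟨b, hb, rfl⟩, rfl⟩
    exact ⟨b, hb, rfl⟩
  · rintro ⟨b, hb, rfl⟩
    exact ⟨_, ⟨b, hb, rfl⟩, rfl⟩

theorem kap_le {ι : Type} [DecidableEq ι] (g : ι → ℤ[X]) (I : Finset ι) (i : ι) (p : ℕ) :
    kap (signs g) I i p ≤ rootCount (g i) p := by
  classical
  unfold kap rootCount
  rw [signs_eq]
  exact Finset.card_image_le.trans Finset.card_image_le

theorem kap_one {ι : Type} [DecidableEq ι] (g : ι → ℤ[X]) (I : Finset ι) (i : ι) (p : ℕ)
    (h : ∀ a ∈ Finset.range p, (p : ℤ) ∣ (g i).eval (a : ℤ) → ∀ j, j ≠ i →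
      jacobiSym ((g j).eval (a : ℤ)) p = 1) : kap (signs g) I i p ≤ 1 := by
  classical
  unfold kap
  rw [signs_eq, Finset.card_le_one_iff_subset_singleton]
  refine ⟨fun _ => 1, ?_⟩
  intro v hv
  rw [Finset.mem_image] at hv
  obtain ⟨u, hu, rfl⟩ := hv
  rw [Finset.mem_image] at hu
  obtain ⟨a, ha, rfl⟩ := hu
  rw [Finset.mem_filter] at ha
  rw [Finset.mem_singleton]
  funext j
  by_cases hj : j ∈ I.erase i
  · rw [if_pos hj]
    simp only
    rw [if_neg (Finset.ne_of_mem_erase hj)]
    exact h a ha.1 ha.2 j (Finset.ne_of_mem_erase hj)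
  · rw [if_neg hj]

theorem rc_le (g : ℤ[X]) (p : ℕ) : rootCount g p ≤ p := by
  unfold rootCount
  exact (Finset.card_filter_le _ _).trans (by rw [Finset.card_range])

/-- sum of small terms over the prime divisors of `M` -/
theorem small_sum (M X : ℕ) (hM : 0 < M) (f : ℕ → ℝ) (hf : ∀ p, p.Prime → f p ≤ 1) :
    ∑ p ∈ ((Finset.range (X + 1)).filter Nat.Prime).filter (fun p => p ∣ M), f p ≤ M := by
  have h1 : ∑ p ∈ ((Finset.range (X + 1)).filter Nat.Prime).filter (fun p => p ∣ M), f p ≤
      ∑ p ∈ ((Finset.range (X + 1)).filter Nat.Prime).filter (fun p => p ∣ M), (1 : ℝ) := by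
    refine Finset.sum_le_sum fun p hp => hf p ?_
    rw [Finset.mem_filter, Finset.mem_filter] at hp
    exact hp.1.2
  refine h1.trans ?_
  rw [Finset.sum_const, nsmul_eq_mul, mul_one]
  have h2 : ((Finset.range (X + 1)).filter Nat.Prime).filter (fun p => p ∣ M) ⊆
      Finset.Icc 1 M := by
    intro p hp
    rw [Finset.mem_filter, Finset.mem_filter] at hp
    rw [Finset.mem_Icc]
    exact ⟨hp.1.2.one_lt.le, Nat.le_of_dvd hM hp.2⟩
  have h3 := Finset.card_le_card h2
  rw [Nat.card_Icc, Nat.add_sub_cancel] at h3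
  exact_mod_cast h3

theorem pos_p {p : ℕ} (hp : p.Prime) : (0 : ℝ) < p := by exact_mod_cast hp.pos

theorem primesTo_eq (N X : ℕ) : primesTo N X =
    ((Finset.range (X + 1)).filter Nat.Prime).filter (fun p => ¬ p ∣ N) := by
  unfold primesTo
  rw [Finset.filter_filter]

/-- sum of the numbers of roots -/
theorem root_sum (h1 : T_NUM) (h2 : T_ROOT) (g : ℤ[X])
    (hg : Irreducible (g.map (Int.castRingHom ℚ))) (N : ℕ) :
    ∃ B : ℝ, ∀ X : ℕ, 3 ≤ X → ∑ p ∈ primesTo N X, (rootCount g p : ℝ) / p ≤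
      Real.log (Real.log X) + B := by
  obtain ⟨K, _, _, M, hM, hr⟩ := h2 g hg
  obtain ⟨B, hB⟩ := h1 K
  refine ⟨B + M, fun X hX => ?_⟩
  have h3 : ∑ p ∈ primesTo N X, (rootCount g p : ℝ) / p ≤
      ∑ p ∈ (Finset.range (X + 1)).filter Nat.Prime, (rootCount g p : ℝ) / p := by
    rw [primesTo_eq]
    refine Finset.sum_le_sum_of_subset_of_nonneg (Finset.filter_subset _ _) fun p _ _ => ?_
    positivity
  have h4 : ∑ p ∈ (Finset.range (X + 1)).filter Nat.Prime, (rootCount g p : ℝ) / p ≤
      ∑ p ∈ (Finset.range (X + 1)).filter Nat.Prime, (idealCount K p : ℝ) / p + M := by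
    rw [← Finset.sum_filter_add_sum_filter_not ((Finset.range (X + 1)).filter Nat.Prime)
      (fun p => p ∣ M) (fun p => (rootCount g p : ℝ) / p), add_comm]
    refine add_le_add ?_ ?_
    · have h5 : ∑ p ∈ ((Finset.range (X + 1)).filter Nat.Prime).filter (fun p => ¬ p ∣ M),
          (rootCount g p : ℝ) / p ≤
          ∑ p ∈ ((Finset.range (X + 1)).filter Nat.Prime).filter (fun p => ¬ p ∣ M),
          (idealCount K p : ℝ) / p := by
        refine Finset.sum_le_sum fun p hp => ?_
        rw [Finset.mem_filter, Finset.mem_filter] at hp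
        have := pos_p hp.1.2
        refine div_le_div_of_nonneg_right ?_ this.le
        exact_mod_cast hr p hp.1.2 hp.2
      refine h5.trans ?_
      refine Finset.sum_le_sum_of_subset_of_nonneg (Finset.filter_subset _ _) fun p _ _ => ?_
      positivity
    · refine small_sum M X hM _ fun p hp => ?_
      have := pos_p hp
      rw [div_le_one this]
      exact_mod_cast rc_le g p
  have h5 := (abs_le.1 (hB X hX)).2
  linarith

open Classical in
/-- sum over the primes with an ideal of prime norm -/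
theorem spl_sum (h1 : T_NUM) (h4 : T_PP) (K : Type) [Field K] [NumberField K] (M : ℕ)
    (hM : 0 < M) : ∃ B : ℝ, ∀ X : ℕ, 3 ≤ X →
      1 / 2 ^ (Module.finrank ℚ K) * Real.log (Real.log X) - B ≤
      ∑ p ∈ ((Finset.range (X + 1)).filter Nat.Prime).filter
        (fun p => ¬ p ∣ M ∧ 0 < idealCount K p), 1 / (p : ℝ) := by
  obtain ⟨B, hB⟩ := h1 K
  set c : ℝ := 1 / 2 ^ (Module.finrank ℚ K) with hc
  have hc0 : 0 < c := by positivity
  have hid : ∀ p : ℕ, p.Prime → c * (idealCount K p : ℝ) ≤ 1 := by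
    intro p hp
    have h5 := h4 K p 1 hp
    rw [pow_one] at h5
    have h6 : (idealCount K p : ℝ) ≤ 2 ^ (Module.finrank ℚ K) := by exact_mod_cast h5
    rw [hc, one_div, inv_mul_le_iff₀ (by positivity), mul_one]
    exact h6
  refine ⟨c * B + M, fun X hX => ?_⟩
  have h5 := (abs_le.1 (hB X hX)).1
  have h6 : c * ∑ p ∈ (Finset.range (X + 1)).filter Nat.Prime, (idealCount K p : ℝ) / p ≤
      ∑ p ∈ ((Finset.range (X + 1)).filter Nat.Prime).filter
        (fun p => ¬ p ∣ M ∧ 0 < idealCount K p), 1 / (p : ℝ) + M := by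
    rw [Finset.mul_sum, ← Finset.sum_filter_add_sum_filter_not
      ((Finset.range (X + 1)).filter Nat.Prime) (fun p => p ∣ M), add_comm]
    refine add_le_add ?_ ?_
    · have h7 : ((Finset.range (X + 1)).filter Nat.Prime).filter
          (fun p => ¬ p ∣ M ∧ 0 < idealCount K p) =
          (((Finset.range (X + 1)).filter Nat.Prime).filter (fun p => ¬ p ∣ M)).filter
            (fun p => 0 < idealCount K p) := by
        rw [Finset.filter_filter (fun p => ¬ p ∣ M) (fun p => 0 < idealCount K p)]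
      rw [h7, Finset.sum_filter (fun p => 0 < idealCount K p)]
      refine Finset.sum_le_sum fun p hp => ?_
      rw [Finset.mem_filter, Finset.mem_filter] at hp
      have hp0 := pos_p hp.1.2
      split_ifs with h8
      · rw [← mul_div_assoc]
        exact div_le_div_of_nonneg_right (hid p hp.1.2) hp0.le
      · have h9 : idealCount K p = 0 := by omega
        rw [h9]
        simp
    · refine small_sum M X hM _ fun p hp => ?_
      have hp0 := pos_p hp
      have hp1 : (1 : ℝ) ≤ p := by exact_mod_cast hp.one_lt.le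
      rw [← mul_div_assoc, div_le_one hp0]
      exact (hid p hp).trans hp1
  have h7 : c * (Real.log (Real.log X) - B) ≤
      c * ∑ p ∈ (Finset.range (X + 1)).filter Nat.Prime, (idealCount K p : ℝ) / p := by
    refine mul_le_mul_of_nonneg_left ?_ hc0.le
    linarith
  have h8 : c * (Real.log (Real.log X) - B) = c * Real.log (Real.log X) - c * B := by ring
  linarith

theorem card_pow (n : ℕ) : n + 1 ≤ 2 ^ n := by
  induction n with
  | zero => simp
  | succ n ih => rw [pow_succ]; omega

end WTS_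

open WTS_ in
open Classical in
/-- WTS -/
theorem p_WTS (h1 : T_NUM) (h2 : T_ROOT) (h3 : T_SPL) (h4 : T_PP) : T_WTS := by
  intro n g hg N hN I hI
  obtain ⟨K, _, _, M, hM, hspl⟩ := h3 n g hg
  obtain ⟨B0, hB0⟩ := spl_sum h1 h4 K (N * M) (by positivity)
  have hroot := fun i => root_sum h1 h2 (g i) (hg.irr i) N
  choose B hB using hroot
  set c : ℝ := 1 / 2 ^ (Module.finrank ℚ K) with hc
  have hc0 : 0 < c := by positivity
  have hc1 : c ≤ 1 := by
    rw [hc, div_le_one (by positivity)]
    exact one_le_pow₀ (by norm_num)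
  refine ⟨c, hc0, (∑ i ∈ I, (B i + B0)) / 2 ^ (I.card - 1), fun X hX => ?_⟩
  -- one index
  have hone : ∀ i ∈ I, ∑ p ∈ primesTo N X, (kap (signs g) I i p : ℝ) / p ≤
      (1 - c) * Real.log (Real.log X) + (B i + B0) := by
    intro i hi
    have h5 : ∑ p ∈ primesTo N X, (kap (signs g) I i p : ℝ) / p ≤
        ∑ p ∈ primesTo N X, ((rootCount (g i) p : ℝ) / p -
          if ¬ p ∣ M ∧ 0 < idealCount K p then 1 / (p : ℝ) else 0) := by
      refine Finset.sum_le_sum fun p hp => ?_
      rw [primesTo_eq, Finset.mem_filter, Finset.mem_filter] at hp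
      have hp0 := pos_p hp.1.2
      split_ifs with h6
      · obtain ⟨h7, h8⟩ := hspl p hp.1.2 h6.1 h6.2
        have h9 : (kap (signs g) I i p : ℝ) ≤ 1 := by exact_mod_cast kap_one g I i p (h8 i)
        have h10 : (2 : ℝ) ≤ rootCount (g i) p := by exact_mod_cast h7 i
        rw [← sub_div]
        exact div_le_div_of_nonneg_right (by linarith) hp0.le
      · rw [sub_zero]
        refine div_le_div_of_nonneg_right ?_ hp0.le
        exact_mod_cast kap_le g I i p
    rw [Finset.sum_sub_distrib] at h5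
    have h6 : ∑ p ∈ primesTo N X, (if ¬ p ∣ M ∧ 0 < idealCount K p then 1 / (p : ℝ) else 0) =
        ∑ p ∈ (primesTo N X).filter (fun p => ¬ p ∣ M ∧ 0 < idealCount K p), 1 / (p : ℝ) := by
      rw [Finset.sum_filter]
    have h7 : ∑ p ∈ ((Finset.range (X + 1)).filter Nat.Prime).filter
        (fun p => ¬ p ∣ N * M ∧ 0 < idealCount K p), 1 / (p : ℝ) ≤
        ∑ p ∈ (primesTo N X).filter (fun p => ¬ p ∣ M ∧ 0 < idealCount K p), 1 / (p : ℝ) := by
      refine Finset.sum_le_sum_of_subset_of_nonneg ?_ fun p _ _ => by positivity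
      intro p hp
      rw [primesTo_eq]
      rw [Finset.mem_filter, Finset.mem_filter] at hp
      rw [Finset.mem_filter, Finset.mem_filter, Finset.mem_filter]
      exact ⟨⟨hp.1, fun h8 => hp.2.1 (Dvd.dvd.mul_right h8 M)⟩,
        fun h8 => hp.2.1 (Dvd.dvd.mul_left h8 N), hp.2.2⟩
    have h8 := hB0 X hX
    have h9 := hB i X hX
    have h10 : (1 - c) * Real.log (Real.log X) + (B i + B0) =
        (Real.log (Real.log X) + B i) - (c * Real.log (Real.log X) - B0) := by ring
    linarith
  have hsum : ∑ p ∈ primesTo N X, wt (signs g) I p / p =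
      (∑ i ∈ I, ∑ p ∈ primesTo N X, (kap (signs g) I i p : ℝ) / p) / 2 ^ (I.card - 1) := by
    rw [Finset.sum_comm, Finset.sum_div]
    refine Finset.sum_congr rfl fun p _ => ?_
    unfold wt
    rw [Finset.sum_div, Finset.sum_div, Finset.sum_div]
    refine Finset.sum_congr rfl fun i _ => ?_
    ring
  rw [hsum]
  have h2pos : (0 : ℝ) < 2 ^ (I.card - 1) := by positivity
  have hlog : 0 ≤ Real.log (Real.log X) := by
    refine Real.log_nonneg ?_
    rw [Real.le_log_iff_exp_le (by exact_mod_cast (by omega : 0 < X))]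
    have h5 : (3 : ℝ) ≤ X := by exact_mod_cast hX
    have := Real.exp_one_lt_d9
    linarith
  have h5 : (∑ i ∈ I, ∑ p ∈ primesTo N X, (kap (signs g) I i p : ℝ) / p) ≤
      I.card * ((1 - c) * Real.log (Real.log X)) + ∑ i ∈ I, (B i + B0) := by
    refine (Finset.sum_le_sum hone).trans (le_of_eq ?_)
    rw [Finset.sum_add_distrib, Finset.sum_const, nsmul_eq_mul]
  have h6 : (I.card : ℝ) ≤ 2 ^ (I.card - 1) := by
    have h7 := card_pow (I.card - 1)
    have h8 : 0 < I.card := Finset.card_pos.2 hI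
    have h9 : I.card - 1 + 1 = I.card := by omega
    rw [h9] at h7
    exact_mod_cast h7
  calc _ ≤ (I.card * ((1 - c) * Real.log (Real.log X)) + ∑ i ∈ I, (B i + B0)) /
        2 ^ (I.card - 1) := div_le_div_of_nonneg_right h5 h2pos.le
    _ = I.card / 2 ^ (I.card - 1) * ((1 - c) * Real.log (Real.log X)) +
        (∑ i ∈ I, (B i + B0)) / 2 ^ (I.card - 1) := by ring
    _ ≤ 1 * ((1 - c) * Real.log (Real.log X)) +
        (∑ i ∈ I, (B i + B0)) / 2 ^ (I.card - 1) := by
        refine add_le_add ?_ le_rfl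
        refine mul_le_mul_of_nonneg_right ?_ (mul_nonneg (by linarith) hlog)
        rw [div_le_one h2pos]
        exact h6
    _ = _ := by ring

end Pool.Agent.QTw
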