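import Pool.Agent.QTw.Targets

set_option autoImplicit false

open Finset

namespace Pool.Agent.QTw

namespace BAL_

open Classical in
/-- the weight restricted to the labelled primes that fit the data -/
noncomputable def hh {ι : Type} (a : ℕ → ι × Finset ι → ℝ) (z : ℕ) (L : Finset (ι × Finset ι))
    (k : ι × Finset ι → ℕ) (S : ι → Finset ι) (p : ℕ) (t : ι × Finset ι) : ℝ :=
  if Fits z L k S (p, t) then |a p t| else 0

theorem hh_nonneg {ι : Type} (a : ℕ → ι × Finset ι → ℝ) (z : ℕ) (L : Finset (ι × Finset ι))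
    (k : ι × Finset ι → ℕ) (S : ι → Finset ι) (p : ℕ) (t : ι × Finset ι) :
    0 ≤ hh a z L k S p t := by
  unfold hh
  split_ifs
  · exact abs_nonneg _
  · exact le_rfl

open Classical in
/-- the pointwise bound -/
theorem hh_le {ι : Type} [DecidableEq ι] (a : ℕ → ι × Finset ι → ℝ) (b : ℕ → ι → ℝ)
    (I : Finset ι) (z : ℕ)
    (hb : ∀ p i, 0 ≤ b p i ∧ b p i ≤ 1)
    (ha : ∀ p i S, |a p (i, S)| ≤ if p ≤ z then (if S = ∅ then 1 else 0) else
      if i ∈ I ∧ S ⊆ I.erase i then b p i else 0)
    (L : Finset (ι × Finset ι)) (k : ι × Finset ι → ℕ) (S : ι → Finset ι) (p : ℕ) (i : ι)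
    (s : Finset ι) :
    hh a z L k S p (i, s) ≤ (if p ≤ z ∧ s = ∅ then 1 else 0) +
      (if s = S i ∧ i ∈ I then b p i else 0) +
      ((if blk p = k (i, s) then 1 else 0) + (if blk p = k (i, s) + 1 then 1 else 0)) := by
  have hb0 := (hb p i).1
  have hb1 := (hb p i).2
  have h1 := ha p i s
  have e2 : (0 : ℝ) ≤ (if s = S i ∧ i ∈ I then b p i else 0) := by split_ifs <;> simp [hb0]
  have e3 : (0 : ℝ) ≤ (if blk p = k (i, s) then (1 : ℝ) else 0) := by split_ifs <;> simp
  have e4 : (0 : ℝ) ≤ (if blk p = k (i, s) + 1 then (1 : ℝ) else 0) := by split_ifs <;> simp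
  by_cases hz : p ≤ z
  · rw [if_pos hz] at h1
    have h2 : hh a z L k S p (i, s) ≤ |a p (i, s)| := by
      unfold hh
      split_ifs
      · exact le_rfl
      · exact abs_nonneg _
    by_cases hs : s = ∅
    · rw [if_pos hs] at h1
      rw [if_pos ⟨hz, hs⟩]
      linarith
    · rw [if_neg hs] at h1
      rw [if_neg (fun h => hs h.2)]
      linarith
  · rw [if_neg hz] at h1
    rw [if_neg (fun h => hz h.1)]
    unfold hh
    by_cases hf : Fits z L k S (p, (i, s))
    · rw [if_pos hf]
      rcases hf with hf | hf | hf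
      · exact absurd hf.1 hz
      · have h2 : |a p (i, s)| ≤ 1 := by
          refine h1.trans ?_
          split_ifs
          · exact hb1
          · exact zero_le_one
        rcases hf.2.2 with h5 | h5
        · have h6 : blk p = k (i, s) := h5
          rw [if_pos h6]; linarith
        · have h6 : blk p = k (i, s) + 1 := h5
          rw [if_pos h6]; linarith
      · have h5 : s = S i := hf.2
        have h2 : |a p (i, s)| ≤ (if s = S i ∧ i ∈ I then b p i else 0) := by
          refine h1.trans ?_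
          by_cases hi : i ∈ I
          · have e5 : (if s = S i ∧ i ∈ I then b p i else 0) = b p i := if_pos ⟨h5, hi⟩
            rw [e5]
            split_ifs
            · exact le_rfl
            · exact hb0
          · rw [if_neg (fun h => hi h.1), if_neg (fun h => hi h.2)]
        linarith
    · rw [if_neg hf]; linarith

open Classical in
/-- the bound for the sum over the labels -/
theorem sum_hh_le {ι : Type} [Fintype ι] [DecidableEq ι] (a : ℕ → ι × Finset ι → ℝ)
    (b : ℕ → ι → ℝ) (I : Finset ι) (z : ℕ)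
    (hb : ∀ p i, 0 ≤ b p i ∧ b p i ≤ 1)
    (ha : ∀ p i S, |a p (i, S)| ≤ if p ≤ z then (if S = ∅ then 1 else 0) else
      if i ∈ I ∧ S ⊆ I.erase i then b p i else 0)
    (L : Finset (ι × Finset ι)) (k : ι × Finset ι → ℕ) (S : ι → Finset ι) (p : ℕ) :
    ∑ t : ι × Finset ι, hh a z L k S p t ≤ (if p ≤ z then (Fintype.card ι : ℝ) else 0) +
      ∑ i ∈ I, b p i +
      ∑ t : ι × Finset ι, ((if blk p = k t then 1 else 0) + (if blk p = k t + 1 then 1 else 0)) := by
  calc ∑ t : ι × Finset ι, hh a z L k S p t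
      ≤ ∑ t : ι × Finset ι, ((if p ≤ z ∧ t.2 = ∅ then 1 else 0) +
      (if t.2 = S t.1 ∧ t.1 ∈ I then b p t.1 else 0) +
      ((if blk p = k t then 1 else 0) + (if blk p = k t + 1 then 1 else 0))) :=
        sum_le_sum (fun t _ => hh_le a b I z hb ha L k S p t.1 t.2)
    _ = (∑ t : ι × Finset ι, (if p ≤ z ∧ t.2 = ∅ then (1 : ℝ) else 0)) +
      (∑ t : ι × Finset ι, (if t.2 = S t.1 ∧ t.1 ∈ I then b p t.1 else 0)) +
      ∑ t : ι × Finset ι, ((if blk p = k t then 1 else 0) + (if blk p = k t + 1 then 1 else 0)) := by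
        rw [← sum_add_distrib, ← sum_add_distrib]
    _ ≤ _ := by
        have h1 : (∑ t : ι × Finset ι, (if p ≤ z ∧ t.2 = ∅ then (1 : ℝ) else 0)) =
            if p ≤ z then (Fintype.card ι : ℝ) else 0 := by
          rw [Fintype.sum_prod_type]
          by_cases hz : p ≤ z
          · simp [hz]
          · simp [hz]
        have h2 : (∑ t : ι × Finset ι, (if t.2 = S t.1 ∧ t.1 ∈ I then b p t.1 else 0)) =
            ∑ i ∈ I, b p i := by
          rw [Fintype.sum_prod_type]
          have h3 : ∀ i : ι, (∑ s : Finset ι, (if s = S i ∧ i ∈ I then b p i else 0)) =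
              if i ∈ I then b p i else 0 := by
            intro i
            by_cases hi : i ∈ I
            · simp [hi]
            · simp [hi]
          simp only [h3]
          rw [sum_ite_mem, univ_inter]
        rw [h1, h2]

end BAL_

open BAL_

open Classical in
theorem p_BAL (h1 : T_COV) (h2 : T_FIB) (h3 : T_HALL) (h4 : T_BLOCK) : T_BAL := by
  intro ι _ _
  obtain ⟨Bk, hBk⟩ := h4
  set nT : ℕ := Fintype.card (ι × Finset ι) with hnT
  refine ⟨2 ^ nT * (Fintype.card (ι → Finset ι)) * ((nT : ℝ) * Real.log 4 + 1) *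
    Real.exp (nT * (2 * Bk)), by positivity, ?_⟩
  intro a b I N z X hX hb ha
  set Dt : Finset (Finset (ι × Finset ι) × ((ι × Finset ι → ℕ) × (ι → Finset ι))) :=
    (univ : Finset (Finset (ι × Finset ι))) ×ˢ
      ((Fintype.piFinset (fun _ : ι × Finset ι => range (blk X + 1))) ×ˢ
        (univ : Finset (ι → Finset ι))) with hDt
  set E1 : ℝ := Fintype.card ι * (∑ p ∈ (Finset.range (z + 1)).filter Nat.Prime, 1 / (p : ℝ)) +
          ∑ p ∈ primesTo N X, (∑ i ∈ I, b p i) / p with hE1
  have ha1 : ∀ p t, |a p t| ≤ 1 := by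
    rintro p ⟨i, s⟩
    refine (ha p i s).trans ?_
    split_ifs
    · exact le_rfl
    · exact zero_le_one
    · exact (hb p i).2
    · exact zero_le_one
  -- step 1
  have st1 : ∀ c ∈ (cfgs (ι × Finset ι) N X).filter
        (fun c => ¬ Unb lnk z c ∧ (rtypes z c).image Prod.fst = I),
      ∏ x ∈ c, |a x.1 x.2| ≤ ∑ D ∈ Dt, ∏ x ∈ c, hh a z D.1 D.2.1 D.2.2 x.1 x.2 := by
    intro c hc
    rw [mem_filter] at hc
    obtain ⟨hc1, hc2, hc3⟩ := hc
    by_cases h0 : ∏ x ∈ c, |a x.1 x.2| = 0
    · rw [h0]
      exact sum_nonneg (fun D _ => prod_nonneg (fun x _ => hh_nonneg _ _ _ _ _ _ _))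
    · rw [prod_eq_zero_iff] at h0
      push Not at h0
      have hpos : ∀ x ∈ c, 0 < |a x.1 x.2| := fun x hx =>
        lt_of_le_of_ne (abs_nonneg _) (Ne.symm (h0 x hx))
      have hA : ∀ x ∈ c, z < x.1 → x.2.2 ⊆ I.erase x.2.1 := by
        intro x hx hz
        have h5 := ha x.1 x.2.1 x.2.2
        have h6 : 0 < |a x.1 (x.2.1, x.2.2)| := hpos x hx
        rw [if_neg (not_le.2 hz)] at h5
        by_contra hcon
        rw [if_neg (fun h => hcon h.2)] at h5
        linarith
      have hB : ∀ x ∈ c, x.1 ≤ z → x.2.2 = ∅ := by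
        intro x hx hz
        have h5 := ha x.1 x.2.1 x.2.2
        have h6 : 0 < |a x.1 (x.2.1, x.2.2)| := hpos x hx
        rw [if_pos hz] at h5
        by_contra hcon
        rw [if_neg hcon] at h5
        linarith
      obtain ⟨L, k, S, hk, hF⟩ := h1 ι I N z X c hc1 hc2 (by convert hc3) hA hB
      have hmem : (L, (k, S)) ∈ Dt := by
        rw [hDt]
        simp only [mem_product, mem_univ, true_and, and_true, Fintype.mem_piFinset, mem_range]
        intro t
        exact Nat.lt_succ_of_le (hk t)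
      have heq : ∏ x ∈ c, |a x.1 x.2| = ∏ x ∈ c, hh a z L k S x.1 x.2 := by
        refine prod_congr rfl (fun x hx => ?_)
        unfold hh
        rw [if_pos]
        exact hF x hx
      rw [heq]
      exact single_le_sum (f := fun D => ∏ x ∈ c, hh a z D.1 D.2.1 D.2.2 x.1 x.2)
        (fun D _ => prod_nonneg (fun x _ => hh_nonneg _ _ _ _ _ _ _)) hmem
  -- step 3
  have st3 : ∀ D ∈ Dt, ∑ c ∈ cfgs (ι × Finset ι) N X, ∏ x ∈ c, hh a z D.1 D.2.1 D.2.2 x.1 x.2 ≤
      ((nT : ℝ) * Real.log 4 + 1) * (X / Real.log X) * (Real.exp (nT * (2 * Bk)) * Real.exp E1) := by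
    intro D _
    have h5 := h2 (ι × Finset ι) (hh a z D.1 D.2.1 D.2.2) N X
    rw [h5]
    have h6 := h3 nT (fun p => if p ∣ N then 0 else ∑ t, hh a z D.1 D.2.1 D.2.2 p t)
      (by positivity) ?_ X hX
    · refine h6.trans ?_
      rw [← Real.exp_add]
      have hlog : 0 < Real.log X := Real.log_pos (by exact_mod_cast (by omega : 1 < X))
      refine mul_le_mul_of_nonneg_left (Real.exp_le_exp.2 ?_) (by positivity)
      -- the exponent
      have hpt : ∀ p ∈ (range (X + 1)).filter Nat.Prime,
          (if p ∣ N then 0 else ∑ t, hh a z D.1 D.2.1 D.2.2 p t) / (p : ℝ) ≤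
          (if p ≤ z then (Fintype.card ι : ℝ) * (1 / p) else 0) +
          (if ¬ p ∣ N then (∑ i ∈ I, b p i) / p else 0) +
          ∑ t : ι × Finset ι, ((if blk p = D.2.1 t then 1 / (p : ℝ) else 0) +
            (if blk p = D.2.1 t + 1 then 1 / (p : ℝ) else 0)) := by
        intro p hp
        have hp0 : (0 : ℝ) ≤ p := by positivity
        have hb0 : 0 ≤ (∑ i ∈ I, b p i) / p := div_nonneg (sum_nonneg (fun i _ => (hb p i).1)) hp0
        have hs0 : 0 ≤ ∑ t : ι × Finset ι, ((if blk p = D.2.1 t then 1 / (p : ℝ) else 0) +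
            (if blk p = D.2.1 t + 1 then 1 / (p : ℝ) else 0)) := by
          refine sum_nonneg (fun t _ => add_nonneg ?_ ?_) <;> split_ifs <;> positivity
        have hc0 : (0 : ℝ) ≤ (if p ≤ z then (Fintype.card ι : ℝ) * (1 / p) else 0) := by
          split_ifs <;> positivity
        by_cases hpN : p ∣ N
        · rw [if_pos hpN, zero_div, if_neg (not_not.2 hpN)]
          linarith
        · rw [if_neg hpN, if_pos hpN]
          have h7 := sum_hh_le a b I z hb ha D.1 D.2.1 D.2.2 p
          have h8 : (∑ t, hh a z D.1 D.2.1 D.2.2 p t) / (p : ℝ) ≤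
            ((if p ≤ z then (Fintype.card ι : ℝ) else 0) +
            ∑ i ∈ I, b p i +
            ∑ t : ι × Finset ι, ((if blk p = D.2.1 t then 1 else 0) +
              (if blk p = D.2.1 t + 1 then 1 else 0))) / (p : ℝ) :=
            div_le_div_of_nonneg_right h7 hp0
          refine h8.trans (le_of_eq ?_)
          rw [add_div, add_div]
          congr 1
          · congr 1
            split_ifs
            · ring
            · simp
          · rw [sum_div]
            refine sum_congr rfl (fun t _ => ?_)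
            rw [add_div]
            congr 1 <;> split_ifs <;> simp
      refine (sum_le_sum hpt).trans ?_
      rw [sum_add_distrib, sum_add_distrib, sum_comm]
      have e1 : ∑ p ∈ (range (X + 1)).filter Nat.Prime,
          (if p ≤ z then (Fintype.card ι : ℝ) * (1 / p) else 0) ≤
          Fintype.card ι * (∑ p ∈ (Finset.range (z + 1)).filter Nat.Prime, 1 / (p : ℝ)) := by
        rw [← sum_filter, mul_sum]
        refine sum_le_sum_of_subset_of_nonneg ?_ (fun p _ _ => by positivity)
        intro p hp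
        simp only [mem_filter, mem_range] at hp ⊢
        exact ⟨by omega, hp.1.2⟩
      have e2 : ∑ p ∈ (range (X + 1)).filter Nat.Prime,
          (if ¬ p ∣ N then (∑ i ∈ I, b p i) / (p : ℝ) else 0) =
          ∑ p ∈ primesTo N X, (∑ i ∈ I, b p i) / p := by
        rw [← sum_filter, filter_filter]
        rfl
      have e3 : ∑ t : ι × Finset ι, ∑ p ∈ (range (X + 1)).filter Nat.Prime,
          ((if blk p = D.2.1 t then 1 / (p : ℝ) else 0) +
            (if blk p = D.2.1 t + 1 then 1 / (p : ℝ) else 0)) ≤ nT * (2 * Bk) := by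
        have e4 : ∀ j : ℕ, ∑ p ∈ (range (X + 1)).filter Nat.Prime,
            (if blk p = j then 1 / (p : ℝ) else 0) ≤ Bk := by
          intro j
          refine le_trans (le_of_eq ?_) (hBk j X)
          rw [← sum_filter, filter_filter]
        calc _ ≤ ∑ _t : ι × Finset ι, (2 * Bk) := by
              refine sum_le_sum (fun t _ => ?_)
              rw [sum_add_distrib]
              have e5 := e4 (D.2.1 t)
              have e6 := e4 (D.2.1 t + 1)
              linarith
          _ = nT * (2 * Bk) := by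
              rw [sum_const, card_univ, nsmul_eq_mul]
      rw [hE1]
      linarith
    · intro p
      split_ifs with hpN
      · exact ⟨le_rfl, by positivity⟩
      · refine ⟨sum_nonneg (fun t _ => hh_nonneg _ _ _ _ _ _ _), ?_⟩
        calc ∑ t, hh a z D.1 D.2.1 D.2.2 p t ≤ ∑ _t : ι × Finset ι, (1 : ℝ) := by
              refine sum_le_sum (fun t _ => ?_)
              unfold hh
              split_ifs
              · exact ha1 p t
              · exact zero_le_one
          _ = nT := by rw [sum_const, card_univ, nsmul_eq_mul, mul_one]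
  calc _ ≤ ∑ c ∈ (cfgs (ι × Finset ι) N X).filter
        (fun c => ¬ Unb lnk z c ∧ (rtypes z c).image Prod.fst = I),
        ∑ D ∈ Dt, ∏ x ∈ c, hh a z D.1 D.2.1 D.2.2 x.1 x.2 := sum_le_sum st1
    _ ≤ ∑ c ∈ cfgs (ι × Finset ι) N X, ∑ D ∈ Dt, ∏ x ∈ c, hh a z D.1 D.2.1 D.2.2 x.1 x.2 :=
        sum_le_sum_of_subset_of_nonneg (filter_subset _ _)
          (fun c _ _ => sum_nonneg (fun D _ => prod_nonneg (fun x _ => hh_nonneg _ _ _ _ _ _ _)))
    _ = ∑ D ∈ Dt, ∑ c ∈ cfgs (ι × Finset ι) N X, ∏ x ∈ c, hh a z D.1 D.2.1 D.2.2 x.1 x.2 :=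
        sum_comm
    _ ≤ ∑ _D ∈ Dt, ((nT : ℝ) * Real.log 4 + 1) * (X / Real.log X) *
        (Real.exp (nT * (2 * Bk)) * Real.exp E1) := sum_le_sum st3
    _ = _ := by
        rw [sum_const, nsmul_eq_mul, hDt, card_product, card_product, Fintype.card_piFinset,
          prod_const, card_range, card_univ, card_univ, card_univ, Fintype.card_finset]
        push_cast
        ring

end Pool.Agent.QTw
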