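import Pool.Agent.QTw.Targets

set_option autoImplicit false

/-!
# The bilinear sum (T_BL)
-/

namespace Pool.Agent.QTw

namespace BL_

/-- the summation conditions -/
def cnd (Y p m : ℕ) : Prop := p ^ 4 < m ∧ p * m ≤ Y

instance (Y p m : ℕ) : Decidable (cnd Y p m) := by unfold cnd; infer_instance

/-- the term of the inner function -/
noncomputable def tm (β : ℕ → ℝ) (Y p m : ℕ) : ℝ :=
  if cnd Y p m then β p * (jacobiSym m p : ℝ) else 0

theorem jac_le (m p : ℕ) : |(jacobiSym m p : ℝ)| ≤ 1 := by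
  have h : |jacobiSym (m : ℤ) p| ≤ 1 := by
    rcases jacobiSym.trichotomy (m : ℤ) p with h | h | h <;> rw [h] <;> norm_num
  exact_mod_cast h

theorem tm_le (β : ℕ → ℝ) (hβ : ∀ n, |β n| ≤ 1) (Y p m : ℕ) : |tm β Y p m| ≤ 1 := by
  unfold tm
  split_ifs
  · rw [abs_mul]
    exact mul_le_one₀ (hβ p) (abs_nonneg _) (jac_le m p)
  · simp

theorem off_diag (h1 : T_JINT) (β : ℕ → ℝ) (hβ : ∀ n, |β n| ≤ 1) (Y M p q : ℕ) (hp : p.Prime)
    (hq : q.Prime) (hp2 : p ≠ 2) (hq2 : q ≠ 2) (hpq : p ≠ q) :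
    |∑ m ∈ Finset.Ioc 0 M, tm β Y p m * tm β Y q m| ≤ (p : ℝ) * q := by
  have hset : (Finset.Ioc 0 M).filter (fun m => cnd Y p m ∧ cnd Y q m) =
      Finset.Ioc (max (p ^ 4) (q ^ 4)) (min M (min (Y / p) (Y / q))) := by
    ext m
    rw [Finset.mem_filter]
    unfold cnd
    simp only [Finset.mem_Ioc, max_lt_iff, le_min_iff,
      Nat.le_div_iff_mul_le hp.pos, Nat.le_div_iff_mul_le hq.pos, mul_comm m]
    constructor
    · rintro ⟨⟨_, h⟩, ⟨h1, h2⟩, h3, h4⟩
      exact ⟨⟨h1, h3⟩, h, h2, h4⟩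
    · rintro ⟨⟨h1, h3⟩, h, h2, h4⟩
      exact ⟨⟨by omega, h⟩, ⟨h1, h2⟩, h3, h4⟩
  have hsum : ∑ m ∈ Finset.Ioc 0 M, tm β Y p m * tm β Y q m =
      β p * β q * ((∑ m ∈ Finset.Ioc (max (p ^ 4) (q ^ 4)) (min M (min (Y / p) (Y / q))),
        (jacobiSym m p * jacobiSym m q : ℤ) : ℤ) : ℝ) := by
    rw [← hset, Finset.sum_filter, Int.cast_sum, Finset.mul_sum]
    refine Finset.sum_congr rfl fun m _ => ?_
    unfold tm
    by_cases hc : cnd Y p m
    · by_cases hc' : cnd Y q m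
      · rw [if_pos hc, if_pos hc', if_pos ⟨hc, hc'⟩]
        push_cast
        ring
      · rw [if_neg hc', if_neg (show ¬ (cnd Y p m ∧ cnd Y q m) from fun h => hc' h.2)]
        simp
    · rw [if_neg hc, if_neg (show ¬ (cnd Y p m ∧ cnd Y q m) from fun h => hc h.1)]
      simp
  rw [hsum, abs_mul, abs_mul]
  have h2 := h1 p q hp hq hp2 hq2 hpq (max (p ^ 4) (q ^ 4)) (min M (min (Y / p) (Y / q)))
  have h3 : |((∑ m ∈ Finset.Ioc (max (p ^ 4) (q ^ 4)) (min M (min (Y / p) (Y / q))),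
        (jacobiSym m p * jacobiSym m q : ℤ) : ℤ) : ℝ)| ≤ (p : ℝ) * q := by
    rw [← Int.cast_abs]
    exact_mod_cast h2
  calc |β p| * |β q| * |((∑ m ∈ Finset.Ioc (max (p ^ 4) (q ^ 4)) (min M (min (Y / p) (Y / q))),
        (jacobiSym m p * jacobiSym m q : ℤ) : ℤ) : ℝ)| ≤ 1 * ((p : ℝ) * q) := by
        refine mul_le_mul (mul_le_one₀ (hβ p) (abs_nonneg _) (hβ q)) h3 (abs_nonneg _) zero_le_one
    _ = (p : ℝ) * q := one_mul _

theorem diag (β : ℕ → ℝ) (hβ : ∀ n, |β n| ≤ 1) (Y M p : ℕ) :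
    ∑ m ∈ Finset.Ioc 0 M, tm β Y p m * tm β Y p m ≤ M := by
  calc ∑ m ∈ Finset.Ioc 0 M, tm β Y p m * tm β Y p m ≤ ∑ _m ∈ Finset.Ioc 0 M, (1 : ℝ) := by
        refine Finset.sum_le_sum fun m _ => ?_
        have h := tm_le β hβ Y p m
        have h2 := abs_le.1 h
        nlinarith
    _ = M := by simp

/-- one dyadic block -/
theorem block (h1 : T_JINT) (α β : ℕ → ℝ) (hα : ∀ n, |α n| ≤ 1) (hβ : ∀ n, |β n| ≤ 1)
    (Y k : ℕ) (P : Finset ℕ) (hP : ∀ p ∈ P, p.Prime ∧ p ≠ 2 ∧ 2 ^ k ≤ p ∧ p < 2 ^ (k + 1)) :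
    (∑ p ∈ P, ∑ m ∈ (Finset.range (Y + 1)).filter (fun m => p ^ 4 < m ∧ p * m ≤ Y),
      β p * α m * (jacobiSym m p : ℝ)) ^ 2 ≤ 5 * (Y : ℝ) ^ 2 / 2 ^ k := by
  set M : ℕ := Y / 2 ^ k with hM
  have hcard : P.card ≤ 2 ^ k := by
    have h2 : P ⊆ Finset.Ico (2 ^ k) (2 ^ (k + 1)) := by
      intro p hp
      rw [Finset.mem_Ico]
      exact ⟨(hP p hp).2.2.1, (hP p hp).2.2.2⟩
    have h3 := Finset.card_le_card h2
    rwa [Nat.card_Ico, pow_succ, mul_two, Nat.add_sub_cancel] at h3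
  have hswap : ∑ p ∈ P, ∑ m ∈ (Finset.range (Y + 1)).filter (fun m => p ^ 4 < m ∧ p * m ≤ Y),
      β p * α m * (jacobiSym m p : ℝ) =
      ∑ m ∈ Finset.Ioc 0 M, α m * ∑ p ∈ P, tm β Y p m := by
    have e1 : ∀ p ∈ P, ∑ m ∈ (Finset.range (Y + 1)).filter (fun m => p ^ 4 < m ∧ p * m ≤ Y),
        β p * α m * (jacobiSym m p : ℝ) = ∑ m ∈ Finset.Ioc 0 M, α m * tm β Y p m := by
      intro p hp
      have e2 : (Finset.range (Y + 1)).filter (fun m => p ^ 4 < m ∧ p * m ≤ Y) =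
          (Finset.Ioc 0 M).filter (fun m => cnd Y p m) := by
        ext m
        rw [Finset.mem_filter, Finset.mem_filter]
        unfold cnd
        simp only [Finset.mem_range, Finset.mem_Ioc]
        constructor
        · rintro ⟨_, h3, h4⟩
          refine ⟨⟨by omega, ?_⟩, h3, h4⟩
          rw [hM, Nat.le_div_iff_mul_le (by positivity), mul_comm]
          exact (Nat.mul_le_mul_right m (hP p hp).2.2.1).trans h4
        · rintro ⟨_, h3, h4⟩
          refine ⟨?_, h3, h4⟩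
          have : m ≤ p * m := Nat.le_mul_of_pos_left m (hP p hp).1.pos
          omega
      rw [e2, Finset.sum_filter]
      refine Finset.sum_congr rfl fun m _ => ?_
      unfold tm
      split_ifs
      · ring
      · simp
    rw [Finset.sum_congr rfl e1, Finset.sum_comm]
    refine Finset.sum_congr rfl fun m _ => ?_
    rw [Finset.mul_sum]
  rw [hswap]
  have hRHS : 0 ≤ 5 * (Y : ℝ) ^ 2 / 2 ^ k := by positivity
  rcases Nat.lt_or_ge (16 ^ k) M with hbig | hsmall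
  · have hcs := Finset.sum_mul_sq_le_sq_mul_sq (Finset.Ioc 0 M) α (fun m => ∑ p ∈ P, tm β Y p m)
    refine hcs.trans ?_
    have hA : ∑ m ∈ Finset.Ioc 0 M, α m ^ 2 ≤ M := by
      calc ∑ m ∈ Finset.Ioc 0 M, α m ^ 2 ≤ ∑ _m ∈ Finset.Ioc 0 M, (1 : ℝ) := by
            refine Finset.sum_le_sum fun m _ => ?_
            have h2 := abs_le.1 (hα m)
            nlinarith
        _ = M := by simp
    have hG : ∑ m ∈ Finset.Ioc 0 M, (∑ p ∈ P, tm β Y p m) ^ 2 ≤
        2 ^ k * M + 4 * 16 ^ k := by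
      have e1 : ∑ m ∈ Finset.Ioc 0 M, (∑ p ∈ P, tm β Y p m) ^ 2 =
          ∑ p ∈ P, ∑ q ∈ P, ∑ m ∈ Finset.Ioc 0 M, tm β Y p m * tm β Y q m := by
        simp only [sq, Finset.sum_mul_sum]
        rw [Finset.sum_comm]
        refine Finset.sum_congr rfl fun p _ => ?_
        rw [Finset.sum_comm]
      rw [e1]
      have e2 : ∀ p ∈ P, ∑ q ∈ P, ∑ m ∈ Finset.Ioc 0 M, tm β Y p m * tm β Y q m ≤
          M + 2 ^ k * (4 * 4 ^ k) := by
        intro p hp
        rw [← Finset.add_sum_erase P _ hp]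
        refine add_le_add (diag β hβ Y M p) ?_
        have e3 : ∀ q ∈ P.erase p, ∑ m ∈ Finset.Ioc 0 M, tm β Y p m * tm β Y q m ≤
            4 * 4 ^ k := by
          intro q hq
          rw [Finset.mem_erase] at hq
          have h2 := off_diag h1 β hβ Y M p q (hP p hp).1 (hP q hq.2).1 (hP p hp).2.1
            (hP q hq.2).2.1 (Ne.symm hq.1)
          refine (le_abs_self _).trans (h2.trans ?_)
          have h3 : (p : ℝ) ≤ 2 ^ (k + 1) := by exact_mod_cast (hP p hp).2.2.2.le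
          have h4 : (q : ℝ) ≤ 2 ^ (k + 1) := by exact_mod_cast (hP q hq.2).2.2.2.le
          calc (p : ℝ) * q ≤ 2 ^ (k + 1) * 2 ^ (k + 1) :=
                mul_le_mul h3 h4 (Nat.cast_nonneg _) (by positivity)
            _ = 4 * 4 ^ k := by
                rw [← pow_add, show k + 1 + (k + 1) = 2 * (k + 1) by ring, pow_mul]
                norm_num
                ring
        calc ∑ q ∈ P.erase p, ∑ m ∈ Finset.Ioc 0 M, tm β Y p m * tm β Y q m
            ≤ ∑ _q ∈ P.erase p, (4 * 4 ^ k : ℝ) := Finset.sum_le_sum e3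
          _ = (P.erase p).card * (4 * 4 ^ k) := by rw [Finset.sum_const, nsmul_eq_mul]
          _ ≤ 2 ^ k * (4 * 4 ^ k) := by
              refine mul_le_mul_of_nonneg_right ?_ (by positivity)
              have : (P.erase p).card ≤ 2 ^ k := (Finset.card_le_card (Finset.erase_subset _ _)).trans
                hcard
              exact_mod_cast this
      calc ∑ p ∈ P, ∑ q ∈ P, ∑ m ∈ Finset.Ioc 0 M, tm β Y p m * tm β Y q m
          ≤ ∑ _p ∈ P, ((M : ℝ) + 2 ^ k * (4 * 4 ^ k)) := Finset.sum_le_sum e2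
        _ = P.card * ((M : ℝ) + 2 ^ k * (4 * 4 ^ k)) := by rw [Finset.sum_const, nsmul_eq_mul]
        _ ≤ 2 ^ k * ((M : ℝ) + 2 ^ k * (4 * 4 ^ k)) := by
            refine mul_le_mul_of_nonneg_right ?_ (by positivity)
            exact_mod_cast hcard
        _ = 2 ^ k * M + 4 * 16 ^ k := by
            have : (16 : ℝ) ^ k = 2 ^ k * 2 ^ k * 4 ^ k := by
              rw [← mul_pow, ← mul_pow]
              norm_num
            rw [this]
            ring
    have hM16 : (16 : ℝ) ^ k ≤ M := by exact_mod_cast hbig.le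
    have h2k : (1 : ℝ) ≤ 2 ^ k := one_le_pow₀ (by norm_num)
    have hMY : (M : ℝ) * 2 ^ k ≤ Y := by
      have : M * 2 ^ k ≤ Y := Nat.div_mul_le_self Y (2 ^ k)
      exact_mod_cast this
    have hM0 : (0 : ℝ) ≤ M := Nat.cast_nonneg _
    calc (∑ m ∈ Finset.Ioc 0 M, α m ^ 2) * ∑ m ∈ Finset.Ioc 0 M, (∑ p ∈ P, tm β Y p m) ^ 2
        ≤ M * (2 ^ k * M + 4 * 16 ^ k) := by
          refine mul_le_mul hA hG (Finset.sum_nonneg fun m _ => sq_nonneg _) hM0
      _ ≤ M * (2 ^ k * M + 4 * M) := by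
          refine mul_le_mul_of_nonneg_left ?_ hM0
          linarith
      _ ≤ M * (5 * (2 ^ k * M)) := by
          refine mul_le_mul_of_nonneg_left ?_ hM0
          nlinarith
      _ = 5 * (M * 2 ^ k) ^ 2 / 2 ^ k := by
          field_simp
      _ ≤ 5 * (Y : ℝ) ^ 2 / 2 ^ k := by
          have h5 : ((M : ℝ) * 2 ^ k) ^ 2 ≤ (Y : ℝ) ^ 2 :=
            pow_le_pow_left₀ (by positivity) hMY 2
          gcongr
  · have hz : ∑ m ∈ Finset.Ioc 0 M, α m * ∑ p ∈ P, tm β Y p m = 0 := by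
      refine Finset.sum_eq_zero fun m hm => ?_
      rw [Finset.sum_eq_zero, mul_zero]
      intro p hp
      unfold tm
      rw [if_neg]
      rintro ⟨h3, _⟩
      rw [Finset.mem_Ioc] at hm
      have h4 : 16 ^ k ≤ p ^ 4 := by
        calc 16 ^ k = (2 ^ k) ^ 4 := by rw [← pow_mul, mul_comm, pow_mul]; norm_num
          _ ≤ p ^ 4 := Nat.pow_le_pow_left (hP p hp).2.2.1 4
      omega
    rw [hz]
    simpa using hRHS

end BL_

open BL_ in
theorem p_BL (h1 : T_JINT) : T_BL := by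
  set r : ℝ := (Real.sqrt 2)⁻¹ with hr
  have hs2 : 0 < Real.sqrt 2 := Real.sqrt_pos.2 (by norm_num)
  have hr0 : 0 < r := inv_pos.2 hs2
  have hr1 : r < 1 := by
    rw [hr]
    refine inv_lt_one_of_one_lt₀ ?_
    rw [Real.lt_sqrt (by norm_num)]
    norm_num
  have hr2 : r ^ 2 = 1 / 2 := by
    rw [hr, inv_pow, Real.sq_sqrt (by norm_num)]
    norm_num
  refine ⟨Real.sqrt 5 * (Real.sqrt 2 / (1 - r)), by
    have : 0 < 1 - r := by linarith
    positivity, ?_⟩
  intro α β hα hβ z Y hz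
  set Q : Finset ℕ := (Finset.range (Y + 1)).filter (fun p => p.Prime ∧ p ≠ 2 ∧ z < p) with hQ
  set k0 : ℕ := Nat.log 2 z with hk0
  have hfib := Finset.sum_fiberwise_of_maps_to (s := Q) (t := Finset.range (Y + 1))
    (g := fun p => Nat.log 2 p) (by
      intro p hp
      rw [hQ, Finset.mem_filter, Finset.mem_range] at hp
      rw [Finset.mem_range]
      exact (Nat.log_le_self 2 p).trans_lt hp.1)
    (fun p => ∑ q ∈ (Finset.range (Y + 1)).filter (fun q => p ^ 4 < q ∧ p * q ≤ Y),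
        β p * α q * (jacobiSym q p : ℝ))
  rw [← hfib]
  have hblk : ∀ k ∈ Finset.range (Y + 1), |∑ p ∈ Q.filter (fun p => Nat.log 2 p = k),
      ∑ q ∈ (Finset.range (Y + 1)).filter (fun q => p ^ 4 < q ∧ p * q ≤ Y),
        β p * α q * (jacobiSym q p : ℝ)| ≤ if k0 ≤ k then Real.sqrt 5 * Y * r ^ k else 0 := by
    intro k _
    have hmem : ∀ p ∈ Q.filter (fun p => Nat.log 2 p = k),
        p.Prime ∧ p ≠ 2 ∧ 2 ^ k ≤ p ∧ p < 2 ^ (k + 1) := by
      intro p hp
      rw [Finset.mem_filter, hQ, Finset.mem_filter] at hp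
      obtain ⟨⟨_, h2, h3, _⟩, h5⟩ := hp
      refine ⟨h2, h3, ?_, ?_⟩
      · rw [← h5]
        exact Nat.pow_log_le_self 2 h2.ne_zero
      · rw [← h5]
        exact Nat.lt_pow_succ_log_self (by norm_num) p
    split_ifs with hk
    · refine abs_le_of_sq_le_sq ?_ (by positivity)
      refine (block h1 α β hα hβ Y k _ hmem).trans (le_of_eq ?_)
      rw [mul_pow, mul_pow, Real.sq_sqrt (by norm_num), ← pow_mul, mul_comm k 2, pow_mul, hr2]
      rw [one_div, inv_pow]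
      ring
    · rw [Finset.sum_eq_zero, abs_zero]
      intro p hp
      exfalso
      have h2 := (hmem p hp).2.2.2
      rw [Finset.mem_filter, hQ, Finset.mem_filter] at hp
      have h3 : z < p := hp.1.2.2.2
      have h4 : 2 ^ k0 ≤ z := Nat.pow_log_le_self 2 (by omega)
      have h5 : 2 ^ (k + 1) ≤ 2 ^ k0 := Nat.pow_le_pow_right (by norm_num) (by omega)
      omega
  refine (Finset.abs_sum_le_sum_abs _ _).trans ((Finset.sum_le_sum hblk).trans ?_)
  have hgeo : ∑ k ∈ Finset.range (Y + 1), (if k0 ≤ k then Real.sqrt 5 * Y * r ^ k else 0) ≤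
      Real.sqrt 5 * Y * (r ^ k0 / (1 - r)) := by
    rw [← Finset.sum_filter, ← Finset.mul_sum]
    refine mul_le_mul_of_nonneg_left ?_ (by positivity)
    have h2 : (Finset.range (Y + 1)).filter (fun k => k0 ≤ k) = Finset.Ico k0 (Y + 1) := by
      ext k
      simp only [Finset.mem_filter, Finset.mem_range, Finset.mem_Ico]
      exact and_comm
    rw [h2]
    exact geom_sum_Ico_le_of_lt_one hr0.le hr1
  refine hgeo.trans ?_
  have hz0 : (0 : ℝ) < z := by exact_mod_cast hz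
  have hsz : 0 < Real.sqrt z := Real.sqrt_pos.2 hz0
  have hk : r ^ k0 ≤ Real.sqrt 2 / Real.sqrt z := by
    rw [le_div_iff₀ hsz]
    have h3 : Real.sqrt z ≤ Real.sqrt 2 ^ (k0 + 1) := by
      rw [Real.sqrt_le_left (by positivity), ← pow_mul, mul_comm, pow_mul,
        Real.sq_sqrt (by norm_num)]
      have h4 : z < 2 ^ (k0 + 1) := Nat.lt_pow_succ_log_self (by norm_num) z
      exact_mod_cast h4.le
    calc r ^ k0 * Real.sqrt z ≤ r ^ k0 * Real.sqrt 2 ^ (k0 + 1) :=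
          mul_le_mul_of_nonneg_left h3 (by positivity)
      _ = (r * Real.sqrt 2) ^ k0 * Real.sqrt 2 := by rw [mul_pow, pow_succ]; ring
      _ = Real.sqrt 2 := by
          rw [hr, inv_mul_cancel₀ hs2.ne', one_pow, one_mul]
  have h1r : 0 < 1 - r := by linarith
  calc Real.sqrt 5 * Y * (r ^ k0 / (1 - r))
      ≤ Real.sqrt 5 * Y * ((Real.sqrt 2 / Real.sqrt z) / (1 - r)) := by gcongr
    _ = Real.sqrt 5 * (Real.sqrt 2 / (1 - r)) * Y / Real.sqrt z := by
        field_simp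

end Pool.Agent.QTw
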