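import Pool.Agent.QTw.Targets

/-!
# QTw-BLOCK: the sum of the reciprocals of the primes in one block is bounded
-/

namespace Pool.Agent.QTw

namespace BLOCK_

/-- lower bound for the primes in the block `k` -/
theorem le_of_blk {p k : ℕ} (hp : p.Prime) (h : blk p = k) : 2 ^ (16 ^ k) ≤ p := by
  unfold blk at h
  have h2 : 1 ≤ Nat.log 2 p := Nat.log_pos (by norm_num) hp.two_le
  have h3 : 16 ^ k ≤ Nat.log 2 p := by
    rw [← h]
    exact Nat.pow_log_le_self 16 (by omega)
  exact (Nat.pow_le_pow_right (by norm_num) h3).trans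
    (Nat.pow_log_le_self 2 hp.pos.ne')

/-- upper bound for the primes in the block `k` -/
theorem lt_of_blk {p k : ℕ} (h : blk p = k) : p < 2 ^ (16 ^ (k + 1)) := by
  unfold blk at h
  have h3 : Nat.log 2 p < 16 ^ (k + 1) := by
    rw [← h]
    exact Nat.lt_pow_succ_log_self (by norm_num) _
  have h4 : p < 2 ^ (Nat.log 2 p + 1) := Nat.lt_pow_succ_log_self (by norm_num) _
  exact h4.trans_le (Nat.pow_le_pow_right (by norm_num) h3)

end BLOCK_

open BLOCK_ in
/-- BLOCK: the sum over one block is bounded. -/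
theorem p_BLOCK (h1 : T_MERT) : T_BLOCK := by
  obtain ⟨B, hB⟩ := h1
  refine ⟨16 + |B| / Real.log 2, fun k X => ?_⟩
  have hl2 : 0 < Real.log 2 := Real.log_pos (by norm_num)
  set L : ℝ := (16 : ℝ) ^ k * Real.log 2 with hL
  have h16 : (1 : ℝ) ≤ (16 : ℝ) ^ k := one_le_pow₀ (by norm_num)
  have hLpos : 0 < L := by positivity
  -- termwise bound
  have hterm : ∀ p ∈ (Finset.range (X + 1)).filter (fun p => p.Prime ∧ blk p = k),
      1 / (p : ℝ) ≤ (Real.log p / p) / L := by
    intro p hp
    rw [Finset.mem_filter] at hp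
    obtain ⟨-, hpp, hk⟩ := hp
    have hppos : (0 : ℝ) < p := by exact_mod_cast hpp.pos
    have hle : ((2 ^ (16 ^ k) : ℕ) : ℝ) ≤ p := by exact_mod_cast le_of_blk hpp hk
    have hlog : L ≤ Real.log p := by
      have := Real.log_le_log (by positivity) hle
      rw [Nat.cast_pow, Real.log_pow] at this
      push_cast at this
      exact this
    rw [div_div, div_le_div_iff₀ hppos (by positivity)]
    nlinarith
  have hsub : (Finset.range (X + 1)).filter (fun p => p.Prime ∧ blk p = k) ⊆
      (Finset.range (2 ^ (16 ^ (k + 1)) + 1)).filter Nat.Prime := by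
    intro p hp
    rw [Finset.mem_filter] at hp ⊢
    obtain ⟨-, hpp, hk⟩ := hp
    refine ⟨Finset.mem_range.2 ?_, hpp⟩
    have := lt_of_blk hk
    omega
  have hM := hB (2 ^ (16 ^ (k + 1))) Nat.one_le_two_pow
  have hlogX : Real.log ((2 ^ (16 ^ (k + 1)) : ℕ) : ℝ) = 16 * L := by
    rw [Nat.cast_pow, Real.log_pow]
    push_cast
    rw [hL]
    ring
  rw [hlogX] at hM
  calc ∑ p ∈ (Finset.range (X + 1)).filter (fun p => p.Prime ∧ blk p = k), 1 / (p : ℝ)
      ≤ ∑ p ∈ (Finset.range (X + 1)).filter (fun p => p.Prime ∧ blk p = k),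
          (Real.log p / p) / L := Finset.sum_le_sum hterm
    _ ≤ ∑ p ∈ (Finset.range (2 ^ (16 ^ (k + 1)) + 1)).filter Nat.Prime,
          (Real.log p / p) / L := by
        refine Finset.sum_le_sum_of_subset_of_nonneg hsub fun p hp _ => ?_
        have hpp : p.Prime := (Finset.mem_filter.1 hp).2
        have h1 : (1 : ℝ) ≤ p := by exact_mod_cast hpp.one_lt.le
        have h2 := Real.log_nonneg h1
        positivity
    _ = (∑ p ∈ (Finset.range (2 ^ (16 ^ (k + 1)) + 1)).filter Nat.Prime,
          Real.log p / p) / L := by rw [Finset.sum_div]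
    _ ≤ (16 * L + B) / L := by gcongr
    _ ≤ 16 + |B| / Real.log 2 := by
        rw [add_div, mul_div_assoc, div_self hLpos.ne', mul_one]
        have h5 : B / L ≤ |B| / Real.log 2 := by
          rw [div_le_div_iff₀ hLpos hl2]
          have h6 : Real.log 2 ≤ L := by rw [hL]; nlinarith
          calc B * Real.log 2 ≤ |B| * Real.log 2 := by
                gcongr
                exact le_abs_self B
            _ ≤ |B| * L := by gcongr
        linarith

end Pool.Agent.QTw
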