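import Pool.Agent.QTw.Targets
import Mathlib

/-!
# BLR: the bilinear sum with the other symbol
-/

namespace Pool.Agent.QTw

namespace BLR_

/-- the sign `(-1)^(n/2)` -/
noncomputable def x (n : ℕ) : ℝ := (-1) ^ (n / 2)

lemma x_eq (n : ℕ) : x n = 1 ∨ x n = -1 := neg_one_pow_eq_or ℝ _

lemma abs_x (n : ℕ) : |x n| = 1 := by
  rcases x_eq n with h | h <;> simp [h]

lemma sign_eq (p q : ℕ) :
    ((-1 : ℝ) ^ (p / 2 * (q / 2))) = (1 + x p + x q - x p * x q) / 2 := by
  rcases Nat.even_or_odd (p / 2) with hp | hp <;> rcases Nat.even_or_odd (q / 2) with hq | hq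
  · have h1 : Even (p / 2 * (q / 2)) := hp.mul_right _
    simp [x, hp.neg_one_pow, hq.neg_one_pow, h1.neg_one_pow]
  · have h1 : Even (p / 2 * (q / 2)) := hp.mul_right _
    simp [x, hp.neg_one_pow, hq.neg_one_pow, h1.neg_one_pow]
  · have h1 : Even (p / 2 * (q / 2)) := hq.mul_left _
    simp [x, hp.neg_one_pow, hq.neg_one_pow, h1.neg_one_pow]
  · have h1 : Odd (p / 2 * (q / 2)) := hp.mul hq
    simp [x, hp.neg_one_pow, hq.neg_one_pow, h1.neg_one_pow]
    norm_num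

lemma recip (p q : ℕ) (hp : Odd p) (hq : Odd q) :
    (jacobiSym p q : ℝ) = (1 + x p + x q - x p * x q) / 2 * (jacobiSym q p : ℝ) := by
  rw [jacobiSym.quadratic_reciprocity hp hq, ← sign_eq]
  push_cast
  ring

end BLR_

open BLR_ in
theorem p_BLR (h1 : T_BL) : T_BLR := by
  obtain ⟨B, hB, h⟩ := h1
  refine ⟨2 * B, by positivity, ?_⟩
  intro α β hα hβ hev z Y hz
  have hαx : ∀ n, |α n * x n| ≤ 1 := fun n => by rw [abs_mul, abs_x, mul_one]; exact hα n
  have hβx : ∀ n, |β n * x n| ≤ 1 := fun n => by rw [abs_mul, abs_x, mul_one]; exact hβ n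
  have e1 := h α β hα hβ z Y hz
  have e2 := h α (fun n => β n * x n) hα hβx z Y hz
  have e3 := h (fun n => α n * x n) β hαx hβ z Y hz
  have e4 := h (fun n => α n * x n) (fun n => β n * x n) hαx hβx z Y hz
  have key : ∑ p ∈ (Finset.range (Y + 1)).filter (fun p => p.Prime ∧ p ≠ 2 ∧ z < p),
      ∑ q ∈ (Finset.range (Y + 1)).filter (fun q => p ^ 4 < q ∧ p * q ≤ Y),
        β p * α q * (jacobiSym p q : ℝ) =
      ((∑ p ∈ (Finset.range (Y + 1)).filter (fun p => p.Prime ∧ p ≠ 2 ∧ z < p),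
      ∑ q ∈ (Finset.range (Y + 1)).filter (fun q => p ^ 4 < q ∧ p * q ≤ Y),
        β p * α q * (jacobiSym q p : ℝ)) +
      (∑ p ∈ (Finset.range (Y + 1)).filter (fun p => p.Prime ∧ p ≠ 2 ∧ z < p),
      ∑ q ∈ (Finset.range (Y + 1)).filter (fun q => p ^ 4 < q ∧ p * q ≤ Y),
        (β p * x p) * α q * (jacobiSym q p : ℝ)) +
      (∑ p ∈ (Finset.range (Y + 1)).filter (fun p => p.Prime ∧ p ≠ 2 ∧ z < p),
      ∑ q ∈ (Finset.range (Y + 1)).filter (fun q => p ^ 4 < q ∧ p * q ≤ Y),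
        β p * (α q * x q) * (jacobiSym q p : ℝ)) -
      (∑ p ∈ (Finset.range (Y + 1)).filter (fun p => p.Prime ∧ p ≠ 2 ∧ z < p),
      ∑ q ∈ (Finset.range (Y + 1)).filter (fun q => p ^ 4 < q ∧ p * q ≤ Y),
        (β p * x p) * (α q * x q) * (jacobiSym q p : ℝ))) / 2 := by
    rw [← Finset.sum_add_distrib, ← Finset.sum_add_distrib, ← Finset.sum_sub_distrib,
      Finset.sum_div]
    refine Finset.sum_congr rfl ?_
    intro p hp
    rw [← Finset.sum_add_distrib, ← Finset.sum_add_distrib, ← Finset.sum_sub_distrib,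
      Finset.sum_div]
    refine Finset.sum_congr rfl ?_
    intro q _
    rw [Finset.mem_filter] at hp
    have hpo : Odd p := hp.2.1.odd_of_ne_two hp.2.2.1
    rcases Nat.even_or_odd q with hq | hq
    · rw [hev q hq]; ring
    · rw [recip p q hpo hq]; ring
  rw [key]
  have e5 := abs_le.mp e1
  have e6 := abs_le.mp e2
  have e7 := abs_le.mp e3
  have e8 := abs_le.mp e4
  have e9 : 2 * B * Y / Real.sqrt z = 2 * (B * Y / Real.sqrt z) := by ring
  rw [e9, abs_le]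
  constructor
  · linarith [e5.1, e5.2, e6.1, e6.2, e7.1, e7.2, e8.1, e8.2]
  · linarith [e5.1, e5.2, e6.1, e6.2, e7.1, e7.2, e8.1, e8.2]

end Pool.Agent.QTw
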