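import Pool.Agent.QTw.Targets

set_option autoImplicit false

/-!
# CANON: the canonical unbalanced pair exists and is unique
-/

namespace Pool.Agent.QTw

namespace CANON_

theorem lt_pow4 {a : ℕ} (h : 2 ≤ a) : a < a ^ 4 := by
  calc a = a ^ 1 := (pow_one a).symm
    _ < a ^ 4 := Nat.pow_lt_pow_right (by omega) (by norm_num)

open Classical in
theorem mem_R {T : Type} {c : Finset (ℕ × T)} {x y r : ℕ × T} :
    r ∈ (c.erase x).erase y ↔ r ≠ y ∧ r ≠ x ∧ r ∈ c := by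
  rw [Finset.mem_erase, Finset.mem_erase]

open Classical in
/-- the conditions characterise the pair -/
theorem char {T : Type} {e : T → T → Prop} {z : ℕ} {c : Finset (ℕ × T)}
    (h2 : ∀ x ∈ c, 2 ≤ x.1) {x y : ℕ × T} (hx : x ∈ c) (hy : y ∈ c)
    (hU : UPair e z x y) (hP : CanonP e z ((c.erase x).erase y) x y.2)
    (hQ : CanonQ e z ((c.erase x).erase y) y x.2) :
    (∀ r ∈ c, ∀ r' ∈ c, UPair e z r' r → r.1 ≤ y.1) ∧ ∀ r ∈ c, UPair e z r y → x.1 ≤ r.1 := by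
  have hxy : x.1 < y.1 := (lt_pow4 (h2 x hx)).trans hU.2.2
  constructor
  · intro r hr r' hr' hrr
    by_contra hlt
    push Not at hlt
    have hrR : r ∈ (c.erase x).erase y := by
      refine mem_R.2 ⟨?_, ?_, hr⟩
      · rintro rfl; omega
      · rintro rfl; omega
    by_cases h1 : r' = x
    · subst h1
      exact hrr.1 (hQ.2.1 r hrR hlt)
    · by_cases h3 : r' = y
      · subst h3
        exact hQ.2.2 r hrR hrr
      · exact hQ.1 r hrR hlt r' (mem_R.2 ⟨h3, h1, hr'⟩) hrr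
  · intro r hr hry
    by_contra hlt
    push Not at hlt
    have hrR : r ∈ (c.erase x).erase y := by
      refine mem_R.2 ⟨?_, ?_, hr⟩
      · rintro rfl; omega
      · rintro rfl; omega
    exact hry.1 (hP r hrR hry.2.1 hlt)

end CANON_

open CANON_ in
theorem p_CANON : T_CANON := by
  classical
  intro T e z c h2 hinj hUnb
  obtain ⟨x0, hx0, y0, hy0, hU0⟩ := hUnb
  obtain ⟨y, hyS, hymax⟩ := Finset.exists_max_image
    (c.filter (fun y => ∃ x ∈ c, UPair e z x y)) (fun y => y.1)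
    ⟨y0, Finset.mem_filter.2 ⟨hy0, x0, hx0, hU0⟩⟩
  obtain ⟨hy, x1, hx1, hU1⟩ := Finset.mem_filter.1 hyS
  obtain ⟨x, hxS, hxmin⟩ := Finset.exists_min_image
    (c.filter (fun x => UPair e z x y)) (fun x => x.1) ⟨x1, Finset.mem_filter.2 ⟨hx1, hU1⟩⟩
  obtain ⟨hx, hU⟩ := Finset.mem_filter.1 hxS
  have hmax : ∀ r ∈ c, ∀ r' ∈ c, UPair e z r' r → r.1 ≤ y.1 := fun r hr r' hr' h =>
    hymax r (Finset.mem_filter.2 ⟨hr, r', hr', h⟩)
  have hmin : ∀ r ∈ c, UPair e z r y → x.1 ≤ r.1 := fun r hr h =>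
    hxmin r (Finset.mem_filter.2 ⟨hr, h⟩)
  refine ⟨(x, y), ⟨hx, hy, hU, ?_, ?_, ?_, ?_⟩, ?_⟩
  · intro r hrR hzr hrx
    by_contra hne
    have hr := (mem_R.1 hrR).2.2
    have hrx' : r.1 < x.1 := hrx
    have h4 : r.1 ^ 4 < x.1 ^ 4 := Nat.pow_lt_pow_left hrx' (by norm_num)
    have := hmin r hr ⟨hne, hzr, h4.trans hU.2.2⟩
    omega
  · intro r hrR hyr r' hr'R hrr
    have := hmax r (mem_R.1 hrR).2.2 r' (mem_R.1 hr'R).2.2 hrr
    have hyr' : y.1 < r.1 := hyr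
    omega
  · intro r hrR hyr
    by_contra hne
    have hyr' : y.1 < r.1 := hyr
    have := hmax r (mem_R.1 hrR).2.2 x hx ⟨hne, hU.2.1, hU.2.2.trans hyr'⟩
    omega
  · intro r hrR hyr
    have h1 := hmax r (mem_R.1 hrR).2.2 y hy hyr
    have h3 := hyr.2.2
    have h4 := lt_pow4 (h2 y hy)
    have h5 : y.1 ^ 4 < r.1 := h3
    omega
  · rintro ⟨x', y'⟩ ⟨hx', hy', hU', hP', hQ'⟩
    obtain ⟨k1, k2⟩ := char h2 hx' hy' hU' hP' hQ'
    have hyy : y' = y := by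
      refine hinj _ hy' _ hy ?_
      have a1 : y'.1 ≤ y.1 := hmax y' hy' x' hx' hU'
      have a2 : y.1 ≤ y'.1 := k1 y hy x hx hU
      exact le_antisymm a1 a2
    have hU'' : UPair e z x' y := by rw [← hyy]; exact hU'
    have hxx : x' = x := by
      refine hinj _ hx' _ hx ?_
      have a1 : x.1 ≤ x'.1 := hmin x' hx' hU''
      have a2 : x'.1 ≤ x.1 := k2 x hx (by show UPair e z x y'; rw [hyy]; exact hU)
      exact le_antisymm a2 a1
    rw [hyy, hxx]

end Pool.Agent.QTw
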