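import Pool.Agent.QTw.Targets

set_option autoImplicit false

/-!
# COV: every balanced configuration with support `I` fits some data
-/

namespace Pool.Agent.QTw

namespace COV_

theorem blk_mono {p q : ℕ} (h : p ≤ q) : blk p ≤ blk q :=
  Nat.log_mono_right (Nat.log_mono_right h)

theorem blk_le {p q : ℕ} (hq : 2 ≤ q) (h : p ≤ q ^ 16) : blk p ≤ blk q + 1 := by
  unfold blk
  have h1 : 1 ≤ Nat.log 2 q := Nat.log_pos (by norm_num) hq
  have h2 : q < 2 ^ (Nat.log 2 q + 1) := Nat.lt_pow_succ_log_self (by norm_num) q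
  have h3 : Nat.log 2 p < 16 * (Nat.log 2 q + 1) := by
    rcases Nat.eq_zero_or_pos p with h0 | h0
    · subst h0
      simp
    · refine Nat.log_lt_of_lt_pow (by omega) ?_
      calc p ≤ q ^ 16 := h
        _ < (2 ^ (Nat.log 2 q + 1)) ^ 16 := Nat.pow_lt_pow_left h2 (by norm_num)
        _ = 2 ^ (16 * (Nat.log 2 q + 1)) := by rw [← pow_mul, mul_comm]
  have h4 : Nat.log 2 q < 16 ^ (Nat.log 16 (Nat.log 2 q) + 1) :=
    Nat.lt_pow_succ_log_self (by norm_num) _
  have h5 : Nat.log 2 p < 16 ^ (Nat.log 16 (Nat.log 2 q) + 2) := by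
    calc Nat.log 2 p < 16 * (Nat.log 2 q + 1) := h3
      _ ≤ 16 * 16 ^ (Nat.log 16 (Nat.log 2 q) + 1) := Nat.mul_le_mul_left _ h4
      _ = 16 ^ (Nat.log 16 (Nat.log 2 q) + 2) := by rw [pow_succ _ (_ + 1), mul_comm]
  rcases Nat.eq_zero_or_pos (Nat.log 2 p) with h0 | h0
  · rw [h0]
    simp
  · have := Nat.log_lt_of_lt_pow (b := 16) (by omega) h5
    omega

theorem mem_rtypes {T : Type} (z : ℕ) (c : Finset (ℕ × T)) (t : T) :
    t ∈ rtypes z c ↔ ∃ x ∈ c, z < x.1 ∧ x.2 = t := by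
  classical
  unfold rtypes
  rw [Finset.mem_image]
  constructor
  · rintro ⟨x, hx, rfl⟩
    exact ⟨x, (Finset.mem_filter.1 hx).1, (Finset.mem_filter.1 hx).2, rfl⟩
  · rintro ⟨x, hx, hz, rfl⟩
    exact ⟨x, Finset.mem_filter.2 ⟨hx, hz⟩, rfl⟩

end COV_

open COV_ in
theorem p_COV : T_COV := by
  classical
  intro ι _ _ I N z X c hc hUnb hI hsub hsm
  have hc1 := Finset.mem_filter.1 hc
  have hcX : ∀ x ∈ c, x.1 ≤ X := fun x hx => by
    have := Finset.mem_product.1 (Finset.mem_powerset.1 hc1.1 hx)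
    have := Finset.mem_range.1 this.1
    omega
  have hc2 : ∀ x ∈ c, 2 ≤ x.1 := fun x hx => (hc1.2.1 x hx).1.two_le
  have hmem : ∀ t, t ∈ rtypes z c ↔ ∃ x ∈ c, z < x.1 ∧ x.2 = t := mem_rtypes z c
  set L : Finset (ι × Finset ι) :=
    (rtypes z c).filter (fun t => ∃ t' ∈ rtypes z c, ¬ (lnk t t' ↔ lnk t' t)) with hL
  set k : ι × Finset ι → ℕ := fun t => sInf {b | ∃ x ∈ c, z < x.1 ∧ x.2 = t ∧ blk x.1 = b}
    with hk
  set S : ι → Finset ι := fun i =>
    if h : ∃ x ∈ c, z < x.1 ∧ x.2.1 = i ∧ x.2 ∉ L then h.choose.2.2 else ∅ with hS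
  refine ⟨L, k, S, ?_, ?_⟩
  · intro t
    rcases Set.eq_empty_or_nonempty {b | ∃ x ∈ c, z < x.1 ∧ x.2 = t ∧ blk x.1 = b} with he | hne
    · rw [hk]
      simp only
      rw [he, Nat.sInf_empty]
      exact Nat.zero_le _
    · obtain ⟨x, hx, -, -, hb⟩ := Nat.sInf_mem hne
      rw [hk]
      simp only
      rw [← hb]
      exact blk_mono (hcX x hx)
  · intro x hx
    rcases Nat.lt_or_ge z x.1 with hz | hz
    swap
    · exact Or.inl ⟨hz, hsm x hx hz⟩
    by_cases hxL : x.2 ∈ L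
    · refine Or.inr (Or.inl ⟨hz, hxL, ?_⟩)
      obtain ⟨-, t', ht', hlnk⟩ := Finset.mem_filter.1 hxL
      obtain ⟨y, hy, hzy, rfl⟩ := (hmem t').1 ht'
      have hbal : ∀ x1 ∈ c, z < x1.1 → x1.2 = x.2 → y.1 ≤ x1.1 ^ 4 ∧ x1.1 ≤ y.1 ^ 4 := by
        intro x1 hx1 hz1 ht1
        constructor
        · by_contra h
          push Not at h
          exact hUnb ⟨x1, hx1, y, hy, by rw [ht1]; exact hlnk, hz1, h⟩
        · by_contra h
          push Not at h
          refine hUnb ⟨y, hy, x1, hx1, ?_, hzy, h⟩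
          rw [ht1]
          intro hh
          exact hlnk hh.symm
      have hne : {b | ∃ x1 ∈ c, z < x1.1 ∧ x1.2 = x.2 ∧ blk x1.1 = b}.Nonempty :=
        ⟨blk x.1, x, hx, hz, rfl, rfl⟩
      obtain ⟨x2, hx2, hz2, ht2, hb2⟩ := Nat.sInf_mem hne
      have hle : k x.2 ≤ blk x.1 := Nat.sInf_le ⟨x, hx, hz, rfl, rfl⟩
      have hk2 : k x.2 = blk x2.1 := hb2.symm
      have h1 := (hbal x hx hz rfl).2
      have h2 := (hbal x2 hx2 hz2 ht2).1
      have h3 : x.1 ≤ x2.1 ^ 16 := by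
        calc x.1 ≤ y.1 ^ 4 := h1
          _ ≤ (x2.1 ^ 4) ^ 4 := Nat.pow_le_pow_left h2 4
          _ = x2.1 ^ 16 := by rw [← pow_mul]
      have h4 := blk_le (hc2 x2 hx2) h3
      omega
    · refine Or.inr (Or.inr ⟨hz, ?_⟩)
      have hex : ∃ x' ∈ c, z < x'.1 ∧ x'.2.1 = x.2.1 ∧ x'.2 ∉ L := ⟨x, hx, hz, rfl, hxL⟩
      have hSx : S x.2.1 = hex.choose.2.2 := by
        rw [hS]
        simp only
        rw [dif_pos hex]
      obtain ⟨hx', hz', hi', hL'⟩ := hex.choose_spec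
      rw [hSx]
      obtain ⟨x', hx'def⟩ : ∃ x', x' = hex.choose := ⟨_, rfl⟩
      rw [← hx'def] at hx' hz' hi' hL' ⊢
      have hnl : ∀ w ∈ c, z < w.1 → w.2 ∉ L → ∀ t' ∈ rtypes z c, (lnk w.2 t' ↔ lnk t' w.2) := by
        intro w hw hzw hwL t' ht'
        by_contra h
        exact hwL (Finset.mem_filter.2 ⟨(hmem _).2 ⟨w, hw, hzw, rfl⟩, t', ht', h⟩)
      ext j
      by_cases hj : j ∈ I.erase x.2.1
      · obtain ⟨t'', ht'', hjt⟩ : ∃ t'' ∈ rtypes z c, t''.1 = j := by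
          have := Finset.mem_of_mem_erase hj
          rw [← hI, Finset.mem_image] at this
          exact this
        have a1 := hnl x hx hz hxL t'' ht''
        have a2 := hnl x' hx' hz' hL' t'' ht''
        unfold lnk at a1 a2
        rw [hjt] at a1 a2
        rw [hi'] at a2
        exact a1.trans a2.symm
      · constructor
        · intro h
          exact absurd (hsub x hx hz h) hj
        · intro h
          have := hsub x' hx' hz' h
          rw [hi'] at this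
          exact absurd this hj

end Pool.Agent.QTw
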