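import Pool.Agent.QTw.Targets

/-!
# DESC: Galois descent
-/

open Polynomial

namespace Pool.Agent.QTw

namespace DESC_

variable {E : Type} [Field E] [CharZero E]

/-- An element of the compositum of `E` and the algebraic numbers lies in the field generated over
`E` by finitely many algebraic numbers. -/
theorem mem_adjoin {γ : AlgebraicClosure E}
    (h : γ ∈ IntermediateField.adjoin (algebraicClosure ℚ (AlgebraicClosure E))
      (Set.range (algebraMap E (AlgebraicClosure E)))) :
    γ ∈ IntermediateField.adjoin E {z : AlgebraicClosure E | IsAlgebraic ℚ z} := by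
  induction h using IntermediateField.adjoin_induction with
  | mem x hx =>
    obtain ⟨e, rfl⟩ := hx
    exact IntermediateField.algebraMap_mem _ e
  | algebraMap x =>
    refine IntermediateField.subset_adjoin _ _ ?_
    exact mem_algebraicClosure_iff.1 x.2
  | add x y _ _ hx hy => exact add_mem hx hy
  | inv x _ hx => exact inv_mem hx
  | mul x y _ _ hx hy => exact mul_mem hx hy

/-- A finite Galois extension of `E` generated by algebraic numbers. -/
theorem exists_field {γ : AlgebraicClosure E}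
    (h : γ ∈ IntermediateField.adjoin (algebraicClosure ℚ (AlgebraicClosure E))
      (Set.range (algebraMap E (AlgebraicClosure E)))) :
    ∃ S : Set (AlgebraicClosure E), (∀ z ∈ S, IsAlgebraic ℚ z) ∧
      γ ∈ IntermediateField.adjoin E S ∧ FiniteDimensional E (IntermediateField.adjoin E S) ∧
      IsGalois E (IntermediateField.adjoin E S) := by
  obtain ⟨T, hT, hγ⟩ := IntermediateField.exists_finset_of_mem_adjoin (mem_adjoin h)
  set P₀ : ℚ[X] := ∏ a ∈ T, minpoly ℚ a with hP₀
  have hP₀0 : P₀ ≠ 0 := by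
    rw [hP₀, Finset.prod_ne_zero_iff]
    intro a ha
    exact minpoly.ne_zero (hT ha : IsAlgebraic ℚ a).isIntegral
  set P : E[X] := P₀.map (algebraMap ℚ E) with hP
  have hP0 : P ≠ 0 := (Polynomial.map_ne_zero_iff (algebraMap ℚ E).injective).2 hP₀0
  have hsp : (P.map (algebraMap E (AlgebraicClosure E))).Splits := IsAlgClosed.splits _
  have hspl : P.IsSplittingField E (IntermediateField.adjoin E (P.rootSet (AlgebraicClosure E))) :=
    IntermediateField.adjoin_rootSet_isSplittingField hsp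
  refine ⟨P.rootSet (AlgebraicClosure E), ?_, ?_, ?_, ?_⟩
  · intro z hz
    rw [Polynomial.mem_rootSet] at hz
    refine ⟨P₀, hP₀0, ?_⟩
    rw [← hz.2, hP, Polynomial.aeval_map_algebraMap]
  · refine IntermediateField.adjoin.mono E _ _ ?_ hγ
    intro a ha
    rw [Polynomial.mem_rootSet]
    refine ⟨hP0, ?_⟩
    rw [hP, Polynomial.aeval_map_algebraMap, hP₀, map_prod]
    exact Finset.prod_eq_zero ha (minpoly.aeval ℚ a)
  · exact Polynomial.IsSplittingField.finiteDimensional _ P
  · have h1 : Normal E (IntermediateField.adjoin E (P.rootSet (AlgebraicClosure E))) :=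
      Normal.of_isSplittingField P
    exact { }

/-- The descent in a finite Galois extension generated by algebraic numbers. -/
theorem main (hE : ∀ z : E, IsAlgebraic ℚ z → ∃ q : ℚ, z = q) {M : Type} [Field M] [CharZero M]
    [Algebra E M] [FiniteDimensional E M] [IsGalois E M] (S : Set M)
    (hS : ∀ σ τ : M ≃ₐ[E] M, (∀ z ∈ S, σ z = τ z) → σ = τ)
    (hS' : ∀ z ∈ S, IsIntegral ℚ z) (b : E) (γ : M) (hb : b ≠ 0)
    (hγ : γ ^ 2 = algebraMap E M b) : ∃ δ : ℚ, δ ≠ 0 ∧ ∃ β : E, b = δ * β ^ 2 := by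
  classical
  have hγ0 : γ ≠ 0 := by
    rintro rfl
    rw [zero_pow two_ne_zero] at hγ
    exact hb ((map_eq_zero _).1 hγ.symm)
  -- the sign character
  have hsg : ∀ σ : M ≃ₐ[E] M, σ γ = γ ∨ σ γ = -γ := by
    intro σ
    have h1 : (σ γ) ^ 2 = γ ^ 2 := by
      rw [← map_pow, hγ, AlgEquiv.commutes]
    exact sq_eq_sq_iff_eq_or_eq_neg.1 h1
  let ε : (M ≃ₐ[E] M) → M := fun σ => if σ γ = γ then 1 else -1
  have hε : ∀ σ : M ≃ₐ[E] M, σ γ = ε σ * γ := by
    intro σ
    by_cases h1 : σ γ = γ
    · simp [ε, h1]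
    · have h2 := (hsg σ).resolve_left h1
      simp only [ε, if_neg h1]
      rw [h2]
      ring
  have hε1 : ∀ σ, ε σ * ε σ = 1 := by
    intro σ
    by_cases h1 : σ γ = γ <;> simp [ε, h1]
  have hεσ : ∀ σ τ : M ≃ₐ[E] M, σ (ε τ) = ε τ := by
    intro σ τ
    by_cases h1 : τ γ = γ <;> simp [ε, h1]
  have hεm : ∀ σ τ : M ≃ₐ[E] M, ε (σ * τ) = ε σ * ε τ := by
    intro σ τ
    have h1 : (σ * τ) γ = ε σ * ε τ * γ := by
      rw [AlgEquiv.mul_apply, hε τ, map_mul, hεσ, hε σ]
      ring
    rw [hε (σ * τ)] at h1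
    exact mul_right_cancel₀ hγ0 h1
  -- the subfield of the algebraic elements
  let L := integralClosure ℚ M
  let χ : (M ≃ₐ[E] M) → (L →* M) := fun σ =>
    ((σ : M →ₐ[E] M) : M →* M).comp (L.val : L →* M)
  have hχ : ∀ σ (z : L), χ σ z = σ (z : M) := fun σ z => rfl
  have hinj : Function.Injective χ := by
    intro σ τ h1
    refine hS σ τ fun z hz => ?_
    have h2 : IsIntegral ℚ z := hS' z hz
    exact DFunLike.congr_fun h1 ⟨z, h2⟩
  have hli := (linearIndependent_monoidHom L M).comp χ hinj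
  obtain ⟨l, hl⟩ : ∃ l : L, ∑ σ : M ≃ₐ[E] M, ε σ * σ (l : M) ≠ 0 := by
    by_contra hcon
    push Not at hcon
    have h1 := Fintype.linearIndependent_iff.1 hli ε (by
      funext l
      rw [Finset.sum_apply]
      exact hcon l) 1
    have h2 := hε1 1
    rw [h1] at h2
    simp at h2
  set s : M := ∑ σ : M ≃ₐ[E] M, ε σ * σ (l : M) with hs
  have hsσ : ∀ σ : M ≃ₐ[E] M, σ s = ε σ * s := by
    intro σ
    rw [hs, map_sum, Finset.mul_sum]
    rw [← Equiv.sum_comp (Equiv.mulLeft σ) (fun τ => ε σ * (ε τ * τ (l : M)))]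
    refine Finset.sum_congr rfl fun τ _ => ?_
    simp only [Equiv.coe_mulLeft]
    rw [map_mul, hεσ, hεm, AlgEquiv.mul_apply]
    linear_combination (-(ε τ * σ (τ (l : M)))) * hε1 σ
  have hsalg : IsIntegral ℚ s := by
    rw [hs]
    refine IsIntegral.sum _ fun σ _ => ?_
    refine IsIntegral.mul ?_ ?_
    · by_cases h1 : σ γ = γ
      · simp only [ε, if_pos h1]
        exact isIntegral_one
      · simp only [ε, if_neg h1]
        exact isIntegral_one.neg
    · have h1 : IsIntegral ℚ (l : M) := l.2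
      have h2 := h1.map ((σ : M →ₐ[E] M).restrictScalars ℚ)
      exact h2
  obtain ⟨e, he⟩ := (IsGalois.mem_range_algebraMap_iff_fixed (F := E) (s ^ 2)).2 (by
    intro σ
    rw [map_pow, hsσ, mul_pow, sq (ε σ), hε1, one_mul])
  obtain ⟨t, ht⟩ := (IsGalois.mem_range_algebraMap_iff_fixed (F := E) (γ * s)).2 (by
    intro σ
    rw [map_mul, hsσ, hε]
    linear_combination (γ * s) * hε1 σ)
  obtain ⟨q, rfl⟩ := hE e (by
    have h1 : IsIntegral ℚ (algebraMap E M e) := by
      rw [he]
      exact hsalg.pow 2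
    exact (isIntegral_algebraMap_iff (algebraMap E M).injective).1 h1 |>.isAlgebraic)
  have hq : q ≠ 0 := by
    rintro rfl
    rw [Rat.cast_zero, map_zero] at he
    exact hl (pow_eq_zero_iff two_ne_zero |>.1 he.symm)
  refine ⟨q⁻¹, inv_ne_zero hq, t, ?_⟩
  have hq' : (q : E) ≠ 0 := Rat.cast_ne_zero.2 hq
  have h1 : b * q = t ^ 2 := by
    apply (algebraMap E M).injective
    rw [map_mul, map_pow, ht, ← hγ, he]
    ring
  rw [← h1, Rat.cast_inv]
  field_simp

end DESC_

theorem p_DESC : T_DESC := by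
  intro E _ _ hE b γ hb hγ hγ2
  obtain ⟨S, hS1, hS2, hS3, hS4⟩ := DESC_.exists_field hγ
  let S' : Set (IntermediateField.adjoin E S) := {z | (z : AlgebraicClosure E) ∈ S}
  refine DESC_.main hE (M := IntermediateField.adjoin E S) S' ?_ ?_ b ⟨γ, hS2⟩ hb ?_
  · intro σ τ h
    have h1 : (σ : IntermediateField.adjoin E S →ₐ[E] IntermediateField.adjoin E S) = τ := by
      refine IntermediateField.adjoin_algHom_ext E fun x hx => ?_
      exact h ⟨x, _⟩ hx
    exact AlgEquiv.coe_toAlgHom_injective h1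
  · intro z hz
    have h1 : IsIntegral ℚ (z : AlgebraicClosure E) := (hS1 _ hz).isIntegral
    exact (isIntegral_algHom_iff ((IntermediateField.adjoin E S).val.restrictScalars ℚ)
      Subtype.val_injective).1 h1
  · apply Subtype.ext
    exact hγ2

end Pool.Agent.QTw
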