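import Mathlib
import Pool.Agent.QTw.Targets
import Pool.Agent.FD.F0

open Polynomial

namespace Pool.Agent.QTw

namespace ELS_

/-- the set of radicands -/
def SS (g : ℕ) : Finset ℤ :=
  {13, 17, 221} ∪ (Finset.range (g - 2)).image (fun k : ℕ => -((k : ℤ) + 1))

noncomputable def fS (S : Finset ℤ) : ℤ[X] := ∏ a ∈ S, (X ^ 2 - C a)

lemma card_SS (g : ℕ) (hg : 2 ≤ g) : (SS g).card = g + 1 := by
  unfold SS
  rw [Finset.card_union_of_disjoint]
  · rw [Finset.card_image_of_injective _ (by intro a b h; simpa using h), Finset.card_range]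
    have : ({13, 17, 221} : Finset ℤ).card = 3 := by decide
    omega
  · rw [Finset.disjoint_left]
    intro a ha hb
    rw [Finset.mem_image] at hb
    obtain ⟨k, _, rfl⟩ := hb
    simp only [Finset.mem_insert, Finset.mem_singleton] at ha
    omega

lemma natDegree_fS (S : Finset ℤ) : (fS S).natDegree = 2 * S.card := by
  unfold fS
  rw [natDegree_prod_of_monic _ _ (fun a _ => monic_X_pow_sub_C a two_ne_zero)]
  simp only [natDegree_X_pow_sub_C]
  rw [Finset.sum_const, smul_eq_mul, mul_comm]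

lemma map_fS (S : Finset ℤ) : (fS S).map (Int.castRingHom ℚ) = ∏ a ∈ S, (X ^ 2 - C (a : ℚ)) := by
  unfold fS
  rw [Polynomial.map_prod]
  simp

lemma not_sq {g : ℕ} {a : ℤ} (ha : a ∈ SS g) (b : ℚ) : b ^ 2 ≠ (a : ℚ) := by
  unfold SS at ha
  rw [Finset.mem_union] at ha
  rcases ha with ha | ha
  · intro h
    have hsq : IsSquare (a : ℚ) := ⟨b, by rw [← h]; ring⟩
    rw [Rat.isSquare_intCast_iff] at hsq
    obtain ⟨r, hr⟩ := hsq
    simp only [Finset.mem_insert, Finset.mem_singleton] at ha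
    have hr' : r.natAbs * r.natAbs = a.natAbs := by
      rw [hr, Int.natAbs_mul]
    rcases ha with rfl | rfl | rfl
    · have : r.natAbs < 4 := by
        by_contra hc
        push Not at hc
        have : 16 ≤ r.natAbs * r.natAbs := Nat.mul_le_mul hc hc
        simp at hr'
        omega
      interval_cases h : r.natAbs <;> simp at hr'
    · have : r.natAbs < 5 := by
        by_contra hc
        push Not at hc
        have : 25 ≤ r.natAbs * r.natAbs := Nat.mul_le_mul hc hc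
        simp at hr'
        omega
      interval_cases h : r.natAbs <;> simp at hr'
    · have : r.natAbs < 15 := by
        by_contra hc
        push Not at hc
        have : 225 ≤ r.natAbs * r.natAbs := Nat.mul_le_mul hc hc
        simp at hr'
        omega
      interval_cases h : r.natAbs <;> simp at hr'
  · rw [Finset.mem_image] at ha
    obtain ⟨k, _, rfl⟩ := ha
    intro h
    have : (0 : ℚ) ≤ b ^ 2 := sq_nonneg b
    rw [h] at this
    push_cast at this
    have hk : (0 : ℚ) ≤ k := Nat.cast_nonneg k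
    linarith

lemma irr {g : ℕ} {a : ℤ} (ha : a ∈ SS g) : Irreducible (X ^ 2 - C (a : ℚ) : ℚ[X]) :=
  X_pow_sub_C_irreducible_of_prime Nat.prime_two (not_sq ha)

lemma cop {a b : ℤ} (h : a ≠ b) : IsCoprime (X ^ 2 - C (a : ℚ) : ℚ[X]) (X ^ 2 - C (b : ℚ)) := by
  have hab : (b : ℚ) - a ≠ 0 := sub_ne_zero.2 (by exact_mod_cast h.symm)
  refine ⟨C ((b : ℚ) - a)⁻¹, -C ((b : ℚ) - a)⁻¹, ?_⟩
  have : C ((b : ℚ) - a)⁻¹ * (X ^ 2 - C (a : ℚ)) + -C ((b : ℚ) - a)⁻¹ * (X ^ 2 - C (b : ℚ)) =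
      C (((b : ℚ) - a)⁻¹ * ((b : ℚ) - a)) := by
    rw [C_mul, C_sub]
    ring
  rw [this, inv_mul_cancel₀ hab, C_1]

lemma sep (g : ℕ) : ((fS (SS g)).map (Int.castRingHom ℚ)).Separable := by
  rw [map_fS]
  apply separable_prod'
  · intro a _ b _ hab
    exact cop hab
  · intro a ha
    exact (irr ha).separable

lemma aeval_root {K : Type} [Field K] [CharZero K] {S : Finset ℤ} {a : ℤ} (ha : a ∈ S) {θ : K}
    (h : θ ^ 2 = (a : K)) : aeval θ (fS S) = 0 := by
  unfold fS
  rw [map_prod]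
  refine Finset.prod_eq_zero ha ?_
  simp [h]

lemma aeval_der {K : Type} [Field K] [CharZero K] (g : ℕ) {θ : K}
    (h : aeval θ (fS (SS g)) = 0) : aeval θ (derivative (fS (SS g))) ≠ 0 := by
  have h1 := (sep g).eval₂_derivative_ne_zero (algebraMap ℚ K) (x := θ) (by
    rw [eval₂_map]
    have : ((algebraMap ℚ K).comp (Int.castRingHom ℚ)) = algebraMap ℤ K := by ext; simp
    rw [this]
    exact h)
  rw [derivative_map, eval₂_map] at h1
  have : ((algebraMap ℚ K).comp (Int.castRingHom ℚ)) = algebraMap ℤ K := by ext; simp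
  rw [this] at h1
  exact h1

lemma hasPoint {E K : Type} [Field E] [Field K] (h : Nonempty (E →+* K)) : HasPoint E K := by
  obtain ⟨φ⟩ := h
  exact ⟨(HahnSeries.C : K →+* LaurentSeries K).comp φ⟩

lemma e17 : ((17 : ℤ) : ZMod 13) = 2 * 2 := by decide

lemma n17' : ((17 : ℤ) : ZMod 13) ≠ 0 := by decide

lemma e13 : ((13 : ℤ) : ZMod 17) = 8 * 8 := by decide

lemma n13' : ((13 : ℤ) : ZMod 17) ≠ 0 := by decide

lemma local_root (g p : ℕ) [Fact p.Prime] : ∃ θ : ℚ_[p], ∃ a ∈ SS g, θ ^ 2 = (a : ℚ_[p]) := by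
  have m13 : (13 : ℤ) ∈ SS g := by simp [SS]
  have m17 : (17 : ℤ) ∈ SS g := by simp [SS]
  have m221 : (221 : ℤ) ∈ SS g := by simp [SS]
  by_cases h2 : p = 2
  · subst h2
    obtain ⟨x, hx⟩ := FD.F0_.exists_sqrt_two 17 (by norm_num)
    exact ⟨x, 17, m17, hx⟩
  have key : ∃ a ∈ SS g, IsSquare ((a : ℤ) : ZMod p) ∧ ((a : ℤ) : ZMod p) ≠ 0 := by
    have hpp : p.Prime := Fact.out
    by_cases h13 : p = 13
    · subst h13
      exact ⟨17, m17, ⟨2, e17⟩, n17'⟩
    by_cases h17 : p = 17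
    · subst h17
      exact ⟨13, m13, ⟨8, e13⟩, n13'⟩
    have n13 : ((13 : ℤ) : ZMod p) ≠ 0 := by
      intro h
      have : p ∣ 13 := by
        rw [← ZMod.natCast_eq_zero_iff]
        exact_mod_cast h
      exact h13 ((Nat.prime_dvd_prime_iff_eq hpp (by norm_num)).1 this)
    have n17 : ((17 : ℤ) : ZMod p) ≠ 0 := by
      intro h
      have : p ∣ 17 := by
        rw [← ZMod.natCast_eq_zero_iff]
        exact_mod_cast h
      exact h17 ((Nat.prime_dvd_prime_iff_eq hpp (by norm_num)).1 this)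
    by_cases s13 : IsSquare ((13 : ℤ) : ZMod p)
    · exact ⟨13, m13, s13, n13⟩
    by_cases s17 : IsSquare ((17 : ℤ) : ZMod p)
    · exact ⟨17, m17, s17, n17⟩
    have e : ((221 : ℤ) : ZMod p) = ((13 : ℤ) : ZMod p) * ((17 : ℤ) : ZMod p) := by norm_num
    have n221 : ((221 : ℤ) : ZMod p) ≠ 0 := by rw [e]; exact mul_ne_zero n13 n17
    refine ⟨221, m221, ?_, n221⟩
    rw [← quadraticChar_one_iff_isSquare n221, e, map_mul,
      (quadraticChar_neg_one_iff_not_isSquare).mpr s13,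
      (quadraticChar_neg_one_iff_not_isSquare).mpr s17]
    norm_num
  obtain ⟨a, ha, hs, hn⟩ := key
  obtain ⟨x, hx⟩ := FD.F0_.exists_sqrt_odd p h2 a hs hn
  exact ⟨x, a, ha, hx⟩

end ELS_

open ELS_ in
theorem p_ELS (h1 : T_EMB) (h2 : T_EXFF) (h3 : T_PTR) (h4 : T_PTP) : T_ELS := by
  intro g hg
  have hdeg : (fS (SS g)).natDegree = 2 * g + 2 := by
    rw [natDegree_fS, card_SS g hg]; ring
  have hsf : Squarefree ((fS (SS g)).map (Int.castRingHom ℚ)) := (sep g).squarefree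
  refine ⟨fS (SS g), hdeg, hsf, ?_, ?_⟩
  · intro h hh hdvd
    rw [map_fS] at hdvd
    obtain ⟨a, ha, hd⟩ := (hh.prime.dvd_finsetProd_iff _).1 hdvd
    have := (hh.dvd_irreducible_iff_associated (irr ha)).1 hd
    have hd1 : h.natDegree = (X ^ 2 - C (a : ℚ) : ℚ[X]).natDegree :=
      le_antisymm (natDegree_le_of_dvd this.dvd (irr ha).ne_zero)
        (natDegree_le_of_dvd this.symm.dvd hh.ne_zero)
    rw [hd1, natDegree_X_pow_sub_C]
    decide
  · intro d hd
    obtain ⟨F, _, _, x, y, hF⟩ := h2 (fS (SS g)) d hd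
    refine ⟨F, inferInstance, inferInstance, x, y, hF, ?_, ?_⟩
    · have hθ : (√(13 : ℝ)) ^ 2 = ((13 : ℤ) : ℝ) := by
        rw [Real.sq_sqrt (by norm_num)]; norm_num
      have hr := aeval_root (S := SS g) (a := 13) (by simp [SS]) hθ
      obtain ⟨ξ, η, hξ, hη⟩ := h3 (fS (SS g)) d _ hd hr (aeval_der g hr)
      exact hasPoint (h1 F ℝ x y ξ η (fS (SS g)) d hd (by omega) hsf hF hξ hη)
    · intro p hp
      obtain ⟨θ, a, ha, hθ⟩ := local_root g p
      have hr := aeval_root ha hθ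
      obtain ⟨ξ, η, hξ, hη⟩ := h4 (fS (SS g)) d p θ hd hr (aeval_der g hr)
      exact hasPoint (h1 F ℚ_[p] x y ξ η (fS (SS g)) d hd (by omega) hsf hF hξ hη)

end Pool.Agent.QTw
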