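import Pool.Agent.QTw.Targets

open Polynomial

namespace Pool.Agent.QTw

namespace EVEN_

variable {K : Type} [Field K] [CharZero K]

lemma coef_le (w : Valuation K (WithZero (Multiplicative ℤ)))
    (hw : ∀ q : ℚ, q ≠ 0 → w (q : K) = 1) (q : ℚ) : w (algebraMap ℚ K q) ≤ 1 := by
  by_cases hq : q = 0
  · simp [hq]
  · rw [eq_ratCast]; exact (hw q hq).le

lemma le_one (w : Valuation K (WithZero (Multiplicative ℤ)))
    (hw : ∀ q : ℚ, q ≠ 0 → w (q : K) = 1) (x : K) (hx : w x ≤ 1) (P : ℚ[X]) :
    w (aeval x P) ≤ 1 := by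
  rw [aeval_eq_sum_range]
  refine Valuation.map_sum_le w (fun i _ => ?_)
  rw [Algebra.smul_def, map_mul, map_pow]
  exact mul_le_one' (coef_le w hw _) (pow_le_one' hx i)

lemma pow_eq (w : Valuation K (WithZero (Multiplicative ℤ)))
    (hw : ∀ q : ℚ, q ≠ 0 → w (q : K) = 1) (x : K) (hx : 1 < w x) (P : ℚ[X]) (hP : P ≠ 0) :
    w (aeval x P) = w x ^ P.natDegree := by
  have hx0 : w x ≠ 0 := (lt_trans zero_lt_one hx).ne'
  rw [aeval_eq_sum_range, Finset.sum_range_succ]
  have h2 : w (P.coeff P.natDegree • x ^ P.natDegree) = w x ^ P.natDegree := by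
    rw [Algebra.smul_def, map_mul, map_pow, eq_ratCast, hw _ (by simpa using hP), one_mul]
  have h1 : w (∑ i ∈ Finset.range P.natDegree, P.coeff i • x ^ i) < w x ^ P.natDegree := by
    refine Valuation.map_sum_lt w (pow_ne_zero _ hx0) (fun i hi => ?_)
    rw [Algebra.smul_def, map_mul, map_pow]
    calc w (algebraMap ℚ K (P.coeff i)) * w x ^ i ≤ 1 * w x ^ i :=
          mul_le_mul_left (coef_le w hw _) _
      _ = w x ^ i := one_mul _
      _ < w x ^ P.natDegree := pow_lt_pow_right₀ hx (Finset.mem_range.1 hi)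
  rw [← h2] at h1
  rw [Valuation.map_add_eq_of_lt_right w h1, h2]

end EVEN_

theorem p_EVEN : T_EVEN := by
  intro K _ _ x y d g h hd hx heq hcop hge hhe hg hh w hw
  have hx0 : x ≠ 0 := by
    rintro rfl
    exact hx (isAlgebraic_zero)
  rcases lt_or_ge 1 (w x) with h1 | h1
  · obtain ⟨r, hr⟩ := hge
    refine ⟨x ^ r, pow_ne_zero _ hx0, ?_⟩
    rw [EVEN_.pow_eq w hw x h1 g hg, hr, map_pow, ← pow_mul, mul_two]
  · have hag : w (aeval x g) ≤ 1 := EVEN_.le_one w hw x h1 g
    have hah : w (aeval x h) ≤ 1 := EVEN_.le_one w hw x h1 h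
    obtain ⟨a, b, hab⟩ := hcop
    rcases eq_or_lt_of_le hag with h2 | h2
    · exact ⟨1, one_ne_zero, by rw [h2, map_one, one_pow]⟩
    · rcases eq_or_lt_of_le hah with h3 | h3
      · refine ⟨y, ?_, ?_⟩
        · rintro rfl
          have h4 : aeval x (g * h) = 0 := by rw [← heq]; ring
          exact (mul_ne_zero hg hh) ((transcendental_iff.1 hx) _ h4)
        · have h4 := congrArg w heq
          rw [map_mul, map_mul, map_mul, h3, mul_one, map_pow] at h4
          rw [← h4]
          have h5 : w (d : K) = 1 := by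
            have := hw (d : ℚ) (by exact_mod_cast hd)
            rwa [Rat.cast_intCast] at this
          rw [h5, one_mul]
      · exfalso
        have h4 : aeval x (a * g + b * h) = (1 : K) := by rw [hab, map_one]
        have h5 : w (aeval x (a * g + b * h)) < 1 := by
          rw [map_add, map_mul, map_mul]
          refine Valuation.map_add_lt w ?_ ?_
          · rw [map_mul]
            exact lt_of_le_of_lt (mul_le_of_le_one_left' (EVEN_.le_one w hw x h1 a)) h2
          · rw [map_mul]
            exact lt_of_le_of_lt (mul_le_of_le_one_left' (EVEN_.le_one w hw x h1 b)) h3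
        rw [h4, map_one] at h5
        exact lt_irrefl _ h5

end Pool.Agent.QTw
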