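import Pool.Agent.QTw.Targets

/-!
# The expansion of the number of bad integers into a sum over configurations
-/

set_option autoImplicit false

open Polynomial

namespace Pool.Agent.QTw

namespace EXP_

theorem jac_prod {α : Type} (s : Finset α) (f : α → ℤ) (n : ℕ) :
    jacobiSym (∏ i ∈ s, f i) n = ∏ i ∈ s, jacobiSym (f i) n := by
  classical
  induction s using Finset.induction_on with
  | empty => rw [Finset.prod_empty, Finset.prod_empty, jacobiSym.one_left]
  | insert a s ha ih => rw [Finset.prod_insert ha, Finset.prod_insert ha, jacobiSym.mul_left, ih]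

open Classical in
theorem prod_offDiag {α : Type} (c : Finset α) (g : α × α → ℝ) :
    ∏ z ∈ c.offDiag, g z = ∏ x ∈ c, ∏ y ∈ c, if x ≠ y then g (x, y) else 1 := by
  have h : c.offDiag = (c ×ˢ c).filter fun z => z.1 ≠ z.2 := by
    ext z
    simp [Finset.mem_offDiag, and_assoc]
  rw [h, Finset.prod_filter, Finset.prod_product]

theorem prod_graph {T : Type} [DecidableEq T] (s : Finset ℕ) (τ : ∀ p ∈ s, T) (f : ℕ × T → ℝ) :
    ∏ x ∈ graph s τ, f x = ∏ p ∈ s.attach, f (p.1, τ p.1 p.2) := by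
  unfold graph
  rw [Finset.prod_image]
  intro p _ q _ h
  exact Subtype.ext (congrArg Prod.fst h)

open Classical in
theorem Wt_graph {T : Type} [DecidableEq T] (a : ℕ → T → ℝ) (e : T → T → Prop) (s : Finset ℕ)
    (τ : ∀ p ∈ s, T) :
    Wt a e (graph s τ) = ∏ p ∈ s.attach, (a p.1 (τ p.1 p.2) * ∏ q ∈ s.attach,
      if p ≠ q ∧ e (τ p.1 p.2) (τ q.1 q.2) then (jacobiSym (q.1 : ℤ) p.1 : ℝ) else 1) := by
  unfold Wt
  rw [prod_offDiag, prod_graph, prod_graph, ← Finset.prod_mul_distrib]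
  refine Finset.prod_congr rfl fun p _ => ?_
  rw [prod_graph]
  congr 1
  refine Finset.prod_congr rfl fun q _ => ?_
  by_cases hpq : p = q
  · subst hpq
    simp
  · have h1 : ((p.1, τ p.1 p.2) : ℕ × T) ≠ (q.1, τ q.1 q.2) := fun h =>
      hpq (Subtype.ext (congrArg Prod.fst h))
    rw [if_pos h1]
    by_cases h2 : e (τ p.1 p.2) (τ q.1 q.2)
    · rw [if_pos h2, if_pos ⟨hpq, h2⟩]
    · rw [if_neg h2, if_neg fun h => h2 h.2]

section

variable {ι : Type} [Fintype ι] [DecidableEq ι]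

/-- The labels of the rough primes. -/
def rlab (z : ℕ) (s : Finset ℕ) (lam : ∀ p ∈ s, ι) : Finset ι :=
  (s.attach.filter fun p => z < p.1).image fun p => lam p.1 p.2

open Classical in
omit [Fintype ι] in
theorem rtypes_graph (z : ℕ) (s : Finset ℕ) (τ : ∀ p ∈ s, ι × Finset ι) :
    (rtypes z (graph s τ)).image Prod.fst = rlab z s fun p hp => (τ p hp).1 := by
  ext i
  unfold rtypes graph rlab
  simp only [Finset.mem_image, Finset.mem_filter, Finset.mem_attach, true_and]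
  constructor
  · rintro ⟨t, ⟨x, ⟨⟨p, rfl⟩, hz⟩, rfl⟩, rfl⟩
    exact ⟨p, hz, rfl⟩
  · rintro ⟨p, hz, rfl⟩
    exact ⟨_, ⟨_, ⟨⟨p, rfl⟩, hz⟩, rfl⟩, rfl⟩

open Classical in
/-- The contribution of a prime and a set. -/
noncomputable def FF (V : ι → ℕ → Finset (ι → ℤ)) (z : ℕ) (I : Finset ι) (u : ι → ℤ)
    (s : Finset ℕ) (lam : ∀ p ∈ s, ι) (p : {x // x ∈ s}) (S : Finset ι) : ℝ :=
  coef V z I u p.1 (lam p.1 p.2, S) * ∏ q ∈ s.attach,
    if p ≠ q ∧ lam q.1 q.2 ∈ S then (jacobiSym (q.1 : ℤ) p.1 : ℝ) else 1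

/-- The sum of the contributions of a prime. -/
noncomputable def AA (V : ι → ℕ → Finset (ι → ℤ)) (z : ℕ) (I : Finset ι) (u : ι → ℤ)
    (s : Finset ℕ) (lam : ∀ p ∈ s, ι) (p : {x // x ∈ s}) : ℝ := ∑ S : Finset ι, FF V z I u s lam p S

/-- The sum over the labellings by types is a sum over labellings by `ι`. -/
theorem sum_types (V : ι → ℕ → Finset (ι → ℤ)) (z : ℕ) (I : Finset ι) (u : ι → ℤ)
    (s : Finset ℕ) :
    ∑ τ ∈ s.pi (fun _ => (Finset.univ : Finset (ι × Finset ι))),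
      (if (rtypes z (graph s τ)).image Prod.fst = I then Wt (coef V z I u) lnk (graph s τ)
        else 0) =
    ∑ lam ∈ s.pi (fun _ => (Finset.univ : Finset ι)),
      (if rlab z s lam = I then ∏ p ∈ s.attach, AA V z I u s lam p else 0) := by
  classical
  have h1 : ∀ lam ∈ s.pi (fun _ => (Finset.univ : Finset ι)),
      (if rlab z s lam = I then ∏ p ∈ s.attach, AA V z I u s lam p else 0) =
      ∑ S ∈ s.pi (fun _ => (Finset.univ : Finset (Finset ι))),
        (if rlab z s lam = I then ∏ p ∈ s.attach, FF V z I u s lam p (S p.1 p.2) else 0) := by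
    intro lam _
    by_cases hI : rlab z s lam = I
    · simp only [if_pos hI]
      have h2 := Finset.prod_sum s (fun _ => (Finset.univ : Finset (Finset ι)))
        (fun p S => if hp : p ∈ s then FF V z I u s lam ⟨p, hp⟩ S else 0)
      rw [← Finset.prod_attach] at h2
      simp only [Subtype.coe_eta, Finset.coe_mem, dite_true] at h2
      exact h2
    · simp only [if_neg hI, Finset.sum_const_zero]
  rw [Finset.sum_congr rfl h1, ← Finset.sum_product']
  refine Finset.sum_nbij' (fun τ => (fun p hp => (τ p hp).1, fun p hp => (τ p hp).2))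
    (fun σ p hp => (σ.1 p hp, σ.2 p hp)) ?_ ?_ ?_ ?_ ?_
  · intro τ _
    simp
  · intro σ _
    simp
  · intro τ _
    rfl
  · intro σ _
    rfl
  · intro τ _
    have h2 := rtypes_graph z s τ
    simp only
    rw [← h2]
    by_cases hI : (rtypes z (graph s τ)).image Prod.fst = I
    · rw [if_pos hI, if_pos hI, Wt_graph]
      refine Finset.prod_congr rfl fun p _ => ?_
      unfold FF lnk
      congr 1
      exact Finset.prod_congr rfl fun q _ => by congr
    · rw [if_neg hI, if_neg hI]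

/-- The product of the primes with a label. -/
def mj (s : Finset ℕ) (lam : ∀ p ∈ s, ι) (j : ι) : ℤ :=
  ∏ q ∈ s.attach.filter (fun q => lam q.1 q.2 = j), (q.1 : ℤ)

open Classical in
omit [Fintype ι] in
theorem prod_sym (s : Finset ℕ) (lam : ∀ p ∈ s, ι) (p : {x // x ∈ s}) (S : Finset ι)
    (hS : lam p.1 p.2 ∉ S) :
    (∏ q ∈ s.attach, if p ≠ q ∧ lam q.1 q.2 ∈ S then (jacobiSym (q.1 : ℤ) p.1 : ℝ) else 1) =
      ∏ j ∈ S, (jacobiSym (mj s lam j) p.1 : ℝ) := by
  have h1 : ∀ j ∈ S, (jacobiSym (mj s lam j) p.1 : ℝ) =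
      ∏ q ∈ s.attach, if lam q.1 q.2 = j then (jacobiSym (q.1 : ℤ) p.1 : ℝ) else 1 := by
    intro j _
    unfold mj
    rw [jac_prod, Finset.prod_filter]
    push_cast
    refine Finset.prod_congr rfl fun q _ => ?_
    split_ifs <;> simp
  rw [Finset.prod_congr rfl h1, Finset.prod_comm]
  refine Finset.prod_congr rfl fun q _ => ?_
  rw [Finset.prod_ite_eq]
  by_cases h2 : lam q.1 q.2 ∈ S
  · have h3 : p ≠ q := by
      rintro rfl
      exact hS h2
    rw [if_pos ⟨h3, h2⟩, if_pos h2]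
  · rw [if_neg fun h => h2 h.2, if_neg h2]

theorem AA_smooth (V : ι → ℕ → Finset (ι → ℤ)) (z : ℕ) (I : Finset ι) (u : ι → ℤ)
    (s : Finset ℕ) (lam : ∀ p ∈ s, ι) (p : {x // x ∈ s}) (hp : p.1 ≤ z) :
    AA V z I u s lam p = 1 := by
  unfold AA
  rw [Finset.sum_eq_single ∅]
  · unfold FF coef
    rw [if_pos hp, if_pos rfl]
    simp
  · intro S _ hS
    unfold FF coef
    rw [if_pos hp, if_neg hS, zero_mul]
  · intro h
    exact absurd (Finset.mem_univ _) h

/-- The restricted sign vectors. -/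
noncomputable def VI (V : ι → ℕ → Finset (ι → ℤ)) (I : Finset ι) (i : ι) (p : ℕ) :
    Finset (ι → ℤ) := by
  classical
  exact (V i p).image (fun v j => if j ∈ I.erase i then v j else 1)

theorem AA_rough (V : ι → ℕ → Finset (ι → ℤ)) (z : ℕ) (I : Finset ι) (u : ι → ℤ)
    (s : Finset ℕ) (lam : ∀ p ∈ s, ι) (p : {x // x ∈ s}) (hp : z < p.1)
    (hI : lam p.1 p.2 ∈ I) :
    AA V z I u s lam p = (∑ v ∈ VI V I (lam p.1 p.2) p.1, ∏ j ∈ I.erase (lam p.1 p.2),
      (1 + (v j : ℝ) * (jacobiSym (u j * mj s lam j) p.1 : ℝ))) / 2 ^ (I.card - 1) := by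
  classical
  have h1 : ∀ S : Finset ι, FF V z I u s lam p S =
      if S ∈ (I.erase (lam p.1 p.2)).powerset then
        (∑ v ∈ VI V I (lam p.1 p.2) p.1,
          ∏ j ∈ S, ((v j : ℝ) * (jacobiSym (u j * mj s lam j) p.1 : ℝ))) / 2 ^ (I.card - 1)
      else 0 := by
    intro S
    unfold FF coef
    rw [if_neg (not_le.2 hp)]
    by_cases hS : S ⊆ I.erase (lam p.1 p.2)
    · rw [if_pos ⟨hI, hS⟩, if_pos (Finset.mem_powerset.2 hS)]
      have h2 : lam p.1 p.2 ∉ S := fun h => Finset.notMem_erase _ _ (hS h)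
      have h3 := prod_sym s lam p S h2
      rw [div_mul_eq_mul_div]
      congr 1
      rw [mul_assoc]
      have h4 : (∏ j ∈ S, (jacobiSym (u j) p.1 : ℝ)) * (∏ q ∈ s.attach,
          if p ≠ q ∧ lam q.1 q.2 ∈ S then (jacobiSym (q.1 : ℤ) p.1 : ℝ) else 1) =
          ∏ j ∈ S, (jacobiSym (u j * mj s lam j) p.1 : ℝ) := by
        rw [h3, ← Finset.prod_mul_distrib]
        refine Finset.prod_congr rfl fun j _ => ?_
        rw [jacobiSym.mul_left]
        push_cast
        ring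
      rw [h4]
      rw [Finset.sum_mul]
      refine Finset.sum_congr ?_ fun v _ => ?_
      · unfold VI
        ext v
        simp only [Finset.mem_image]
      · rw [Finset.prod_mul_distrib]
    · rw [if_neg fun h => hS h.2, if_neg fun h => hS (Finset.mem_powerset.1 h), zero_mul]
  unfold AA
  rw [Finset.sum_congr rfl fun S _ => h1 S, ← Finset.sum_filter, Finset.filter_mem_eq_inter,
    Finset.univ_inter, ← Finset.sum_div, Finset.sum_comm]
  congr 1
  refine Finset.sum_congr rfl fun v _ => ?_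
  rw [Finset.prod_one_add]

theorem VI_sign {N : ℕ} {V : ι → ℕ → Finset (ι → ℤ)} (hV : IsSigns N V) (I : Finset ι) (i : ι)
    {p : ℕ} (hp : p.Prime) (hpN : ¬ p ∣ N) {v : ι → ℤ} (hv : v ∈ VI V I i p) (j : ι) :
    v j = 1 ∨ v j = -1 := by
  classical
  unfold VI at hv
  rw [Finset.mem_image] at hv
  obtain ⟨v', hv', rfl⟩ := hv
  by_cases hj : j ∈ I.erase i
  · simp only [if_pos hj]
    exact hV i p hp hpN v' hv' j
  · exact Or.inl (if_neg hj)

theorem term_nonneg {N : ℕ} {V : ι → ℕ → Finset (ι → ℤ)} (hV : IsSigns N V) (I : Finset ι)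
    (i : ι) {p : ℕ} (hp : p.Prime) (hpN : ¬ p ∣ N) {v : ι → ℤ} (hv : v ∈ VI V I i p)
    (J : Finset ι) (f : ι → ℤ) : 0 ≤ ∏ j ∈ J, (1 + (v j : ℝ) * (jacobiSym (f j) p : ℝ)) := by
  refine Finset.prod_nonneg fun j _ => ?_
  rcases VI_sign hV I i hp hpN hv j with h1 | h1 <;>
    rcases jacobiSym.trichotomy (f j) p with h2 | h2 | h2 <;> rw [h1, h2] <;> norm_num

theorem AA_nonneg {N : ℕ} {V : ι → ℕ → Finset (ι → ℤ)} (hV : IsSigns N V) (z : ℕ)
    (I : Finset ι) (u : ι → ℤ) (s : Finset ℕ) (hs : ∀ p ∈ s, p.Prime ∧ ¬ p ∣ N)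
    (lam : ∀ p ∈ s, ι) (hI : rlab z s lam = I) (p : {x // x ∈ s}) :
    0 ≤ AA V z I u s lam p := by
  classical
  by_cases hp : p.1 ≤ z
  · rw [AA_smooth V z I u s lam p hp]
    exact zero_le_one
  · have h1 : lam p.1 p.2 ∈ I := by
      rw [← hI]
      unfold rlab
      exact Finset.mem_image.2 ⟨p, Finset.mem_filter.2 ⟨Finset.mem_attach _ _, not_le.1 hp⟩, rfl⟩
    rw [AA_rough V z I u s lam p (not_le.1 hp) h1]
    refine div_nonneg (Finset.sum_nonneg fun v hv => ?_) (by positivity)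
    exact term_nonneg hV I _ (hs _ p.2).1 (hs _ p.2).2 hv _ _

theorem AA_one_le {N : ℕ} {V : ι → ℕ → Finset (ι → ℤ)} (hV : IsSigns N V) (z : ℕ)
    (I : Finset ι) (u : ι → ℤ) (s : Finset ℕ) (hs : ∀ p ∈ s, p.Prime ∧ ¬ p ∣ N)
    (lam : ∀ p ∈ s, ι) (hI : rlab z s lam = I) (p : {x // x ∈ s})
    (hv : ∃ v ∈ V (lam p.1 p.2) p.1, ∀ j, j ≠ lam p.1 p.2 →
      jacobiSym (u j * mj s lam j) p.1 = v j) :
    1 ≤ AA V z I u s lam p := by
  classical
  by_cases hp : p.1 ≤ z
  · rw [AA_smooth V z I u s lam p hp]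
  · have h1 : lam p.1 p.2 ∈ I := by
      rw [← hI]
      unfold rlab
      exact Finset.mem_image.2 ⟨p, Finset.mem_filter.2 ⟨Finset.mem_attach _ _, not_le.1 hp⟩, rfl⟩
    obtain ⟨v, hv1, hv2⟩ := hv
    rw [AA_rough V z I u s lam p (not_le.1 hp) h1, le_div_iff₀ (by positivity), one_mul]
    have h2 : (fun j => if j ∈ I.erase (lam p.1 p.2) then v j else 1) ∈
        VI V I (lam p.1 p.2) p.1 := by
      unfold VI
      exact Finset.mem_image.2 ⟨v, hv1, rfl⟩
    refine le_trans ?_ (Finset.single_le_sum (f := fun v : ι → ℤ =>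
      ∏ j ∈ I.erase (lam p.1 p.2), (1 + (v j : ℝ) * (jacobiSym (u j * mj s lam j) p.1 : ℝ)))
      (fun v hv => term_nonneg hV I _ (hs _ p.2).1 (hs _ p.2).2 hv _ _) h2)
    rw [Finset.prod_congr rfl (g := fun _ => (2 : ℝ))]
    · rw [Finset.prod_const, Finset.card_erase_of_mem h1]
    · intro j hj
      rw [if_pos hj, hv2 j (Finset.ne_of_mem_erase hj)]
      rcases hV _ p.1 (hs _ p.2).1 (hs _ p.2).2 v hv1 j with h3 | h3 <;> rw [h3] <;> norm_num

/-- The sum for one integer. -/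
noncomputable def SS (V : ι → ℕ → Finset (ι → ℤ)) (z : ℕ) (s : Finset ℕ) (I : Finset ι)
    (u : ι → ℤ) : ℝ :=
  ∑ lam ∈ s.pi (fun _ => (Finset.univ : Finset ι)),
      (if rlab z s lam = I then ∏ p ∈ s.attach, AA V z I u s lam p else 0)

theorem SS_nonneg {N : ℕ} {V : ι → ℕ → Finset (ι → ℤ)} (hV : IsSigns N V) (z : ℕ)
    (s : Finset ℕ) (hs : ∀ p ∈ s, p.Prime ∧ ¬ p ∣ N) (I : Finset ι) (u : ι → ℤ) :
    0 ≤ SS V z s I u := by
  refine Finset.sum_nonneg fun lam _ => ?_
  by_cases h : rlab z s lam = I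
  · rw [if_pos h]
    exact Finset.prod_nonneg fun p _ => AA_nonneg hV z I u s hs lam h p
  · rw [if_neg h]

theorem SS_one_le {N : ℕ} {V : ι → ℕ → Finset (ι → ℤ)} (hV : IsSigns N V) (z m : ℕ)
    (hm : ∀ p ∈ m.primeFactors, ¬ p ∣ N) (hbad : Bad N V m) :
    ∃ (I : Finset ι) (u : ι → ℤ), (∀ i, u i ∣ (N : ℤ)) ∧ 1 ≤ SS V z m.primeFactors I u := by
  classical
  obtain ⟨u, hu, lam, hlam⟩ := hbad
  obtain ⟨s, hs⟩ : ∃ s, s = m.primeFactors := ⟨_, rfl⟩
  obtain ⟨l, hl⟩ : ∃ l : ∀ p ∈ s, ι, l = fun p _ => lam p := ⟨_, rfl⟩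
  have hs' : ∀ p ∈ s, p.Prime ∧ ¬ p ∣ N := by
    intro p hp
    rw [hs] at hp
    exact ⟨Nat.prime_of_mem_primeFactors hp, hm p hp⟩
  have hmj : ∀ j, mj s l j =
      ∏ q ∈ m.primeFactors.filter (fun q => ¬ q ∣ N ∧ lam q = j), (q : ℤ) := by
    intro j
    have h1 : m.primeFactors.filter (fun q => ¬ q ∣ N ∧ lam q = j) =
        s.filter fun q => lam q = j := by
      ext q
      simp only [Finset.mem_filter, hs]
      constructor
      · rintro ⟨h1, _, h2⟩
        exact ⟨h1, h2⟩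
      · rintro ⟨h1, h2⟩
        exact ⟨h1, hm q h1, h2⟩
    rw [h1, Finset.prod_filter, ← Finset.prod_attach]
    unfold mj
    rw [Finset.prod_filter, hl]
  refine ⟨rlab z s l, u, hu, ?_⟩
  rw [← hs]
  have h1 : 1 ≤ ∏ p ∈ s.attach, AA V z (rlab z s l) u s l p := by
    have h2 : ∀ p ∈ s.attach, (1 : ℝ) ≤ AA V z (rlab z s l) u s l p := by
      intro p _
      refine AA_one_le hV z _ u s hs' l rfl p ?_
      have h3 := hlam p.1 (by rw [← hs]; exact p.2) (hs' p.1 p.2).2
      obtain ⟨v, hv1, hv2⟩ := h3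
      refine ⟨v, ?_, ?_⟩
      · rw [hl]
        exact hv1
      · intro j hj
        rw [hmj]
        rw [hl] at hj
        exact hv2 j hj
    calc (1 : ℝ) = ∏ _p ∈ s.attach, (1 : ℝ) := by simp
      _ ≤ _ := Finset.prod_le_prod (fun _ _ => zero_le_one) h2
  refine h1.trans ?_
  have h3 := Finset.single_le_sum (s := s.pi (fun _ => (Finset.univ : Finset ι)))
    (f := fun lam => (if rlab z s lam = rlab z s l then
      ∏ p ∈ s.attach, AA V z (rlab z s l) u s lam p else 0))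
    (fun lam _ => by
      by_cases h : rlab z s lam = rlab z s l
      · simp only [if_pos h]
        exact Finset.prod_nonneg fun p _ => AA_nonneg hV z _ u s hs' lam h p
      · simp only [if_neg h]
        exact le_rfl) (a := l) (by simp)
  simp only [if_true] at h3
  exact h3

end

end EXP_

open EXP_

theorem p_EXP (h1 : T_FIBG) : T_EXP := by
  classical
  intro ι _ _ N V hN h2 hV z X
  obtain ⟨U, hU⟩ : ∃ U : Finset (ι → ℤ),
    U = Fintype.piFinset (fun _ : ι => Finset.Icc (-(N : ℤ)) N) := ⟨_, rfl⟩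
  obtain ⟨A, hA⟩ : ∃ A : Finset ℕ, A = (Finset.range (X + 1)).filter
    (fun m => Squarefree m ∧ ∀ p ∈ m.primeFactors, ¬ p ∣ N) := ⟨_, rfl⟩
  have hA' : ∀ m ∈ A, ∀ p ∈ m.primeFactors, p.Prime ∧ ¬ p ∣ N := by
    intro m hm p hp
    rw [hA, Finset.mem_filter] at hm
    exact ⟨Nat.prime_of_mem_primeFactors hp, hm.2.2 p hp⟩
  -- the inner sums
  have hinner : ∀ (I : Finset ι) (u : ι → ℤ),
      ∑ c ∈ (cfgs (ι × Finset ι) N X).filter (fun c => (rtypes z c).image Prod.fst = I),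
        Wt (coef V z I u) lnk c = ∑ m ∈ A, SS V z m.primeFactors I u := by
    intro I u
    rw [Finset.sum_filter, h1 (ι × Finset ι) (fun c => if (rtypes z c).image Prod.fst = I then
      Wt (coef V z I u) lnk c else 0) N X, hA]
    refine Finset.sum_congr ?_ fun m _ => ?_
    · congr
    · rw [sum_types]
      rfl
  have hR : (∑ I : Finset ι, ∑ u ∈ U,
      if (∀ i, u i ∣ (N : ℤ)) then
        ∑ c ∈ (cfgs (ι × Finset ι) N X).filter (fun c => (rtypes z c).image Prod.fst = I),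
          Wt (coef V z I u) lnk c
      else 0) = ∑ m ∈ A, ∑ I : Finset ι, ∑ u ∈ U,
        if (∀ i, u i ∣ (N : ℤ)) then SS V z m.primeFactors I u else 0 := by
    symm
    rw [Finset.sum_comm]
    refine Finset.sum_congr rfl fun I _ => ?_
    rw [Finset.sum_comm]
    refine Finset.sum_congr rfl fun u _ => ?_
    by_cases hu : ∀ i, u i ∣ (N : ℤ)
    · simp only [if_pos hu]
      exact (hinner I u).symm
    · simp only [if_neg hu, Finset.sum_const_zero]
  rw [← hU, hR]
  have hL : (((Finset.range (X + 1)).filter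
      (fun m => Squarefree m ∧ (∀ p ∈ m.primeFactors, ¬ p ∣ N) ∧ Bad N V m)).card : ℝ) =
      ∑ m ∈ A, if Bad N V m then (1 : ℝ) else 0 := by
    rw [← Finset.sum_filter, hA, Finset.filter_filter, Finset.sum_const, nsmul_eq_mul, mul_one]
    congr 2
    ext m
    simp only [Finset.mem_filter, and_assoc]
  rw [hL]
  refine Finset.sum_le_sum fun m hm => ?_
  have hnn : ∀ (I : Finset ι) (u : ι → ℤ),
      0 ≤ (if (∀ i, u i ∣ (N : ℤ)) then SS V z m.primeFactors I u else 0 : ℝ) := by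
    intro I u
    split_ifs
    · exact SS_nonneg hV z _ (hA' m hm) I u
    · exact le_rfl
  by_cases hb : Bad N V m
  · rw [if_pos hb]
    obtain ⟨I, u, hu, h3⟩ := SS_one_le hV z m (fun p hp => (hA' m hm p hp).2) hb
    have huU : u ∈ U := by
      rw [hU, Fintype.mem_piFinset]
      intro i
      have h4 : |u i| ≤ (N : ℤ) := by
        have h5 := Int.le_of_dvd (by exact_mod_cast hN) ((abs_dvd _ _).2 (hu i))
        exact h5
      rw [Finset.mem_Icc]
      exact abs_le.1 h4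
    have h4 := Finset.single_le_sum (f := fun u => (if (∀ i, u i ∣ (N : ℤ)) then
      SS V z m.primeFactors I u else 0 : ℝ)) (fun u _ => hnn I u) huU
    simp only [if_pos hu] at h4
    have h5 := Finset.single_le_sum (f := fun I : Finset ι => ∑ u ∈ U,
      (if (∀ i, u i ∣ (N : ℤ)) then SS V z m.primeFactors I u else 0 : ℝ))
      (fun I _ => Finset.sum_nonneg fun u _ => hnn I u) (Finset.mem_univ I)
    exact h3.trans (h4.trans h5)
  · rw [if_neg hb]
    exact Finset.sum_nonneg fun I _ => Finset.sum_nonneg fun u _ => hnn I u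

end Pool.Agent.QTw
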