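import Pool.Agent.QTw.Targets

/-!
# QTw, job GEOM: result of part A
-/

open Polynomial

namespace Pool.Agent.QTw

namespace GEOM_

theorem mapne {n : ℕ} {g : Fin (n + 1) → ℤ[X]} (hg : GoodFactors g) (i : Fin (n + 1)) :
    (g i).map (Int.castRingHom ℚ) ≠ 0 := (hg.irr i).ne_zero

theorem mapeven {n : ℕ} {g : Fin (n + 1) → ℤ[X]} (hg : GoodFactors g) (i : Fin (n + 1)) :
    Even ((g i).map (Int.castRingHom ℚ)).natDegree := by
  rw [Polynomial.natDegree_map_eq_of_injective (RingHom.injective_int _)]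
  exact hg.even i

theorem aeval_map {A : Type} [Field A] [CharZero A] (x : A) (p : ℤ[X]) :
    aeval x (p.map (Int.castRingHom ℚ)) = aeval x p := by
  have h : (Int.castRingHom ℚ) = algebraMap ℤ ℚ := by ext; simp
  rw [h, Polynomial.aeval_map_algebraMap]

end GEOM_

open GEOM_ in
/-- GEOM -/
theorem p_GEOM (h1 : T_SQRT) (h2 : T_DESC) (h3 : T_LOC) : T_GEOM := by
  rintro n g c f d hg hc hd hf ⟨F, _, _, x, y, hF, E, _, _, _, hcov, hloc⟩
  have hinj : Function.Injective (algebraMap F E) := (algebraMap F E).injective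
  have hxE : Transcendental ℚ (algebraMap F E x) :=
    (transcendental_algebraMap_iff hinj).2 hF.transcendental
  -- the square roots
  have hmain : ∀ i, ∃ δ : ℚ, δ ≠ 0 ∧ ∃ β : E,
      aeval (algebraMap F E x) (g i) = (δ : E) * β ^ 2 := by
    intro i
    have hfi : f.map (Int.castRingHom ℚ) = (g i).map (Int.castRingHom ℚ) *
        (C c * ∏ j ∈ Finset.univ.erase i, (g j).map (Int.castRingHom ℚ)) := by
      rw [hf, ← Finset.mul_prod_erase Finset.univ _ (Finset.mem_univ i)]
      ring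
    have hprod : (∏ j ∈ Finset.univ.erase i, (g j).map (Int.castRingHom ℚ)) ≠ 0 :=
      Finset.prod_ne_zero_iff.2 fun j _ => mapne hg j
    have hne : C c * ∏ j ∈ Finset.univ.erase i, (g j).map (Int.castRingHom ℚ) ≠ 0 :=
      mul_ne_zero (C_ne_zero.2 hc) hprod
    have hcop : IsCoprime ((g i).map (Int.castRingHom ℚ))
        (C c * ∏ j ∈ Finset.univ.erase i, (g j).map (Int.castRingHom ℚ)) := by
      refine IsCoprime.mul_right ?_ ?_
      · refine ⟨0, C c⁻¹, ?_⟩
        rw [zero_mul, zero_add, ← C_mul, inv_mul_cancel₀ hc, C_1]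
      · refine IsCoprime.prod_right fun j hj => hg.coprime i j ?_
        exact (Finset.ne_of_mem_erase hj).symm
    have heven : Even (C c * ∏ j ∈ Finset.univ.erase i,
        (g j).map (Int.castRingHom ℚ)).natDegree := by
      rw [Polynomial.natDegree_C_mul hc, Polynomial.natDegree_prod _ _ (fun j _ => mapne hg j)]
      exact Finset.even_sum _ fun j _ => mapeven hg j
    obtain ⟨γ, hγ1, hγ2⟩ := h1 F E x y f d _ _ hF hcov hd hfi hcop (mapeven hg i) heven
      (mapne hg i) hne
    have hb : algebraMap F E (aeval x ((g i).map (Int.castRingHom ℚ))) ≠ 0 := by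
      rw [Ne, map_eq_zero]
      intro h4
      exact mapne hg i ((transcendental_iff.1 hF.transcendental) _ h4)
    obtain ⟨δ, hδ, β, hβ⟩ := h2 E hcov.constants _ γ hb hγ1 hγ2
    refine ⟨δ, hδ, β, ?_⟩
    rw [← hβ, aeval_map, Polynomial.aeval_algebraMap_apply]
  choose δ hδ β hβ using hmain
  have hgE : ∀ i, aeval (algebraMap F E x) (g i) ≠ 0 := by
    intro i h4
    rw [← aeval_map] at h4
    exact mapne hg i ((transcendental_iff.1 hxE) _ h4)
  have hβ0 : ∀ i, β i ≠ 0 := by
    intro i h4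
    refine hgE i ?_
    rw [hβ i, h4]
    simp
  -- the product
  have hprod : (d : E) * (algebraMap F E y) ^ 2 =
      ((c * ∏ i, δ i : ℚ) : E) * (∏ i, β i) ^ 2 := by
    have h4 := congrArg (algebraMap F E) hF.equation
    rw [map_mul, map_pow, map_intCast, ← Polynomial.aeval_algebraMap_apply, ← aeval_map, hf,
      map_mul, aeval_C, map_prod] at h4
    rw [h4]
    have h5 : ∀ i, aeval (algebraMap F E x) ((g i).map (Int.castRingHom ℚ)) =
        (δ i : E) * β i ^ 2 := fun i => by rw [aeval_map, hβ i]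
    simp only [h5]
    rw [Finset.prod_mul_distrib, Finset.prod_pow]
    push_cast
    simp only [eq_ratCast]
    ring
  have hB : (∏ i, β i) ≠ 0 := Finset.prod_ne_zero_iff.2 fun i _ => hβ0 i
  have hdE : (d : E) ≠ 0 := by exact_mod_cast hd
  have hr : (algebraMap F E y / ∏ i, β i) ^ 2 = (((c * ∏ i, δ i) / d : ℚ) : E) := by
    rw [div_pow, div_eq_iff (pow_ne_zero _ hB)]
    push_cast
    push_cast at hprod
    field_simp
    linear_combination hprod
  obtain ⟨q, hq⟩ := hcov.constants (algebraMap F E y / ∏ i, β i) (by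
    refine IsAlgebraic.of_pow (n := 2) (by norm_num) ?_
    rw [hr]
    exact isAlgebraic_algebraMap (((c * ∏ i, δ i) / d : ℚ)))
  have hq2 : c * ∏ i, δ i = d * q ^ 2 := by
    rw [hq] at hr
    have h4 : q ^ 2 = (c * ∏ i, δ i) / d := by exact_mod_cast hr
    have hdQ : (d : ℚ) ≠ 0 := by exact_mod_cast hd
    rw [h4]
    field_simp
  have hq0 : q ≠ 0 := by
    rintro rfl
    have h4 : c * ∏ i, δ i ≠ 0 := mul_ne_zero hc (Finset.prod_ne_zero_iff.2 fun i _ => hδ i)
    rw [hq2] at h4
    simp at h4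
  refine ⟨δ, hδ, ⟨q, hq0, hq2⟩, fun p _ => ?_⟩
  refine h3 E ℚ_[p] (Fin (n + 1)) g (algebraMap F E x) δ β ?_ hxE hδ hβ (hloc.2 p)
  intro i
  refine ⟨?_, hg.even i⟩
  intro h4
  exact mapne hg i (by rw [h4]; simp)

end Pool.Agent.QTw
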