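import Pool.Agent.QTw.Targets

/-!
# QTw, job JINT: interval sums of a product of two Jacobi symbols
-/

namespace Pool.Agent.QTw

namespace JINT_

/-- the sum over a full period -/
theorem period_sum {P : ℕ} [NeZero P] (G : ZMod P → ℤ) (a : ℕ) :
    ∑ m ∈ Finset.Ioc a (a + P), G (m : ZMod P) = ∑ x : ZMod P, G x := by
  have hinj : Set.InjOn (fun m : ℕ => (m : ZMod P)) (Finset.Ioc a (a + P) : Set ℕ) := by
    intro m hm m' hm' h
    simp only [Finset.coe_Ioc, Set.mem_Ioc] at hm hm'
    have h1 : m ≡ m' [MOD P] := (ZMod.natCast_eq_natCast_iff _ _ _).1 h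
    rcases le_total m m' with h2 | h2
    · have h3 := (Nat.modEq_iff_dvd' h2).1 h1
      have h4 : m' - m = 0 := Nat.eq_zero_of_dvd_of_lt h3 (by omega)
      omega
    · have h3 := (Nat.modEq_iff_dvd' h2).1 h1.symm
      have h4 : m - m' = 0 := Nat.eq_zero_of_dvd_of_lt h3 (by omega)
      omega
  have hsurj : Set.SurjOn (fun m : ℕ => (m : ZMod P)) (Finset.Ioc a (a + P) : Set ℕ)
      ((Finset.univ : Finset (ZMod P)) : Set (ZMod P)) := by
    refine Finset.surjOn_of_injOn_of_card_le _ (fun _ _ => Finset.mem_coe.2 (Finset.mem_univ _))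
      hinj ?_
    rw [Finset.card_univ, ZMod.card, Nat.card_Ioc]
    omega
  exact Finset.sum_nbij (fun m : ℕ => (m : ZMod P)) (fun _ _ => Finset.mem_univ _) hinj hsurj
    fun _ _ => rfl

theorem full_zero (p q : ℕ) (hp : p.Prime) (hq : q.Prime) (hp2 : p ≠ 2) (hpq : p ≠ q) (a : ℕ) :
    ∑ m ∈ Finset.Ioc a (a + p * q), (jacobiSym m p * jacobiSym m q : ℤ) = 0 := by
  have : Fact p.Prime := ⟨hp⟩
  have : Fact q.Prime := ⟨hq⟩
  have : NeZero (p * q) := ⟨Nat.mul_ne_zero hp.ne_zero hq.ne_zero⟩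
  have hco : p.Coprime q := (Nat.coprime_primes hp hq).2 hpq
  let e := ZMod.chineseRemainder hco
  have h1 : ∀ m : ℕ, (jacobiSym m p * jacobiSym m q : ℤ) =
      (fun x : ZMod (p * q) => quadraticChar (ZMod p) (e x).1 * quadraticChar (ZMod q) (e x).2)
        (m : ZMod (p * q)) := by
    intro m
    simp only [map_natCast, Prod.fst_natCast, Prod.snd_natCast]
    rw [← jacobiSym.legendreSym.to_jacobiSym, ← jacobiSym.legendreSym.to_jacobiSym]
    simp only [legendreSym, Int.cast_natCast]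
  rw [Finset.sum_congr rfl fun m _ => h1 m, period_sum (P := p * q)
    (fun x : ZMod (p * q) => quadraticChar (ZMod p) (e x).1 * quadraticChar (ZMod q) (e x).2) a]
  have h2 : ∑ x : ZMod (p * q), quadraticChar (ZMod p) (e x).1 * quadraticChar (ZMod q) (e x).2 =
      ∑ y : ZMod p × ZMod q, quadraticChar (ZMod p) y.1 * quadraticChar (ZMod q) y.2 :=
    Equiv.sum_comp e.toEquiv
      (fun y : ZMod p × ZMod q => quadraticChar (ZMod p) y.1 * quadraticChar (ZMod q) y.2)
  rw [h2, Fintype.sum_prod_type]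
  simp only
  rw [← Finset.sum_mul_sum, quadraticChar_sum_zero (by rwa [ZMod.ringChar_zmod_n]), zero_mul]

theorem abs_le_one (m : ℕ) (p q : ℕ) : |(jacobiSym m p * jacobiSym m q : ℤ)| ≤ 1 := by
  have h : ∀ n : ℕ, |jacobiSym m n| ≤ 1 := by
    intro n
    rcases jacobiSym.trichotomy (m : ℤ) n with h | h | h <;> rw [h] <;> simp
  rw [abs_mul]
  have h1 := h p
  have h2 := h q
  have h3 := abs_nonneg (jacobiSym m p)
  have h4 := abs_nonneg (jacobiSym m q)
  nlinarith

end JINT_

theorem p_JINT : T_JINT := by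
  intro p q hp hq hp2 _ hpq a b
  have hP : 0 < p * q := Nat.mul_pos hp.pos hq.pos
  induction hn : (b - a) using Nat.strong_induction_on generalizing a with
  | _ n ih =>
    rcases Nat.lt_or_ge (b - a) (p * q) with h | h
    · calc |∑ m ∈ Finset.Ioc a b, (jacobiSym m p * jacobiSym m q : ℤ)|
          ≤ ∑ m ∈ Finset.Ioc a b, |(jacobiSym m p * jacobiSym m q : ℤ)| :=
            Finset.abs_sum_le_sum_abs _ _
        _ ≤ ∑ _m ∈ Finset.Ioc a b, (1 : ℤ) :=
            Finset.sum_le_sum fun m _ => JINT_.abs_le_one m p q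
        _ = ((b - a : ℕ) : ℤ) := by simp
        _ ≤ p * q := by exact_mod_cast h.le
    · have h1 := ih (b - (a + p * q)) (by omega) (a + p * q) rfl
      have h2 : ∑ m ∈ Finset.Ioc a b, (jacobiSym m p * jacobiSym m q : ℤ) =
          ∑ m ∈ Finset.Ioc (a + p * q) b, (jacobiSym m p * jacobiSym m q : ℤ) := by
        rw [← Finset.sum_Ioc_consecutive _ (Nat.le_add_right a (p * q))
          (by omega : a + p * q ≤ b), JINT_.full_zero p q hp hq hp2 hpq, zero_add]
      rw [h2]
      exact h1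

end Pool.Agent.QTw
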