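import Pool.Agent.QTw.Targets

set_option autoImplicit false

/-! LOC: a Laurent series point gives the local condition. -/

open Polynomial

namespace Pool.Agent.QTw

namespace LOC_

open HahnSeries

/-- evaluation of an integral polynomial -/
def e (R : Type) [CommRing R] (x : R) (g : ℤ[X]) : R := eval₂ (Int.castRingHom R) x g

lemma aeval_eq (R : Type) [CommRing R] [Algebra ℤ R] (x : R) (g : ℤ[X]) :
    aeval x g = e R x g := by
  unfold e
  rw [aeval_def, Subsingleton.elim (algebraMap ℤ R) (Int.castRingHom R)]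

lemma map_e {R S : Type} [CommRing R] [CommRing S] (φ : R →+* S) (x : R) (g : ℤ[X]) :
    φ (e R x g) = e S (φ x) g := by
  unfold e
  rw [hom_eval₂, Subsingleton.elim (φ.comp (Int.castRingHom R)) (Int.castRingHom S)]

variable {K : Type} [Field K]

lemma lc_of (P : PowerSeries K) (h : PowerSeries.constantCoeff P ≠ 0) :
    (ofPowerSeries ℤ K P).leadingCoeff = PowerSeries.constantCoeff P := by
  have h0 : (ofPowerSeries ℤ K P).coeff 0 = PowerSeries.constantCoeff P := by
    have := PowerSeries.coeff_coe P 0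
    simpa using this
  have hne : ofPowerSeries ℤ K P ≠ 0 := by
    intro h1
    rw [h1] at h0
    exact h h0.symm
  have h1 : (ofPowerSeries ℤ K P).order ≤ 0 := by
    apply HahnSeries.order_le_of_coeff_ne_zero
    rw [h0]; exact h
  have h2 : ¬ (ofPowerSeries ℤ K P).order < 0 := by
    intro h3
    have h4 := PowerSeries.coeff_coe P (ofPowerSeries ℤ K P).order
    rw [if_pos h3, ← HahnSeries.leadingCoeff_eq] at h4
    exact hne (HahnSeries.leadingCoeff_eq_zero.mp h4)
  have h3 : (ofPowerSeries ℤ K P).order = 0 := by omega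
  rw [HahnSeries.leadingCoeff_eq, h3, h0]

lemma coe_of_nonneg (η : LaurentSeries K) (h : 0 ≤ η.order) :
    ∃ P : PowerSeries K, ofPowerSeries ℤ K P = η := by
  obtain ⟨n, hn⟩ := Int.eq_ofNat_of_zero_le h
  refine ⟨PowerSeries.X ^ n * η.powerSeriesPart, ?_⟩
  have h1 := LaurentSeries.single_order_mul_powerSeriesPart η
  rw [map_mul, HahnSeries.ofPowerSeries_X_pow]
  rw [hn] at h1
  exact h1

lemma sq_of (δ : K) (γ : LaurentSeries K) (P : PowerSeries K)
    (h : HahnSeries.C δ * γ ^ 2 = ofPowerSeries ℤ K P) (h0 : PowerSeries.constantCoeff P ≠ 0) :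
    IsSquare (δ * PowerSeries.constantCoeff P) := by
  have h1 := congrArg HahnSeries.leadingCoeff h
  rw [lc_of P h0, HahnSeries.leadingCoeff_mul, sq, HahnSeries.leadingCoeff_mul] at h1
  have h2 : (HahnSeries.C δ : LaurentSeries K).leadingCoeff = δ := leadingCoeff_of_single
  rw [h2] at h1
  rw [← h1]
  exact ⟨δ * γ.leadingCoeff, by ring⟩

end LOC_

open LOC_ in
theorem p_LOC : T_LOC := by
  intro E K _ _ _ _ ι g x δ β hg hx hδ hβ hP
  obtain ⟨φ⟩ := hP
  set ξ : LaurentSeries K := φ x with hξ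
  have key : ∀ i, e _ ξ (g i) = HahnSeries.C (δ i : K) * (φ (β i)) ^ 2 := by
    intro i
    rw [hξ, ← map_e φ, ← aeval_eq, hβ, map_mul, map_pow, map_ratCast]
    congr 1
  by_cases hord : 0 ≤ ξ.order
  · obtain ⟨P, hP⟩ := coe_of_nonneg ξ hord
    left
    refine ⟨PowerSeries.constantCoeff P, fun i hi => ?_⟩
    have h1 := key i
    rw [← hP, ← map_e] at h1
    rw [aeval_eq, ← map_e] at hi ⊢
    exact sq_of _ _ _ h1.symm hi
  · right
    rw [not_le] at hord
    have hξ0 : ξ ≠ 0 := by
      rintro h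
      rw [h] at hord
      simp at hord
    have hη0 : ξ⁻¹ ≠ 0 := inv_ne_zero hξ0
    have hη : 0 < (ξ⁻¹).order := by
      have h1 := HahnSeries.order_mul hξ0 hη0
      rw [mul_inv_cancel₀ hξ0, HahnSeries.order_one] at h1
      omega
    obtain ⟨P, hP⟩ := coe_of_nonneg ξ⁻¹ hη.le
    have hP0 : PowerSeries.constantCoeff P = 0 := by
      have h1 := PowerSeries.coeff_coe P 0
      have h2 : (HahnSeries.ofPowerSeries ℤ K P).coeff 0 = 0 := by
        rw [hP]
        exact HahnSeries.coeff_eq_zero_of_lt_order hη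
      rw [h2] at h1
      simpa using h1.symm
    intro i
    obtain ⟨hg0, k, hk⟩ := hg i
    have h1 : e _ ξ (g i) = e _ ξ⁻¹ (g i).reverse * ξ ^ (g i).natDegree := by
      let _ : Invertible ξ := invertibleOfNonzero hξ0
      have h3 := Polynomial.eval₂_reverse_mul_pow (Int.castRingHom (LaurentSeries K))
        ξ (g i)
      rw [invOf_eq_inv] at h3
      exact h3.symm
    have h2 : HahnSeries.C (δ i : K) * (φ (β i) * (ξ⁻¹) ^ k) ^ 2 =
        HahnSeries.ofPowerSeries ℤ K (e _ P (g i).reverse) := by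
      rw [map_e, hP]
      have h3 : e _ ξ⁻¹ (g i).reverse = e _ ξ (g i) * (ξ⁻¹) ^ (g i).natDegree := by
        rw [h1, mul_assoc, ← mul_pow, mul_inv_cancel₀ hξ0, one_pow, mul_one]
      rw [h3, key i, hk]
      ring
    have h3 : PowerSeries.constantCoeff (e _ P (g i).reverse) = ((g i).leadingCoeff : K) := by
      rw [map_e, hP0]
      unfold e
      rw [eval₂_at_zero, Polynomial.coeff_zero_reverse]
      simp
    have h4 : PowerSeries.constantCoeff (e _ P (g i).reverse) ≠ 0 := by
      rw [h3]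
      exact_mod_cast leadingCoeff_ne_zero.mpr hg0
    have h5 := sq_of _ _ _ h2 h4
    rwa [h3] at h5

end Pool.Agent.QTw
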