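import Pool.Agent.QTw.Targets

/-!
# The conditions at the primes dividing `d`: assembly
-/

open Polynomial

namespace Pool.Agent.QTw

namespace LOCAL_

/-- A positive rational number all of whose valuations are even is a square. -/
theorem rat_sq {q : ℚ} (hq : 0 < q) (h : ∀ p : ℕ, p.Prime → Even (padicValRat p q)) :
    ∃ r : ℚ, q = r ^ 2 := by
  have hden : (q.den : ℚ) ≠ 0 := by exact_mod_cast q.den_nz
  set m : ℕ := q.num.natAbs * q.den with hm
  have hnum : (q.num.natAbs : ℚ) = q.num := by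
    have h1 : 0 < q.num := Rat.num_pos.2 hq
    have h2 : (q.num.natAbs : ℤ) = q.num := Int.natAbs_of_nonneg h1.le
    have h3 := congrArg (Int.cast : ℤ → ℚ) h2
    rwa [Int.cast_natCast] at h3
  have hqm : (m : ℚ) = q * q.den ^ 2 := by
    rw [hm, Nat.cast_mul, hnum]
    calc (q.num : ℚ) * q.den = (q.num / q.den) * q.den ^ 2 := by field_simp
      _ = q * q.den ^ 2 := by rw [Rat.num_div_den]
  have hm0 : m ≠ 0 := by
    intro h0
    rw [h0] at hqm
    have : q * (q.den : ℚ) ^ 2 ≠ 0 := mul_ne_zero hq.ne' (pow_ne_zero _ hden)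
    exact this (by rw [← hqm]; simp)
  obtain ⟨a, b, hab, ha⟩ := Nat.sq_mul_squarefree m
  have ha0 : a ≠ 0 := by
    rintro rfl
    exact hm0 (by rw [← hab]; ring)
  have hb0 : b ≠ 0 := by
    rintro rfl
    exact hm0 (by rw [← hab]; ring)
  have ha1 : a = 1 := by
    by_contra hne
    obtain ⟨p, hp, hpa⟩ := Nat.exists_prime_and_dvd hne
    have := Fact.mk hp
    have h1 : padicValRat p (m : ℚ) = padicValRat p q + 2 * padicValRat p (q.den : ℚ) := by
      rw [hqm, padicValRat.mul hq.ne' (pow_ne_zero _ hden), padicValRat.pow]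
      push_cast
      ring
    have h2 : padicValRat p (m : ℚ) = 2 * padicValNat p b + 1 := by
      rw [padicValRat.of_nat, ← hab, padicValNat.mul (pow_ne_zero _ hb0) ha0,
        padicValNat.pow]
      have h3 : padicValNat p a = 1 := by
        have h4 : padicValNat p a ≤ 1 := by
          rw [← Nat.factorization_def a hp]
          exact (Nat.squarefree_iff_factorization_le_one ha0).1 ha p
        have h5 : 1 ≤ padicValNat p a := one_le_padicValNat_of_dvd ha0 hpa
        omega
      rw [h3]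
      push_cast
      ring
    obtain ⟨k, hk⟩ := h p hp
    omega
  refine ⟨b / q.den, ?_⟩
  have h1 : (b : ℚ) ^ 2 = m := by
    rw [← hab, ha1]
    push_cast
    ring
  rw [div_pow, h1, hqm]
  field_simp

theorem val_prod (T : Finset ℕ) (hT : ∀ p ∈ T, p.Prime) (p : ℕ) [hp : Fact p.Prime] :
    padicValNat p (∏ q ∈ T, q) = if p ∈ T then 1 else 0 := by
  classical
  induction T using Finset.induction_on with
  | empty => simp
  | insert q T hq ih =>
    have hT' : ∀ p ∈ T, p.Prime := fun p hp => hT p (Finset.mem_insert_of_mem hp)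
    have hqp : q.Prime := hT q (Finset.mem_insert_self _ _)
    have h0 : ∏ q ∈ T, q ≠ 0 := Finset.prod_ne_zero_iff.2 fun x hx => (hT' x hx).ne_zero
    rw [Finset.prod_insert hq, padicValNat.mul hqp.ne_zero h0, ih hT']
    by_cases hpq : p = q
    · subst hpq
      rw [padicValNat.self hp.out.one_lt, if_neg hq, if_pos (Finset.mem_insert_self _ _)]
    · have := Fact.mk hqp
      rw [padicValNat_primes hpq, zero_add]
      simp [Finset.mem_insert, hpq]

/-- the sign of a rational number -/
noncomputable def sg (δ : ℚ) : ℤ := if 0 < δ then 1 else -1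

theorem sg_unit (δ : ℚ) : sg δ = 1 ∨ sg δ = -1 := by
  unfold sg
  split_ifs
  · exact Or.inl rfl
  · exact Or.inr rfl

theorem twist {δ : ℚ} (hδ : δ ≠ 0) (T : Finset ℕ) (hT : ∀ p ∈ T, p.Prime)
    (h : ∀ p : ℕ, p.Prime → (p ∈ T ↔ ¬ Even (padicValRat p δ))) :
    ∃ q : ℚ, ((sg δ * ∏ p ∈ T, (p : ℤ) : ℤ) : ℚ) = δ * q ^ 2 := by
  have hP0 : ∏ q ∈ T, q ≠ 0 := Finset.prod_ne_zero_iff.2 fun x hx => (hT x hx).ne_zero
  have hPpos : (0 : ℚ) < ((∏ q ∈ T, q : ℕ) : ℚ) := by
    exact_mod_cast Nat.pos_of_ne_zero hP0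
  have habs : (sg δ : ℚ) * |δ| = δ := by
    unfold sg
    split_ifs with h1
    · rw [abs_of_pos h1]
      simp
    · rw [abs_of_nonpos (not_lt.1 h1)]
      simp
  have hsg2 : (sg δ : ℚ) * sg δ = 1 := by
    rcases sg_unit δ with h1 | h1 <;> rw [h1] <;> norm_num
  obtain ⟨r, hr⟩ := rat_sq (q := ((∏ q ∈ T, q : ℕ) : ℚ) / |δ|)
    (div_pos hPpos (abs_pos.2 hδ)) (by
      intro p hp
      have := Fact.mk hp
      rw [padicValRat.div hPpos.ne' (abs_ne_zero.2 hδ), padicValRat.of_nat, val_prod T hT]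
      have h1 : padicValRat p |δ| = padicValRat p δ := by
        rcases abs_choice δ with h2 | h2 <;> rw [h2]
        exact padicValRat.neg δ
      rw [h1]
      by_cases hpT : p ∈ T
      · rw [if_pos hpT]
        have h2 := (h p hp).1 hpT
        rw [Int.not_even_iff_odd] at h2
        push_cast
        exact Odd.sub_odd odd_one h2
      · rw [if_neg hpT]
        have h2 := mt (h p hp).2 hpT
        rw [not_not] at h2
        push_cast
        exact Even.sub (by decide) h2)
  refine ⟨r, ?_⟩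
  rw [← hr]
  push_cast
  have h3 : |δ| ≠ 0 := abs_ne_zero.2 hδ
  field_simp
  calc ((sg δ : ℚ) * ∏ x ∈ T, (x : ℚ)) * |δ| = (∏ x ∈ T, (x : ℚ)) * ((sg δ : ℚ) * |δ|) := by ring
    _ = _ := by rw [habs]

end LOCAL_

open LOCAL_ in
theorem p_LOCAL (h1 : T_LOCP) : T_LOCAL := by
  classical
  intro n g c hg hc
  obtain ⟨N, hN0, hN2, hsgn, hloc⟩ := h1 n g c hg hc
  refine ⟨N, hN0, hN2, hsgn, ?_⟩
  intro d δ hd hδ hprod hLA
  have hd0 : d ≠ 0 := hd.ne_zero
  have hex : ∀ p : ℕ, ∃ i : Fin (n + 1), p.Prime → (p : ℤ) ∣ d → ¬ p ∣ N →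
      (¬ Even (padicValRat p (δ i)) ∧ (∀ j, j ≠ i → Even (padicValRat p (δ j))) ∧
        ∃ a ∈ Finset.range p, (p : ℤ) ∣ (g i).eval (a : ℤ) ∧
          ∀ j, j ≠ i → ∀ D : ℤ, ¬ (p : ℤ) ∣ D → (∃ q : ℚ, (D : ℚ) = δ j * q ^ 2) →
            jacobiSym D p = jacobiSym ((g j).eval (a : ℤ)) p) := by
    intro p
    by_cases hp : p.Prime ∧ (p : ℤ) ∣ d ∧ ¬ p ∣ N
    · have := Fact.mk hp.1
      obtain ⟨i, hi⟩ := (hloc p d δ hp.2.2 hd hδ hprod (hLA p)).2 hp.2.1
      exact ⟨i, fun _ _ _ => hi⟩
    · exact ⟨0, fun h1 h2 h3 => absurd ⟨h1, h2, h3⟩ hp⟩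
  choose lam hlam using hex
  set S1 : Fin (n + 1) → Finset ℕ := fun j =>
    N.primeFactors.filter (fun q => ¬ Even (padicValRat q (δ j))) with hS1
  set S2 : Fin (n + 1) → Finset ℕ := fun j =>
    d.natAbs.primeFactors.filter (fun q => ¬ q ∣ N ∧ lam q = j) with hS2
  refine ⟨fun j => sg (δ j) * ∏ q ∈ S1 j, (q : ℤ), ?_, lam, ?_⟩
  · intro j
    have h2 : ∏ q ∈ S1 j, (q : ℤ) ∣ (N : ℤ) := by
      have h3 : ∏ q ∈ S1 j, q ∣ ∏ q ∈ N.primeFactors, q :=
        Finset.prod_dvd_prod_of_subset _ _ _ (Finset.filter_subset _ _)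
      have h4 := Int.natCast_dvd_natCast.2 (h3.trans (Nat.prod_primeFactors_dvd N))
      rwa [Nat.cast_prod] at h4
    rcases sg_unit (δ j) with h3 | h3
    · show sg (δ j) * ∏ q ∈ S1 j, (q : ℤ) ∣ (N : ℤ)
      rw [h3, one_mul]
      exact h2
    · show sg (δ j) * ∏ q ∈ S1 j, (q : ℤ) ∣ (N : ℤ)
      rw [h3, neg_one_mul, neg_dvd]
      exact h2
  · intro p hp hpN
    have hpp : p.Prime := Nat.prime_of_mem_primeFactors hp
    have := Fact.mk hpp
    have hpd : (p : ℤ) ∣ d := Int.natCast_dvd.2 (Nat.dvd_of_mem_primeFactors hp)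
    obtain ⟨hodd, heven, a, ha, hroot, hjac⟩ := hlam p hpp hpd hpN
    refine ⟨fun j => if j = lam p then 1 else jacobiSym ((g j).eval (a : ℤ)) p, ?_, ?_⟩
    · unfold signs
      simp only [Finset.mem_image, Finset.bind_def, Finset.pure_def, Finset.mem_sup,
        Finset.mem_singleton, Finset.mem_filter]
      refine ⟨(a : ℤ), ⟨a, ⟨ha, hroot⟩, rfl⟩, ?_⟩
      funext j
      by_cases hj : j = lam p
      · simp [hj]
      · simp [hj]
    · intro j hj
      simp only [if_neg hj]
      have hdisj : Disjoint (S1 j) (S2 j) := by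
        rw [Finset.disjoint_left]
        intro q hq hq2
        exact (Finset.mem_filter.1 hq2).2.1
          (Nat.dvd_of_mem_primeFactors (Finset.mem_filter.1 hq).1)
      have hT : ∀ q ∈ S1 j ∪ S2 j, q.Prime := by
        intro q hq
        rcases Finset.mem_union.1 hq with h | h
        · exact Nat.prime_of_mem_primeFactors (Finset.mem_filter.1 h).1
        · exact Nat.prime_of_mem_primeFactors (Finset.mem_filter.1 h).1
      have heq : sg (δ j) * (∏ q ∈ S1 j, (q : ℤ)) * ∏ q ∈ S2 j, (q : ℤ) =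
          sg (δ j) * ∏ q ∈ S1 j ∪ S2 j, (q : ℤ) := by
        rw [Finset.prod_union hdisj, mul_assoc]
      show jacobiSym (sg (δ j) * (∏ q ∈ S1 j, (q : ℤ)) * ∏ q ∈ S2 j, (q : ℤ)) p = _
      rw [heq]
      refine hjac j hj _ ?_ ?_
      · intro hdvd
        have h2 : (p : ℤ) ∣ ∏ q ∈ S1 j ∪ S2 j, (q : ℤ) := by
          rcases sg_unit (δ j) with h3 | h3
          · rw [h3, one_mul] at hdvd
            exact hdvd
          · rw [h3, neg_one_mul, dvd_neg] at hdvd
            exact hdvd
        have hpi : Prime (p : ℤ) := Nat.prime_iff_prime_int.1 hpp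
        obtain ⟨q, hq, hpq⟩ := hpi.exists_mem_finset_dvd h2
        have hpq' : p ∣ q := by exact_mod_cast hpq
        have hpqe : p = q := (Nat.prime_dvd_prime_iff_eq hpp (hT q hq)).1 hpq'
        subst hpqe
        rcases Finset.mem_union.1 hq with h | h
        · exact hpN (Nat.dvd_of_mem_primeFactors (Finset.mem_filter.1 h).1)
        · exact hj (Finset.mem_filter.1 h).2.2.symm
      · refine twist (hδ j) _ hT ?_
        intro q hq
        have := Fact.mk hq
        rw [Finset.mem_union]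
        by_cases hqN : q ∣ N
        · constructor
          · rintro (h | h)
            · exact (Finset.mem_filter.1 h).2
            · exact absurd hqN (Finset.mem_filter.1 h).2.1
          · intro h
            exact Or.inl (Finset.mem_filter.2 ⟨Nat.mem_primeFactors.2 ⟨hq, hqN, hN0.ne'⟩, h⟩)
        · by_cases hqd : (q : ℤ) ∣ d
          · obtain ⟨ho, he, _⟩ := hlam q hq hqd hqN
            have hqm : q ∈ d.natAbs.primeFactors :=
              Nat.mem_primeFactors.2 ⟨hq, Int.natCast_dvd.1 hqd, Int.natAbs_ne_zero.2 hd0⟩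
            constructor
            · rintro (h | h)
              · exact absurd (Nat.dvd_of_mem_primeFactors (Finset.mem_filter.1 h).1) hqN
              · rw [← (Finset.mem_filter.1 h).2.2]
                exact ho
            · intro h
              have hl : lam q = j := by
                by_contra hne
                exact h (he j (Ne.symm hne))
              exact Or.inr (Finset.mem_filter.2 ⟨hqm, hqN, hl⟩)
          · have he := (hloc q d δ hqN hd hδ hprod (hLA q)).1 hqd j
            constructor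
            · rintro (h | h)
              · exact absurd (Nat.dvd_of_mem_primeFactors (Finset.mem_filter.1 h).1) hqN
              · exact absurd (Int.natCast_dvd.2
                  (Nat.dvd_of_mem_primeFactors (Finset.mem_filter.1 h).1)) hqd
            · intro h
              exact absurd he h

end Pool.Agent.QTw
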