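import Pool.Agent.QTw.Targets

set_option autoImplicit false

namespace Pool.Agent.QTw

namespace NEWTON_

lemma approx {K M : Type} [Field K] [CharZero K] [Field M] [Algebra K M]
    (v : Valuation M (WithZero (Multiplicative ℤ))) (u : K) (h : M)
    (hu : h ^ 2 = algebraMap K M u) (h1 : v (h - 1) < 1) (h2 : v 2 = 1) (n : ℕ) :
    ∃ k : K, v (algebraMap K M k - 1) < 1 ∧ v (algebraMap K M k - h) ≤ v (h - 1) ^ (n + 1) := by
  induction n with
  | zero => exact ⟨1, by simp, by rw [map_one, zero_add, pow_one, Valuation.map_sub_swap]⟩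
  | succ n ih =>
    obtain ⟨k, hk1, hk2⟩ := ih
    have hvk : v (algebraMap K M k) = 1 := by
      have := v.map_sub_eq_of_lt_right (x := algebraMap K M k - 1) (y := -1)
        (by rwa [Valuation.map_neg, map_one])
      simpa using this
    have hk0 : k ≠ 0 := by
      rintro rfl
      simp at hvk
    have hK0 : algebraMap K M k ≠ 0 := by
      rwa [Ne, map_eq_zero]
    have h20 : (2 : M) ≠ 0 := by
      intro h
      rw [h, map_zero] at h2
      exact zero_ne_one h2
    have key : algebraMap K M ((k + u / k) / 2) - h =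
        (algebraMap K M k - h) ^ 2 / (2 * algebraMap K M k) := by
      rw [map_div₀, map_add, map_div₀, map_ofNat, ← hu]
      field_simp
      ring
    have hv : v (algebraMap K M ((k + u / k) / 2) - h) = v (algebraMap K M k - h) ^ 2 := by
      rw [key, map_div₀, map_pow, map_mul, h2, hvk, one_mul, div_one]
    have hle : v (algebraMap K M ((k + u / k) / 2) - h) ≤ v (h - 1) ^ (n + 1 + 1) := by
      rw [hv]
      calc v (algebraMap K M k - h) ^ 2 ≤ (v (h - 1) ^ (n + 1)) ^ 2 :=
            pow_le_pow_left₀ zero_le hk2 2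
        _ = v (h - 1) ^ ((n + 1) * 2) := by rw [pow_mul]
        _ ≤ _ := pow_le_pow_right_of_le_one' h1.le (by omega)
    refine ⟨(k + u / k) / 2, ?_, hle⟩
    have hlt : v (algebraMap K M ((k + u / k) / 2) - h) < 1 :=
      hle.trans_lt (pow_lt_one₀ zero_le h1 (by omega))
    have : algebraMap K M ((k + u / k) / 2) - 1 =
        (algebraMap K M ((k + u / k) / 2) - h) + (h - 1) := by ring
    rw [this]
    exact v.map_add_lt hlt h1

end NEWTON_

open NEWTON_ in
theorem p_NEWTON : T_NEWTON := by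
  intro K M _ _ _ _ v u h hu h1 h2 hab hsurj γ
  rcases eq_or_ne γ 0 with rfl | hγ
  · exact ⟨0, map_zero _⟩
  obtain ⟨m, hm⟩ := hsurj γ
  obtain ⟨a, b, hmab⟩ := hab m
  rcases eq_or_ne b 0 with rfl | hb
  · refine ⟨a, ?_⟩
    rw [Valuation.comap_apply, ← hm, hmab]
    simp
  have hvb : v (algebraMap K M b) ≠ 0 := by
    rwa [Ne, Valuation.zero_iff, map_eq_zero]
  obtain ⟨n, hn⟩ := exists_pow_lt₀ h1 (Units.mk0 (γ / v (algebraMap K M b)) (div_ne_zero hγ hvb))
  rw [Units.val_mk0] at hn
  obtain ⟨k, hk1, hk2⟩ := approx v u h hu h1 h2 n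
  refine ⟨a + b * k, ?_⟩
  rw [Valuation.comap_apply, ← hm]
  have h3 : v (algebraMap K M b * (algebraMap K M k - h)) < v m := by
    rw [map_mul, hm]
    have h4 : v (algebraMap K M k - h) < γ / v (algebraMap K M b) :=
      hk2.trans_lt ((pow_le_pow_right_of_le_one' h1.le (by omega)).trans_lt hn)
    rwa [lt_div_iff₀ (zero_lt_iff.2 hvb), mul_comm] at h4
  have h5 : algebraMap K M (a + b * k) = m + algebraMap K M b * (algebraMap K M k - h) := by
    rw [hmab, map_add, map_mul]
    ring
  rw [h5]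
  exact v.map_add_eq_of_lt_left h3

end Pool.Agent.QTw
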