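import Pool.Agent.QTw.Targets
import Mathlib.Analysis.Calculus.InverseFunctionTheorem.Deriv

/-!
# PTR: real points with a transcendental coordinate
-/

open Polynomial

namespace Pool.Agent.QTw

namespace PTR_

open Filter Topology

theorem dense_trans : Dense {η : ℝ | Transcendental ℚ η} := by
  have h1 : ({η : ℝ | IsAlgebraic ℚ η}).Countable := Algebraic.countable ℚ ℝ
  have h2 := h1.dense_compl ℝ
  exact h2

theorem alg_of (f : ℤ[X]) (d : ℤ) (hd : d ≠ 0) (ξ η : ℝ)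
    (h : (d : ℝ) * η ^ 2 = aeval ξ f) (hξ : IsAlgebraic ℚ ξ) : IsAlgebraic ℚ η := by
  have hξ' : IsIntegral ℚ ξ := hξ.isIntegral
  have h1 : IsIntegral ℚ (aeval ξ f) := by
    rw [aeval_eq_sum_range]
    refine IsIntegral.sum _ fun i _ => ?_
    rw [zsmul_eq_mul]
    refine IsIntegral.mul ?_ (hξ'.pow i)
    have := isIntegral_algebraMap (R := ℚ) (A := ℝ) (x := ((f.coeff i : ℤ) : ℚ))
    simpa using this
  have hd' : (d : ℝ) ≠ 0 := by exact_mod_cast hd
  have h2 : η ^ 2 = ((d : ℝ))⁻¹ * aeval ξ f := by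
    rw [← h]; field_simp
  have h3 : IsIntegral ℚ (((d : ℝ))⁻¹) := by
    have := isIntegral_algebraMap (R := ℚ) (A := ℝ) (x := (((d : ℤ) : ℚ))⁻¹)
    simpa using this
  have h4 : IsIntegral ℚ (η ^ 2) := by
    rw [h2]; exact h3.mul h1
  exact IsAlgebraic.of_pow (n := 2) (by norm_num) h4.isAlgebraic

theorem surj_near (f : ℤ[X]) (θ : ℝ) (h0 : aeval θ f = 0)
    (h1 : aeval θ (derivative f) ≠ 0) : ∀ᶠ y in 𝓝 (0 : ℝ), ∃ ξ : ℝ, aeval ξ f = y := by
  have h2 : HasStrictDerivAt (fun x : ℝ => aeval x f) (aeval θ (derivative f)) θ :=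
    f.hasStrictDerivAt_aeval θ
  have h3 : map (fun x : ℝ => aeval x f) (𝓝 θ) = 𝓝 (0 : ℝ) := by
    have := h2.map_nhds_eq h1
    rwa [h0] at this
  rw [← h3]
  exact Filter.eventually_map.2 (Eventually.of_forall fun x => ⟨x, rfl⟩)

end PTR_

theorem p_PTR : T_PTR := by
  intro f d θ hd h0 h1
  have h2 := PTR_.surj_near f θ h0 h1
  have h3 : Filter.Tendsto (fun η : ℝ => (d : ℝ) * η ^ 2) (nhds 0) (nhds 0) := by
    have : Continuous (fun η : ℝ => (d : ℝ) * η ^ 2) := by fun_prop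
    have h4 := this.tendsto 0
    simpa using h4
  have h4 := h3.eventually h2
  obtain ⟨η, hη, ⟨ξ, hξ⟩⟩ := (PTR_.dense_trans.inter_nhds_nonempty h4)
  refine ⟨ξ, η, ?_, hξ.symm⟩
  intro hal
  exact hη (PTR_.alg_of f d hd ξ η hξ.symm hal)

end Pool.Agent.QTw
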