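import Pool.Agent.QTw.Targets

/-!
# QUAD: the extension by a square root of an element with even divisor is unramified
-/

open Polynomial

namespace Pool.Agent.QTw

namespace QUAD_

variable {K Ω : Type} [Field K] [Field Ω] [Algebra K Ω]

/-- every element of `K(γ)` is `a + b γ` -/
theorem repr {u : K} {γ : Ω} (hγ : γ ^ 2 = algebraMap K Ω u)
    (m : IntermediateField.adjoin K {γ}) : ∃ a b : K, m =
      algebraMap K (IntermediateField.adjoin K {γ}) a +
      algebraMap K (IntermediateField.adjoin K {γ}) b *
        ⟨γ, IntermediateField.mem_adjoin_simple_self K γ⟩ := by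
  have hmon : (X ^ 2 - C u : K[X]).Monic := monic_X_pow_sub_C u two_ne_zero
  have hroot : aeval γ (X ^ 2 - C u : K[X]) = 0 := by
    simp [hγ]
  have hint : IsIntegral K γ := ⟨X ^ 2 - C u, hmon, by
    rw [← Polynomial.aeval_def]; exact hroot⟩
  obtain ⟨m, hm⟩ := m
  have hm' : m ∈ (IntermediateField.adjoin K {γ}).toSubalgebra := hm
  rw [IntermediateField.adjoin_simple_toSubalgebra_of_isAlgebraic hint.isAlgebraic,
    Algebra.adjoin_singleton_eq_range_aeval] at hm'
  obtain ⟨p, rfl⟩ := hm'
  have h1 : aeval γ (p %ₘ (X ^ 2 - C u)) = aeval γ p :=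
    Polynomial.aeval_modByMonic_eq_self_of_root hroot
  have hdeg : (p %ₘ (X ^ 2 - C u)).natDegree ≤ 1 := by
    have h2 := Polynomial.natDegree_modByMonic_lt p hmon (by
      intro h0
      have := congrArg Polynomial.natDegree h0
      rw [Polynomial.natDegree_X_pow_sub_C, Polynomial.natDegree_one] at this
      omega)
    rw [Polynomial.natDegree_X_pow_sub_C] at h2
    omega
  obtain ⟨b, a, hab⟩ := Polynomial.exists_eq_X_add_C_of_natDegree_le_one hdeg
  refine ⟨a, b, ?_⟩
  apply Subtype.ext
  have h3 : aeval γ p = algebraMap K Ω a + algebraMap K Ω b * γ := by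
    rw [← h1, hab]
    simp
    ring
  simpa using h3

end QUAD_

open QUAD_ in
theorem p_QUAD (h1 : T_RES) (h2 : T_NEWTON) : T_QUAD := by
  intro k K Ω _ _ _ _ _ _ _ htr u hu hw γ hγ
  have hchar : CharZero K := charZero_of_injective_algebraMap (algebraMap k K).injective
  have hrep := repr hγ
  set M := IntermediateField.adjoin K {γ} with hM
  set g : M := ⟨γ, IntermediateField.mem_adjoin_simple_self K γ⟩ with hg
  replace hrep : ∀ m : M, ∃ a b : K, m = algebraMap K M a + algebraMap K M b * g := hrep
  have hσ : ∀ (σ : M ≃ₐ[K] M) (a b : K), σ (algebraMap K M a + algebraMap K M b * g) =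
      algebraMap K M a + algebraMap K M b * σ g := by
    intro σ a b
    rw [map_add, map_mul, AlgEquiv.commutes, AlgEquiv.commutes]
  have hg2 : g ^ 2 = algebraMap K M u := by
    apply Subtype.ext
    simpa using hγ
  have hu' : algebraMap K M u ≠ 0 := by
    rw [Ne, map_eq_zero]
    exact hu
  have hg0 : g ≠ 0 := by
    intro h0
    apply hu'
    rw [← hg2, h0]
    ring
  have hsplit : IsSplittingField K M (X ^ 2 - C u : K[X]) := by
    refine ⟨?_, ?_⟩
    · have e : (X ^ 2 - C u : K[X]).map (algebraMap K M) = (X - C g) * (X + C g) := by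
        rw [Polynomial.map_sub, Polynomial.map_pow, Polynomial.map_X, Polynomial.map_C, ← hg2,
          C_pow]
        ring
      rw [e]
      exact (Polynomial.Splits.X_sub_C g).mul (Polynomial.Splits.X_add_C g)
    · rw [eq_top_iff]
      intro m _
      obtain ⟨a, b, rfl⟩ := hrep m
      refine Subalgebra.add_mem _ (Subalgebra.algebraMap_mem _ a)
        (Subalgebra.mul_mem _ (Subalgebra.algebraMap_mem _ b) (Algebra.subset_adjoin ?_))
      rw [Polynomial.mem_rootSet]
      refine ⟨Polynomial.X_pow_sub_C_ne_zero (by omega) u, ?_⟩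
      simp [hg2]
  have hgal : IsGalois K M := by
    refine IsGalois.of_separable_splitting_field (p := (X ^ 2 - C u : K[X])) ?_
    exact Polynomial.separable_X_pow_sub_C u (by norm_num) hu
  have hfin : FiniteDimensional K M :=
    Polynomial.IsSplittingField.finiteDimensional M (X ^ 2 - C u : K[X])
  have haut : ∀ σ : M ≃ₐ[K] M, σ g = g ∨ σ g = -g := by
    intro σ
    have e : (σ g) ^ 2 = g ^ 2 := by
      rw [← map_pow, hg2]
      exact σ.commutes u
    exact sq_eq_sq_iff_eq_or_eq_neg.1 e
  refine ⟨⟨hfin, hgal, ?_, ?_⟩, ?_⟩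
  · intro σ τ
    refine AlgEquiv.ext fun m => ?_
    obtain ⟨a, b, rfl⟩ := hrep m
    rw [AlgEquiv.mul_apply, AlgEquiv.mul_apply, hσ, hσ]
    rcases haut σ with h | h <;> rcases haut τ with h' | h'
    · rw [h, h', hσ, hσ, h, h']
    · rw [h, h', mul_neg, ← neg_mul, ← map_neg, hσ, hσ, h, h', map_neg]
      ring
    · rw [h, h', mul_neg, ← neg_mul, ← map_neg, hσ, hσ, h, h', map_neg]
      ring
    · rw [h, h', mul_neg, ← neg_mul, ← map_neg, hσ, hσ, h, h']
  · intro σ
    refine AlgEquiv.ext fun m => ?_
    obtain ⟨a, b, rfl⟩ := hrep m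
    rw [pow_two, AlgEquiv.mul_apply, hσ, AlgEquiv.one_apply]
    rcases haut σ with h | h
    · rw [h, hσ, h]
    · rw [h, mul_neg, ← neg_mul, ← map_neg, hσ, h, map_neg]
      ring
  · intro v hv
    set w := v.comap (algebraMap K M) with hwdef
    have hwv : ∀ x : K, w x = v (algebraMap K M x) := fun x => rfl
    have hnt : ∃ z : K, z ≠ 0 ∧ w z ≠ 1 := by
      by_contra hcon
      push Not at hcon
      have hvg : v g = 1 := by
        have e : v g ^ 2 = 1 := by
          rw [← map_pow, hg2, ← hwv]
          exact hcon u hu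
        exact (pow_eq_one_iff.1 e).resolve_right (by norm_num)
      have hle : ∀ x : K, w x ≤ 1 := by
        intro x
        by_cases hx : x = 0
        · rw [hx, map_zero]; exact zero_le
        · exact (hcon x hx).le
      have hall : ∀ m : M, v m ≤ 1 := by
        intro m
        obtain ⟨a, b, rfl⟩ := hrep m
        refine (v.map_add _ _).trans (max_le (hle a) ?_)
        rw [map_mul, hvg, mul_one]
        exact hle b
      obtain ⟨m, hm⟩ := hv ((Multiplicative.ofAdd (1 : ℤ) : Multiplicative ℤ) :
        WithZero (Multiplicative ℤ))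
      have := hall m
      rw [hm, ← WithZero.coe_one, WithZero.coe_le_coe] at this
      have h3 : (Multiplicative.ofAdd (1 : ℤ)).toAdd ≤ (1 : Multiplicative ℤ).toAdd := this
      simp at h3
    obtain ⟨hc1, hc2⟩ := h1 k K htr w hnt
    obtain ⟨z, hz, hzu⟩ := hw w hnt
    have hwz : w z ≠ 0 := (Valuation.ne_zero_iff w).2 hz
    have hwu : w (u / z ^ 2) = 1 := by
      rw [map_div₀, map_pow, hzu]
      exact div_self (pow_ne_zero 2 hwz)
    obtain ⟨c, hc⟩ := hc2 _ hwu
    have hc0 : c ≠ 0 := by
      intro h0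
      rw [h0, map_zero, sub_zero, hwu] at hc
      exact lt_irrefl _ hc
    obtain ⟨b, hb⟩ := IsAlgClosed.exists_pow_nat_eq c (n := 2) (by omega)
    have hb0 : b ≠ 0 := by
      intro h0
      apply hc0
      rw [← hb, h0]
      ring
    set B := algebraMap k K b with hB
    have hBc : B ^ 2 = algebraMap k K c := by rw [hB, ← map_pow, hb]
    have hB0 : B ≠ 0 := by
      rw [hB, Ne, map_eq_zero]
      exact hb0
    have hzB : algebraMap K M (z * B) ≠ 0 := by
      rw [Ne, map_eq_zero]
      exact mul_ne_zero hz hB0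
    set h : M := g / algebraMap K M (z * B) with hh
    have hgh : g = algebraMap K M (z * B) * h := by
      rw [hh]
      field_simp
    have hh2 : h ^ 2 = algebraMap K M (u / (z * B) ^ 2) := by
      rw [hh, div_pow, hg2, map_div₀, map_pow]
    have hrep' : ∀ m : M, ∃ a b : K, m = algebraMap K M a + algebraMap K M b * h := by
      intro m
      obtain ⟨a, b', rfl⟩ := hrep m
      refine ⟨a, b' * (z * B), ?_⟩
      rw [hgh, map_mul (algebraMap K M) b']
      ring
    have hv2 : v 2 = 1 := by
      have e := hc1 2 (by norm_num)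
      rw [hwv, map_ofNat, map_ofNat] at e
      exact e
    have hsmall : v (h ^ 2 - 1) < 1 := by
      have e : h ^ 2 - 1 = algebraMap K M ((u / z ^ 2 - algebraMap k K c) / algebraMap k K c) := by
        rw [hh2, ← map_one (algebraMap K M), ← map_sub, ← hBc]
        congr 1
        field_simp
      rw [e, ← hwv, map_div₀, hc1 c hc0, div_one]
      exact hc
    have hor : v (h - 1) < 1 ∨ v (h + 1) < 1 := by
      by_contra hcon
      push Not at hcon
      have e : h ^ 2 - 1 = (h - 1) * (h + 1) := by ring
      rw [e, map_mul] at hsmall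
      exact absurd hsmall (not_lt.2 (one_le_mul hcon.1 hcon.2))
    rcases hor with ho | ho
    · exact h2 K M v _ h hh2 ho hv2 hrep' hv
    · refine h2 K M v _ (-h) (by rw [neg_sq, hh2]) ?_ hv2 ?_ hv
      · have e : -h - 1 = -(h + 1) := by ring
        rw [e, Valuation.map_neg]
        exact ho
      · intro m
        obtain ⟨a, b', hm⟩ := hrep' m
        refine ⟨a, -b', ?_⟩
        rw [hm, map_neg]
        ring

end Pool.Agent.QTw
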