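import Pool.Agent.QTw.Targets

/-!
# Quadratic twists: removing the primes dividing `N`
-/

namespace Pool.Agent.QTw

namespace RED_

theorem primeFactors_div {m N : ℕ} (hm : Squarefree m) (p : ℕ) :
    p ∈ (m / Nat.gcd m N).primeFactors ↔ p ∈ m.primeFactors ∧ ¬ p ∣ N := by
  have hm0 : m ≠ 0 := hm.ne_zero
  have hd : Nat.gcd m N ∣ m := Nat.gcd_dvd_left m N
  have hg0 : 0 < Nat.gcd m N := Nat.gcd_pos_of_pos_left _ (Nat.pos_of_ne_zero hm0)
  have he : m / Nat.gcd m N * Nat.gcd m N = m := Nat.div_mul_cancel hd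
  have hq0 : m / Nat.gcd m N ≠ 0 := by
    intro h
    rw [h, zero_mul] at he
    exact hm0 he.symm
  constructor
  · intro hp
    have hpp := Nat.prime_of_mem_primeFactors hp
    have hpd := Nat.dvd_of_mem_primeFactors hp
    have hpm : p ∣ m := hpd.trans (Nat.div_dvd_of_dvd hd)
    refine ⟨Nat.mem_primeFactors.2 ⟨hpp, hpm, hm0⟩, ?_⟩
    intro hN
    have h1 : p ∣ Nat.gcd m N := Nat.dvd_gcd hpm hN
    have h2 : p * p ∣ m := by
      rw [← he]
      exact mul_dvd_mul hpd h1
    have h3 := hm p h2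
    exact hpp.one_lt.ne' (Nat.isUnit_iff.1 h3)
  · rintro ⟨hp, hN⟩
    have hpp := Nat.prime_of_mem_primeFactors hp
    have hpm := Nat.dvd_of_mem_primeFactors hp
    refine Nat.mem_primeFactors.2 ⟨hpp, ?_, hq0⟩
    rw [← he] at hpm
    rcases (hpp.dvd_mul).1 hpm with h | h
    · exact h
    · exact absurd (h.trans (Nat.gcd_dvd_right m N)) hN

theorem bad_div {ι : Type} [DecidableEq ι] {N : ℕ} {V : ι → ℕ → Finset (ι → ℤ)} {m : ℕ}
    (hm : Squarefree m) (hB : Bad N V m) : Bad N V (m / Nat.gcd m N) := by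
  obtain ⟨u, hu, lam, h⟩ := hB
  refine ⟨u, hu, lam, fun p hp hpN => ?_⟩
  obtain ⟨v, hv, hv2⟩ := h p ((primeFactors_div hm p).1 hp).1 hpN
  refine ⟨v, hv, fun j hj => ?_⟩
  rw [← hv2 j hj]
  have hf : (m / Nat.gcd m N).primeFactors.filter (fun q => ¬ q ∣ N ∧ lam q = j) =
      m.primeFactors.filter (fun q => ¬ q ∣ N ∧ lam q = j) := by
    ext q
    simp only [Finset.mem_filter, primeFactors_div hm]
    tauto
  rw [hf]

end RED_

open RED_

theorem p_RED : T_RED := by
  classical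
  intro ι _ N X V hN
  refine Finset.card_le_mul_card_image_of_maps_to (f := fun m => m / Nat.gcd m N) ?_ N ?_
  · intro m hm
    rw [Finset.mem_filter, Finset.mem_range] at hm
    obtain ⟨hmX, hsq, hB⟩ := hm
    rw [Finset.mem_filter, Finset.mem_range]
    refine ⟨lt_of_le_of_lt (Nat.div_le_self _ _) hmX, ?_, ?_, bad_div hsq hB⟩
    · exact hsq.squarefree_of_dvd (Nat.div_dvd_of_dvd (Nat.gcd_dvd_left m N))
    · intro p hp
      exact ((primeFactors_div hsq p).1 hp).2
  · intro b _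
    have hc : (Finset.Icc 1 N).card = N := by rw [Nat.card_Icc]; omega
    refine le_trans (Finset.card_le_card_of_injOn (t := Finset.Icc 1 N)
      (fun m => Nat.gcd m N) ?_ ?_) hc.le
    · intro m hm
      rw [Finset.mem_coe, Finset.mem_filter] at hm
      rw [Finset.mem_coe, Finset.mem_Icc]
      exact ⟨Nat.gcd_pos_of_pos_right _ hN, Nat.gcd_le_right _ hN⟩
    · intro m hm m' hm' heq
      rw [Finset.mem_coe, Finset.mem_filter] at hm hm'
      simp only at heq
      have h1 : m / Nat.gcd m N * Nat.gcd m N = m := Nat.div_mul_cancel (Nat.gcd_dvd_left m N)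
      have h2 : m' / Nat.gcd m' N * Nat.gcd m' N = m' :=
        Nat.div_mul_cancel (Nat.gcd_dvd_left m' N)
      rw [← h1, ← h2, hm.2, hm'.2, heq]

end Pool.Agent.QTw
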