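import Pool.Agent.QTw.Targets

set_option autoImplicit false

/-!
# QTW-SMALL: crude bound for the sum over the small primes
-/

open Polynomial

namespace Pool.Agent.QTw

namespace SMALL_

theorem blk_mono {p z : ℕ} (h : p ≤ z) : blk p ≤ blk z :=
  Nat.log_mono_right (Nat.log_mono_right h)

theorem blk_le (z : ℕ) (hz : 3 ≤ z) : (blk z : ℝ) ≤ Real.log (Real.log z) + 1 := by
  have hz0 : (0 : ℝ) < z := by
    have : 0 < z := by omega
    exact_mod_cast this
  have h1 : Nat.log 2 z ≠ 0 := by
    have : 0 < Nat.log 2 z := Nat.log_pos (by norm_num) (by omega)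
    omega
  have h2 : 16 ^ blk z ≤ Nat.log 2 z := Nat.pow_log_le_self 16 h1
  have h3 : 2 ^ Nat.log 2 z ≤ z := Nat.pow_log_le_self 2 (by omega)
  have h4 : (Nat.log 2 z : ℝ) * Real.log 2 ≤ Real.log z := by
    rw [← Real.log_pow]
    refine Real.log_le_log (by positivity) ?_
    exact_mod_cast h3
  have h5 : (16 : ℝ) ^ blk z ≤ Nat.log 2 z := by exact_mod_cast h2
  have h6 := Real.log_two_gt_d9
  have h7 : (16 : ℝ) ^ blk z * Real.log 2 ≤ Real.log z :=
    (mul_le_mul_of_nonneg_right h5 (by linarith)).trans h4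
  have h8 : (0 : ℝ) < (16 : ℝ) ^ blk z := by positivity
  have h9 : 0 < Real.log z := lt_of_lt_of_le (mul_pos h8 (by linarith)) h7
  have h10 : ((blk z : ℝ) - 1) ≤ Real.log (Real.log z) := by
    rw [Real.le_log_iff_exp_le h9]
    refine le_trans ?_ h7
    rw [Real.exp_sub, div_le_iff₀ (Real.exp_pos 1)]
    have e1 : Real.exp (blk z : ℝ) = Real.exp 1 ^ blk z := by
      rw [← Real.exp_nat_mul]
      simp
    have e2 : Real.exp 1 ^ blk z ≤ (16 : ℝ) ^ blk z := by
      refine pow_le_pow_left₀ (Real.exp_pos 1).le ?_ _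
      have := Real.exp_one_lt_d9
      linarith
    have e3 : 1 ≤ Real.log 2 * Real.exp 1 := by
      have := Real.exp_one_gt_d9
      nlinarith
    rw [e1]
    calc Real.exp 1 ^ blk z ≤ (16 : ℝ) ^ blk z := e2
      _ = (16 : ℝ) ^ blk z * 1 := (mul_one _).symm
      _ ≤ (16 : ℝ) ^ blk z * (Real.log 2 * Real.exp 1) := mul_le_mul_of_nonneg_left e3 h8.le
      _ = _ := by ring
  linarith

end SMALL_

/-- SMALL: crude bound for the sum over the small primes. -/
theorem p_SMALL (h1 : T_BLOCK) : T_SMALL := by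
  obtain ⟨B, hB⟩ := h1
  have hB0 : 0 ≤ B := by
    have := hB 0 0
    refine le_trans (Finset.sum_nonneg fun p _ => by positivity) this
  refine ⟨2 * B, by positivity, fun z hz => ?_⟩
  have hsum : ∑ p ∈ (Finset.range (z + 1)).filter Nat.Prime, 1 / (p : ℝ) =
      ∑ k ∈ Finset.range (blk z + 1),
        ∑ p ∈ (Finset.range (z + 1)).filter (fun p => p.Prime ∧ blk p = k), 1 / (p : ℝ) := by
    rw [← Finset.sum_fiberwise_of_maps_to (g := blk) (t := Finset.range (blk z + 1))]
    · refine Finset.sum_congr rfl fun k _ => ?_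
      refine Finset.sum_congr ?_ fun _ _ => rfl
      rw [Finset.filter_filter]
    · intro p hp
      rw [Finset.mem_filter, Finset.mem_range] at hp
      rw [Finset.mem_range]
      have := SMALL_.blk_mono (p := p) (z := z) (by omega)
      omega
  have h2 : ∑ p ∈ (Finset.range (z + 1)).filter Nat.Prime, 1 / (p : ℝ) ≤ (blk z + 1) * B := by
    rw [hsum]
    refine (Finset.sum_le_card_nsmul _ _ B fun k _ => hB k z).trans (le_of_eq ?_)
    rw [Finset.card_range, nsmul_eq_mul]
    push_cast
    ring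
  have h3 := SMALL_.blk_le z hz
  have h4 : 0 ≤ Real.log (Real.log z) := by
    refine Real.log_nonneg ?_
    have h5 : (3 : ℝ) ≤ z := by exact_mod_cast hz
    rw [Real.le_log_iff_exp_le (by linarith)]
    have := Real.exp_one_lt_d9
    linarith
  refine h2.trans ?_
  nlinarith

end Pool.Agent.QTw
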