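import Pool.Agent.QTw.Targets

open Polynomial

namespace Pool.Agent.QTw

namespace SQRT_

/-- a discrete valuation is trivial on an algebraically closed field -/
lemma val_one {k K : Type} [Field k] [IsAlgClosed k] [Field K] [Algebra k K]
    (w : Valuation K (WithZero (Multiplicative ℤ))) (c : k) (hc : c ≠ 0) :
    w (algebraMap k K c) = 1 := by
  have h0 : algebraMap k K c ≠ 0 := (_root_.map_ne_zero _).2 hc
  have hw0 : w (algebraMap k K c) ≠ 0 := (Valuation.ne_zero_iff _).2 h0
  obtain ⟨m, hm⟩ : ∃ m : ℤ, WithZero.log (w (algebraMap k K c)) = m := ⟨_, rfl⟩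
  obtain ⟨b, hb⟩ := IsAlgClosed.exists_pow_nat_eq c (n := m.natAbs + 1) (Nat.succ_pos _)
  have h1 : m = (m.natAbs + 1 : ℕ) * WithZero.log (w (algebraMap k K b)) := by
    have h2 : WithZero.log (w (algebraMap k K c)) =
        (m.natAbs + 1 : ℕ) * WithZero.log (w (algebraMap k K b)) := by
      rw [← hb, map_pow, map_pow, WithZero.log_pow, nsmul_eq_mul]
    rwa [hm] at h2
  have h2 : ((m.natAbs + 1 : ℕ) : ℤ) ∣ m := ⟨_, h1⟩
  have h3 : m = 0 := by
    by_contra h
    have := Int.le_of_dvd (by positivity) ((dvd_abs _ _).2 h2)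
    rw [Int.abs_eq_natAbs] at this
    push_cast at this
    omega
  rw [h3] at hm
  rw [← WithZero.exp_log hw0, hm]
  rfl

end SQRT_

theorem p_SQRT (h1 : T_QUAD) (h2 : T_EVEN) (h3 : T_TRD) : T_SQRT := by
  intro F E _ _ _ _ _ x y f d g h hF hC hd hf hcop hge hhe hg hh
  have hcl : IsAlgClosed (algebraicClosure ℚ (AlgebraicClosure E)) :=
    (algebraicClosure.isAlgClosure ℚ (AlgebraicClosure E)).isAlgClosed
  have hmem : ∀ a : F, algebraMap F (AlgebraicClosure E) a ∈ geomField F E := fun a =>
    IntermediateField.subset_adjoin _ _ ⟨a, rfl⟩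
  set x' : geomField F E := ⟨algebraMap F (AlgebraicClosure E) x, hmem x⟩ with hx'
  set y' : geomField F E := ⟨algebraMap F (AlgebraicClosure E) y, hmem y⟩ with hy'
  have hinj : Function.Injective (algebraMap (geomField F E) (AlgebraicClosure E)) :=
    (algebraMap (geomField F E) (AlgebraicClosure E)).injective
  have hxx : algebraMap (geomField F E) (AlgebraicClosure E) x' =
    algebraMap F (AlgebraicClosure E) x := rfl
  have hyy : algebraMap (geomField F E) (AlgebraicClosure E) y' =
    algebraMap F (AlgebraicClosure E) y := rfl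
  have haev : ∀ P : ℚ[X], algebraMap (geomField F E) (AlgebraicClosure E) (aeval x' P) =
      algebraMap F (AlgebraicClosure E) (aeval x P) := by
    intro P
    rw [← aeval_algebraMap_apply, ← aeval_algebraMap_apply, hxx]
  have htr : Transcendental ℚ x' := by
    have h4 : Transcendental ℚ (algebraMap F (AlgebraicClosure E) x) :=
      (transcendental_algebraMap_iff (algebraMap F (AlgebraicClosure E)).injective).2
        hF.transcendental
    rw [← hxx] at h4
    exact (transcendental_algebraMap_iff hinj).1 h4
  have hfgh : aeval x f = aeval x (g * h) := by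
    rw [← hf]
    exact (aeval_map_algebraMap ℚ x f).symm
  have heq : (d : geomField F E) * y' ^ 2 = aeval x' (g * h) := by
    apply hinj
    rw [haev, ← hfgh, ← hF.equation, map_mul, map_mul, map_pow, map_pow, hyy, map_intCast,
      map_intCast]
  set u : geomField F E := aeval x' g with hu
  have hu0 : u ≠ 0 := fun h0 => hg ((transcendental_iff.1 htr) _ h0)
  obtain ⟨γ, hγ⟩ := IsAlgClosed.exists_pow_nat_eq
    (algebraMap (geomField F E) (AlgebraicClosure E) u) (n := 2) two_pos
  have hev : ∀ w : Valuation (geomField F E) (WithZero (Multiplicative ℤ)),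
      (∃ z : geomField F E, z ≠ 0 ∧ w z ≠ 1) → ∃ z : geomField F E, z ≠ 0 ∧ w u = w z ^ 2 := by
    intro w _
    refine h2 (geomField F E) x' y' d g h hd htr heq hcop hge hhe hg hh w (fun q hq => ?_)
    have h5 := SQRT_.val_one (k := algebraicClosure ℚ (AlgebraicClosure E)) w (q : _)
      (by exact_mod_cast hq)
    rwa [map_ratCast] at h5
  have hQ := h1 (algebraicClosure ℚ (AlgebraicClosure E)) (geomField F E) (AlgebraicClosure E)
    (h3 F E x y f d hF hd) u hu0 hev γ hγ
  have hle : IntermediateField.adjoin (geomField F E) {γ} ≤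
      IntermediateField.adjoin (geomField F E) (Set.range (algebraMap E (AlgebraicClosure E))) := by
    rw [hC.geometric]
    exact le_iSup₂_of_le (IntermediateField.adjoin (geomField F E) {γ}) hQ le_rfl
  have hγ' : γ ∈ IntermediateField.adjoin (geomField F E)
      (Set.range (algebraMap E (AlgebraicClosure E))) :=
    hle (IntermediateField.subset_adjoin _ _ rfl)
  refine ⟨γ, ?_, ?_⟩
  · clear hle hQ hγ
    induction hγ' using IntermediateField.adjoin_induction with
    | mem b hb => exact IntermediateField.subset_adjoin _ _ hb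
    | algebraMap q =>
      obtain ⟨q, hq⟩ := q
      have hle2 : geomField F E ≤ IntermediateField.adjoin
          (algebraicClosure ℚ (AlgebraicClosure E))
          (Set.range (algebraMap E (AlgebraicClosure E))) := by
        refine IntermediateField.adjoin_le_iff.2 ?_
        rintro _ ⟨a, rfl⟩
        rw [IsScalarTower.algebraMap_apply F E (AlgebraicClosure E)]
        exact IntermediateField.subset_adjoin _ _ ⟨_, rfl⟩
      exact hle2 hq
    | add a b _ _ h1 h2 => exact add_mem h1 h2
    | inv a _ h1 => exact inv_mem h1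
    | mul a b _ _ h1 h2 => exact mul_mem h1 h2
  · rw [hγ, hu, haev, ← IsScalarTower.algebraMap_apply F E (AlgebraicClosure E)]

end Pool.Agent.QTw
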