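import Pool.Agent.QTw.Targets

open Polynomial Cardinal

namespace Pool.Agent.QTw

namespace TRD_

lemma step {k A : Type} [Field k] [Field A] [Algebra k A] (x : A)
    (hx : ∀ z : A, IsAlgebraic (Algebra.adjoin k {x}) z) (u : A) (hu : Transcendental k u) :
    Algebra.IsAlgebraic (IntermediateField.adjoin k {u}) A := by
  have : Algebra.IsAlgebraic (Algebra.adjoin k {x}) A := ⟨hx⟩
  have h1 : Algebra.trdeg k A ≤ #({x} : Set A) := Algebra.IsAlgebraic.trdeg_le_cardinalMk k {x}
  have h2 : AlgebraicIndependent k (fun _ : Unit => u) := algebraicIndependent_unique_type_iff.2 hu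
  have h3 : IsTranscendenceBasis k (fun _ : Unit => u) :=
    h2.isTranscendenceBasis_of_trdeg_le_of_finite (h1.trans (by simp))
  have h4 := h3.isAlgebraic_field
  rwa [Set.range_const] at h4

end TRD_

theorem p_TRD : T_TRD := by
  intro F E _ _ _ _ _ x y f d hF hd u hu
  have hmem : ∀ a : F, algebraMap F (AlgebraicClosure E) a ∈ geomField F E := fun a =>
    IntermediateField.subset_adjoin _ _ ⟨a, rfl⟩
  set x' : geomField F E := ⟨algebraMap F (AlgebraicClosure E) x, hmem x⟩ with hx'
  refine TRD_.step x' (fun z => ?_) u hu
  set R := Algebra.adjoin (algebraicClosure ℚ (AlgebraicClosure E)) {x'} with hR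
  have hinj : Function.Injective (algebraMap (geomField F E) (AlgebraicClosure E)) :=
    (algebraMap (geomField F E) (AlgebraicClosure E)).injective
  rw [← isAlgebraic_algebraMap_iff hinj]
  have hxalg : IsAlgebraic R (algebraMap F (AlgebraicClosure E) x) := by
    have : algebraMap F (AlgebraicClosure E) x =
        algebraMap R (AlgebraicClosure E) ⟨x', Algebra.subset_adjoin rfl⟩ := rfl
    rw [this]
    exact isAlgebraic_algebraMap _
  have hrat : ∀ q : ℚ, IsAlgebraic R (algebraMap ℚ (AlgebraicClosure E) q) := by
    intro q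
    have : algebraMap ℚ (AlgebraicClosure E) q =
        algebraMap R (AlgebraicClosure E) (algebraMap ℚ R q) := by
      rw [← IsScalarTower.algebraMap_apply]
    rw [this]
    exact isAlgebraic_algebraMap _
  have hyalg : IsAlgebraic R (algebraMap F (AlgebraicClosure E) y) := by
    refine IsAlgebraic.of_pow (n := 2) two_pos ?_
    have h1 := congrArg (algebraMap F (AlgebraicClosure E)) hF.equation
    rw [map_mul, map_intCast, map_pow] at h1
    have h2 : (d : AlgebraicClosure E) ≠ 0 := by exact_mod_cast hd
    have h3 : algebraMap F (AlgebraicClosure E) y ^ 2 =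
        algebraMap ℚ (AlgebraicClosure E) ((d : ℚ)⁻¹) *
          algebraMap F (AlgebraicClosure E) (aeval x f) := by
      rw [← h1, ← mul_assoc, map_inv₀, map_intCast, inv_mul_cancel₀ h2, one_mul]
    rw [h3]
    refine (hrat _).mul ?_
    rw [aeval_eq_sum_range, map_sum]
    refine Finset.sum_induction _ (IsAlgebraic R) (fun _ _ => IsAlgebraic.add) isAlgebraic_zero
      (fun i _ => ?_)
    rw [zsmul_eq_mul, map_mul, map_intCast, map_pow]
    refine IsAlgebraic.mul ?_ (hxalg.pow _)
    have := hrat (f.coeff i : ℚ)
    rwa [map_intCast] at this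
  have hFalg : ∀ a : F, IsAlgebraic R (algebraMap F (AlgebraicClosure E) a) := by
    intro a
    have ha : a ∈ IntermediateField.adjoin ℚ {x, y} := by rw [hF.generate]; trivial
    induction ha using IntermediateField.adjoin_induction with
    | mem b hb =>
      rcases hb with rfl | rfl
      · exact hxalg
      · exact hyalg
    | algebraMap q =>
      have := hrat q
      rwa [IsScalarTower.algebraMap_apply ℚ F (AlgebraicClosure E)] at this
    | add a b _ _ h1 h2 => rw [map_add]; exact h1.add h2
    | inv a _ h1 => rw [map_inv₀]; exact h1.inv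
    | mul a b _ _ h1 h2 => rw [map_mul]; exact h1.mul h2
  obtain ⟨z, hz⟩ := z
  change IsAlgebraic R z
  unfold geomField at hz
  induction hz using IntermediateField.adjoin_induction with
  | mem b hb =>
    obtain ⟨a, rfl⟩ := hb
    exact hFalg a
  | algebraMap q =>
    have : algebraMap (algebraicClosure ℚ (AlgebraicClosure E)) (AlgebraicClosure E) q =
        algebraMap R (AlgebraicClosure E) (algebraMap _ R q) := by
      rw [← IsScalarTower.algebraMap_apply]
    rw [this]
    exact isAlgebraic_algebraMap _
  | add a b _ _ h1 h2 => exact h1.add h2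
  | inv a _ h1 => exact h1.inv
  | mul a b _ _ h1 h2 => exact h1.mul h2

end Pool.Agent.QTw
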