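import Pool.Agent.QTw.Main
import Pool.Agent.QTw.BAL
import Pool.Agent.QTw.BL
import Pool.Agent.QTw.BLOCK
import Pool.Agent.QTw.BLR
import Pool.Agent.QTw.CANON
import Pool.Agent.QTw.COUNT
import Pool.Agent.QTw.COV
import Pool.Agent.QTw.DESC
import Pool.Agent.QTw.DZ
import Pool.Agent.QTw.ELS
import Pool.Agent.QTw.EMB
import Pool.Agent.QTw.EVEN
import Pool.Agent.QTw.EXFF
import Pool.Agent.QTw.EXP
import Pool.Agent.QTw.FACT
import Pool.Agent.QTw.FIB
import Pool.Agent.QTw.FIBG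
import Pool.Agent.QTw.GEOM
import Pool.Agent.QTw.HALL
import Pool.Agent.QTw.JINT
import Pool.Agent.QTw.LOC
import Pool.Agent.QTw.LOCAL
import Pool.Agent.QTw.LOCP
import Pool.Agent.QTw.MERT
import Pool.Agent.QTw.MUL
import Pool.Agent.QTw.NCF
import Pool.Agent.QTw.NEWTON
import Pool.Agent.QTw.NUM
import Pool.Agent.QTw.PP
import Pool.Agent.QTw.PTP
import Pool.Agent.QTw.PTR
import Pool.Agent.QTw.QUAD
import Pool.Agent.QTw.RED
import Pool.Agent.QTw.RES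
import Pool.Agent.QTw.ROOT
import Pool.Agent.QTw.SMALL
import Pool.Agent.QTw.SPL
import Pool.Agent.QTw.SPLITW
import Pool.Agent.QTw.SQRT
import Pool.Agent.QTw.TAIL
import Pool.Agent.QTw.TRD
import Pool.Agent.QTw.UNB
import Pool.Agent.QTw.WTS

/-! # The project QTw: all pieces together -/

open Polynomial

namespace Pool.Agent.QTw

theorem a_BLOCK : T_BLOCK := p_BLOCK p_MERT

theorem a_BL : T_BL := p_BL p_JINT

theorem a_BLR : T_BLR := p_BLR a_BL

theorem a_FIB : T_FIB := p_FIB p_FIBG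

theorem a_UNB : T_UNB := p_UNB p_CANON p_SPLITW a_BL a_BLR p_NCF

theorem a_BAL : T_BAL := p_BAL p_COV a_FIB p_HALL a_BLOCK

theorem a_COUNT : T_COUNT := p_COUNT p_RED (p_EXP p_FIBG) a_UNB a_BAL (p_SMALL a_BLOCK)

theorem a_NUM : T_NUM := p_NUM (p_DZ p_MUL p_PP) p_MERT p_TAIL p_PP

theorem a_WTS : T_WTS := p_WTS a_NUM p_ROOT p_SPL p_PP

theorem a_GEOM : T_GEOM := p_GEOM (p_SQRT (p_QUAD p_RES p_NEWTON) p_EVEN p_TRD) p_DESC p_LOC

theorem a_LOCAL : T_LOCAL := p_LOCAL p_LOCP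

theorem a_ELS : T_ELS := p_ELS p_EMB t_EXFF p_PTR p_PTP

theorem main_full : T_MAIN := main p_FACT a_GEOM a_LOCAL a_WTS a_COUNT a_ELS

end Pool.Agent.QTw
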