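import Mathlib
import Pool.Agent.QTw.Targets

/-!
# RES: discrete valuations of function fields over an algebraically closed field
-/

open Polynomial

namespace Pool.Agent.QTw

namespace RES_

/-- An element of the value group that is an `m`-th power for every `m` is one. -/
theorem eq_one_of_powers {g : WithZero (Multiplicative ℤ)} (hg : g ≠ 0)
    (h : ∀ m : ℕ, 0 < m → ∃ b : WithZero (Multiplicative ℤ), g = b ^ m) : g = 1 := by
  obtain ⟨a, rfl⟩ := WithZero.ne_zero_iff_exists.1 hg
  set n : ℤ := Multiplicative.toAdd a with hn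
  obtain ⟨b, hb⟩ := h (n.natAbs + 1) (Nat.succ_pos _)
  have hb0 : b ≠ 0 := by
    rintro rfl
    rw [zero_pow (Nat.succ_ne_zero _)] at hb
    exact hg hb
  obtain ⟨c, rfl⟩ := WithZero.ne_zero_iff_exists.1 hb0
  rw [← WithZero.coe_pow] at hb
  have h1 : a = c ^ (n.natAbs + 1) := WithZero.coe_injective hb
  have h2 : n = ((n.natAbs + 1 : ℕ) : ℤ) * Multiplicative.toAdd c := by
    have := congrArg Multiplicative.toAdd h1
    rw [toAdd_pow] at this
    rw [← hn, nsmul_eq_mul] at this
    exact this
  have h3 : n = 0 := by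
    apply Int.eq_zero_of_abs_lt_dvd (Dvd.intro _ h2.symm)
    rw [Int.abs_eq_natAbs]
    exact_mod_cast Nat.lt_succ_self _
  have h4 : a = 1 := by
    rw [← Multiplicative.toAdd.injective.eq_iff, ← hn, h3]
    rfl
  rw [h4, WithZero.coe_one]

end RES_

open RES_

theorem p_RES : T_RES := by
  intro k K _ _ _ _ _ hK w hw
  have h1 : ∀ c : k, c ≠ 0 → w (algebraMap k K c) = 1 := by
    intro c hc
    apply eq_one_of_powers
    · rw [w.ne_zero_iff]
      exact (_root_.map_ne_zero _).2 hc
    · intro m hm
      obtain ⟨d, hd⟩ := IsAlgClosed.exists_pow_nat_eq c hm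
      exact ⟨w (algebraMap k K d), by rw [← map_pow, ← map_pow, hd]⟩
  refine ⟨h1, fun u hu => ?_⟩
  by_contra hcon
  push Not at hcon
  have hle : ∀ c : k, w (algebraMap k K c) ≤ 1 := by
    intro c
    rcases eq_or_ne c 0 with h | h
    · rw [h, map_zero, map_zero]
      exact zero_le_one
    · exact (h1 c h).le
  have hc : ∀ c, w (u - algebraMap k K c) = 1 := by
    intro c
    refine le_antisymm ?_ (hcon c)
    refine (w.map_sub _ _).trans (max_le hu.le (hle c))
  have hp : ∀ p : k[X], p ≠ 0 → w (aeval u p) = 1 := by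
    intro p hp
    have h2 := (IsAlgClosed.splits p).eq_prod_roots
    rw [h2, map_mul, aeval_C, map_mul, h1 _ (leadingCoeff_ne_zero.2 hp), one_mul,
      map_multiset_prod, map_multiset_prod, Multiset.map_map, Multiset.map_map]
    apply Multiset.prod_eq_one
    intro x hx
    obtain ⟨a, _, rfl⟩ := Multiset.mem_map.1 hx
    simp [hc]
  have htr : Transcendental k u := by
    intro halg
    obtain ⟨p, hp0, hpu⟩ := halg
    have := hp p hp0
    rw [hpu, map_zero] at this
    exact zero_ne_one this
  have halg := hK u htr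
  have hF : ∀ a : IntermediateField.adjoin k {u}, w (a : K) ≤ 1 := by
    intro a
    obtain ⟨r, s, hrs⟩ := (IntermediateField.mem_adjoin_simple_iff k (a : K)).1 a.2
    rw [hrs, map_div₀]
    rcases eq_or_ne s 0 with hs | hs
    · rw [hs, map_zero, map_zero, div_zero]
      exact zero_le_one
    · rw [hp s hs, div_one]
      rcases eq_or_ne r 0 with hr | hr
      · rw [hr, map_zero, map_zero]
        exact zero_le_one
      · exact (hp r hr).le
  have hmain : ∀ z : K, w z ≤ 1 := by
    intro z
    by_contra hz
    push Not at hz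
    have hint : IsIntegral (IntermediateField.adjoin k {u}) z :=
      (halg.isAlgebraic z).isIntegral
    obtain ⟨P, hPm, hPz⟩ := hint
    set m := P.natDegree with hm
    have hPz' : aeval z P = 0 := hPz
    rw [aeval_eq_sum_range, Finset.sum_range_succ, ← hm] at hPz'
    have hlc : P.coeff m = 1 := hPm
    rw [hlc, one_smul] at hPz'
    have hz0 : w z ≠ 0 := fun h => by
      rw [h] at hz
      exact not_lt_bot hz
    have hlt : w (∑ i ∈ Finset.range m, P.coeff i • z ^ i) < w z ^ m := by
      apply w.map_sum_lt (pow_ne_zero _ hz0)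
      intro i hi
      rw [Algebra.smul_def, map_mul, map_pow]
      calc w (algebraMap (IntermediateField.adjoin k {u}) K (P.coeff i)) * w z ^ i
          ≤ 1 * w z ^ i := by
            gcongr
            exact hF _
        _ = w z ^ i := one_mul _
        _ < w z ^ m := pow_lt_pow_right₀ hz (Finset.mem_range.1 hi)
    have heq : w (∑ i ∈ Finset.range m, P.coeff i • z ^ i) = w z ^ m := by
      rw [eq_neg_of_add_eq_zero_left hPz', Valuation.map_neg, map_pow]
    exact absurd heq hlt.ne
  obtain ⟨z, hz0, hz1⟩ := hw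
  apply hz1
  apply le_antisymm (hmain z)
  have h2 := hmain z⁻¹
  rw [map_inv₀] at h2
  have h3 : 0 < w z := zero_lt_iff.2 (w.ne_zero_iff.2 hz0)
  rwa [inv_le_one₀ h3] at h2

end Pool.Agent.QTw
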