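import Pool.Agent.QTw.Targets

/-! Final statement (draft). -/

open Polynomial

namespace Pool.Agent.QTw

open Classical in
def T_MAIN : Prop :=
  (∀ f : ℤ[X], 0 < f.natDegree → Squarefree (f.map (Int.castRingHom ℚ)) →
    (∀ h : ℚ[X], Irreducible h → h ∣ f.map (Int.castRingHom ℚ) → Even h.natDegree) →
    ∃ c : ℝ, 0 < c ∧ ∃ B : ℝ, ∀ X : ℕ, 2 ≤ X →
      (((Finset.Icc (-(X : ℤ)) X).filter
        (fun d => Squarefree d ∧ TwistSelNonempty 2 f d)).card : ℝ) ≤
        B * X / (Real.log X) ^ c) ∧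
  ∀ g : ℕ, 2 ≤ g → ∃ f : ℤ[X], f.natDegree = 2 * g + 2 ∧
    Squarefree (f.map (Int.castRingHom ℚ)) ∧
    (∀ h : ℚ[X], Irreducible h → h ∣ f.map (Int.castRingHom ℚ) → Even h.natDegree) ∧
    ∀ d : ℤ, d ≠ 0 → TwistEverywhereLocal f d

open Classical in
theorem main (hF : T_FACT) (hG : T_GEOM) (hL : T_LOCAL) (hW : T_WTS) (hC : T_COUNT)
    (hE : T_ELS) : T_MAIN := by
  refine ⟨?_, hE⟩
  intro f hf0 hfs hfe
  obtain ⟨n, g, c, hc, hfg, hg⟩ := hF f hf0 hfs hfe
  obtain ⟨N, hN0, hN2, hS, hB⟩ := hL n g c hg hc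
  obtain ⟨e, he, B, hcount⟩ := hC (Fin (n + 1)) N (signs g) hN0 hN2 hS (hW n g hg N hN0)
  refine ⟨e, he, 2 * B, fun X hX => ?_⟩
  have key : ∀ d ∈ (Finset.Icc (-(X : ℤ)) X).filter
      (fun d => Squarefree d ∧ TwistSelNonempty 2 f d),
      d.natAbs ∈ (Finset.range (X + 1)).filter
        (fun m => Squarefree m ∧ Bad N (signs g) m) := by
    intro d hd
    rw [Finset.mem_filter, Finset.mem_Icc] at hd
    obtain ⟨⟨h1, h2⟩, h3, h4⟩ := hd
    have hd0 : d ≠ 0 := h3.ne_zero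
    rw [Finset.mem_filter, Finset.mem_range]
    refine ⟨by omega, Int.squarefree_natAbs.mpr h3, ?_⟩
    obtain ⟨δ, hδ, hr, hloc⟩ := hG n g c f d hg hc hd0 hfg h4
    exact hB d δ h3 hδ hr hloc
  have hcard : ((Finset.Icc (-(X : ℤ)) X).filter
      (fun d => Squarefree d ∧ TwistSelNonempty 2 f d)).card ≤
      2 * ((Finset.range (X + 1)).filter
        (fun m => Squarefree m ∧ Bad N (signs g) m)).card := by
    refine Finset.card_le_mul_card_image_of_maps_to key 2 ?_
    intro m _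
    refine le_trans (Finset.card_le_card (t := {(m : ℤ), -(m : ℤ)}) ?_) Finset.card_le_two
    intro d hd
    rw [Finset.mem_filter] at hd
    rw [Finset.mem_insert, Finset.mem_singleton]
    omega
  calc (((Finset.Icc (-(X : ℤ)) X).filter
        (fun d => Squarefree d ∧ TwistSelNonempty 2 f d)).card : ℝ)
      ≤ ((2 * ((Finset.range (X + 1)).filter
        (fun m => Squarefree m ∧ Bad N (signs g) m)).card : ℕ) : ℝ) := by exact_mod_cast hcard
    _ = 2 * (((Finset.range (X + 1)).filter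
        (fun m => Squarefree m ∧ Bad N (signs g) m)).card : ℝ) := by push_cast; ring
    _ ≤ 2 * (B * X / (Real.log X) ^ e) := by
        have := hcount X hX
        linarith
    _ = 2 * B * X / (Real.log X) ^ e := by ring

end Pool.Agent.QTw
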