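import Mathlib

/-!
# Quadratic twists of hyperelliptic curves and their `n`-Selmer sets

Smooth projective geometrically integral curves over `ℚ` are described by their function
fields.  An `n`-covering `D → C` of a curve `C` is a finite covering of curves over `ℚ` such
that `Q̄(D)` is the compositum of all unramified abelian extensions of exponent `n` of
`Q̄(C)`; equivalently, `D` is the pull-back of an `n`-covering of `Pic¹_C`.
-/

open Polynomial

namespace Pool.Agent.QTw

/-- `F = ℚ(x,y)` is the function field of the curve `C_d : d y² = f(x)` over `ℚ`. -/
structure IsFunctionField (f : ℤ[X]) (d : ℤ) {F : Type} [Field F] [CharZero F] (x y : F) :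
    Prop where
  /-- `x` is not a constant -/
  transcendental : Transcendental ℚ x
  /-- the equation of the curve -/
  equation : (d : F) * y ^ 2 = aeval x f
  /-- `x` and `y` generate `F` over `ℚ` -/
  generate : IntermediateField.adjoin ℚ {x, y} = ⊤

/-- The extension `M` of the field `K` is a finite abelian extension whose Galois group has
exponent dividing `n`. -/
def IsAbelianExp (n : ℕ) {K Ω : Type} [Field K] [Field Ω] [Algebra K Ω]
    (M : IntermediateField K Ω) : Prop :=
  FiniteDimensional K M ∧ IsGalois K M ∧ (∀ σ τ : M ≃ₐ[K] M, σ * τ = τ * σ) ∧
    ∀ σ : M ≃ₐ[K] M, σ ^ n = 1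

/-- The extension `M` of the function field `K` (over an algebraically closed field of
constants of characteristic zero) is unramified: every normalised discrete valuation of `M`
takes all its values already on `K`. -/
def IsUnramified {K Ω : Type} [Field K] [Field Ω] [Algebra K Ω]
    (M : IntermediateField K Ω) : Prop :=
  ∀ v : Valuation M (WithZero (Multiplicative ℤ)), Function.Surjective v →
    Function.Surjective (v.comap (algebraMap K M))

/-- The field `Q̄(C)`, where `C` is the curve with function field `F`, inside an algebraic
closure of the extension `E` of `F`. -/
noncomputable def geomField (F E : Type) [Field F] [Field E] [CharZero E] [Algebra F E] :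
    IntermediateField (algebraicClosure ℚ (AlgebraicClosure E)) (AlgebraicClosure E) :=
  IntermediateField.adjoin _ (Set.range (algebraMap F (AlgebraicClosure E)))

/-- Let `C` and `D` be curves over `ℚ` with function fields `F ⊆ E`.  Then `D → C` is an
`n`-covering: `D` is geometrically integral and the field `Q̄(D)` is the compositum of all
unramified abelian extensions of exponent `n` of `Q̄(C)`. -/
structure IsCovering (n : ℕ) (F E : Type) [Field F] [Field E] [CharZero E] [Algebra F E] :
    Prop where
  /-- the covering is finite -/
  finite : FiniteDimensional F E
  /-- `ℚ` is algebraically closed in the function field of `D` -/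
  constants : ∀ z : E, IsAlgebraic ℚ z → ∃ q : ℚ, z = q
  /-- the geometric function field of `D` -/
  geometric : IntermediateField.adjoin (geomField F E)
      (Set.range (algebraMap E (AlgebraicClosure E))) =
    ⨆ (M : IntermediateField (geomField F E) (AlgebraicClosure E))
      (_ : IsAbelianExp n M ∧ IsUnramified M), M

/-- The (smooth projective) curve with function field `E` has a point over the field `K`,
that is, `E` can be embedded into the field of formal Laurent series over `K`. -/
def HasPoint (E K : Type) [Field E] [Field K] : Prop :=
  Nonempty (E →+* LaurentSeries K)

/-- The curve with function field `E` has points everywhere locally. -/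
def EverywhereLocal (E : Type) [Field E] : Prop :=
  HasPoint E ℝ ∧ ∀ (p : ℕ) [Fact p.Prime], HasPoint E ℚ_[p]

/-- The `n`-Selmer set of the curve with function field `F` is not empty: there is an
`n`-covering with points everywhere locally. -/
def SelNonempty (n : ℕ) (F : Type) [Field F] : Prop :=
  ∃ (E : Type) (_ : Field E) (_ : CharZero E) (_ : Algebra F E),
    IsCovering n F E ∧ EverywhereLocal E

/-- The `n`-Selmer set of the quadratic twist `C_d : d y² = f(x)` is not empty. -/
def TwistSelNonempty (n : ℕ) (f : ℤ[X]) (d : ℤ) : Prop :=
  ∃ (F : Type) (_ : Field F) (_ : CharZero F) (x y : F),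
    IsFunctionField f d x y ∧ SelNonempty n F

/-- The quadratic twist `C_d : d y² = f(x)` has points everywhere locally. -/
def TwistEverywhereLocal (f : ℤ[X]) (d : ℤ) : Prop :=
  ∃ (F : Type) (_ : Field F) (_ : CharZero F) (x y : F),
    IsFunctionField f d x y ∧ EverywhereLocal F

end Pool.Agent.QTw
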